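import Mathlib

set_option autoImplicit false
open Filter Topology

namespace Pool.Agent.Helper38

/-- Riesz representation for a bare complete positive definite bilinear form. -/
theorem riesz_abstract {H : Type*} [AddCommGroup H] [Module ℝ H] (Q : H → H → ℝ)
    (symm : ∀ x y, Q x y = Q y x) (add_left : ∀ x y z, Q (x + y) z = Q x z + Q y z)
    (smul_left : ∀ (r : ℝ) x y, Q (r • x) y = r * Q x y)
    (nonneg : ∀ x, 0 ≤ Q x x) (definite : ∀ x, Q x x = 0 → x = 0)
    (complete : ∀ u : ℕ → H, (∀ ε > 0, ∃ N, ∀ m ≥ N, ∀ n ≥ N, Q (u m - u n) (u m - u n) < ε) →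
      ∃ a, Tendsto (fun n => Q (u n - a) (u n - a)) atTop (𝓝 0))
    (L : H →ₗ[ℝ] ℝ) (C : ℝ) (hC : 0 ≤ C) (hL : ∀ f, (L f) ^ 2 ≤ C * Q f f) :
    ∃ g, ∀ f, Q g f = L f := by
  let core : InnerProductSpace.Core ℝ H :=
    { inner := Q
      conj_inner_symm := fun x y => by simpa using symm y x
      re_inner_nonneg := fun x => by simpa using nonneg x
      add_left := add_left
      smul_left := fun x y r => by simpa using smul_left r x y
      definite := definite }
  letI : NormedAddCommGroup H := core.toNormedAddCommGroup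
  letI : InnerProductSpace ℝ H := InnerProductSpace.ofCore core.toCore
  have hin : ∀ x y : H, inner ℝ x y = Q x y := fun _ _ => rfl
  have hnorm : ∀ x : H, ‖x‖ ^ 2 = Q x x := by
    intro x
    rw [← real_inner_self_eq_norm_sq, hin]
  haveI : CompleteSpace H := by
    apply Metric.complete_of_cauchySeq_tendsto
    intro u hu
    have h1 : ∀ ε > 0, ∃ N, ∀ m ≥ N, ∀ n ≥ N, Q (u m - u n) (u m - u n) < ε := by
      intro ε hε
      obtain ⟨N, hN⟩ := Metric.cauchySeq_iff.mp hu (Real.sqrt ε) (Real.sqrt_pos.mpr hε)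
      refine ⟨N, fun m hm n hn => ?_⟩
      have := hN m hm n hn
      rw [dist_eq_norm] at this
      rw [← hnorm]
      have h2 : ‖u m - u n‖ ^ 2 < Real.sqrt ε ^ 2 := by
        apply pow_lt_pow_left₀ this (norm_nonneg _) (by norm_num)
      rwa [Real.sq_sqrt hε.le] at h2
    obtain ⟨a, ha⟩ := complete u h1
    refine ⟨a, ?_⟩
    rw [tendsto_iff_norm_sub_tendsto_zero]
    have h3 : (fun n => ‖u n - a‖) = fun n => Real.sqrt (Q (u n - a) (u n - a)) := by
      ext n
      rw [← hnorm, Real.sqrt_sq (norm_nonneg _)]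
    rw [h3]
    have := (Real.continuous_sqrt.tendsto 0).comp ha
    rw [Real.sqrt_zero] at this
    exact this
  let L' : H →L[ℝ] ℝ := L.mkContinuous (Real.sqrt C) (by
    intro x
    rw [Real.norm_eq_abs]
    apply abs_le_of_sq_le_sq
    · rw [mul_pow, Real.sq_sqrt hC, hnorm]
      exact hL x
    · positivity)
  refine ⟨(InnerProductSpace.toDual ℝ H).symm L', fun f => ?_⟩
  have := InnerProductSpace.toDual_symm_apply (𝕜 := ℝ) (x := f) (y := L')
  rw [← hin, this]
  rfl

end Pool.Agent.Helper38
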