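import Mathlib
import Pool.Agent.Helper38.Riesz

set_option autoImplicit false
open Set Filter Topology

namespace Pool.Agent.Helper38

/-- A local resistance form on a compact space (domain in the continuous functions). -/
structure ResForm (X : Type*) [TopologicalSpace X] [CompactSpace X] where
  F : Submodule ℝ C(X, ℝ)
  E : C(X, ℝ) → C(X, ℝ) → ℝ
  add_left : ∀ f ∈ F, ∀ g ∈ F, ∀ k ∈ F, E (f + g) k = E f k + E g k
  smul_left : ∀ a : ℝ, ∀ f ∈ F, ∀ k ∈ F, E (a • f) k = a * E f k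
  symm : ∀ f ∈ F, ∀ g ∈ F, E f g = E g f
  nonneg : ∀ f ∈ F, 0 ≤ E f f
  const_mem : ∀ a : ℝ, ContinuousMap.const X a ∈ F
  E_const : ∀ a : ℝ, ∀ f ∈ F, E (ContinuousMap.const X a) f = 0
  abs_mem : ∀ f ∈ F, |f| ∈ F
  R : ℝ
  R_nonneg : 0 ≤ R
  hR : ∀ f ∈ F, ∀ x y, (f x - f y) ^ 2 ≤ R * E f f
  closed : ∀ (f : ℕ → C(X, ℝ)) (g : C(X, ℝ)), (∀ n, f n ∈ F) → Tendsto f atTop (𝓝 g) →
    (∀ ε > 0, ∃ N, ∀ m ≥ N, ∀ n ≥ N, E (f m - f n) (f m - f n) < ε) →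
    g ∈ F ∧ Tendsto (fun n => E (f n - g) (f n - g)) atTop (𝓝 0)
  loc : ∀ f ∈ F, ∀ g ∈ F, (∀ x, f x * g x = 0) → E f g = 0
  cutoff : ∀ A B : Set X, IsClosed A → IsClosed B → Disjoint A B →
    ∃ χ ∈ F, (∀ x, 0 ≤ χ x ∧ χ x ≤ 1) ∧ (∀ x ∈ A, χ x = 1) ∧ (∀ x ∈ B, χ x = 0)

namespace ResForm

variable {X : Type*} [TopologicalSpace X] [CompactSpace X] (𝓔 : ResForm X)

theorem add_right {f g k : C(X, ℝ)} (hf : f ∈ 𝓔.F) (hg : g ∈ 𝓔.F) (hk : k ∈ 𝓔.F) :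
    𝓔.E k (f + g) = 𝓔.E k f + 𝓔.E k g := by
  rw [𝓔.symm k hk _ (𝓔.F.add_mem hf hg), 𝓔.add_left f hf g hg k hk, 𝓔.symm f hf k hk,
    𝓔.symm g hg k hk]

theorem smul_right (a : ℝ) {f k : C(X, ℝ)} (hf : f ∈ 𝓔.F) (hk : k ∈ 𝓔.F) :
    𝓔.E k (a • f) = a * 𝓔.E k f := by
  rw [𝓔.symm k hk _ (𝓔.F.smul_mem a hf), 𝓔.smul_left a f hf k hk, 𝓔.symm f hf k hk]

theorem neg_left {f k : C(X, ℝ)} (hf : f ∈ 𝓔.F) (hk : k ∈ 𝓔.F) :
    𝓔.E (-f) k = - 𝓔.E f k := by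
  have := 𝓔.smul_left (-1) f hf k hk
  rw [neg_one_smul] at this
  rw [this]; ring

theorem neg_right {f k : C(X, ℝ)} (hf : f ∈ 𝓔.F) (hk : k ∈ 𝓔.F) :
    𝓔.E k (-f) = - 𝓔.E k f := by
  rw [𝓔.symm k hk _ (𝓔.F.neg_mem hf), 𝓔.neg_left hf hk, 𝓔.symm f hf k hk]

theorem sub_left {f g k : C(X, ℝ)} (hf : f ∈ 𝓔.F) (hg : g ∈ 𝓔.F) (hk : k ∈ 𝓔.F) :
    𝓔.E (f - g) k = 𝓔.E f k - 𝓔.E g k := by
  rw [sub_eq_add_neg, 𝓔.add_left f hf _ (𝓔.F.neg_mem hg) k hk, 𝓔.neg_left hg hk]; ring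

theorem sub_right {f g k : C(X, ℝ)} (hf : f ∈ 𝓔.F) (hg : g ∈ 𝓔.F) (hk : k ∈ 𝓔.F) :
    𝓔.E k (f - g) = 𝓔.E k f - 𝓔.E k g := by
  rw [sub_eq_add_neg, 𝓔.add_right hf (𝓔.F.neg_mem hg) hk, 𝓔.neg_right hg hk]; ring

theorem E_const_right (a : ℝ) {f : C(X, ℝ)} (hf : f ∈ 𝓔.F) :
    𝓔.E f (ContinuousMap.const X a) = 0 := by
  rw [𝓔.symm f hf _ (𝓔.const_mem a), 𝓔.E_const a f hf]

theorem E_add_self {f g : C(X, ℝ)} (hf : f ∈ 𝓔.F) (hg : g ∈ 𝓔.F) :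
    𝓔.E (f + g) (f + g) = 𝓔.E f f + 2 * 𝓔.E f g + 𝓔.E g g := by
  rw [𝓔.add_left f hf g hg _ (𝓔.F.add_mem hf hg), 𝓔.add_right hf hg hf, 𝓔.add_right hf hg hg,
    𝓔.symm g hg f hf]
  ring

/-- Cauchy-Schwarz -/
theorem cs {f g : C(X, ℝ)} (hf : f ∈ 𝓔.F) (hg : g ∈ 𝓔.F) :
    (𝓔.E f g) ^ 2 ≤ 𝓔.E f f * 𝓔.E g g := by
  have h : ∀ t : ℝ, 0 ≤ 𝓔.E g g * (t * t) + (2 * 𝓔.E f g) * t + 𝓔.E f f := by
    intro t
    have h1 := 𝓔.nonneg _ (𝓔.F.add_mem hf (𝓔.F.smul_mem t hg))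
    rw [𝓔.E_add_self hf (𝓔.F.smul_mem t hg), 𝓔.smul_right t hg hf,
      𝓔.smul_left t g hg _ (𝓔.F.smul_mem t hg), 𝓔.smul_right t hg hg] at h1
    linarith
  have := discrim_le_zero h
  unfold discrim at this
  nlinarith

theorem const_of_E_zero {f : C(X, ℝ)} (hf : f ∈ 𝓔.F) (h : 𝓔.E f f ≤ 0) (x y : X) :
    f x = f y := by
  have h1 := 𝓔.hR f hf x y
  have h0 := 𝓔.nonneg f hf
  have h2 : 𝓔.E f f = 0 := le_antisymm h h0
  rw [h2, mul_zero] at h1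
  have h3 : f x - f y = 0 := by
    have := sq_nonneg (f x - f y)
    exact pow_eq_zero_iff (n := 2) (by norm_num) |>.mp (le_antisymm h1 this)
  linarith

/-! ### lattice operations -/

theorem sup_mem {f g : C(X, ℝ)} (hf : f ∈ 𝓔.F) (hg : g ∈ 𝓔.F) : f ⊔ g ∈ 𝓔.F := by
  have h : f ⊔ g = (1/2 : ℝ) • (f + g + |f - g|) := by
    ext x
    simp only [ContinuousMap.sup_apply, ContinuousMap.smul_apply, ContinuousMap.add_apply,
      ContinuousMap.abs_apply, ContinuousMap.sub_apply, smul_eq_mul]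
    rw [max_def]
    split_ifs with h
    · rw [abs_of_nonpos (by linarith)]; ring
    · rw [abs_of_pos (by linarith)]; ring
  rw [h]
  exact 𝓔.F.smul_mem _ (𝓔.F.add_mem (𝓔.F.add_mem hf hg) (𝓔.abs_mem _ (𝓔.F.sub_mem hf hg)))

theorem inf_mem {f g : C(X, ℝ)} (hf : f ∈ 𝓔.F) (hg : g ∈ 𝓔.F) : f ⊓ g ∈ 𝓔.F := by
  have h : f ⊓ g = (1/2 : ℝ) • (f + g - |f - g|) := by
    ext x
    simp only [ContinuousMap.inf_apply, ContinuousMap.smul_apply, ContinuousMap.add_apply,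
      ContinuousMap.abs_apply, ContinuousMap.sub_apply, smul_eq_mul]
    rw [min_def]
    split_ifs with h
    · rw [abs_of_nonpos (by linarith)]; ring
    · rw [abs_of_pos (by linarith)]; ring
  rw [h]
  exact 𝓔.F.smul_mem _ (𝓔.F.sub_mem (𝓔.F.add_mem hf hg) (𝓔.abs_mem _ (𝓔.F.sub_mem hf hg)))

/-- positive part -/
def pp (f : C(X, ℝ)) : C(X, ℝ) := f ⊔ 0

theorem pp_apply (f : C(X, ℝ)) (x : X) : pp f x = max (f x) 0 := rfl

theorem pp_mem {f : C(X, ℝ)} (hf : f ∈ 𝓔.F) : pp f ∈ 𝓔.F := 𝓔.sup_mem hf 𝓔.F.zero_mem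

theorem pp_nonneg (f : C(X, ℝ)) (x : X) : 0 ≤ pp f x := le_max_right _ _

/-! ### Green functions -/

/-- functions of the domain vanishing on `A` -/
def FA (A : Set X) : Submodule ℝ C(X, ℝ) where
  carrier := {f | f ∈ 𝓔.F ∧ ∀ x ∈ A, f x = 0}
  add_mem' := by
    rintro f g ⟨hf, hf'⟩ ⟨hg, hg'⟩
    exact ⟨𝓔.F.add_mem hf hg, fun x hx => by simp [hf' x hx, hg' x hx]⟩
  zero_mem' := ⟨𝓔.F.zero_mem, fun x _ => rfl⟩
  smul_mem' := by
    rintro a f ⟨hf, hf'⟩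
    exact ⟨𝓔.F.smul_mem a hf, fun x hx => by simp [hf' x hx]⟩

theorem exists_green (A : Set X) (hA : A.Nonempty) (x : X) :
    ∃ g ∈ 𝓔.FA A, ∀ f ∈ 𝓔.FA A, 𝓔.E g f = f x := by
  obtain ⟨a, ha⟩ := hA
  obtain ⟨g, hg⟩ := riesz_abstract (H := 𝓔.FA A) (fun f g => 𝓔.E f.1 g.1)
    (fun f g => 𝓔.symm f.1 f.2.1 g.1 g.2.1)
    (fun f g k => 𝓔.add_left f.1 f.2.1 g.1 g.2.1 k.1 k.2.1)
    (fun r f g => 𝓔.smul_left r f.1 f.2.1 g.1 g.2.1)
    (fun f => 𝓔.nonneg f.1 f.2.1)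
    (fun f hf => by
      apply Subtype.ext
      ext y
      have := 𝓔.const_of_E_zero f.2.1 (le_of_eq hf) y a
      rw [this, f.2.2 a ha]
      rfl)
    (fun u hu => by
      have hc : CauchySeq (fun n => (u n).1) := by
        rw [Metric.cauchySeq_iff]
        intro ε hε
        have hε2 : 0 < (ε/2) ^ 2 / (𝓔.R + 1) := by
          have := 𝓔.R_nonneg
          positivity
        obtain ⟨N, hN⟩ := hu _ hε2
        refine ⟨N, fun m hm n hn => ?_⟩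
        have h1 := hN m hm n hn
        have h2 : dist (u m).1 (u n).1 ≤ ε/2 := by
          rw [ContinuousMap.dist_le (by positivity)]
          intro y
          have h3 := 𝓔.hR _ (u m - u n).2.1 y a
          have h4 : ((u m - u n).1 y - (u m - u n).1 a) = (u m).1 y - (u n).1 y := by
            have e1 : (u m - u n).1 a = 0 := (u m - u n).2.2 a ha
            rw [e1, sub_zero]
            rfl
          rw [h4] at h3
          rw [Real.dist_eq]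
          have h5 : ((u m).1 y - (u n).1 y) ^ 2 ≤ (ε/2) ^ 2 := by
            calc ((u m).1 y - (u n).1 y) ^ 2 ≤ 𝓔.R * 𝓔.E (u m - u n).1 (u m - u n).1 := h3
              _ ≤ 𝓔.R * ((ε/2) ^ 2 / (𝓔.R + 1)) :=
                  mul_le_mul_of_nonneg_left h1.le 𝓔.R_nonneg
              _ = (𝓔.R / (𝓔.R + 1)) * (ε/2) ^ 2 := by ring
              _ ≤ 1 * (ε/2)^2 := by
                  apply mul_le_mul_of_nonneg_right _ (by positivity)
                  rw [div_le_one (by linarith [𝓔.R_nonneg])]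
                  linarith
              _ = (ε/2)^2 := one_mul _
          exact abs_le_of_sq_le_sq h5 (by positivity)
        linarith
      obtain ⟨g, hg⟩ := cauchySeq_tendsto_of_complete hc
      obtain ⟨hgF, hlim⟩ := 𝓔.closed (fun n => (u n).1) g (fun n => (u n).2.1) hg hu
      have hgA : ∀ y ∈ A, g y = 0 := by
        intro y hy
        have h1 : Tendsto (fun n => (u n).1 y) atTop (𝓝 (g y)) :=
          ((continuous_eval_const (F := C(X, ℝ)) y).tendsto g).comp hg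
        have h2 : (fun n => (u n).1 y) = fun _ => (0:ℝ) := by
          ext n
          exact (u n).2.2 y hy
        rw [h2] at h1
        exact (tendsto_nhds_unique h1 tendsto_const_nhds)
      exact ⟨⟨g, hgF, hgA⟩, hlim⟩)
    { toFun := fun f => f.1 x
      map_add' := fun f g => rfl
      map_smul' := fun r f => rfl } 𝓔.R 𝓔.R_nonneg
    (fun f => by
      have h := 𝓔.hR f.1 f.2.1 x a
      rw [f.2.2 a ha, sub_zero] at h
      exact h)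
  exact ⟨g.1, g.2, fun f hf => hg ⟨f, hf⟩⟩

/-- the Green function with zero boundary values on `A` -/
noncomputable def G (A : Set X) (hA : A.Nonempty) (x : X) : C(X, ℝ) :=
  (𝓔.exists_green A hA x).choose

theorem G_mem (A : Set X) (hA : A.Nonempty) (x : X) : 𝓔.G A hA x ∈ 𝓔.FA A :=
  (𝓔.exists_green A hA x).choose_spec.1

theorem G_E (A : Set X) (hA : A.Nonempty) (x : X) {f : C(X, ℝ)} (hf : f ∈ 𝓔.FA A) :
    𝓔.E (𝓔.G A hA x) f = f x :=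
  (𝓔.exists_green A hA x).choose_spec.2 f hf

theorem G_symm (A : Set X) (hA : A.Nonempty) (x y : X) :
    𝓔.G A hA x y = 𝓔.G A hA y x := by
  have hx := 𝓔.G_mem A hA x
  have hy := 𝓔.G_mem A hA y
  rw [← 𝓔.G_E A hA y hx, ← 𝓔.G_E A hA x hy, 𝓔.symm _ hy.1 _ hx.1]

/-- a function `f` of the domain with `f ≥ 0` where ... : key positivity lemma -/
theorem nonneg_of {A : Set X} (hA : A.Nonempty) {w φ : C(X, ℝ)} (hw : w ∈ 𝓔.F)
    (hφ : φ ∈ 𝓔.FA A) (h0 : ∀ x, (w x + φ x) * φ x = 0) (hE : 0 ≤ 𝓔.E w φ) : ∀ x, φ x = 0 := by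
  have h1 : 𝓔.E (w + φ) φ = 0 := 𝓔.loc _ (𝓔.F.add_mem hw hφ.1) _ hφ.1 h0
  rw [𝓔.add_left w hw φ hφ.1 φ hφ.1] at h1
  have h2 : 𝓔.E φ φ ≤ 0 := by linarith
  obtain ⟨a, ha⟩ := hA
  intro x
  rw [𝓔.const_of_E_zero hφ.1 h2 x a, hφ.2 a ha]

theorem G_nonneg (A : Set X) (hA : A.Nonempty) (x y : X) : 0 ≤ 𝓔.G A hA x y := by
  have hx := 𝓔.G_mem A hA x
  have hφ : pp (-(𝓔.G A hA x)) ∈ 𝓔.FA A := by
    refine ⟨𝓔.pp_mem (𝓔.F.neg_mem hx.1), fun z hz => ?_⟩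
    rw [pp_apply]
    simp [hx.2 z hz]
  have h := 𝓔.nonneg_of hA hx.1 hφ (fun z => by
    rw [pp_apply, ContinuousMap.neg_apply]
    rcases le_total 0 (𝓔.G A hA x z) with h | h
    · rw [max_eq_right (by linarith)]; ring
    · rw [max_eq_left (by linarith)]; ring) (by
    rw [𝓔.G_E A hA x hφ]; exact pp_nonneg _ _)
  have := h y
  rw [pp_apply, ContinuousMap.neg_apply] at this
  have h2 : -(𝓔.G A hA x y) ≤ 0 := by rw [← this]; exact le_max_left _ _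
  linarith

theorem G_diag_pos (A : Set X) (hA : A.Nonempty) (hAc : IsClosed A) [T1Space X] (x : X)
    (hx : x ∉ A) : 0 < 𝓔.G A hA x x := by
  obtain ⟨χ, hχ, -, h1, h0⟩ := 𝓔.cutoff {x} A isClosed_singleton hAc (by
    rw [Set.disjoint_singleton_left]; exact hx)
  have hχA : χ ∈ 𝓔.FA A := ⟨hχ, h0⟩
  have hG := 𝓔.G_mem A hA x
  have h2 : 𝓔.E (𝓔.G A hA x) χ = 1 := by
    rw [𝓔.G_E A hA x hχA]; exact h1 x rfl
  have h3 := 𝓔.cs hG.1 hχ
  rw [h2, 𝓔.G_E A hA x hG] at h3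
  have h4 := 𝓔.nonneg χ hχ
  by_contra hneg
  push Not at hneg
  have : 𝓔.G A hA x x * 𝓔.E χ χ ≤ 0 := mul_nonpos_of_nonpos_of_nonneg hneg h4
  linarith

theorem G_trans (A : Set X) (hA : A.Nonempty) {x z y : X}
    (h1 : 0 < 𝓔.G A hA x z) (h2 : 0 < 𝓔.G A hA z y) (hz : 0 < 𝓔.G A hA z z) :
    0 < 𝓔.G A hA x y := by
  set Gx := 𝓔.G A hA x with hGx
  set Gz := 𝓔.G A hA z with hGz
  have mx : Gx ∈ 𝓔.FA A := 𝓔.G_mem A hA x
  have mz : Gz ∈ 𝓔.FA A := 𝓔.G_mem A hA z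
  set c : ℝ := Gx z / Gz z with hc
  have hcpos : 0 < c := div_pos h1 hz
  set f : C(X, ℝ) := Gx - c • Gz with hf
  have mf : f ∈ 𝓔.FA A := Submodule.sub_mem _ mx (Submodule.smul_mem _ c mz)
  have fz : f z = 0 := by
    rw [hf]
    simp only [ContinuousMap.sub_apply, ContinuousMap.smul_apply, smul_eq_mul]
    rw [hc, div_mul_cancel₀ _ hz.ne']
    ring
  have mφ : pp (-f) ∈ 𝓔.FA A := by
    refine ⟨𝓔.pp_mem (𝓔.F.neg_mem mf.1), fun w hw => ?_⟩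
    rw [pp_apply, ContinuousMap.neg_apply, mf.2 w hw]; simp
  have hE : 0 ≤ 𝓔.E f (pp (-f)) := by
    rw [hf, 𝓔.sub_left mx.1 (𝓔.F.smul_mem c mz.1) mφ.1, 𝓔.smul_left c Gz mz.1 _ mφ.1,
      𝓔.G_E A hA x mφ, 𝓔.G_E A hA z mφ]
    have : pp (-f) z = 0 := by
      rw [pp_apply, ContinuousMap.neg_apply, fz]; simp
    rw [this, mul_zero, sub_zero]
    exact pp_nonneg _ _
  have h := 𝓔.nonneg_of hA mf.1 mφ (fun w => by
    rw [pp_apply, ContinuousMap.neg_apply]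
    rcases le_total 0 (f w) with h | h
    · rw [max_eq_right (by linarith)]; ring
    · rw [max_eq_left (by linarith)]; ring) hE
  have hy := h y
  rw [pp_apply, ContinuousMap.neg_apply] at hy
  have hy2 : 0 ≤ f y := by
    have : -(f y) ≤ 0 := by rw [← hy]; exact le_max_left _ _
    linarith
  have : f y = Gx y - c * Gz y := rfl
  have hpos : 0 < c * Gz y := mul_pos hcpos h2
  linarith

theorem G_pos (A : Set X) (hA : A.Nonempty) (hAc : IsClosed A) [T1Space X] {V : Set X}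
    (hV : IsPreconnected V) (hVA : ∀ v ∈ V, v ∉ A) {x y : X} (hx : x ∈ V) (hy : y ∈ V) :
    0 < 𝓔.G A hA x y := by
  by_contra hneg
  let S : Set X := {z | 0 < 𝓔.G A hA x z}
  let S' : Set X := ⋃ w ∈ {w | w ∈ V ∧ w ∉ S}, {z | 0 < 𝓔.G A hA w z}
  have hS : IsOpen S := isOpen_lt continuous_const (𝓔.G A hA x).continuous
  have hS' : IsOpen S' := by
    apply isOpen_biUnion
    intro w _
    exact isOpen_lt continuous_const (𝓔.G A hA w).continuous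
  have hcov : V ⊆ S ∪ S' := by
    intro v hv
    by_cases h : v ∈ S
    · exact Or.inl h
    · right
      simp only [S', Set.mem_iUnion]
      exact ⟨v, ⟨hv, h⟩, 𝓔.G_diag_pos A hA hAc v (hVA v hv)⟩
  obtain ⟨v, hvV, hvS, hvS'⟩ := hV S S' hS hS' hcov
    ⟨x, hx, 𝓔.G_diag_pos A hA hAc x (hVA x hx)⟩
    ⟨y, hy, by
      simp only [S', Set.mem_iUnion]
      exact ⟨y, ⟨hy, hneg⟩, 𝓔.G_diag_pos A hA hAc y (hVA y hy)⟩⟩
  simp only [S', Set.mem_iUnion] at hvS'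
  obtain ⟨w, ⟨hwV, hwS⟩, hw⟩ := hvS'
  apply hwS
  have h3 : 0 < 𝓔.G A hA v w := by
    rw [𝓔.G_symm]; exact hw
  exact 𝓔.G_trans A hA hvS h3 (𝓔.G_diag_pos A hA hAc v (hVA v hvV))

/-- strong maximum principle: `u ≥ 0` superharmonic on the connected open set `V` -/
theorem smp {V : Set X} [T1Space X] (hVo : IsOpen V) (hVne : (Vᶜ).Nonempty) (hV : IsPreconnected V)
    {u : C(X, ℝ)} (hu : u ∈ 𝓔.F) (h0 : ∀ x ∈ V, 0 ≤ u x)
    (hsup : ∀ φ ∈ 𝓔.FA Vᶜ, (∀ x, 0 ≤ φ x) → 0 ≤ 𝓔.E u φ) {y : X} (hy : y ∈ V) (huy : 0 < u y)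
    {x : X} (hx : x ∈ V) : 0 < u x := by
  set Gy := 𝓔.G Vᶜ hVne y with hGy
  have mG : Gy ∈ 𝓔.FA Vᶜ := 𝓔.G_mem _ _ y
  have hcl : IsClosed Vᶜ := hVo.isClosed_compl
  have hGyy : 0 < Gy y := 𝓔.G_diag_pos _ _ hcl y (by simpa using hy)
  set ε : ℝ := u y / Gy y with hε
  have hεpos : 0 < ε := div_pos huy hGyy
  set a : C(X, ℝ) := ε • Gy with ha
  have ma : a ∈ 𝓔.FA Vᶜ := Submodule.smul_mem _ _ mG
  set φ : C(X, ℝ) := pp (a - u) ⊓ a with hφ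
  have apos : ∀ z, 0 ≤ a z := fun z => mul_nonneg hεpos.le (𝓔.G_nonneg _ _ _ _)
  have mφ : φ ∈ 𝓔.FA Vᶜ := by
    refine ⟨𝓔.inf_mem (𝓔.pp_mem (𝓔.F.sub_mem ma.1 hu)) ma.1, fun z hz => ?_⟩
    rw [hφ, ContinuousMap.inf_apply, ma.2 z hz]
    exact min_eq_right (pp_nonneg _ _)
  have φnn : ∀ z, 0 ≤ φ z := by
    intro z
    rw [hφ, ContinuousMap.inf_apply]
    exact le_min (pp_nonneg _ _) (apos z)
  have φV : ∀ z ∈ V, φ z = max (a z - u z) 0 := by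
    intro z hz
    rw [hφ, ContinuousMap.inf_apply, pp_apply, ContinuousMap.sub_apply]
    apply min_eq_left
    apply max_le
    · linarith [h0 z hz]
    · exact apos z
  have ay : a y = u y := by
    rw [ha]
    simp only [ContinuousMap.smul_apply, smul_eq_mul]
    rw [hε, div_mul_cancel₀ _ hGyy.ne']
  have φy : φ y = 0 := by
    rw [φV y hy, ay]; simp
  have key := 𝓔.nonneg_of hVne (𝓔.F.sub_mem hu ma.1) mφ (fun z => by
    by_cases hz : z ∈ V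
    · rw [φV z hz, ContinuousMap.sub_apply]
      rcases le_total (a z) (u z) with h | h
      · rw [max_eq_right (by linarith)]; ring
      · rw [max_eq_left (by linarith)]; ring
    · rw [mφ.2 z hz]; ring) (by
    rw [𝓔.sub_left hu ma.1 mφ.1, ha, 𝓔.smul_left ε Gy mG.1 φ mφ.1, 𝓔.G_E _ _ y mφ, φy,
      mul_zero, sub_zero]
    exact hsup φ mφ φnn)
  have hx1 := key x
  rw [φV x hx] at hx1
  have hx2 : a x - u x ≤ 0 := by rw [← hx1]; exact le_max_left _ _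
  have hx3 : 0 < a x := by
    rw [ha]
    simp only [ContinuousMap.smul_apply, smul_eq_mul]
    apply mul_pos hεpos
    rw [hGy]
    exact 𝓔.G_pos _ _ hcl hV (fun v hv => by simpa using hv) hy hx
  linarith

/-- truncated restriction of `u` to a relatively clopen part `V` of `{u > 0}` -/
theorem exists_trunc [T1Space X] {u : C(X, ℝ)} (hu : u ∈ 𝓔.F) {V : Set X}
    (hVo : IsOpen V) (hVo' : IsOpen {x | 0 < u x ∧ x ∉ V})
    {ε : ℝ} (hε : 0 < ε) :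
    ∃ φ ∈ 𝓔.F, (∀ x ∈ V, φ x = max (u x - ε) 0) ∧ (∀ x, x ∉ V → φ x = 0) ∧
      𝓔.E u φ = 𝓔.E φ φ := by
  -- closed pieces
  have hA : IsClosed {x | ε ≤ u x ∧ x ∈ V} := by
    have : {x | ε ≤ u x ∧ x ∈ V} = {x | ε ≤ u x} ∩ {x | 0 < u x ∧ x ∉ V}ᶜ := by
      ext x
      simp only [Set.mem_ofPred_eq, Set.mem_inter_iff, Set.mem_compl_iff, not_and, not_not]
      constructor
      · rintro ⟨h1, h2⟩; exact ⟨h1, fun _ => h2⟩
      · rintro ⟨h1, h2⟩; exact ⟨h1, h2 (by linarith)⟩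
    rw [this]
    exact (isClosed_le continuous_const u.continuous).inter hVo'.isClosed_compl
  have hB : IsClosed {x | ε ≤ u x ∧ x ∉ V} := by
    have : {x | ε ≤ u x ∧ x ∉ V} = {x | ε ≤ u x} ∩ Vᶜ := rfl
    rw [this]
    exact (isClosed_le continuous_const u.continuous).inter hVo.isClosed_compl
  obtain ⟨χ, hχ, hχ01, hχ1, hχ0⟩ := 𝓔.cutoff _ _ hA hB (by
    rw [Set.disjoint_left]
    rintro x ⟨_, h1⟩ ⟨_, h2⟩
    exact h2 h1)
  set M : ℝ := ‖u‖ with hM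
  have huM : ∀ x, u x ≤ M := fun x => (le_abs_self _).trans (u.norm_coe_le_norm x)
  set w : C(X, ℝ) := pp (u - ContinuousMap.const X ε) with hw
  have mw : w ∈ 𝓔.F := 𝓔.pp_mem (𝓔.F.sub_mem hu (𝓔.const_mem ε))
  have w_apply : ∀ x, w x = max (u x - ε) 0 := fun x => rfl
  set φ : C(X, ℝ) := w ⊓ (M • χ) with hφ
  have mφ : φ ∈ 𝓔.F := 𝓔.inf_mem mw (𝓔.F.smul_mem M hχ)
  have M0 : 0 ≤ M := norm_nonneg _
  have φ_apply : ∀ x, φ x = min (max (u x - ε) 0) (M * χ x) := fun x => rfl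
  have φV : ∀ x ∈ V, φ x = max (u x - ε) 0 := by
    intro x hx
    rw [φ_apply]
    by_cases h : ε ≤ u x
    · rw [hχ1 x ⟨h, hx⟩, mul_one]
      apply min_eq_left
      exact max_le (by linarith [huM x]) M0
    · rw [max_eq_right (by linarith)]
      exact min_eq_left (mul_nonneg M0 (hχ01 x).1)
  have φV' : ∀ x, x ∉ V → φ x = 0 := by
    intro x hx
    rw [φ_apply]
    by_cases h : ε ≤ u x
    · rw [hχ0 x ⟨h, hx⟩, mul_zero]
      exact min_eq_right (le_max_right _ _)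
    · rw [max_eq_right (by linarith)]
      exact min_eq_left (mul_nonneg M0 (hχ01 x).1)
  refine ⟨φ, mφ, φV, φV', ?_⟩
  have h1 : 𝓔.E (u - φ - ContinuousMap.const X ε) φ = 0 := by
    apply 𝓔.loc _ (𝓔.F.sub_mem (𝓔.F.sub_mem hu mφ) (𝓔.const_mem ε)) _ mφ
    intro x
    by_cases hx : x ∈ V
    · simp only [ContinuousMap.sub_apply, ContinuousMap.const_apply]
      rw [φV x hx]
      rcases le_total (u x - ε) 0 with h | h
      · rw [max_eq_right h]; ring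
      · rw [max_eq_left h]; ring
    · rw [φV' x hx]; ring
  rw [𝓔.sub_left (𝓔.F.sub_mem hu mφ) (𝓔.const_mem ε) mφ, 𝓔.sub_left hu mφ mφ,
    𝓔.E_const ε φ mφ] at h1
  linarith

end ResForm

end Pool.Agent.Helper38
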