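import Mathlib
import Pool.Agent.Helper38.ResForm

set_option autoImplicit false
open Set Filter Topology

/-! Lower semicontinuity of closed forms. -/

namespace Pool.Agent.Helper38

/-- a closed symmetric form with domain in the continuous functions -/
structure PreForm (X : Type*) [TopologicalSpace X] [CompactSpace X] where
  F : Submodule ℝ C(X, ℝ)
  E : C(X, ℝ) → C(X, ℝ) → ℝ
  add_left : ∀ f ∈ F, ∀ g ∈ F, ∀ k ∈ F, E (f + g) k = E f k + E g k
  smul_left : ∀ a : ℝ, ∀ f ∈ F, ∀ k ∈ F, E (a • f) k = a * E f k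
  symm : ∀ f ∈ F, ∀ g ∈ F, E f g = E g f
  nonneg : ∀ f ∈ F, 0 ≤ E f f
  closed : ∀ (f : ℕ → C(X, ℝ)) (g : C(X, ℝ)), (∀ n, f n ∈ F) → Tendsto f atTop (𝓝 g) →
    (∀ ε > 0, ∃ N, ∀ m ≥ N, ∀ n ≥ N, E (f m - f n) (f m - f n) < ε) →
    g ∈ F ∧ Tendsto (fun n => E (f n - g) (f n - g)) atTop (𝓝 0)

namespace PreForm

variable {X : Type*} [TopologicalSpace X] [CompactSpace X] (P : PreForm X)

theorem add_right {f g k : C(X, ℝ)} (hf : f ∈ P.F) (hg : g ∈ P.F) (hk : k ∈ P.F) :
    P.E k (f + g) = P.E k f + P.E k g := by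
  rw [P.symm k hk _ (P.F.add_mem hf hg), P.add_left f hf g hg k hk, P.symm f hf k hk,
    P.symm g hg k hk]

theorem smul_right (a : ℝ) {f k : C(X, ℝ)} (hf : f ∈ P.F) (hk : k ∈ P.F) :
    P.E k (a • f) = a * P.E k f := by
  rw [P.symm k hk _ (P.F.smul_mem a hf), P.smul_left a f hf k hk, P.symm f hf k hk]

theorem neg_left {f k : C(X, ℝ)} (hf : f ∈ P.F) (hk : k ∈ P.F) :
    P.E (-f) k = - P.E f k := by
  have := P.smul_left (-1) f hf k hk
  rw [neg_one_smul] at this
  rw [this]; ring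

theorem neg_right {f k : C(X, ℝ)} (hf : f ∈ P.F) (hk : k ∈ P.F) :
    P.E k (-f) = - P.E k f := by
  rw [P.symm k hk _ (P.F.neg_mem hf), P.neg_left hf hk, P.symm f hf k hk]

theorem sub_left {f g k : C(X, ℝ)} (hf : f ∈ P.F) (hg : g ∈ P.F) (hk : k ∈ P.F) :
    P.E (f - g) k = P.E f k - P.E g k := by
  rw [sub_eq_add_neg, P.add_left f hf _ (P.F.neg_mem hg) k hk, P.neg_left hg hk]; ring

theorem sub_right {f g k : C(X, ℝ)} (hf : f ∈ P.F) (hg : g ∈ P.F) (hk : k ∈ P.F) :
    P.E k (f - g) = P.E k f - P.E k g := by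
  rw [sub_eq_add_neg, P.add_right hf (P.F.neg_mem hg) hk, P.neg_right hg hk]; ring

theorem E_add_self {f g : C(X, ℝ)} (hf : f ∈ P.F) (hg : g ∈ P.F) :
    P.E (f + g) (f + g) = P.E f f + 2 * P.E f g + P.E g g := by
  rw [P.add_left f hf g hg _ (P.F.add_mem hf hg), P.add_right hf hg hf, P.add_right hf hg hg,
    P.symm g hg f hf]; ring

theorem E_sub_self {f g : C(X, ℝ)} (hf : f ∈ P.F) (hg : g ∈ P.F) :
    P.E (f - g) (f - g) = P.E f f - 2 * P.E f g + P.E g g := by
  rw [P.sub_left hf hg (P.F.sub_mem hf hg), P.sub_right hf hg hf, P.sub_right hf hg hg,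
    P.symm g hg f hf]; ring

/-- midpoint identity -/
theorem E_mid {f g : C(X, ℝ)} (hf : f ∈ P.F) (hg : g ∈ P.F) :
    4 * P.E ((2⁻¹ : ℝ) • (f + g)) ((2⁻¹ : ℝ) • (f + g)) =
      2 * P.E f f + 2 * P.E g g - P.E (f - g) (f - g) := by
  rw [P.smul_left _ _ (P.F.add_mem hf hg) _ (P.F.smul_mem _ (P.F.add_mem hf hg)),
    P.smul_right _ (P.F.add_mem hf hg) (P.F.add_mem hf hg), P.E_add_self hf hg,
    P.E_sub_self hf hg]
  ring

/-- weighted triangle inequality -/
theorem E_tri {f g : C(X, ℝ)} (hf : f ∈ P.F) (hg : g ∈ P.F) {s : ℝ} (hs : 0 < s) :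
    P.E (f + g) (f + g) ≤ (1 + s) * P.E f f + (1 + s⁻¹) * P.E g g := by
  have hm : s • f - g ∈ P.F := P.F.sub_mem (P.F.smul_mem s hf) hg
  have h := P.nonneg _ hm
  rw [P.E_sub_self (P.F.smul_mem s hf) hg, P.smul_left s f hf _ (P.F.smul_mem s hf),
    P.smul_right s hf hf, P.smul_left s f hf g hg] at h
  rw [P.E_add_self hf hg]
  have h2 : 2 * P.E f g ≤ s * P.E f f + s⁻¹ * P.E g g := by
    have h3 : s⁻¹ * (s * (s * P.E f f) - 2 * (s * P.E f g) + P.E g g) =
        s * P.E f f - 2 * P.E f g + s⁻¹ * P.E g g := by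
      field_simp
    have h4 := mul_nonneg (inv_pos.mpr hs).le h
    linarith
  linarith

/-- **lower semicontinuity** -/
theorem lsc (f : ℕ → C(X, ℝ)) (g : C(X, ℝ)) (hf : ∀ n, f n ∈ P.F)
    (hlim : Tendsto f atTop (𝓝 g)) (M : ℝ) (hM : ∀ n, P.E (f n) (f n) ≤ M) :
    g ∈ P.F ∧ P.E g g ≤ M := by
  classical
  let S : ℕ → Set C(X, ℝ) := fun n => convexHull ℝ (f '' Ici n)
  have hSF : ∀ n, S n ⊆ P.F := by
    intro n
    apply convexHull_min
    · rintro _ ⟨k, -, rfl⟩
      exact hf k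
    · exact P.F.convex
  have hfS : ∀ n, f n ∈ S n := fun n => subset_convexHull ℝ _ ⟨n, le_refl n, rfl⟩
  have hSmono : ∀ m n, m ≤ n → S n ⊆ S m := by
    intro m n hmn
    apply convexHull_mono
    exact Set.image_mono (Set.Ici_subset_Ici.mpr hmn)
  let a : ℕ → ℝ := fun n => sInf ((fun u => P.E u u) '' S n)
  have hbdd : ∀ n, BddBelow ((fun u => P.E u u) '' S n) := by
    intro n
    refine ⟨0, ?_⟩
    rintro _ ⟨u, hu, rfl⟩
    exact P.nonneg u (hSF n hu)
  have hale : ∀ n, ∀ u ∈ S n, a n ≤ P.E u u := fun n u hu => csInf_le (hbdd n) ⟨u, hu, rfl⟩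
  have haM : ∀ n, a n ≤ M := fun n => (hale n _ (hfS n)).trans (hM n)
  have hamono : Monotone a := by
    intro m n hmn
    have hne : ((fun u => P.E u u) '' S n).Nonempty := ⟨_, f n, hfS n, rfl⟩
    exact csInf_le_csInf (hbdd m) hne (Set.image_mono (hSmono m n hmn))
  have hconv : Tendsto a atTop (𝓝 (⨆ n, a n)) :=
    tendsto_atTop_ciSup hamono ⟨M, by rintro _ ⟨n, rfl⟩; exact haM n⟩
  have hex : ∀ n : ℕ, ∃ u ∈ S n, P.E u u < a n + 1 / (n + 1) := by
    intro n
    have hlt : a n < a n + 1 / ((n:ℝ) + 1) := by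
      have : (0:ℝ) < 1 / ((n:ℝ) + 1) := by positivity
      linarith
    have hne : ((fun u => P.E u u) '' S n).Nonempty := ⟨_, f n, hfS n, rfl⟩
    obtain ⟨_, ⟨u, hu, rfl⟩, h⟩ := exists_lt_of_csInf_lt hne hlt
    exact ⟨u, hu, h⟩
  choose u huS huE using hex
  have huF : ∀ n, u n ∈ P.F := fun n => hSF n (huS n)
  -- energy Cauchy
  have hpair : ∀ m n, n ≤ m → P.E (u m - u n) (u m - u n) ≤
      2 * (a m - a n) + 2 / (m + 1) + 2 / (n + 1) := by
    intro m n hnm
    have h1 := P.E_mid (huF m) (huF n)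
    have hmid : (2⁻¹ : ℝ) • (u m + u n) ∈ S n := by
      rw [smul_add]
      exact (convex_convexHull ℝ _) (hSmono n m hnm (huS m)) (huS n) (by norm_num) (by norm_num)
        (by norm_num)
    have h2 := hale n _ hmid
    have h3 := huE m
    have h4 := huE n
    have e1 : 2 / ((m:ℝ) + 1) = 2 * (1 / ((m:ℝ) + 1)) := by ring
    have e2 : 2 / ((n:ℝ) + 1) = 2 * (1 / ((n:ℝ) + 1)) := by ring
    rw [e1, e2]
    linarith
  have hcau : ∀ ε > 0, ∃ N, ∀ m ≥ N, ∀ n ≥ N, P.E (u m - u n) (u m - u n) < ε := by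
    intro ε hε
    have hC := hconv.cauchySeq
    rw [Metric.cauchySeq_iff] at hC
    obtain ⟨N1, hN1⟩ := hC (ε / 8) (by positivity)
    obtain ⟨N2, hN2⟩ := exists_nat_one_div_lt (show (0:ℝ) < ε / 8 by positivity)
    refine ⟨max N1 N2, ?_⟩
    have small : ∀ m : ℕ, m ≥ max N1 N2 → 1 / ((m:ℝ) + 1) < ε / 8 := by
      intro m hm
      refine lt_of_le_of_lt ?_ hN2
      apply one_div_le_one_div_of_le (by positivity)
      have : (N2:ℝ) ≤ m := by exact_mod_cast le_of_max_le_right hm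
      linarith
    have key : ∀ m ≥ max N1 N2, ∀ n ≥ max N1 N2, n ≤ m →
        P.E (u m - u n) (u m - u n) < ε := by
      intro m hm n hn hnm
      have h1 := hpair m n hnm
      have h2 := hN1 m (le_of_max_le_left hm) n (le_of_max_le_left hn)
      rw [Real.dist_eq] at h2
      have h3 := (abs_lt.mp h2).2
      have h4 := small m hm
      have h5 := small n hn
      have e1 : 2 / ((m:ℝ) + 1) = 2 * (1 / ((m:ℝ) + 1)) := by ring
      have e2 : 2 / ((n:ℝ) + 1) = 2 * (1 / ((n:ℝ) + 1)) := by ring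
      rw [e1, e2] at h1
      linarith
    intro m hm n hn
    rcases le_total n m with h | h
    · exact key m hm n hn h
    · have := key n hn m hm h
      have e : P.E (u m - u n) (u m - u n) = P.E (u n - u m) (u n - u m) := by
        rw [P.E_sub_self (huF m) (huF n), P.E_sub_self (huF n) (huF m),
          P.symm _ (huF m) _ (huF n)]
        ring
      rw [e]
      exact this
  have hulim : Tendsto u atTop (𝓝 g) := by
    rw [Metric.tendsto_atTop]
    intro ε hε
    obtain ⟨N, hN⟩ := Metric.tendsto_atTop.mp hlim (ε / 2) (by positivity)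
    refine ⟨N, fun n hn => ?_⟩
    have hsub : S n ⊆ Metric.closedBall g (ε / 2) := by
      apply convexHull_min
      · rintro _ ⟨k, hk, rfl⟩
        rw [Metric.mem_closedBall]
        exact (hN k (le_trans hn hk)).le
      · exact convex_closedBall g (ε / 2)
    have := hsub (huS n)
    rw [Metric.mem_closedBall] at this
    linarith
  obtain ⟨hgF, hgE⟩ := P.closed u g huF hulim hcau
  refine ⟨hgF, ?_⟩
  -- energy bound
  have hb : ∀ s : ℝ, 0 < s → P.E g g ≤ (1 + s) * M := by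
    intro s hs
    have h1 : ∀ n : ℕ, P.E g g ≤ (1 + s) * (M + 1 / ((n:ℝ) + 1)) +
        (1 + s⁻¹) * P.E (u n - g) (u n - g) := by
      intro n
      have hm := P.F.sub_mem hgF (huF n)
      have h2 := P.E_tri (huF n) hm hs
      have e : u n + (g - u n) = g := by abel
      rw [e] at h2
      have e2 : P.E (g - u n) (g - u n) = P.E (u n - g) (u n - g) := by
        rw [P.E_sub_self (huF n) hgF, P.E_sub_self hgF (huF n), P.symm _ (huF n) _ hgF]
        ring
      rw [e2] at h2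
      have h3 : P.E (u n) (u n) ≤ M + 1 / ((n:ℝ) + 1) := by
        linarith [huE n, haM n]
      have h4 : (1 + s) * P.E (u n) (u n) ≤ (1 + s) * (M + 1 / ((n:ℝ) + 1)) :=
        mul_le_mul_of_nonneg_left h3 (by positivity)
      linarith
    have hlim2 : Tendsto (fun n : ℕ => (1 + s) * (M + 1 / ((n:ℝ) + 1)) +
        (1 + s⁻¹) * P.E (u n - g) (u n - g)) atTop
        (𝓝 ((1 + s) * (M + 0) + (1 + s⁻¹) * 0)) := by
      apply Tendsto.add
      · apply Tendsto.const_mul
        apply Tendsto.add tendsto_const_nhds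
        exact tendsto_one_div_add_atTop_nhds_zero_nat
      · exact hgE.const_mul _
    have := ge_of_tendsto' hlim2 h1
    simpa using this
  have hM0 : 0 ≤ M := (P.nonneg _ (hf 0)).trans (hM 0)
  by_contra hcon
  push Not at hcon
  rcases eq_or_lt_of_le hM0 with h0 | h0
  · have := hb 1 one_pos
    rw [← h0] at this hcon
    linarith
  · have h1 := hb ((P.E g g - M) / (2 * M)) (by
      apply div_pos <;> linarith)
    have h2 : (1 + (P.E g g - M) / (2 * M)) * M = M + (P.E g g - M) / 2 := by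
      field_simp
    rw [h2] at h1
    linarith

/-- strong convergence from convergence with energies bounded by the energy of the limit -/
theorem strong_conv (f : ℕ → C(X, ℝ)) (g : C(X, ℝ)) (hf : ∀ n, f n ∈ P.F) (hg : g ∈ P.F)
    (hlim : Tendsto f atTop (𝓝 g)) (hM : ∀ n, P.E (f n) (f n) ≤ P.E g g) :
    Tendsto (fun n => P.E (f n - g) (f n - g)) atTop (𝓝 0) := by
  rw [Metric.tendsto_atTop]
  by_contra hcon
  push Not at hcon
  obtain ⟨ε, hε, hN⟩ := hcon
  have hfreq : ∀ N, ∃ n > N, ε ≤ P.E (f n - g) (f n - g) := by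
    intro N
    obtain ⟨n, hn, h⟩ := hN (N + 1)
    refine ⟨n, by omega, ?_⟩
    rw [Real.dist_eq, sub_zero, abs_of_nonneg (P.nonneg _ (P.F.sub_mem (hf n) hg))] at h
    exact h
  obtain ⟨φ, hφ, hφE⟩ := Filter.extraction_forall_of_frequently
    (P := fun (_ : ℕ) n => ε ≤ P.E (f n - g) (f n - g)) (fun _ => by
      rw [Filter.frequently_atTop]
      intro N
      obtain ⟨n, hn, h⟩ := hfreq N
      exact ⟨n, hn.le, h⟩)
  have h1 := P.lsc (fun k => (2⁻¹ : ℝ) • (f (φ k) + g)) g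
    (fun k => P.F.smul_mem _ (P.F.add_mem (hf _) hg)) (by
      have h2 : Tendsto (fun k => f (φ k)) atTop (𝓝 g) := hlim.comp hφ.tendsto_atTop
      have h3 : Tendsto (fun k => (2⁻¹ : ℝ) • (f (φ k) + g)) atTop (𝓝 ((2⁻¹ : ℝ) • (g + g))) :=
        (h2.add tendsto_const_nhds).const_smul _
      have e : (2⁻¹ : ℝ) • (g + g) = g := by
        rw [← two_smul ℝ g, smul_smul]; norm_num
      rwa [e] at h3) (P.E g g - ε / 4) (fun k => by
      have h2 := P.E_mid (hf (φ k)) hg
      have h3 := hφE k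
      have h4 := hM (φ k)
      linarith)
  linarith [h1.2]

end PreForm

/-- underlying closed form of a resistance form -/
def ResForm.toPre {X : Type*} [TopologicalSpace X] [CompactSpace X] (𝓔 : ResForm X) :
    PreForm X where
  F := 𝓔.F
  E := 𝓔.E
  add_left := 𝓔.add_left
  smul_left := 𝓔.smul_left
  symm := 𝓔.symm
  nonneg := 𝓔.nonneg
  closed := 𝓔.closed

end Pool.Agent.Helper38
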