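import Mathlib
import Pool.Agent.Helper38.PreForm

set_option autoImplicit false
open Set Filter Topology

/-! The domain of a local form is an algebra. -/

namespace Pool.Agent.Helper38.ResForm

variable {X : Type*} [TopologicalSpace X] [CompactSpace X] (𝓔 : ResForm X)

theorem E_sum_left {ι : Type*} (s : Finset ι) (a : ι → ℝ) (p : ι → C(X, ℝ))
    (hp : ∀ i ∈ s, p i ∈ 𝓔.F) {k : C(X, ℝ)} (hk : k ∈ 𝓔.F) :
    𝓔.E (∑ i ∈ s, a i • p i) k = ∑ i ∈ s, a i * 𝓔.E (p i) k := by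
  classical
  induction s using Finset.induction_on with
  | empty =>
    have := 𝓔.smul_left 0 k hk k hk
    rw [zero_smul, zero_mul] at this
    simp [this]
  | insert b t hb ih =>
    have hbm := hp b (Finset.mem_insert_self b t)
    have ht : ∀ i ∈ t, p i ∈ 𝓔.F := fun i hi => hp i (Finset.mem_insert_of_mem hi)
    rw [Finset.sum_insert hb, Finset.sum_insert hb,
      𝓔.add_left _ (𝓔.F.smul_mem _ hbm) _
        (Submodule.sum_mem _ (fun i hi => 𝓔.F.smul_mem _ (ht i hi))) k hk, ih ht,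
      𝓔.smul_left _ _ hbm k hk]

/-- energy of a combination of orthogonal functions -/
theorem E_sum_orth {ι : Type*} (s : Finset ι) (a : ι → ℝ) (p : ι → C(X, ℝ))
    (hp : ∀ i ∈ s, p i ∈ 𝓔.F) (ho : ∀ i ∈ s, ∀ j ∈ s, i ≠ j → 𝓔.E (p i) (p j) = 0) :
    𝓔.E (∑ i ∈ s, a i • p i) (∑ i ∈ s, a i • p i) = ∑ i ∈ s, a i ^ 2 * 𝓔.E (p i) (p i) := by
  classical
  have hm : (∑ i ∈ s, a i • p i) ∈ 𝓔.F := Submodule.sum_mem _ (fun i hi => 𝓔.F.smul_mem _ (hp i hi))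
  rw [𝓔.E_sum_left s a p hp hm]
  apply Finset.sum_congr rfl
  intro i hi
  rw [𝓔.symm _ (hp i hi) _ hm, 𝓔.E_sum_left s a p hp (hp i hi), Finset.sum_eq_single i]
  · ring
  · intro j hj hji
    rw [ho j hj i hi hji, mul_zero]
  · intro h; exact absurd hi h

/-- slice of a function -/
noncomputable def slice (N : ℕ) (f : C(X, ℝ)) (j : ℕ) : C(X, ℝ) :=
  pp (f - ContinuousMap.const X ((j:ℝ) / N)) ⊓ ContinuousMap.const X (1 / (N:ℝ))

theorem slice_apply (N : ℕ) (f : C(X, ℝ)) (j : ℕ) (x : X) :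
    slice N f j x = min (max (f x - (j:ℝ) / N) 0) (1 / (N:ℝ)) := rfl

theorem slice_mem (N : ℕ) {f : C(X, ℝ)} (hf : f ∈ 𝓔.F) (j : ℕ) : slice N f j ∈ 𝓔.F :=
  𝓔.inf_mem (𝓔.pp_mem (𝓔.F.sub_mem hf (𝓔.const_mem _))) (𝓔.const_mem _)

theorem slice_orth (N : ℕ) {f : C(X, ℝ)} (hf : f ∈ 𝓔.F) {i j : ℕ} (hij : i < j) :
    𝓔.E (slice N f i) (slice N f j) = 0 := by
  have h1 : 𝓔.E (slice N f i - ContinuousMap.const X (1 / (N:ℝ))) (slice N f j) = 0 := by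
    apply 𝓔.loc _ (𝓔.F.sub_mem (𝓔.slice_mem N hf i) (𝓔.const_mem _)) _ (𝓔.slice_mem N hf j)
    intro x
    rw [ContinuousMap.sub_apply, slice_apply, slice_apply, ContinuousMap.const_apply]
    have hN : (0:ℝ) ≤ 1 / (N:ℝ) := by positivity
    rcases le_total (f x) ((j:ℝ) / N) with h | h
    · rw [max_eq_right (a := f x - (j:ℝ) / N) (by linarith), min_eq_left hN, mul_zero]
    · have h2 : (i:ℝ) / N + 1 / N ≤ (j:ℝ) / N := by
        rw [← add_div]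
        apply div_le_div_of_nonneg_right _ (by positivity)
        exact_mod_cast hij
      rw [max_eq_left (a := f x - (i:ℝ) / N) (by linarith), min_eq_right (a := f x - (i:ℝ) / N)
        (by linarith), sub_self, zero_mul]
  rw [𝓔.sub_left (𝓔.slice_mem N hf i) (𝓔.const_mem _) (𝓔.slice_mem N hf j),
    𝓔.E_const _ _ (𝓔.slice_mem N hf j), sub_zero] at h1
  exact h1

theorem slice_sum_real (N m : ℕ) {t : ℝ} (ht : 0 ≤ t) :
    ∑ j ∈ Finset.range m, min (max (t - (j:ℝ) / N) 0) (1 / (N:ℝ)) = min t ((m:ℝ) / N) := by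
  have hN : (0:ℝ) ≤ 1 / (N:ℝ) := by positivity
  induction m with
  | zero => simp [ht]
  | succ m ih =>
    rw [Finset.sum_range_succ, ih]
    have e : ((m + 1 : ℕ) : ℝ) / N = (m:ℝ) / N + 1 / N := by
      push_cast; rw [add_div]
    rw [e]
    rcases le_total t ((m:ℝ) / N) with h | h
    · rw [min_eq_left h, max_eq_right (by linarith), min_eq_left hN, min_eq_left (by linarith)]
      ring
    · rw [min_eq_right h, max_eq_left (by linarith)]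
      rcases le_total t ((m:ℝ) / N + 1 / N) with h' | h'
      · rw [min_eq_left (by linarith), min_eq_left h']; ring
      · rw [min_eq_right (by linarith), min_eq_right h']

theorem slice_sq_real {N : ℕ} (hN : 0 < N) (m : ℕ) {t : ℝ} (ht : 0 ≤ t) :
    ((m:ℝ) / N ≤ t → ∑ j ∈ Finset.range m, ((2 * j + 1 : ℝ) / N) *
      min (max (t - (j:ℝ) / N) 0) (1 / (N:ℝ)) = ((m:ℝ) / N) ^ 2) ∧
    (t ≤ (m:ℝ) / N → t ^ 2 ≤ ∑ j ∈ Finset.range m, ((2 * j + 1 : ℝ) / N) *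
      min (max (t - (j:ℝ) / N) 0) (1 / (N:ℝ)) ∧ ∑ j ∈ Finset.range m, ((2 * j + 1 : ℝ) / N) *
      min (max (t - (j:ℝ) / N) 0) (1 / (N:ℝ)) ≤ t ^ 2 + 1 / (N:ℝ) ^ 2) := by
  have hNr : (0:ℝ) < N := by exact_mod_cast hN
  have hN' : (0:ℝ) < 1 / (N:ℝ) := by positivity
  induction m with
  | zero =>
    constructor
    · intro _; simp
    · intro h
      have : t = 0 := le_antisymm (by simpa using h) ht
      subst this
      constructor
      · simp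
      · simp
  | succ m ih =>
    rw [Finset.sum_range_succ]
    have e : ((m + 1 : ℕ) : ℝ) / N = (m:ℝ) / N + 1 / N := by
      push_cast; rw [add_div]
    rw [e]
    have e2 : (2 * (m:ℝ) + 1) / N = 2 * ((m:ℝ) / N) + 1 / N := by ring
    have e3 : 1 / (N:ℝ) ^ 2 = (1 / (N:ℝ)) ^ 2 := by rw [one_div_pow]
    constructor
    · intro h
      rw [ih.1 (by linarith), max_eq_left (by linarith), min_eq_right (by linarith), e2]
      ring
    · intro h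
      rcases le_total t ((m:ℝ) / N) with h' | h'
      · rw [max_eq_right (by linarith), min_eq_left hN'.le, mul_zero, add_zero]
        exact ih.2 h'
      · rw [ih.1 h', max_eq_left (by linarith), min_eq_left (by linarith), e2, e3]
        set a := (m:ℝ) / N
        set b := 1 / (N:ℝ)
        have h1 : 0 ≤ t - a := by linarith
        have h2 : 0 ≤ b - (t - a) := by linarith
        have h3 := mul_nonneg h1 h2
        constructor
        · nlinarith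
        · nlinarith

/-- squares of functions with values in the unit interval -/
theorem sq_mem_unit {f : C(X, ℝ)} (hf : f ∈ 𝓔.F) (h0 : ∀ x, 0 ≤ f x) (h1 : ∀ x, f x ≤ 1) :
    f * f ∈ 𝓔.F ∧ 𝓔.E (f * f) (f * f) ≤ 4 * 𝓔.E f f := by
  let S : ℕ → C(X, ℝ) := fun n =>
    ∑ j ∈ Finset.range (n + 1), ((2 * j + 1 : ℝ) / (n + 1 : ℕ)) • slice (n + 1) f j
  have hslice : ∀ n j, slice (n + 1) f j ∈ 𝓔.F := fun n j => 𝓔.slice_mem _ hf j
  have horth : ∀ n, ∀ i ∈ Finset.range (n + 1), ∀ j ∈ Finset.range (n + 1), i ≠ j →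
      𝓔.E (slice (n + 1) f i) (slice (n + 1) f j) = 0 := by
    intro n i _ j _ hij
    rcases lt_or_gt_of_ne hij with h | h
    · exact 𝓔.slice_orth _ hf h
    · rw [𝓔.symm _ (hslice n i) _ (hslice n j)]
      exact 𝓔.slice_orth _ hf h
  have hsum : ∀ n, ∑ j ∈ Finset.range (n + 1), (1:ℝ) • slice (n + 1) f j = f := by
    intro n
    ext x
    rw [ContinuousMap.sum_apply]
    simp only [one_smul, slice_apply]
    have := slice_sum_real (n + 1) (n + 1) (h0 x)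
    rw [this]
    apply min_eq_left
    rw [div_self (by positivity)]
    exact h1 x
  have hEsum : ∀ n, ∑ j ∈ Finset.range (n + 1), 𝓔.E (slice (n + 1) f j) (slice (n + 1) f j)
      = 𝓔.E f f := by
    intro n
    have h2 := 𝓔.E_sum_orth (Finset.range (n + 1)) (fun _ => 1) (slice (n + 1) f)
      (fun j _ => hslice n j) (horth n)
    rw [hsum n] at h2
    rw [h2]
    apply Finset.sum_congr rfl
    intro j _
    ring
  have hSF : ∀ n, S n ∈ 𝓔.F := fun n =>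
    Submodule.sum_mem _ (fun j _ => 𝓔.F.smul_mem _ (hslice n j))
  have hSE : ∀ n, 𝓔.E (S n) (S n) ≤ 4 * 𝓔.E f f := by
    intro n
    have h2 := 𝓔.E_sum_orth (Finset.range (n + 1)) (fun j => (2 * j + 1 : ℝ) / (n + 1 : ℕ))
      (slice (n + 1) f) (fun j _ => hslice n j) (horth n)
    change 𝓔.E (S n) (S n) = _ at h2
    rw [h2, ← hEsum n, Finset.mul_sum]
    apply Finset.sum_le_sum
    intro j hj
    apply mul_le_mul_of_nonneg_right _ (𝓔.nonneg _ (hslice n j))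
    have hj' : (j:ℝ) ≤ n := by
      have := Finset.mem_range.mp hj
      exact_mod_cast Nat.lt_succ_iff.mp this
    have h3 : (2 * (j:ℝ) + 1) / ((n + 1 : ℕ) : ℝ) ≤ 2 := by
      rw [div_le_iff₀ (by positivity)]
      push_cast
      linarith
    have h4 : 0 ≤ (2 * (j:ℝ) + 1) / ((n + 1 : ℕ) : ℝ) := by positivity
    nlinarith
  have hlim : Tendsto S atTop (𝓝 (f * f)) := by
    rw [Metric.tendsto_atTop]
    intro ε hε
    obtain ⟨N, hN⟩ := exists_nat_one_div_lt hε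
    refine ⟨N, fun n hn => ?_⟩
    rw [ContinuousMap.dist_lt_iff hε]
    intro x
    have h2 := (slice_sq_real (N := n + 1) (Nat.succ_pos n) (n + 1) (h0 x)).2 (by
      rw [div_self (by positivity)]; exact h1 x)
    have e : S n x = ∑ j ∈ Finset.range (n + 1), ((2 * j + 1 : ℝ) / ((n + 1 : ℕ) : ℝ)) *
        min (max (f x - (j:ℝ) / ((n + 1 : ℕ) : ℝ)) 0) (1 / ((n + 1 : ℕ) : ℝ)) := by
      simp only [S]
      rw [ContinuousMap.sum_apply]
      rfl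
    rw [← e] at h2
    rw [Real.dist_eq, ContinuousMap.mul_apply, abs_lt]
    have h3 : 1 / (((n + 1 : ℕ) : ℝ)) ^ 2 ≤ 1 / ((N:ℝ) + 1) := by
      apply one_div_le_one_div_of_le (by positivity)
      have : (N:ℝ) ≤ n := by exact_mod_cast hn
      push_cast
      nlinarith
    constructor <;> nlinarith
  exact 𝓔.toPre.lsc S (f * f) hSF hlim _ hSE

theorem E_smul_self (a : ℝ) {f : C(X, ℝ)} (hf : f ∈ 𝓔.F) :
    𝓔.E (a • f) (a • f) = a ^ 2 * 𝓔.E f f := by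
  rw [𝓔.smul_left a f hf _ (𝓔.F.smul_mem a hf), 𝓔.smul_right a hf hf]; ring

theorem E_abs {f : C(X, ℝ)} (hf : f ∈ 𝓔.F) : 𝓔.E |f| |f| = 𝓔.E f f := by
  have h1 : 𝓔.E (|f| - f) (|f| + f) = 0 := by
    apply 𝓔.loc _ (𝓔.F.sub_mem (𝓔.abs_mem f hf) hf) _ (𝓔.F.add_mem (𝓔.abs_mem f hf) hf)
    intro x
    simp only [ContinuousMap.sub_apply, ContinuousMap.add_apply, ContinuousMap.abs_apply]
    have := sq_abs (f x)
    ring_nf
    linarith
  have ha := 𝓔.abs_mem f hf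
  rw [𝓔.sub_left ha hf (𝓔.F.add_mem ha hf), 𝓔.add_right ha hf ha, 𝓔.add_right ha hf hf,
    𝓔.symm f hf _ ha] at h1
  linarith

theorem sq_mem {f : C(X, ℝ)} (hf : f ∈ 𝓔.F) {B : ℝ} (hB : 0 < B) (hfB : ∀ x, |f x| ≤ B) :
    f * f ∈ 𝓔.F ∧ 𝓔.E (f * f) (f * f) ≤ 4 * B ^ 2 * 𝓔.E f f := by
  set u : C(X, ℝ) := B⁻¹ • |f| with hu
  have huF : u ∈ 𝓔.F := 𝓔.F.smul_mem _ (𝓔.abs_mem f hf)
  have h := 𝓔.sq_mem_unit huF (fun x => by
      rw [hu]; exact mul_nonneg (inv_nonneg.mpr hB.le) (abs_nonneg _)) (fun x => by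
      change B⁻¹ * |f x| ≤ 1
      calc B⁻¹ * |f x| ≤ B⁻¹ * B := mul_le_mul_of_nonneg_left (hfB x) (inv_nonneg.mpr hB.le)
        _ = 1 := inv_mul_cancel₀ hB.ne')
  have e : f * f = B ^ 2 • (u * u) := by
    ext x
    change f x * f x = B ^ 2 * ((B⁻¹ * |f x|) * (B⁻¹ * |f x|))
    have h2 := abs_mul_abs_self (f x)
    have h3 : B * B⁻¹ = 1 := mul_inv_cancel₀ hB.ne'
    calc f x * f x = |f x| * |f x| := h2.symm
      _ = (B * B⁻¹) ^ 2 * (|f x| * |f x|) := by rw [h3]; ring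
      _ = _ := by ring
  rw [e]
  refine ⟨𝓔.F.smul_mem _ h.1, ?_⟩
  rw [𝓔.E_smul_self _ h.1]
  have h2 : 𝓔.E u u = B⁻¹ ^ 2 * 𝓔.E f f := by
    rw [hu, 𝓔.E_smul_self _ (𝓔.abs_mem f hf), 𝓔.E_abs hf]
  have h3 := h.2
  rw [h2] at h3
  have h4 : B * B⁻¹ = 1 := mul_inv_cancel₀ hB.ne'
  calc (B ^ 2) ^ 2 * 𝓔.E (u * u) (u * u) ≤ (B ^ 2) ^ 2 * (4 * (B⁻¹ ^ 2 * 𝓔.E f f)) :=
        mul_le_mul_of_nonneg_left h3 (by positivity)
    _ = 4 * B ^ 2 * (B * B⁻¹) ^ 2 * 𝓔.E f f := by ring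
    _ = 4 * B ^ 2 * 𝓔.E f f := by rw [h4]; ring

/-- products of bounded functions -/
theorem mul_mem' {f g : C(X, ℝ)} (hf : f ∈ 𝓔.F) (hg : g ∈ 𝓔.F) {a b : ℝ} (ha : 0 < a)
    (hb : 0 < b) (hfa : ∀ x, |f x| ≤ a) (hgb : ∀ x, |g x| ≤ b) :
    f * g ∈ 𝓔.F ∧ 𝓔.E (f * g) (f * g) ≤ 4 * (b ^ 2 * 𝓔.E f f + a ^ 2 * 𝓔.E g g) := by
  set u : C(X, ℝ) := a⁻¹ • f with hu
  set w : C(X, ℝ) := b⁻¹ • g with hw
  have huF : u ∈ 𝓔.F := 𝓔.F.smul_mem _ hf
  have hwF : w ∈ 𝓔.F := 𝓔.F.smul_mem _ hg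
  have haa : a⁻¹ * a = 1 := inv_mul_cancel₀ ha.ne'
  have hbb : b⁻¹ * b = 1 := inv_mul_cancel₀ hb.ne'
  have hu1 : ∀ x, |u x| ≤ 1 := by
    intro x
    change |a⁻¹ * f x| ≤ 1
    rw [abs_mul, abs_of_pos (inv_pos.mpr ha)]
    calc a⁻¹ * |f x| ≤ a⁻¹ * a := mul_le_mul_of_nonneg_left (hfa x) (inv_nonneg.mpr ha.le)
      _ = 1 := haa
  have hw1 : ∀ x, |w x| ≤ 1 := by
    intro x
    change |b⁻¹ * g x| ≤ 1
    rw [abs_mul, abs_of_pos (inv_pos.mpr hb)]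
    calc b⁻¹ * |g x| ≤ b⁻¹ * b := mul_le_mul_of_nonneg_left (hgb x) (inv_nonneg.mpr hb.le)
      _ = 1 := hbb
  have h1 := 𝓔.sq_mem (𝓔.F.add_mem huF hwF) (B := 2) (by norm_num) (fun x => by
    rw [ContinuousMap.add_apply]
    calc |u x + w x| ≤ |u x| + |w x| := abs_add_le _ _
      _ ≤ 2 := by linarith [hu1 x, hw1 x])
  have h2 := 𝓔.sq_mem (𝓔.F.sub_mem huF hwF) (B := 2) (by norm_num) (fun x => by
    rw [ContinuousMap.sub_apply]
    calc |u x - w x| ≤ |u x| + |w x| := abs_sub _ _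
      _ ≤ 2 := by linarith [hu1 x, hw1 x])
  set P : C(X, ℝ) := (u + w) * (u + w) with hP
  set Q : C(X, ℝ) := (u - w) * (u - w) with hQ
  have e : f * g = (a * b / 4) • (P - Q) := by
    ext x
    change f x * g x = (a * b / 4) * ((a⁻¹ * f x + b⁻¹ * g x) * (a⁻¹ * f x + b⁻¹ * g x) -
      (a⁻¹ * f x - b⁻¹ * g x) * (a⁻¹ * f x - b⁻¹ * g x))
    calc f x * g x = (a⁻¹ * a) * (b⁻¹ * b) * (f x * g x) := by rw [haa, hbb]; ring
      _ = _ := by ring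
  have hPQ : P - Q ∈ 𝓔.F := 𝓔.F.sub_mem h1.1 h2.1
  rw [e]
  refine ⟨𝓔.F.smul_mem _ hPQ, ?_⟩
  rw [𝓔.E_smul_self _ hPQ]
  have h3 : 𝓔.E (P - Q) (P - Q) ≤ 2 * 𝓔.E P P + 2 * 𝓔.E Q Q := by
    have h4 := 𝓔.nonneg _ (𝓔.F.add_mem h1.1 h2.1)
    have h5 := 𝓔.toPre.E_sub_self h1.1 h2.1
    have h6 := 𝓔.E_add_self h1.1 h2.1
    change 𝓔.E (P - Q) (P - Q) = 𝓔.E P P - 2 * 𝓔.E P Q + 𝓔.E Q Q at h5
    change 0 ≤ 𝓔.E (P + Q) (P + Q) at h4
    change 𝓔.E (P + Q) (P + Q) = 𝓔.E P P + 2 * 𝓔.E P Q + 𝓔.E Q Q at h6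
    linarith
  have h7 : 𝓔.E (u + w) (u + w) + 𝓔.E (u - w) (u - w) = 2 * 𝓔.E u u + 2 * 𝓔.E w w := by
    have h5 := 𝓔.toPre.E_sub_self huF hwF
    have h6 := 𝓔.E_add_self huF hwF
    change 𝓔.E (u - w) (u - w) = 𝓔.E u u - 2 * 𝓔.E u w + 𝓔.E w w at h5
    linarith
  have h8 : 𝓔.E u u = a⁻¹ ^ 2 * 𝓔.E f f := 𝓔.E_smul_self _ hf
  have h9 : 𝓔.E w w = b⁻¹ ^ 2 * 𝓔.E g g := 𝓔.E_smul_self _ hg
  have h10 : 𝓔.E (P - Q) (P - Q) ≤ 64 * (𝓔.E u u + 𝓔.E w w) := by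
    have h11 := h1.2
    have h12 := h2.2
    linarith
  calc (a * b / 4) ^ 2 * 𝓔.E (P - Q) (P - Q)
      ≤ (a * b / 4) ^ 2 * (64 * (𝓔.E u u + 𝓔.E w w)) :=
        mul_le_mul_of_nonneg_left h10 (by positivity)
    _ = 4 * ((a⁻¹ * a) ^ 2 * b ^ 2 * 𝓔.E f f + (b⁻¹ * b) ^ 2 * a ^ 2 * 𝓔.E g g) := by
        rw [h8, h9]; ring
    _ = _ := by rw [haa, hbb]; ring

theorem mul_mem {f g : C(X, ℝ)} (hf : f ∈ 𝓔.F) (hg : g ∈ 𝓔.F) : f * g ∈ 𝓔.F := by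
  have hb : ∀ u : C(X, ℝ), ∀ x, |u x| ≤ ‖u‖ + 1 := fun u x => by
    have := u.norm_coe_le_norm x
    rw [Real.norm_eq_abs] at this
    linarith
  exact (𝓔.mul_mem' hf hg (a := ‖f‖ + 1) (b := ‖g‖ + 1) (by positivity) (by positivity)
    (hb f) (hb g)).1

end Pool.Agent.Helper38.ResForm
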