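import Mathlib

set_option autoImplicit false

/-!
# The standard Sierpinski carpet

The basic definitions: digits, cells, closed squares and the carpet `K`.
-/

namespace Pool.Agent.Helper38.Carpet

/-- integer positions -/
abbrev Z2 := ℤ × ℤ

/-- the plane -/
abbrev R2 := ℝ × ℝ

/-- The eight digits: the points of `{0,1,2}²` other than `(1,1)`. -/
def dig : Finset Z2 := {(0,0),(1,0),(2,0),(0,1),(2,1),(0,2),(1,2),(2,2)}

/-- Concatenation of addresses: `adr k c d = 3 ^ k * c + d`. -/
def adr (k : ℕ) (c d : Z2) : Z2 := (3 ^ k * c.1 + d.1, 3 ^ k * c.2 + d.2)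

/-- Positions of the `8 ^ n` cells of level `n`: `cells 0 = {(0,0)}` and the positions of level
`n + 1` are the points `3 * c + d` with `c` of level `n` and `d` a digit. -/
def cells : ℕ → Finset Z2
  | 0 => {(0, 0)}
  | n + 1 => ((cells n) ×ˢ dig).image (fun p => adr 1 p.1 p.2)

/-- Closed square of side `3 ^ (-n)` with lower left corner `c / 3 ^ n`. -/
def sq (n : ℕ) (c : Z2) : Set R2 :=
  {z | (c.1 : ℝ) ≤ 3 ^ n * z.1 ∧ 3 ^ n * z.1 ≤ c.1 + 1 ∧ (c.2 : ℝ) ≤ 3 ^ n * z.2 ∧
    3 ^ n * z.2 ≤ c.2 + 1}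

/-- The Sierpinski carpet: the points of the plane that lie, for every `n`, in the union of the
closed squares `sq n c` with `c` in `cells n`. -/
def K : Set R2 := {z | ∀ n, ∃ c ∈ cells n, z ∈ sq n c}

/-- the carpet as a space -/
abbrev KK := ↥K

end Pool.Agent.Helper38.Carpet
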