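import Mathlib
import Pool.Agent.Helper38.Defs

set_option autoImplicit false

/-! Combinatorics of the cells of the Sierpinski carpet. -/

namespace Pool.Agent.Helper38.Carpet

theorem rtg_symm {α : Type*} {r : α → α → Prop} (hr : ∀ a b, r a b → r b a) {a b : α}
    (h : Relation.ReflTransGen r a b) : Relation.ReflTransGen r b a := by
  induction h with
  | refl => exact Relation.ReflTransGen.refl
  | tail _ h2 ih => exact Relation.ReflTransGen.head (hr _ _ h2) ih

theorem rtg_lift {α β : Type*} {r : α → α → Prop} {p : β → β → Prop} (f : α → β)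
    (hr : ∀ a b, r a b → Relation.ReflTransGen p (f a) (f b)) {a b : α}
    (h : Relation.ReflTransGen r a b) : Relation.ReflTransGen p (f a) (f b) := by
  induction h with
  | refl => exact Relation.ReflTransGen.refl
  | tail _ h2 ih => exact ih.trans (hr _ _ h2)

theorem rtg_mono {α : Type*} {r p : α → α → Prop} (hr : ∀ a b, r a b → p a b) {a b : α}
    (h : Relation.ReflTransGen r a b) : Relation.ReflTransGen p a b := by
  induction h with
  | refl => exact Relation.ReflTransGen.refl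
  | tail _ h2 ih => exact ih.tail (hr _ _ h2)

theorem dig_iff (d : Z2) : d ∈ dig ↔
    (0 ≤ d.1 ∧ d.1 ≤ 2 ∧ 0 ≤ d.2 ∧ d.2 ≤ 2 ∧ ¬ (d.1 = 1 ∧ d.2 = 1)) := by
  obtain ⟨a, b⟩ := d
  simp only [dig, Finset.mem_insert, Finset.mem_singleton, Prod.mk.injEq]
  omega

theorem mem_cells_zero (c : Z2) : c ∈ cells 0 ↔ c = (0, 0) := by
  simp [cells]

theorem mem_cells_succ' (n : ℕ) (c : Z2) :
    c ∈ cells (n + 1) ↔ ∃ c' ∈ cells n, ∃ d ∈ dig, c = adr 1 c' d := by
  simp only [cells, Finset.mem_image, Finset.mem_product]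
  constructor
  · rintro ⟨⟨c', d⟩, ⟨h1, h2⟩, h3⟩
    exact ⟨c', h1, d, h2, h3.symm⟩
  · rintro ⟨c', h1, d, h2, h3⟩
    exact ⟨⟨c', d⟩, ⟨h1, h2⟩, h3.symm⟩

theorem mem_cells_succ (n : ℕ) (c : Z2) :
    c ∈ cells (n + 1) ↔ (c.1 / 3, c.2 / 3) ∈ cells n ∧ (c.1 % 3, c.2 % 3) ∈ dig := by
  rw [mem_cells_succ']
  constructor
  · rintro ⟨c', h1, d, h2, h3⟩
    rw [dig_iff] at h2
    have e1 : c.1 = 3 * c'.1 + d.1 := by rw [h3]; simp [adr]
    have e2 : c.2 = 3 * c'.2 + d.2 := by rw [h3]; simp [adr]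
    have e3 : (c.1 / 3, c.2 / 3) = c' := by
      ext <;> simp only [] <;> omega
    have e4 : (c.1 % 3, c.2 % 3) = d := by
      ext <;> simp only [] <;> omega
    rw [e3, e4, dig_iff]
    exact ⟨h1, h2⟩
  · rintro ⟨h1, h2⟩
    refine ⟨_, h1, _, h2, ?_⟩
    ext <;> simp only [adr, pow_one] <;> omega

theorem cells_bound {n : ℕ} {c : Z2} (h : c ∈ cells n) :
    0 ≤ c.1 ∧ c.1 + 1 ≤ 3 ^ n ∧ 0 ≤ c.2 ∧ c.2 + 1 ≤ 3 ^ n := by
  induction n generalizing c with
  | zero =>
    rw [mem_cells_zero] at h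
    subst h
    simp
  | succ n ih =>
    rw [mem_cells_succ] at h
    obtain ⟨h1, h2⟩ := h
    have h3 := ih h1
    rw [dig_iff] at h2
    have e : (3:ℤ) ^ (n+1) = 3 * 3 ^ n := by ring
    rw [e]
    simp only at h3 h2
    omega

theorem comp_zero (c : Z2) : adr 0 c (0, 0) = c := by
  ext <;> simp [adr]

theorem comp_assoc (j k : ℕ) (c d e : Z2) :
    adr j (adr k c d) e = adr (k + j) c (adr j d e) := by
  ext <;> simp only [adr] <;> ring

theorem cells_comp {n k : ℕ} {c d : Z2} (hc : c ∈ cells n) (hd : d ∈ cells k) :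
    adr k c d ∈ cells (n + k) := by
  induction k generalizing d with
  | zero =>
    rw [mem_cells_zero] at hd
    subst hd
    rw [comp_zero]
    exact hc
  | succ k ih =>
    rw [mem_cells_succ'] at hd
    obtain ⟨d', hd', e, he, rfl⟩ := hd
    rw [← add_assoc, mem_cells_succ']
    refine ⟨adr k c d', ih hd', e, he, ?_⟩
    rw [comp_assoc]

theorem cells_decomp {n k : ℕ} {b : Z2} (hb : b ∈ cells (n + k)) :
    ∃ c ∈ cells n, ∃ d ∈ cells k, b = adr k c d := by
  induction k generalizing b with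
  | zero => exact ⟨b, hb, (0, 0), by simp [cells], (comp_zero b).symm⟩
  | succ k ih =>
    rw [← add_assoc, mem_cells_succ'] at hb
    obtain ⟨b', hb', e, he, rfl⟩ := hb
    obtain ⟨c, hc, d, hd, rfl⟩ := ih hb'
    refine ⟨c, hc, adr 1 d e, ?_, ?_⟩
    · rw [mem_cells_succ']
      exact ⟨d, hd, e, he, rfl⟩
    · rw [comp_assoc]

theorem comp_inj {k : ℕ} {c d c' d' : Z2} (hd : d ∈ cells k) (hd' : d' ∈ cells k)
    (h : adr k c d = adr k c' d') : c = c' ∧ d = d' := by
  have b1 := cells_bound hd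
  have b2 := cells_bound hd'
  simp only [adr, Prod.mk.injEq] at h
  have hp : (0:ℤ) < 3 ^ k := by positivity
  have key : ∀ a b x y : ℤ, 0 ≤ x → x + 1 ≤ 3 ^ k → 0 ≤ y → y + 1 ≤ 3 ^ k →
      3 ^ k * a + x = 3 ^ k * b + y → a = b ∧ x = y := by
    intro a b x y hx hx' hy hy' he
    have h1 : a < b + 1 := by
      apply lt_of_mul_lt_mul_left (a := (3:ℤ)^k) _ hp.le
      linarith
    have h2 : b < a + 1 := by
      apply lt_of_mul_lt_mul_left (a := (3:ℤ)^k) _ hp.le
      linarith
    have h3 : a = b := by omega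
    subst h3
    exact ⟨rfl, by linarith⟩
  obtain ⟨h1, h2⟩ := h
  obtain ⟨a1, a2⟩ := key _ _ _ _ b1.1 b1.2.1 b2.1 b2.2.1 h1
  obtain ⟨a3, a4⟩ := key _ _ _ _ b1.2.2.1 b1.2.2.2 b2.2.2.1 b2.2.2.2 h2
  exact ⟨Prod.ext a1 a3, Prod.ext a2 a4⟩

theorem bottom_mem (n : ℕ) (i : ℤ) (h0 : 0 ≤ i) (h1 : i + 1 ≤ 3 ^ n) : (i, 0) ∈ cells n := by
  induction n generalizing i with
  | zero =>
    rw [mem_cells_zero]
    simp at h1
    have : i = 0 := by omega
    rw [this]
  | succ n ih =>
    rw [mem_cells_succ]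
    have e : (3:ℤ) ^ (n+1) = 3 * 3 ^ n := by ring
    rw [e] at h1
    refine ⟨?_, ?_⟩
    · simp only [Int.zero_ediv]
      apply ih <;> omega
    · rw [dig_iff]
      simp only [Int.zero_emod]
      omega

theorem top_mem (n : ℕ) (i : ℤ) (h0 : 0 ≤ i) (h1 : i + 1 ≤ 3 ^ n) :
    (i, 3 ^ n - 1) ∈ cells n := by
  induction n generalizing i with
  | zero =>
    rw [mem_cells_zero]
    simp at h1
    have : i = 0 := by omega
    rw [this]
    rfl
  | succ n ih =>
    rw [mem_cells_succ]
    have e : (3:ℤ) ^ (n+1) = 3 * 3 ^ n := by ring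
    rw [e] at h1 ⊢
    refine ⟨?_, ?_⟩
    · have e1 : (3 * 3 ^ n - 1 : ℤ) / 3 = 3 ^ n - 1 := by omega
      simp only [e1]
      apply ih <;> omega
    · rw [dig_iff]
      simp only
      omega

theorem swap_mem {n : ℕ} {c : Z2} (h : c ∈ cells n) : (c.2, c.1) ∈ cells n := by
  induction n generalizing c with
  | zero =>
    rw [mem_cells_zero] at h ⊢
    subst h
    rfl
  | succ n ih =>
    rw [mem_cells_succ] at h ⊢
    refine ⟨ih h.1, ?_⟩
    have := h.2
    rw [dig_iff] at this ⊢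
    simp only at this ⊢
    omega

theorem left_mem (n : ℕ) (i : ℤ) (h0 : 0 ≤ i) (h1 : i + 1 ≤ 3 ^ n) : (0, i) ∈ cells n :=
  swap_mem (bottom_mem n i h0 h1)

theorem right_mem (n : ℕ) (i : ℤ) (h0 : 0 ≤ i) (h1 : i + 1 ≤ 3 ^ n) :
    (3 ^ n - 1, i) ∈ cells n :=
  swap_mem (top_mem n i h0 h1)

/-- two diagonal cells have a common neighbour -/
theorem diag_mem {n : ℕ} {a b : Z2} (ha : a ∈ cells n) (hb : b ∈ cells n)
    (h1 : a.1 - b.1 = 1 ∨ b.1 - a.1 = 1) (h2 : a.2 - b.2 = 1 ∨ b.2 - a.2 = 1) :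
    (a.1, b.2) ∈ cells n ∨ (b.1, a.2) ∈ cells n := by
  induction n generalizing a b with
  | zero =>
    rw [mem_cells_zero] at ha hb
    subst ha; subst hb
    simp at h1
  | succ n ih =>
    rw [mem_cells_succ] at ha hb
    simp only [mem_cells_succ]
    obtain ⟨ha1, ha2⟩ := ha
    obtain ⟨hb1, hb2⟩ := hb
    rw [dig_iff] at ha2 hb2
    simp only at ha2 hb2
    by_cases e1 : a.1 / 3 = b.1 / 3
    · by_cases e2 : a.2 / 3 = b.2 / 3
      · rw [dig_iff, dig_iff]
        simp only [e1, e2] at *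
        by_cases e3 : a.1 % 3 = 1 ∧ b.2 % 3 = 1
        · right
          refine ⟨hb1, ?_⟩
          omega
        · left
          refine ⟨hb1, ?_⟩
          omega
      · -- different rows
        right
        rw [← e1]
        refine ⟨ha1, ?_⟩
        rw [dig_iff]
        simp only
        omega
    · by_cases e2 : a.2 / 3 = b.2 / 3
      · left
        rw [← e2]
        refine ⟨ha1, ?_⟩
        rw [dig_iff]
        simp only
        omega
      · have := ih ha1 hb1 (by simp only; omega) (by simp only; omega)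
        simp only at this
        rcases this with h | h
        · left
          refine ⟨h, ?_⟩
          rw [dig_iff]
          simp only
          omega
        · right
          refine ⟨h, ?_⟩
          rw [dig_iff]
          simp only
          omega

/-- side adjacency -/
def sadj (a b : Z2) : Prop :=
  (a.1 = b.1 ∧ (a.2 = b.2 + 1 ∨ b.2 = a.2 + 1)) ∨ (a.2 = b.2 ∧ (a.1 = b.1 + 1 ∨ b.1 = a.1 + 1))

theorem sadj.symm {a b : Z2} (h : sadj a b) : sadj b a := by
  unfold sadj at *
  omega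

def SA (n : ℕ) (a b : Z2) : Prop := a ∈ cells n ∧ b ∈ cells n ∧ sadj a b

theorem SA.symm {n : ℕ} {a b : Z2} (h : SA n a b) : SA n b a := ⟨h.2.1, h.1, h.2.2.symm⟩

theorem dig_cells : dig = cells 1 := by decide

theorem ring_dig : ∀ d ∈ dig, ∀ e ∈ dig, Relation.ReflTransGen (SA 1) d e := by
  have hs : ∀ d e, Relation.ReflTransGen (SA 1) d e → Relation.ReflTransGen (SA 1) e d :=
    fun d e h => rtg_symm (fun _ _ h => h.symm) h
  have h00 : ∀ d ∈ dig, Relation.ReflTransGen (SA 1) (0,0) d := by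
    have m : ∀ d, d ∈ dig → d ∈ cells 1 := fun d h => by rw [← dig_cells]; exact h
    have s1 : SA 1 (0,0) (1,0) := ⟨m _ (by decide), m _ (by decide), by unfold sadj; simp⟩
    have s2 : SA 1 (1,0) (2,0) := ⟨m _ (by decide), m _ (by decide), by unfold sadj; simp⟩
    have s3 : SA 1 (2,0) (2,1) := ⟨m _ (by decide), m _ (by decide), by unfold sadj; simp⟩
    have s4 : SA 1 (2,1) (2,2) := ⟨m _ (by decide), m _ (by decide), by unfold sadj; simp⟩
    have s5 : SA 1 (2,2) (1,2) := ⟨m _ (by decide), m _ (by decide), by unfold sadj; simp⟩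
    have s6 : SA 1 (1,2) (0,2) := ⟨m _ (by decide), m _ (by decide), by unfold sadj; simp⟩
    have s7 : SA 1 (0,2) (0,1) := ⟨m _ (by decide), m _ (by decide), by unfold sadj; simp⟩
    have r0 : Relation.ReflTransGen (SA 1) (0,0) (0,0) := Relation.ReflTransGen.refl
    have r1 := r0.tail s1
    have r2 := r1.tail s2
    have r3 := r2.tail s3
    have r4 := r3.tail s4
    have r5 := r4.tail s5
    have r6 := r5.tail s6
    have r7 := r6.tail s7
    intro d hd
    simp only [dig, Finset.mem_insert, Finset.mem_singleton] at hd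
    rcases hd with rfl | rfl | rfl | rfl | rfl | rfl | rfl | rfl <;> assumption
  intro d hd e he
  exact (hs _ _ (h00 d hd)).trans (h00 e he)

theorem sadj_comp (k : ℕ) (c : Z2) {d e : Z2} (h : sadj d e) : sadj (adr k c d) (adr k c e) := by
  unfold sadj adr at *
  simp only
  omega

/-- side-adjacent cells have side-adjacent children -/
theorem sadj_children {a b : Z2} (h : sadj a b) :
    ∃ d ∈ dig, ∃ e ∈ dig, sadj (adr 1 a d) (adr 1 b e) := by
  unfold sadj at h
  rcases h with ⟨h1, h2 | h2⟩ | ⟨h1, h2 | h2⟩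
  · refine ⟨(0,0), by decide, (0,2), by decide, ?_⟩
    unfold sadj adr; simp only [pow_one]; omega
  · refine ⟨(0,2), by decide, (0,0), by decide, ?_⟩
    unfold sadj adr; simp only [pow_one]; omega
  · refine ⟨(0,0), by decide, (2,0), by decide, ?_⟩
    unfold sadj adr; simp only [pow_one]; omega
  · refine ⟨(2,0), by decide, (0,0), by decide, ?_⟩
    unfold sadj adr; simp only [pow_one]; omega

/-- chains within a set of cells given by a predicate that is inherited by subcells -/
theorem chain_children {n : ℕ} {P Q : Z2 → Prop} (hPQ : ∀ c, P c → ∀ d ∈ dig, Q (adr 1 c d))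
    {a b : Z2} (hPa : P a)
    (h : Relation.ReflTransGen (fun x y => SA n x y ∧ P y) a b) (ha : a ∈ cells n)
    (d e : Z2) (hd : d ∈ dig) (he : e ∈ dig) :
    Relation.ReflTransGen (fun x y => SA (n + 1) x y ∧ Q y) (adr 1 a d) (adr 1 b e) := by
  have inner : ∀ c ∈ cells n, P c → ∀ d ∈ dig, ∀ e ∈ dig,
      Relation.ReflTransGen (fun x y => SA (n + 1) x y ∧ Q y) (adr 1 c d) (adr 1 c e) := by
    intro c hc hPc d hd e he
    have h1 := ring_dig d hd e he
    refine rtg_lift (adr 1 c) ?_ h1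
    intro x y hxy
    apply Relation.ReflTransGen.single
    refine ⟨⟨cells_comp hc hxy.1, cells_comp hc hxy.2.1, sadj_comp 1 c hxy.2.2⟩, hPQ c hPc y ?_⟩
    rw [dig_cells]; exact hxy.2.1
  induction h generalizing e with
  | refl => exact inner a ha hPa d hd e he
  | @tail b c hab hbc ih =>
    obtain ⟨d', hd', e', he', hs⟩ := sadj_children hbc.1.2.2
    have h1 := ih d' hd'
    have hbmem := hbc.1.1
    have hcmem := hbc.1.2.1
    have m : ∀ d, d ∈ dig → d ∈ cells 1 := fun d h => by rw [← dig_cells]; exact h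
    have h2 : Relation.ReflTransGen (fun x y => SA (n + 1) x y ∧ Q y) (adr 1 a d) (adr 1 c e') :=
      h1.tail ⟨⟨cells_comp hbmem (m _ hd'), cells_comp hcmem (m _ he'), hs⟩,
        hPQ c hbc.2 e' he'⟩
    exact h2.trans (inner c hcmem hbc.2 e' he' e he)

/-- the graph of level-`n` cells is side-connected -/
theorem cells_connected (n : ℕ) : ∀ a ∈ cells n, ∀ b ∈ cells n, Relation.ReflTransGen (SA n) a b := by
  induction n with
  | zero =>
    intro a ha b hb
    rw [mem_cells_zero] at ha hb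
    rw [ha, hb]
  | succ n ih =>
    intro a ha b hb
    rw [mem_cells_succ'] at ha hb
    obtain ⟨a', ha', d, hd, rfl⟩ := ha
    obtain ⟨b', hb', e, he, rfl⟩ := hb
    have h1 : Relation.ReflTransGen (fun x y => SA n x y ∧ True) a' b' := by
      refine rtg_mono ?_ (ih a' ha' b' hb')
      intro x y h
      exact ⟨h, trivial⟩
    have h2 := chain_children (P := fun _ => True) (Q := fun _ => True) (fun _ _ _ _ => trivial)
      trivial h1 ha' d e hd he
    refine rtg_mono ?_ h2
    intro x y h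
    exact h.1

end Pool.Agent.Helper38.Carpet
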