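import Mathlib
import Pool.Agent.Helper38.Cells

set_option autoImplicit false
open Set Filter Topology

/-! Real geometry of the Sierpinski carpet. -/

namespace Pool.Agent.Helper38.Carpet

/-- the similarity onto the cell `c` of level `n` -/
noncomputable def phi (n : ℕ) (c : Z2) (z : R2) : R2 := ((z.1 + c.1) / 3 ^ n, (z.2 + c.2) / 3 ^ n)

/-- its inverse -/
def inv (n : ℕ) (c : Z2) (z : R2) : R2 := (3 ^ n * z.1 - c.1, 3 ^ n * z.2 - c.2)

theorem phi_inv (n : ℕ) (c : Z2) (z : R2) : phi n c (inv n c z) = z := by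
  have h : (3:ℝ) ^ n ≠ 0 := by positivity
  ext <;> simp only [phi, inv] <;> field_simp <;> ring

theorem inv_phi (n : ℕ) (c : Z2) (z : R2) : inv n c (phi n c z) = z := by
  have h : (3:ℝ) ^ n ≠ 0 := by positivity
  ext <;> simp only [phi, inv] <;> field_simp <;> ring

theorem phi_comp (n k : ℕ) (c d : Z2) (z : R2) :
    phi n c (phi k d z) = phi (n + k) (adr k c d) z := by
  have h : (3:ℝ) ^ n ≠ 0 := by positivity
  have h' : (3:ℝ) ^ k ≠ 0 := by positivity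
  ext <;> simp only [phi, adr] <;> push_cast <;> rw [pow_add] <;> field_simp <;> ring

theorem phi_mem_sq (n k : ℕ) (c d : Z2) (z : R2) :
    phi n c z ∈ sq (n + k) (adr k c d) ↔ z ∈ sq k d := by
  have h : (0:ℝ) < 3 ^ n := by positivity
  have e : ∀ a b : ℝ, (3:ℝ) ^ (n + k) * ((a + b) / 3 ^ n) = 3 ^ k * a + 3 ^ k * b := by
    intro a b
    rw [pow_add]
    field_simp
  simp only [sq, phi, adr, Set.mem_ofPred_eq, e]
  push_cast
  constructor
  · rintro ⟨h1, h2, h3, h4⟩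
    refine ⟨?_, ?_, ?_, ?_⟩ <;> linarith
  · rintro ⟨h1, h2, h3, h4⟩
    refine ⟨?_, ?_, ?_, ?_⟩ <;> linarith

theorem sq_sub {n k : ℕ} {c d : Z2} {z : R2} (hd : d ∈ cells k)
    (h : z ∈ sq (n + k) (adr k c d)) : z ∈ sq n c := by
  obtain ⟨b1, b2, b3, b4⟩ := cells_bound hd
  have hp : (0:ℝ) < 3 ^ k := by positivity
  simp only [sq, adr, Set.mem_ofPred_eq] at h ⊢
  push_cast at h
  have c1 : (0:ℝ) ≤ d.1 := by exact_mod_cast b1
  have c2 : (d.1:ℝ) + 1 ≤ 3 ^ k := by exact_mod_cast b2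
  have c3 : (0:ℝ) ≤ d.2 := by exact_mod_cast b3
  have c4 : (d.2:ℝ) + 1 ≤ 3 ^ k := by exact_mod_cast b4
  obtain ⟨h1, h2, h3, h4⟩ := h
  have e : ∀ a : ℝ, (3:ℝ) ^ (n + k) * a = 3 ^ k * (3 ^ n * a) := by
    intro a; rw [pow_add]; ring
  rw [e] at h1 h2 h3 h4
  refine ⟨?_, ?_, ?_, ?_⟩
  · exact le_of_mul_le_mul_left (by linarith) hp
  · exact le_of_mul_le_mul_left (by linarith) hp
  · exact le_of_mul_le_mul_left (by linarith) hp
  · exact le_of_mul_le_mul_left (by linarith) hp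

theorem isClosed_sq (n : ℕ) (c : Z2) : IsClosed (sq n c) := by
  have : sq n c = {z : R2 | (c.1 : ℝ) ≤ 3 ^ n * z.1} ∩ {z : R2 | 3 ^ n * z.1 ≤ (c.1 : ℝ) + 1} ∩
      {z : R2 | (c.2 : ℝ) ≤ 3 ^ n * z.2} ∩ {z : R2 | 3 ^ n * z.2 ≤ (c.2 : ℝ) + 1} := by
    ext z
    simp only [sq, Set.mem_ofPred_eq, Set.mem_inter_iff]
    tauto
  rw [this]
  refine ((IsClosed.inter ?_ ?_).inter ?_).inter ?_
  · exact isClosed_le (by fun_prop) (by fun_prop)
  · exact isClosed_le (by fun_prop) (by fun_prop)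
  · exact isClosed_le (by fun_prop) (by fun_prop)
  · exact isClosed_le (by fun_prop) (by fun_prop)

theorem isClosed_K : IsClosed K := by
  have : K = ⋂ n, ⋃ c ∈ cells n, sq n c := by
    ext z
    simp [K]
  rw [this]
  apply isClosed_iInter
  intro n
  exact (cells n).finite_toSet.isClosed_biUnion (fun c _ => isClosed_sq n c)

theorem K_unit {z : R2} (hz : z ∈ K) : 0 ≤ z.1 ∧ z.1 ≤ 1 ∧ 0 ≤ z.2 ∧ z.2 ≤ 1 := by
  obtain ⟨c, hc, h⟩ := hz 0
  rw [mem_cells_zero] at hc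
  subst hc
  simp only [sq, Set.mem_ofPred_eq] at h
  simpa using h

theorem isCompact_K : IsCompact K := by
  apply (isCompact_Icc (a := (0:ℝ)) (b := 1)).prod (isCompact_Icc (a := (0:ℝ)) (b := 1))
    |>.of_isClosed_subset isClosed_K
  intro z hz
  obtain ⟨h1, h2, h3, h4⟩ := K_unit hz
  exact ⟨⟨h1, h2⟩, ⟨h3, h4⟩⟩

instance : CompactSpace ↥K := isCompact_iff_compactSpace.mp isCompact_K

/-- index of a subinterval containing a point of the unit interval -/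
theorem exists_index (m : ℕ) {t : ℝ} (h0 : 0 ≤ t) (h1 : t ≤ 1) :
    ∃ i : ℤ, 0 ≤ i ∧ i + 1 ≤ 3 ^ m ∧ (i:ℝ) ≤ 3 ^ m * t ∧ 3 ^ m * t ≤ i + 1 := by
  have hp : (0:ℝ) < 3 ^ m := by positivity
  rcases eq_or_lt_of_le h1 with rfl | h1
  · refine ⟨3 ^ m - 1, ?_, ?_, ?_, ?_⟩
    · have : (1:ℤ) ≤ 3 ^ m := one_le_pow₀ (by norm_num)
      linarith
    · linarith
    · push_cast; linarith
    · push_cast; linarith
  · refine ⟨⌊(3:ℝ) ^ m * t⌋, ?_, ?_, Int.floor_le _, (Int.lt_floor_add_one _).le⟩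
    · apply Int.floor_nonneg.mpr; positivity
    · have : ⌊(3:ℝ) ^ m * t⌋ < 3 ^ m := by
        rw [Int.floor_lt]
        push_cast
        nlinarith
      linarith

/-- the boundary of the unit square is in the carpet -/
theorem boundary_mem {z : R2} (h : 0 ≤ z.1 ∧ z.1 ≤ 1 ∧ 0 ≤ z.2 ∧ z.2 ≤ 1)
    (hb : z.1 = 0 ∨ z.1 = 1 ∨ z.2 = 0 ∨ z.2 = 1) : z ∈ K := by
  obtain ⟨h1, h2, h3, h4⟩ := h
  intro m
  have hp : (1:ℝ) ≤ 3 ^ m := one_le_pow₀ (by norm_num)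
  obtain ⟨i, i0, i1, i2, i3⟩ := exists_index m h1 h2
  obtain ⟨j, j0, j1, j2, j3⟩ := exists_index m h3 h4
  rcases hb with hb | hb | hb | hb
  · refine ⟨(0, j), left_mem m j j0 j1, ?_⟩
    simp only [sq, Set.mem_ofPred_eq]
    rw [hb]
    push_cast
    exact ⟨by linarith, by linarith, j2, j3⟩
  · refine ⟨(3 ^ m - 1, j), right_mem m j j0 j1, ?_⟩
    simp only [sq, Set.mem_ofPred_eq]
    rw [hb]
    push_cast
    exact ⟨by linarith, by linarith, j2, j3⟩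
  · refine ⟨(i, 0), bottom_mem m i i0 i1, ?_⟩
    simp only [sq, Set.mem_ofPred_eq]
    rw [hb]
    push_cast
    exact ⟨i2, i3, by linarith, by linarith⟩
  · refine ⟨(i, 3 ^ m - 1), top_mem m i i0 i1, ?_⟩
    simp only [sq, Set.mem_ofPred_eq]
    rw [hb]
    push_cast
    exact ⟨i2, i3, by linarith, by linarith⟩

theorem phi_mem_K {n : ℕ} {c : Z2} (hc : c ∈ cells n) {z : R2} (hz : z ∈ K) :
    phi n c z ∈ K := by
  intro m
  rcases le_total n m with h | h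
  · obtain ⟨k, rfl⟩ := Nat.exists_eq_add_of_le h
    obtain ⟨d, hd, hzd⟩ := hz k
    exact ⟨adr k c d, cells_comp hc hd, (phi_mem_sq n k c d z).mpr hzd⟩
  · obtain ⟨k, rfl⟩ := Nat.exists_eq_add_of_le h
    obtain ⟨c', hc', d', hd', rfl⟩ := cells_decomp hc
    refine ⟨c', hc', sq_sub hd' ?_⟩
    obtain ⟨e, he, hze⟩ := hz 0
    rw [mem_cells_zero] at he
    subst he
    have := (phi_mem_sq (m + k) 0 (adr k c' d') (0,0) z).mpr hze
    rwa [comp_zero, add_zero] at this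

theorem inv_unit {n : ℕ} {c : Z2} {z : R2} (hz : z ∈ sq n c) :
    0 ≤ (inv n c z).1 ∧ (inv n c z).1 ≤ 1 ∧ 0 ≤ (inv n c z).2 ∧ (inv n c z).2 ≤ 1 := by
  obtain ⟨h1, h2, h3, h4⟩ := hz
  simp only [inv]
  refine ⟨?_, ?_, ?_, ?_⟩ <;> linarith

/-- a point in two different closed squares is on the boundary of both -/
theorem inv_boundary {n : ℕ} {c c' : Z2} (hne : c ≠ c') {z : R2} (hz : z ∈ sq n c)
    (hz' : z ∈ sq n c') :
    (inv n c z).1 = 0 ∨ (inv n c z).1 = 1 ∨ (inv n c z).2 = 0 ∨ (inv n c z).2 = 1 := by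
  obtain ⟨h1, h2, h3, h4⟩ := hz
  obtain ⟨g1, g2, g3, g4⟩ := hz'
  have key : ∀ (a b : ℤ) (t : ℝ), a ≠ b → (a:ℝ) ≤ t → t ≤ a + 1 → (b:ℝ) ≤ t → t ≤ b + 1 →
      t - a = 0 ∨ t - a = 1 := by
    intro a b t hab ha ha' hb hb'
    rcases lt_or_gt_of_ne hab with h | h
    · right
      have : (a:ℝ) + 1 ≤ b := by exact_mod_cast h
      linarith
    · left
      have : (b:ℝ) + 1 ≤ a := by exact_mod_cast h
      linarith
  simp only [inv]
  by_cases e1 : c.1 = c'.1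
  · have e2 : c.2 ≠ c'.2 := fun h => hne (Prod.ext e1 h)
    rcases key _ _ _ e2 h3 h4 g3 g4 with h | h
    · right; right; left; exact h
    · right; right; right; exact h
  · rcases key _ _ _ e1 h1 h2 g1 g2 with h | h
    · left; exact h
    · right; left; exact h

theorem inv_mem_K {n : ℕ} {c : Z2} {z : R2} (hz : z ∈ K) (hzc : z ∈ sq n c) :
    inv n c z ∈ K := by
  by_cases hb : (inv n c z).1 = 0 ∨ (inv n c z).1 = 1 ∨ (inv n c z).2 = 0 ∨ (inv n c z).2 = 1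
  · exact boundary_mem (inv_unit hzc) hb
  · intro m
    obtain ⟨b, hb', hzb⟩ := hz (n + m)
    obtain ⟨c', hc', d', hd', rfl⟩ := cells_decomp hb'
    have hzc' : z ∈ sq n c' := sq_sub hd' hzb
    have : c = c' := by
      by_contra hne
      exact hb (inv_boundary hne hzc hzc')
    subst this
    refine ⟨d', hd', ?_⟩
    rw [← phi_mem_sq n m c d', phi_inv]
    exact hzb

theorem exists_sub {n : ℕ} {c : Z2} {z : R2} (hz : z ∈ K) (hzc : z ∈ sq n c) (k : ℕ) :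
    ∃ d ∈ cells k, z ∈ sq (n + k) (adr k c d) := by
  obtain ⟨d, hd, h⟩ := inv_mem_K hz hzc k
  refine ⟨d, hd, ?_⟩
  have := (phi_mem_sq n k c d (inv n c z)).mpr h
  rwa [phi_inv] at this

theorem sq_dist {n : ℕ} {c : Z2} {z w : R2} (hz : z ∈ sq n c) (hw : w ∈ sq n c) :
    dist z w ≤ 1 / 3 ^ n := by
  obtain ⟨h1, h2, h3, h4⟩ := hz
  obtain ⟨g1, g2, g3, g4⟩ := hw
  have hp : (0:ℝ) < 3 ^ n := by positivity
  rw [Prod.dist_eq, max_le_iff, Real.dist_eq, Real.dist_eq]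
  constructor
  · rw [abs_le, le_div_iff₀ hp, neg_le_iff_add_nonneg']
    constructor
    · have : 0 ≤ 1 + 3 ^ n * (z.1 - w.1) := by linarith
      have e : 1 / 3 ^ n + (z.1 - w.1) = (1 + 3 ^ n * (z.1 - w.1)) / 3 ^ n := by field_simp
      rw [e]; positivity
    · linarith
  · rw [abs_le, le_div_iff₀ hp, neg_le_iff_add_nonneg']
    constructor
    · have : 0 ≤ 1 + 3 ^ n * (z.2 - w.2) := by linarith
      have e : 1 / 3 ^ n + (z.2 - w.2) = (1 + 3 ^ n * (z.2 - w.2)) / 3 ^ n := by field_simp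
      rw [e]; positivity
    · linarith

theorem continuous_phi (n : ℕ) (c : Z2) : Continuous (phi n c) := by
  unfold phi
  fun_prop

/-- stars are neighbourhoods -/
theorem star_nhds {X ι : Type*} [TopologicalSpace X] (T : Finset ι) (S : ι → Set X)
    (hS : ∀ i ∈ T, IsClosed (S i)) (hcov : ∀ w, ∃ i ∈ T, w ∈ S i) (z : X) :
    ∃ O : Set X, IsOpen O ∧ z ∈ O ∧ ∀ w ∈ O, ∃ i ∈ T, z ∈ S i ∧ w ∈ S i := by
  classical
  refine ⟨(⋃ i ∈ (T.filter (fun i => z ∉ S i)), S i)ᶜ, ?_, ?_, ?_⟩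
  · rw [isOpen_compl_iff]
    apply Set.Finite.isClosed_biUnion (Finset.finite_toSet _)
    intro i hi
    exact hS i (Finset.mem_of_mem_filter i hi)
  · simp only [Set.mem_compl_iff, Set.mem_iUnion, Finset.mem_filter, not_exists]
    rintro i ⟨_, h⟩ h'
    exact h h'
  · intro w hw
    obtain ⟨i, hi, hwi⟩ := hcov w
    refine ⟨i, hi, ?_, hwi⟩
    by_contra hz
    apply hw
    simp only [Set.mem_iUnion, Finset.mem_filter]
    exact ⟨i, ⟨hi, hz⟩, hwi⟩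

theorem exists_small (ε : ℝ) (hε : 0 < ε) : ∃ N : ℕ, ∀ m ≥ N, 1 / (3:ℝ) ^ m < ε := by
  obtain ⟨N, hN⟩ := exists_pow_lt_of_lt_one hε (by norm_num : (1/3:ℝ) < 1)
  refine ⟨N, fun m hm => ?_⟩
  have : (1/3:ℝ) ^ m ≤ (1/3) ^ N := pow_le_pow_of_le_one (by norm_num) (by norm_num) hm
  rw [one_div_pow] at this hN
  rw [one_div_pow] at this
  linarith

end Pool.Agent.Helper38.Carpet
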