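import Mathlib
import Pool.Agent.Helper38.Geometry

set_option autoImplicit false
open Set Filter Topology

/-! The Sierpinski carpet minus a finite set is connected. -/

namespace Pool.Agent.Helper38.Carpet

/-- heights of full lines -/
def GH : Set ℝ := {t | 0 ≤ t ∧ t ≤ 1 ∧ ∀ s, 0 ≤ s → s ≤ 1 → (s, t) ∈ K ∧ (t, s) ∈ K}

theorem zero_GH : (0:ℝ) ∈ GH := by
  refine ⟨le_refl _, zero_le_one, fun s h0 h1 => ⟨?_, ?_⟩⟩
  · exact boundary_mem ⟨h0, h1, le_refl _, zero_le_one⟩ (Or.inr (Or.inr (Or.inl rfl)))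
  · exact boundary_mem ⟨le_refl _, zero_le_one, h0, h1⟩ (Or.inl rfl)

theorem one_GH : (1:ℝ) ∈ GH := by
  refine ⟨zero_le_one, le_refl _, fun s h0 h1 => ⟨?_, ?_⟩⟩
  · exact boundary_mem ⟨h0, h1, zero_le_one, le_refl _⟩ (Or.inr (Or.inr (Or.inr rfl)))
  · exact boundary_mem ⟨zero_le_one, le_refl _, h0, h1⟩ (Or.inr (Or.inl rfl))

theorem exists_digit {s : ℝ} (h0 : 0 ≤ s) (h1 : s ≤ 1) :
    ∃ i : ℤ, (i = 0 ∨ i = 1 ∨ i = 2) ∧ 0 ≤ 3 * s - i ∧ 3 * s - i ≤ 1 := by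
  obtain ⟨i, i0, i1, i2, i3⟩ := exists_index 1 h0 h1
  refine ⟨i, by norm_num at i1; omega, ?_, ?_⟩
  · norm_num at i2; linarith
  · norm_num at i3; linarith

theorem GH_low {t : ℝ} (ht : t ∈ GH) : t / 3 ∈ GH := by
  obtain ⟨t0, t1, h⟩ := ht
  refine ⟨by linarith, by linarith, fun s s0 s1 => ?_⟩
  obtain ⟨i, hi, i0, i1⟩ := exists_digit s0 s1
  have hd1 : (i, (0:ℤ)) ∈ cells 1 := by
    rw [← dig_cells, dig_iff]; simp only; omega
  have hd2 : ((0:ℤ), i) ∈ cells 1 := by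
    rw [← dig_cells, dig_iff]; simp only; omega
  constructor
  · have := phi_mem_K hd1 (h (3 * s - i) i0 i1).1
    have e : phi 1 (i, 0) (3 * s - i, t) = (s, t / 3) := by
      ext <;> simp [phi]
    rwa [e] at this
  · have := phi_mem_K hd2 (h (3 * s - i) i0 i1).2
    have e : phi 1 (0, i) (t, 3 * s - i) = (t / 3, s) := by
      ext <;> simp [phi]
    rwa [e] at this

theorem GH_high {t : ℝ} (ht : t ∈ GH) : (t + 2) / 3 ∈ GH := by
  obtain ⟨t0, t1, h⟩ := ht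
  refine ⟨by linarith, by linarith, fun s s0 s1 => ?_⟩
  obtain ⟨i, hi, i0, i1⟩ := exists_digit s0 s1
  have hd1 : (i, (2:ℤ)) ∈ cells 1 := by
    rw [← dig_cells, dig_iff]; simp only; omega
  have hd2 : ((2:ℤ), i) ∈ cells 1 := by
    rw [← dig_cells, dig_iff]; simp only; omega
  constructor
  · have := phi_mem_K hd1 (h (3 * s - i) i0 i1).1
    have e : phi 1 (i, 2) (3 * s - i, t) = (s, (t + 2) / 3) := by
      ext <;> simp [phi]
    rwa [e] at this
  · have := phi_mem_K hd2 (h (3 * s - i) i0 i1).2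
    have e : phi 1 (2, i) (t, 3 * s - i) = ((t + 2) / 3, s) := by
      ext <;> simp [phi]
    rwa [e] at this

theorem GH_infinite : GH.Infinite := by
  have h : ∀ k : ℕ, (1/3:ℝ) ^ k ∈ GH := by
    intro k
    induction k with
    | zero => simpa using one_GH
    | succ k ih =>
      have := GH_low ih
      rw [pow_succ]
      have e : (1/3:ℝ) ^ k * (1/3) = (1/3) ^ k / 3 := by ring
      rw [e]; exact this
  apply Set.infinite_of_injective_forall_mem (f := fun k : ℕ => (1/3:ℝ) ^ k) _ h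
  intro a b hab
  exact pow_right_injective₀ (by norm_num) (by norm_num) hab

/-- horizontal line in a cell -/
def HL (n : ℕ) (c : Z2) (t : ℝ) : Set R2 := (fun s : ℝ => phi n c (s, t)) '' Icc 0 1

/-- vertical line in a cell -/
def VL (n : ℕ) (c : Z2) (t : ℝ) : Set R2 := (fun s : ℝ => phi n c (t, s)) '' Icc 0 1

theorem HL_precon (n : ℕ) (c : Z2) (t : ℝ) : IsPreconnected (HL n c t) := by
  apply isPreconnected_Icc.image
  apply Continuous.continuousOn
  exact (continuous_phi n c).comp (by fun_prop)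

theorem VL_precon (n : ℕ) (c : Z2) (t : ℝ) : IsPreconnected (VL n c t) := by
  apply isPreconnected_Icc.image
  apply Continuous.continuousOn
  exact (continuous_phi n c).comp (by fun_prop)

theorem phi_injective (n : ℕ) (c : Z2) : Function.Injective (phi n c) := by
  intro a b h
  have := congrArg (inv n c) h
  rwa [inv_phi, inv_phi] at this

/-- among infinitely many heights one avoids a finite set -/
theorem exists_avoid_H (n : ℕ) (c : Z2) {F : Set R2} (hF : F.Finite) {G' : Set ℝ}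
    (hG : G'.Infinite) : ∃ t ∈ G', Disjoint (HL n c t) F := by
  by_contra hcon
  push Not at hcon
  have : G' ⊆ (fun z => (inv n c z).2) '' F := by
    intro t ht
    have h1 := hcon t ht
    rw [Set.not_disjoint_iff] at h1
    obtain ⟨z, ⟨s, _, hs⟩, hz⟩ := h1
    refine ⟨z, hz, ?_⟩
    simp only
    rw [← hs]
    simp only [inv_phi]
  exact hG ((hF.image _).subset this)

theorem exists_avoid_V (n : ℕ) (c : Z2) {F : Set R2} (hF : F.Finite) {G' : Set ℝ}
    (hG : G'.Infinite) : ∃ t ∈ G', Disjoint (VL n c t) F := by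
  by_contra hcon
  push Not at hcon
  have : G' ⊆ (fun z => (inv n c z).1) '' F := by
    intro t ht
    have h1 := hcon t ht
    rw [Set.not_disjoint_iff] at h1
    obtain ⟨z, ⟨s, _, hs⟩, hz⟩ := h1
    refine ⟨z, hz, ?_⟩
    simp only
    rw [← hs]
    simp only [inv_phi]
  exact hG ((hF.image _).subset this)

/-- points on good lines of a cell -/
def NN (F : Set R2) (n : ℕ) (c : Z2) : Set R2 :=
  {z | ∃ t ∈ GH, (z ∈ HL n c t ∧ Disjoint (HL n c t) F) ∨ (z ∈ VL n c t ∧ Disjoint (VL n c t) F)}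

def NA (F : Set R2) : Set R2 := {z | ∃ n, ∃ c ∈ cells n, z ∈ NN F n c}

def Conn (F : Set R2) (x y : R2) : Prop := ∃ T ⊆ NA F, x ∈ T ∧ y ∈ T ∧ IsPreconnected T

theorem Conn.symm {F : Set R2} {x y : R2} (h : Conn F x y) : Conn F y x := by
  obtain ⟨T, h1, h2, h3, h4⟩ := h
  exact ⟨T, h1, h3, h2, h4⟩

theorem Conn.trans {F : Set R2} {x y z : R2} (h : Conn F x y) (h' : Conn F y z) :
    Conn F x z := by
  obtain ⟨T, h1, h2, h3, h4⟩ := h
  obtain ⟨T', h1', h2', h3', h4'⟩ := h'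
  exact ⟨T ∪ T', Set.union_subset h1 h1', Or.inl h2, Or.inr h3', IsPreconnected.union y h3 h2' h4 h4'⟩

theorem HL_sub {F : Set R2} {n : ℕ} {c : Z2} (hc : c ∈ cells n) {t : ℝ} (ht : t ∈ GH)
    (hd : Disjoint (HL n c t) F) : HL n c t ⊆ NA F :=
  fun _ hz => ⟨n, c, hc, t, ht, Or.inl ⟨hz, hd⟩⟩

theorem VL_sub {F : Set R2} {n : ℕ} {c : Z2} (hc : c ∈ cells n) {t : ℝ} (ht : t ∈ GH)
    (hd : Disjoint (VL n c t) F) : VL n c t ⊆ NA F :=
  fun _ hz => ⟨n, c, hc, t, ht, Or.inr ⟨hz, hd⟩⟩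

theorem conn_HV {F : Set R2} {n : ℕ} {c : Z2} (hc : c ∈ cells n) {t t' : ℝ} (ht : t ∈ GH)
    (ht' : t' ∈ GH) (hd : Disjoint (HL n c t) F) (hd' : Disjoint (VL n c t') F) {x y : R2}
    (hx : x ∈ HL n c t) (hy : y ∈ VL n c t') : Conn F x y := by
  refine ⟨HL n c t ∪ VL n c t', Set.union_subset (HL_sub hc ht hd) (VL_sub hc ht' hd'),
    Or.inl hx, Or.inr hy, ?_⟩
  apply IsPreconnected.union (phi n c (t', t)) _ _ (HL_precon n c t) (VL_precon n c t')
  · exact ⟨t', ⟨ht'.1, ht'.2.1⟩, rfl⟩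
  · exact ⟨t, ⟨ht.1, ht.2.1⟩, rfl⟩

theorem conn_cell {F : Set R2} (hF : F.Finite) {n : ℕ} {c : Z2} (hc : c ∈ cells n) {x y : R2}
    (hx : x ∈ NN F n c) (hy : y ∈ NN F n c) : Conn F x y := by
  obtain ⟨t0, ht0, hd0⟩ := exists_avoid_H n c hF GH_infinite
  obtain ⟨t1, ht1, hd1⟩ := exists_avoid_V n c hF GH_infinite
  have key : ∀ z ∈ NN F n c, Conn F z (phi n c (t1, t0)) := by
    rintro z ⟨t, ht, ⟨hz, hd⟩ | ⟨hz, hd⟩⟩
    · exact conn_HV hc ht ht1 hd hd1 hz ⟨t0, ⟨ht0.1, ht0.2.1⟩, rfl⟩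
    · exact (conn_HV hc ht0 ht hd0 hd ⟨t1, ⟨ht1.1, ht1.2.1⟩, rfl⟩ hz).symm
  exact (key x hx).trans (key y hy).symm

theorem child_meets {F : Set R2} (hF : F.Finite) {n : ℕ} {c d : Z2} (hd : d ∈ dig) :
    ∃ x, x ∈ NN F n c ∧ x ∈ NN F (n + 1) (adr 1 c d) := by
  have e : ∀ z, phi n c (phi 1 d z) = phi (n + 1) (adr 1 c d) z := phi_comp n 1 c d
  rw [dig_iff] at hd
  -- choose the orientation
  have hcase : (d.1 = 0 ∨ d.1 = 2) ∨ (d.2 = 0 ∨ d.2 = 2) := by omega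
  rcases hcase with h | h
  · -- parent's vertical line, child's horizontal line
    have hinf : ((fun t : ℝ => (t + d.1) / 3) '' GH).Infinite := by
      apply GH_infinite.image
      intro a _ b _ hab
      simp only at hab
      linarith
    have hsub : ((fun t : ℝ => (t + d.1) / 3) '' GH) ⊆ GH := by
      rintro _ ⟨t, ht, rfl⟩
      rcases h with h | h
      · simp only [h]; simpa using GH_low ht
      · simp only [h]; simpa using GH_high ht
    obtain ⟨t1, ⟨t, ht, htt⟩, hd1⟩ := exists_avoid_V n c hF hinf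
    obtain ⟨t0, ht0, hd0⟩ := exists_avoid_H (n + 1) (adr 1 c d) hF GH_infinite
    have ht1 : t1 ∈ GH := hsub ⟨t, ht, htt⟩
    refine ⟨phi (n + 1) (adr 1 c d) (t, t0), ?_, ?_⟩
    · refine ⟨t1, ht1, Or.inr ⟨?_, hd1⟩⟩
      refine ⟨(t0 + d.2) / 3, ⟨?_, ?_⟩, ?_⟩
      · have : (0:ℝ) ≤ d.2 := by exact_mod_cast hd.2.2.1
        have := ht0.1
        positivity
      · have : (d.2:ℝ) ≤ 2 := by exact_mod_cast hd.2.2.2.1
        have := ht0.2.1
        linarith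
      · simp only
        rw [← e]
        congr 1
        ext
        · simp only [phi]; rw [← htt]; simp
        · simp [phi]
    · exact ⟨t0, ht0, Or.inl ⟨⟨t, ⟨ht.1, ht.2.1⟩, rfl⟩, hd0⟩⟩
  · have hinf : ((fun t : ℝ => (t + d.2) / 3) '' GH).Infinite := by
      apply GH_infinite.image
      intro a _ b _ hab
      simp only at hab
      linarith
    have hsub : ((fun t : ℝ => (t + d.2) / 3) '' GH) ⊆ GH := by
      rintro _ ⟨t, ht, rfl⟩
      rcases h with h | h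
      · simp only [h]; simpa using GH_low ht
      · simp only [h]; simpa using GH_high ht
    obtain ⟨t1, ⟨t, ht, htt⟩, hd1⟩ := exists_avoid_H n c hF hinf
    obtain ⟨t0, ht0, hd0⟩ := exists_avoid_V (n + 1) (adr 1 c d) hF GH_infinite
    have ht1 : t1 ∈ GH := hsub ⟨t, ht, htt⟩
    refine ⟨phi (n + 1) (adr 1 c d) (t0, t), ?_, ?_⟩
    · refine ⟨t1, ht1, Or.inl ⟨?_, hd1⟩⟩
      refine ⟨(t0 + d.1) / 3, ⟨?_, ?_⟩, ?_⟩
      · have : (0:ℝ) ≤ d.1 := by exact_mod_cast hd.1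
        have := ht0.1
        positivity
      · have : (d.1:ℝ) ≤ 2 := by exact_mod_cast hd.2.1
        have := ht0.2.1
        linarith
      · simp only
        rw [← e]
        congr 1
        ext
        · simp [phi]
        · simp only [phi]; rw [← htt]; simp
    · exact ⟨t0, ht0, Or.inr ⟨⟨t, ⟨ht.1, ht.2.1⟩, rfl⟩, hd0⟩⟩

theorem conn_root {F : Set R2} (hF : F.Finite) (n : ℕ) : ∀ c ∈ cells n, ∀ x ∈ NN F n c,
    ∀ y ∈ NN F 0 (0, 0), Conn F x y := by
  induction n with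
  | zero =>
    intro c hc x hx y hy
    rw [mem_cells_zero] at hc
    subst hc
    exact conn_cell hF (by simp [cells]) hx hy
  | succ n ih =>
    intro c hc x hx y hy
    have hc0 := hc
    rw [mem_cells_succ'] at hc
    obtain ⟨c', hc', d, hd, rfl⟩ := hc
    obtain ⟨w, hw1, hw2⟩ := child_meets hF (n := n) (c := c') hd
    exact (conn_cell hF hc0 hx hw2).trans (ih c' hc' w hw1 y hy)

theorem NN_nonempty {F : Set R2} (hF : F.Finite) (n : ℕ) (c : Z2) : (NN F n c).Nonempty := by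
  obtain ⟨t, ht, hd⟩ := exists_avoid_H n c hF GH_infinite
  exact ⟨phi n c (0, t), t, ht, Or.inl ⟨⟨0, ⟨le_refl _, zero_le_one⟩, rfl⟩, hd⟩⟩

theorem NA_precon {F : Set R2} (hF : F.Finite) : IsPreconnected (NA F) := by
  apply isPreconnected_of_forall_pair
  rintro x ⟨n, c, hc, hx⟩ y ⟨m, c', hc', hy⟩
  obtain ⟨r, hr⟩ := NN_nonempty hF 0 (0, 0)
  have := (conn_root hF n c hc x hx r hr).trans (conn_root hF m c' hc' y hy r hr).symm
  exact this

theorem NN_sub_K {F : Set R2} {n : ℕ} {c : Z2} (hc : c ∈ cells n) : NN F n c ⊆ K \ F := by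
  rintro z ⟨t, ht, ⟨⟨s, hs, rfl⟩, hd⟩ | ⟨⟨s, hs, rfl⟩, hd⟩⟩
  · refine ⟨phi_mem_K hc (ht.2.2 s hs.1 hs.2).1, fun hz => ?_⟩
    exact Set.disjoint_left.mp hd ⟨s, hs, rfl⟩ hz
  · refine ⟨phi_mem_K hc (ht.2.2 s hs.1 hs.2).2, fun hz => ?_⟩
    exact Set.disjoint_left.mp hd ⟨s, hs, rfl⟩ hz

theorem NN_sub_sq {F : Set R2} {n : ℕ} {c : Z2} : NN F n c ⊆ sq n c := by
  have h : ∀ z : R2, 0 ≤ z.1 → z.1 ≤ 1 → 0 ≤ z.2 → z.2 ≤ 1 → phi n c z ∈ sq n c := by
    intro z h1 h2 h3 h4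
    have h5 : z ∈ sq 0 (0,0) := by
      simp only [sq, Set.mem_ofPred_eq]
      simpa using ⟨h1, h2, h3, h4⟩
    have := (phi_mem_sq n 0 c (0,0) z).mpr h5
    rwa [comp_zero, add_zero] at this
  rintro z ⟨t, ht, ⟨⟨s, hs, rfl⟩, hd⟩ | ⟨⟨s, hs, rfl⟩, hd⟩⟩
  · exact h _ hs.1 hs.2 ht.1 ht.2.1
  · exact h _ ht.1 ht.2.1 hs.1 hs.2

/-- the carpet minus a finite set is preconnected -/
theorem K_diff_precon {F : Set R2} (hF : F.Finite) : IsPreconnected (K \ F) := by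
  apply (NA_precon hF).subset_closure
  · rintro z ⟨n, c, hc, hz⟩
    exact NN_sub_K hc hz
  · rintro z ⟨hz, _⟩
    rw [Metric.mem_closure_iff]
    intro ε hε
    obtain ⟨N, hN⟩ := exists_small ε hε
    obtain ⟨c, hc, hzc⟩ := hz N
    obtain ⟨w, hw⟩ := NN_nonempty hF N c
    refine ⟨w, ⟨N, c, hc, hw⟩, ?_⟩
    exact lt_of_le_of_lt (sq_dist hzc (NN_sub_sq hw)) (hN N le_rfl)

theorem K_precon : IsPreconnected K := by
  have := K_diff_precon (F := ∅) Set.finite_empty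
  simpa using this

end Pool.Agent.Helper38.Carpet
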