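import Mathlib
import Pool.Agent.Helper38.ResForm

set_option autoImplicit false
open Set Filter Topology

namespace Pool.Agent.Helper38

/-- abstract connectivity classes -/
structure Classes (X : Type*) [TopologicalSpace X] where
  cls : Set X → X → Set X
  sub : ∀ U x, x ∈ U → cls U x ⊆ U
  refl : ∀ U x, x ∈ U → x ∈ cls U x
  symm : ∀ U x y, y ∈ cls U x → x ∈ cls U y
  trans : ∀ U x y z, y ∈ cls U x → z ∈ cls U y → z ∈ cls U x
  isOpen : ∀ U x, IsOpen U → x ∈ U → IsOpen (cls U x)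
  isOpen' : ∀ U x, IsOpen U → x ∈ U → IsOpen (U \ cls U x)
  precon : ∀ U x, IsOpen U → x ∈ U → IsPreconnected (cls U x)

namespace ResForm

variable {X : Type*} [TopologicalSpace X] [CompactSpace X] [T1Space X] (𝓔 : ResForm X)

/-- admissible perturbations -/
def Adm (h u : C(X, ℝ)) : Prop :=
  u ∈ 𝓔.F ∧ ∃ Z : Finset X, (∀ z ∈ Z, h z ≠ 0) ∧
    (∀ φ ∈ 𝓔.F, (∀ x, 0 ≤ φ x) → (∀ z ∈ Z, h z < 0 → φ z = 0) → 0 ≤ 𝓔.E u φ) ∧
    (∀ φ ∈ 𝓔.F, (∀ x, 0 ≤ φ x) → (∀ z ∈ Z, 0 < h z → φ z = 0) → 𝓔.E u φ ≤ 0)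

omit [T1Space X] in
theorem Adm.neg {h u : C(X, ℝ)} (ha : 𝓔.Adm h u) : 𝓔.Adm (-h) (-u) := by
  obtain ⟨hu, Z, h0, h1, h2⟩ := ha
  refine ⟨𝓔.F.neg_mem hu, Z, ?_, ?_, ?_⟩
  · intro z hz; simpa using h0 z hz
  · intro φ hφ hnn hz
    rw [𝓔.neg_left hu hφ]
    have := h2 φ hφ hnn (fun z hz' hp => hz z hz' (by simpa using hp))
    linarith
  · intro φ hφ hnn hz
    rw [𝓔.neg_left hu hφ]
    have := h1 φ hφ hnn (fun z hz' hp => hz z hz' (by simpa using hp))
    linarith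

omit [T1Space X] in
theorem Adm.zero (h : C(X, ℝ)) : 𝓔.Adm h 0 := by
  refine ⟨𝓔.F.zero_mem, ∅, by simp, ?_, ?_⟩
  · intro φ hφ _ _
    have := 𝓔.smul_left 0 φ hφ φ hφ
    rw [zero_smul, zero_mul] at this
    rw [this]
  · intro φ hφ _ _
    have := 𝓔.smul_left 0 φ hφ φ hφ
    rw [zero_smul, zero_mul] at this
    rw [this]

omit [T1Space X] in
theorem Adm.smul {h u : C(X, ℝ)} (ha : 𝓔.Adm h u) {c : ℝ} (hc : 0 ≤ c) :
    𝓔.Adm h (c • u) := by
  obtain ⟨hu, Z, h0, h1, h2⟩ := ha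
  refine ⟨𝓔.F.smul_mem c hu, Z, h0, ?_, ?_⟩
  · intro φ hφ hnn hz
    rw [𝓔.smul_left c u hu φ hφ]
    exact mul_nonneg hc (h1 φ hφ hnn hz)
  · intro φ hφ hnn hz
    rw [𝓔.smul_left c u hu φ hφ]
    exact mul_nonpos_of_nonneg_of_nonpos hc (h2 φ hφ hnn hz)

omit [T1Space X] in
theorem Adm.add {h u v : C(X, ℝ)} (ha : 𝓔.Adm h u) (hb : 𝓔.Adm h v) :
    𝓔.Adm h (u + v) := by
  classical
  obtain ⟨hu, Z, h0, h1, h2⟩ := ha
  obtain ⟨hv, Z', h0', h1', h2'⟩ := hb
  refine ⟨𝓔.F.add_mem hu hv, Z ∪ Z', ?_, ?_, ?_⟩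
  · intro z hz
    rcases Finset.mem_union.mp hz with hz | hz
    · exact h0 z hz
    · exact h0' z hz
  · intro φ hφ hnn hz
    rw [𝓔.add_left u hu v hv φ hφ]
    have a := h1 φ hφ hnn (fun z hz' hp => hz z (Finset.mem_union_left _ hz') hp)
    have b := h1' φ hφ hnn (fun z hz' hp => hz z (Finset.mem_union_right _ hz') hp)
    linarith
  · intro φ hφ hnn hz
    rw [𝓔.add_left u hu v hv φ hφ]
    have a := h2 φ hφ hnn (fun z hz' hp => hz z (Finset.mem_union_left _ hz') hp)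
    have b := h2' φ hφ hnn (fun z hz' hp => hz z (Finset.mem_union_right _ hz') hp)
    linarith

/-- Green function with pole condition at a single point, on the whole domain -/
noncomputable def Gp (p x : X) : C(X, ℝ) := 𝓔.G {p} ⟨p, rfl⟩ x

omit [T1Space X] in
theorem Gp_mem (p x : X) : 𝓔.Gp p x ∈ 𝓔.F := (𝓔.G_mem {p} ⟨p, rfl⟩ x).1

omit [T1Space X] in
theorem Gp_symm (p x y : X) : 𝓔.Gp p x y = 𝓔.Gp p y x := 𝓔.G_symm _ _ x y

omit [T1Space X] in
theorem Gp_E (p x : X) {φ : C(X, ℝ)} (hφ : φ ∈ 𝓔.F) : 𝓔.E (𝓔.Gp p x) φ = φ x - φ p := by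
  have h1 : φ - ContinuousMap.const X (φ p) ∈ 𝓔.FA {p} := by
    refine ⟨𝓔.F.sub_mem hφ (𝓔.const_mem _), ?_⟩
    intro y hy
    rw [Set.mem_singleton_iff] at hy
    subst hy
    simp
  have h2 := 𝓔.G_E {p} ⟨p, rfl⟩ x h1
  have h3 := 𝓔.sub_right hφ (𝓔.const_mem (φ p)) (𝓔.Gp_mem p x)
  have h4 := 𝓔.E_const_right (φ p) (𝓔.Gp_mem p x)
  have h5 : 𝓔.E (𝓔.Gp p x) (φ - ContinuousMap.const X (φ p)) = φ x - φ p := h2
  rw [h3, h4] at h5
  linarith

omit [T1Space X] in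
theorem Adm.pair {h : C(X, ℝ)} (p : X) {z z' : X} (hz : 0 < h z) (hz' : h z' < 0) :
    𝓔.Adm h (𝓔.Gp p z - 𝓔.Gp p z') := by
  classical
  have hE : ∀ φ ∈ 𝓔.F, 𝓔.E (𝓔.Gp p z - 𝓔.Gp p z') φ = φ z - φ z' := by
    intro φ hφ
    rw [𝓔.sub_left (𝓔.Gp_mem p z) (𝓔.Gp_mem p z') hφ, 𝓔.Gp_E p z hφ, 𝓔.Gp_E p z' hφ]
    ring
  refine ⟨𝓔.F.sub_mem (𝓔.Gp_mem p z) (𝓔.Gp_mem p z'), {z, z'}, ?_, ?_, ?_⟩
  · intro y hy
    simp only [Finset.mem_insert, Finset.mem_singleton] at hy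
    rcases hy with rfl | rfl
    · exact hz.ne'
    · exact hz'.ne
  · intro φ hφ hnn hy
    rw [hE φ hφ, hy z' (by simp) hz', sub_zero]
    exact hnn z
  · intro φ hφ hnn hy
    rw [hE φ hφ, hy z (by simp) hz]
    linarith [hnn z']

/-- hypothesis: `h` is the potential of a unit current from `p` to `q`, normalised by a constant -/
def Dipole (h : C(X, ℝ)) (p q : X) : Prop :=
  h ∈ 𝓔.F ∧ (∀ φ ∈ 𝓔.F, 𝓔.E h φ = φ p - φ q) ∧ 0 < h p ∧ h q < 0

omit [T1Space X] in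
theorem Dipole.neg {h : C(X, ℝ)} {p q : X} (hd : 𝓔.Dipole h p q) : 𝓔.Dipole (-h) q p := by
  obtain ⟨h1, h2, h3, h4⟩ := hd
  refine ⟨𝓔.F.neg_mem h1, fun φ hφ => ?_, by simpa using h4, by simpa using h3⟩
  rw [𝓔.neg_left h1 hφ, h2 φ hφ]; ring

/-- positive part of the perturbed potential is connected to `p` -/
theorem pos_connected (C : Classes X) {h u : C(X, ℝ)} {p q : X} (hd : 𝓔.Dipole h p q)
    (ha : 𝓔.Adm h u) (τ : ℝ) :
    ∀ᶠ κ in 𝓝[>] (0:ℝ), ∀ v : C(X, ℝ), v = h - κ • (u - ContinuousMap.const X τ) →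
      ∀ x, 0 < v x → p ∈ C.cls {y | 0 < v y} x := by
  classical
  obtain ⟨hh, hE, hp, hq⟩ := hd
  obtain ⟨hu, Z, h0, h1, h2⟩ := ha
  have hev : ∀ z, h z ≠ 0 → ∀ᶠ κ in 𝓝[>] (0:ℝ), 0 < h z * (h z - κ * (u z - τ)) := by
    intro z hz
    have hc : Tendsto (fun κ : ℝ => h z * (h z - κ * (u z - τ))) (𝓝 0) (𝓝 (h z * (h z - 0 * (u z - τ)))) := by
      apply Continuous.tendsto
      fun_prop
    have hpos : 0 < h z * (h z - 0 * (u z - τ)) := by
      rw [zero_mul, sub_zero]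
      exact mul_self_pos.mpr hz
    exact (hc.eventually (lt_mem_nhds hpos)).filter_mono nhdsWithin_le_nhds
  have hZ : ∀ᶠ κ in 𝓝[>] (0:ℝ), ∀ z ∈ Z, 0 < h z * (h z - κ * (u z - τ)) :=
    (Finset.eventually_all Z).mpr (fun z hz => hev z (h0 z hz))
  filter_upwards [hZ, hev p hp.ne', hev q hq.ne, self_mem_nhdsWithin] with κ hκZ hκp hκq hκ0
  intro v hv x hx
  have hκ0 : 0 < κ := hκ0
  have vap : ∀ y, v y = h y - κ * (u y - τ) := by
    intro y
    rw [hv]
    simp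
  have vF : v ∈ 𝓔.F := by
    rw [hv]
    exact 𝓔.F.sub_mem hh (𝓔.F.smul_mem κ (𝓔.F.sub_mem hu (𝓔.const_mem τ)))
  have vq : v q < 0 := by
    rw [← vap] at hκq
    by_contra hcon
    push Not at hcon
    have := mul_nonpos_of_nonpos_of_nonneg hq.le hcon
    linarith
  have hUo : IsOpen {y | 0 < v y} := isOpen_lt continuous_const v.continuous
  by_contra hpV
  set V := C.cls {y | 0 < v y} x with hV
  have hsub := C.sub {y | 0 < v y} x hx
  have hxV : x ∈ V := C.refl _ x hx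
  obtain ⟨φ, hφ, φV, φV', hφE⟩ := 𝓔.exists_trunc vF (V := V) (C.isOpen _ x hUo hx)
    (C.isOpen' _ x hUo hx) (ε := v x / 2) (by linarith)
  have φnn : ∀ y, 0 ≤ φ y := by
    intro y
    by_cases hy : y ∈ V
    · rw [φV y hy]; exact le_max_right _ _
    · rw [φV' y hy]
  have φp : φ p = 0 := φV' p hpV
  have φq : φ q = 0 := by
    apply φV' q
    intro hqV
    have : 0 < v q := hsub hqV
    linarith
  have hEv : 𝓔.E v φ = - κ * 𝓔.E u φ := by
    rw [hv, 𝓔.sub_left hh (𝓔.F.smul_mem κ (𝓔.F.sub_mem hu (𝓔.const_mem τ))) hφ, hE φ hφ,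
      φp, φq, 𝓔.smul_left κ _ (𝓔.F.sub_mem hu (𝓔.const_mem τ)) φ hφ,
      𝓔.sub_left hu (𝓔.const_mem τ) hφ, 𝓔.E_const τ φ hφ]
    ring
  have hEu : 0 ≤ 𝓔.E u φ := by
    apply h1 φ hφ φnn
    intro z hz hzneg
    apply φV' z
    intro hzV
    have h3 : 0 < v z := hsub hzV
    have h4 := hκZ z hz
    rw [← vap] at h4
    have := mul_nonpos_of_nonpos_of_nonneg hzneg.le h3.le
    linarith
  have h5 : 𝓔.E φ φ ≤ 0 := by
    rw [← hφE, hEv]
    have := mul_nonneg hκ0.le hEu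
    linarith
  have h6 := 𝓔.const_of_E_zero hφ h5 x p
  rw [φp, φV x hxV] at h6
  have h7 : v x - v x / 2 ≤ 0 := by rw [← h6]; exact le_max_left _ _
  linarith

/-- the one-sided comparison lemma -/
theorem green_sign (C : Classes X) {h g : C(X, ℝ)} {p q : X} (hd : 𝓔.Dipole h p q)
    {ι : Type*} [Fintype ι] (x : ι → X) (hx : ∀ i, h (x i) = 0) (c : ι → ℝ) (hg : g ∈ 𝓔.F)
    (hgE : ∀ φ ∈ 𝓔.F, 𝓔.E g φ = ∑ i, c i * φ (x i))
    (hpos : ∀ z, 0 < h z → g z ≤ 0) : ∀ z, h z < 0 → g z ≤ 0 := by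
  obtain ⟨hh, hE, hp, hq⟩ := hd
  intro z hz
  by_contra hcon
  push Not at hcon
  have hUo : IsOpen {y | 0 < g y} := isOpen_lt continuous_const g.continuous
  set V := C.cls {y | 0 < g y} z with hV
  have hsub := C.sub {y | 0 < g y} z hcon
  have hzV : z ∈ V := C.refl _ z hcon
  have hVo := C.isOpen _ z hUo hcon
  have hpV : p ∉ V := by
    intro h1
    have h2 : 0 < g p := hsub h1
    have := hpos p hp
    linarith
  obtain ⟨φ, hφ, φV, φV', hφE⟩ := 𝓔.exists_trunc hg (V := V) hVo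
    (C.isOpen' _ z hUo hcon) (ε := g z / 2) (by linarith)
  have φnn : ∀ y, 0 ≤ φ y := by
    intro y
    by_cases hy : y ∈ V
    · rw [φV y hy]; exact le_max_right _ _
    · rw [φV' y hy]
  have φp : φ p = 0 := φV' p hpV
  have hEpos : 0 < 𝓔.E φ φ := by
    by_contra hle
    push Not at hle
    have h6 := 𝓔.const_of_E_zero hφ hle z p
    rw [φp, φV z hzV] at h6
    have h7 : g z - g z / 2 ≤ 0 := by rw [← h6]; exact le_max_left _ _
    linarith
  rw [← hφE, hgE φ hφ] at hEpos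
  obtain ⟨i, -, hi⟩ : ∃ i ∈ Finset.univ, 0 < c i * φ (x i) := by
    by_contra hall
    push Not at hall
    have := Finset.sum_nonpos hall
    linarith
  have hxiV : x i ∈ V := by
    by_contra hne
    rw [φV' _ hne, mul_zero] at hi
    exact lt_irrefl _ hi
  have hVne : (Vᶜ).Nonempty := ⟨p, hpV⟩
  have key := 𝓔.smp hVo hVne (C.precon _ z hUo hcon) (u := -h) (𝓔.F.neg_mem hh)
    (fun y hy => by
      have h1 : 0 < g y := hsub hy
      rw [ContinuousMap.neg_apply]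
      by_contra h2
      push Not at h2
      have := hpos y (by linarith)
      linarith)
    (fun ψ hψ hψnn => by
      rw [𝓔.neg_left hh hψ.1, hE ψ hψ.1, hψ.2 p hpV]
      have := hψnn q
      linarith)
    hzV (by rw [ContinuousMap.neg_apply]; linarith) hxiV
  rw [ContinuousMap.neg_apply, hx i] at key
  linarith

/-- which sign patterns can be realised -/
def Realizable (h : C(X, ℝ)) (x : Fin 4 → X) (s : Fin 4 → ℝ) : Prop :=
  ∃ u τ, 𝓔.Adm h u ∧ ∀ i, 0 < s i * (u (x i) - τ)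

omit [T1Space X] in
theorem farkas {h : C(X, ℝ)} {x : Fin 4 → X} {s : Fin 4 → ℝ} (hs : ¬ 𝓔.Realizable h x s) :
    ∃ n : Fin 4 → ℝ, (∀ i, 0 ≤ n i) ∧ (∃ i, n i ≠ 0) ∧ (∑ i, n i * s i = 0) ∧
      ∀ u, 𝓔.Adm h u → ∑ i, n i * s i * u (x i) ≤ 0 := by
  let K : Set (Fin 4 → ℝ) := {k | ∃ u τ, 𝓔.Adm h u ∧ ∀ i, k i = s i * (u (x i) - τ)}
  let P : Set (Fin 4 → ℝ) := {k | ∀ i, 0 < k i}
  have hPo : IsOpen P := by
    have : P = ⋂ i, {k : Fin 4 → ℝ | 0 < k i} := by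
      ext k; simp [P]
    rw [this]
    exact isOpen_iInter_of_finite (fun i => isOpen_lt continuous_const (continuous_apply i))
  have hPc : Convex ℝ P := by
    intro a ha b hb t r ht hr htr i
    simp only [Pi.add_apply, Pi.smul_apply, smul_eq_mul]
    have h1 := ha i
    have h2 := hb i
    rcases ht.lt_or_eq with h3 | h3
    · have := mul_pos h3 h1
      have := mul_nonneg hr h2.le
      linarith
    · rw [← h3] at htr ⊢
      have : r = 1 := by linarith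
      rw [this]
      linarith
  have hKsmul : ∀ k ∈ K, ∀ t : ℝ, 0 ≤ t → t • k ∈ K := by
    rintro k ⟨u, τ, hu, hk⟩ t ht
    refine ⟨t • u, t * τ, Adm.smul 𝓔 hu ht, fun i => ?_⟩
    simp only [Pi.smul_apply, smul_eq_mul, hk i, ContinuousMap.smul_apply]
    ring
  have hKadd : ∀ k ∈ K, ∀ l ∈ K, k + l ∈ K := by
    rintro k ⟨u, τ, hu, hk⟩ l ⟨v, σ, hv, hl⟩
    refine ⟨u + v, τ + σ, Adm.add 𝓔 hu hv, fun i => ?_⟩
    simp only [Pi.add_apply, hk i, hl i, ContinuousMap.add_apply]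
    ring
  have hKc : Convex ℝ K := by
    intro a ha b hb t r ht hr htr
    exact hKadd _ (hKsmul a ha t ht) _ (hKsmul b hb r hr)
  have hK0 : (0 : Fin 4 → ℝ) ∈ K := ⟨0, 0, Adm.zero 𝓔 h, fun i => by simp⟩
  have hdis : Disjoint P K := by
    rw [Set.disjoint_left]
    rintro k hk ⟨u, τ, hu, hk2⟩
    exact hs ⟨u, τ, hu, fun i => by rw [← hk2 i]; exact hk i⟩
  obtain ⟨f, u0, hf1, hf2⟩ := geometric_hahn_banach_open hPc hPo hKc hdis
  have hu0 : u0 ≤ 0 := by simpa using hf2 0 hK0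
  have hKnn : ∀ k ∈ K, 0 ≤ f k := by
    intro k hk
    by_contra hneg
    push Not at hneg
    have h1 := hf2 _ (hKsmul k hk ((u0 - 1) / f k) (div_nonneg_of_nonpos (by linarith) hneg.le))
    rw [map_smul, smul_eq_mul, div_mul_cancel₀ _ hneg.ne] at h1
    linarith
  have hfe : ∀ i, f (Pi.single i 1) ≤ 0 := by
    intro i
    have h1 : ∀ δ > 0, f (Pi.single i 1) + δ * f (fun _ => 1) < 0 := by
      intro δ hδ
      have h2 : (Pi.single i 1 + δ • (fun _ => (1:ℝ)) : Fin 4 → ℝ) ∈ P := by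
        intro j
        simp only [Pi.add_apply, Pi.smul_apply, smul_eq_mul, mul_one]
        have : (0:ℝ) ≤ (Pi.single i 1 : Fin 4 → ℝ) j := by
          rw [Pi.single_apply]; split_ifs <;> norm_num
        linarith
      have h3 := hf1 _ h2
      rw [map_add, map_smul, smul_eq_mul] at h3
      linarith
    by_contra hpos
    push Not at hpos
    have h4 := h1 (f (Pi.single i 1) / (|f (fun _ => 1)| + 1)) (by positivity)
    have h5 : f (Pi.single i 1) / (|f (fun _ => 1)| + 1) * f (fun _ => 1)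
        ≥ - f (Pi.single i 1) := by
      have h6 : 0 < |f (fun _ => 1)| + 1 := by positivity
      have h7 : f (Pi.single i 1) / (|f (fun _ => 1)| + 1) * f (fun _ => 1)
          = f (Pi.single i 1) * (f (fun _ => 1) / (|f (fun _ => 1)| + 1)) := by ring
      rw [h7]
      have h8 : -1 ≤ f (fun _ => 1) / (|f (fun _ => 1)| + 1) := by
        rw [le_div_iff₀ h6]
        have := neg_abs_le (f (fun _ => (1:ℝ)))
        linarith
      nlinarith
    linarith
  have hf1' : f (fun _ => 1) < 0 := by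
    have := hf1 (fun _ => 1) (fun i => by norm_num)
    linarith
  have hfsum : ∀ k : Fin 4 → ℝ, f k = ∑ i, k i * f (Pi.single i 1) := by
    intro k
    have : k = ∑ i, k i • (Pi.single i (1:ℝ) : Fin 4 → ℝ) := by
      ext j
      simp [Finset.sum_apply, Pi.single_apply]
    conv_lhs => rw [this]
    rw [map_sum]
    simp only [map_smul, smul_eq_mul]
  refine ⟨fun i => - f (Pi.single i 1), fun i => by linarith [hfe i], ?_, ?_, ?_⟩
  · by_contra hall
    push Not at hall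
    have : f (fun _ => 1) = 0 := by
      rw [hfsum]
      apply Finset.sum_eq_zero
      intro i _
      have := hall i
      have h9 : f (Pi.single i 1) = 0 := by linarith
      rw [h9, mul_zero]
    linarith
  · have h1 : ∀ τ : ℝ, 0 ≤ f (fun i => s i * (0 - τ)) := by
      intro τ
      exact hKnn _ ⟨0, τ, Adm.zero 𝓔 h, fun i => by simp⟩
    have h2 : ∀ τ : ℝ, f (fun i => s i * (0 - τ)) = τ * (∑ i, - f (Pi.single i 1) * s i) := by
      intro τ
      rw [hfsum, Finset.mul_sum]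
      apply Finset.sum_congr rfl
      intro i _
      ring
    have h3 := h1 1
    have h4 := h1 (-1)
    rw [h2] at h3 h4
    linarith
  · intro u hu
    have h1 : 0 ≤ f (fun i => s i * (u (x i) - 0)) := hKnn _ ⟨u, 0, hu, fun i => rfl⟩
    rw [hfsum] at h1
    have h2 : ∑ i, s i * (u (x i) - 0) * f (Pi.single i 1)
        = - ∑ i, - f (Pi.single i 1) * s i * u (x i) := by
      rw [← Finset.sum_neg_distrib]
      apply Finset.sum_congr rfl
      intro i _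
      ring
    rw [h2] at h1
    linarith

/-- planarity hypothesis for four points -/
def Planar4 (C : Classes X) (x : Fin 4 → X) : Prop :=
  ∀ U U' W W' T T' : Set X, IsOpen U → IsOpen U' → IsOpen W → IsOpen W' → IsOpen T → IsOpen T' →
    Disjoint U U' → Disjoint W W' → Disjoint T T' →
    x 0 ∈ U → x 1 ∈ C.cls U (x 0) → x 2 ∈ U' → x 3 ∈ C.cls U' (x 2) →
    x 0 ∈ W → x 2 ∈ C.cls W (x 0) → x 1 ∈ W' → x 3 ∈ C.cls W' (x 1) →
    x 0 ∈ T → x 3 ∈ C.cls T (x 0) → x 1 ∈ T' → x 2 ∈ C.cls T' (x 1) → False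

/-- realizability gives connections -/
theorem realizable_connects (C : Classes X) {h : C(X, ℝ)} {p q : X} (hd : 𝓔.Dipole h p q)
    {x : Fin 4 → X} (hx : ∀ i, h (x i) = 0) {s : Fin 4 → ℝ} (hs : 𝓔.Realizable h x s) :
    ∃ U U' : Set X, IsOpen U ∧ IsOpen U' ∧ Disjoint U U' ∧
      (∀ i, s i < 0 → x i ∈ U) ∧ (∀ i, 0 < s i → x i ∈ U') ∧
      (∀ i j, s i < 0 → s j < 0 → x j ∈ C.cls U (x i)) ∧
      (∀ i j, 0 < s i → 0 < s j → x j ∈ C.cls U' (x i)) := by
  obtain ⟨u, τ, hu, hsu⟩ := hs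
  have e1 := 𝓔.pos_connected C hd hu τ
  have e2 := 𝓔.pos_connected C (Dipole.neg 𝓔 hd) (Adm.neg 𝓔 hu) (-τ)
  obtain ⟨κ, hκ1, hκ2, hκ0⟩ := (e1.and (e2.and self_mem_nhdsWithin)).exists
  have hκ0 : 0 < κ := hκ0
  set v : C(X, ℝ) := h - κ • (u - ContinuousMap.const X τ) with hv
  have hv' : -v = -h - κ • (-u - ContinuousMap.const X (-τ)) := by
    ext y
    simp [hv]
    ring
  have c1 := hκ1 v rfl
  have c2 := hκ2 (-v) hv'
  have vx : ∀ i, v (x i) = - κ * (u (x i) - τ) := by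
    intro i
    rw [hv]
    simp [hx i]
  have neg_pos : ∀ i, s i < 0 → 0 < v (x i) := by
    intro i hi
    rw [vx]
    have h1 := hsu i
    have h2 : u (x i) - τ < 0 := by
      by_contra h3
      push Not at h3
      have := mul_nonpos_of_nonpos_of_nonneg hi.le h3
      linarith
    have := mul_pos_of_neg_of_neg (neg_lt_zero.mpr hκ0) h2
    exact this
  have pos_neg : ∀ i, 0 < s i → v (x i) < 0 := by
    intro i hi
    rw [vx]
    have h1 := hsu i
    have h2 : 0 < u (x i) - τ := by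
      by_contra h3
      push Not at h3
      have := mul_nonpos_of_nonneg_of_nonpos hi.le h3
      linarith
    have := mul_pos hκ0 h2
    linarith
  refine ⟨{y | 0 < v y}, {y | 0 < (-v) y}, isOpen_lt continuous_const v.continuous,
    isOpen_lt continuous_const (-v).continuous, ?_, fun i hi => neg_pos i hi,
    fun i hi => ?_, ?_, ?_⟩
  · rw [Set.disjoint_left]
    intro y h1 h2
    have h1' : 0 < v y := h1
    have h2' : 0 < -(v y) := h2
    linarith
  · change 0 < -(v (x i))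
    linarith [pos_neg i hi]
  · intro i j hi hj
    have a := c1 (x i) (neg_pos i hi)
    have b := c1 (x j) (neg_pos j hj)
    exact C.trans _ _ _ _ a (C.symm _ _ _ b)
  · intro i j hi hj
    have a := c2 (x i) (by rw [ContinuousMap.neg_apply]; linarith [pos_neg i hi])
    have b := c2 (x j) (by rw [ContinuousMap.neg_apply]; linarith [pos_neg j hj])
    exact C.trans _ _ _ _ a (C.symm _ _ _ b)

/-- **main network theorem**: planar four points are dependent outside the zero set of `h` -/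
theorem dependent (C : Classes X) {h : C(X, ℝ)} {p q : X} (hd : 𝓔.Dipole h p q)
    {x : Fin 4 → X} (hx : ∀ i, h (x i) = 0) (hpl : Planar4 C x) :
    ∃ c : Fin 4 → ℝ, (∃ i, c i ≠ 0) ∧ ∑ i, c i = 0 ∧
      ∃ m : ℝ, ∀ z, h z ≠ 0 → ∑ i, c i * 𝓔.Gp p (x i) z = m := by
  -- some pattern is not realizable
  obtain ⟨s, hs1, hs⟩ : ∃ s : Fin 4 → ℝ, (∀ i, s i = 1 ∨ s i = -1) ∧ ¬ 𝓔.Realizable h x s := by
    by_contra hall
    push Not at hall
    have r1 := hall ![-1, -1, 1, 1] (by intro i; fin_cases i <;> simp)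
    have r2 := hall ![-1, 1, -1, 1] (by intro i; fin_cases i <;> simp)
    have r3 := hall ![-1, 1, 1, -1] (by intro i; fin_cases i <;> simp)
    obtain ⟨U, U', oU, oU', dU, a1, a2, a3, a4⟩ := 𝓔.realizable_connects C hd hx r1
    obtain ⟨W, W', oW, oW', dW, b1, b2, b3, b4⟩ := 𝓔.realizable_connects C hd hx r2
    obtain ⟨T, T', oT, oT', dT, t1, t2, t3, t4⟩ := 𝓔.realizable_connects C hd hx r3
    exact hpl U U' W W' T T' oU oU' oW oW' oT oT' dU dW dT
      (a1 0 (by simp)) (a3 0 1 (by simp) (by simp))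
      (a2 2 (by simp)) (a4 2 3 (by simp) (by simp))
      (b1 0 (by simp)) (b3 0 2 (by simp) (by simp))
      (b2 1 (by simp)) (b4 1 3 (by simp) (by simp))
      (t1 0 (by simp)) (t3 0 3 (by simp) (by simp))
      (t2 1 (by simp)) (t4 1 2 (by simp) (by simp))
  obtain ⟨n, hn0, ⟨i0, hi0⟩, hns, hnu⟩ := 𝓔.farkas hs
  have hsne : ∀ i, s i ≠ 0 := by
    intro i
    rcases hs1 i with h1 | h1 <;> rw [h1] <;> norm_num
  set c : Fin 4 → ℝ := fun i => n i * s i with hc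
  set g : C(X, ℝ) := ∑ i, c i • 𝓔.Gp p (x i) with hg
  have gap : ∀ z, g z = ∑ i, c i * 𝓔.Gp p (x i) z := by
    intro z
    rw [hg, ContinuousMap.sum_apply]
    rfl
  have gF : g ∈ 𝓔.F := Submodule.sum_mem _ (fun i _ => 𝓔.F.smul_mem _ (𝓔.Gp_mem p (x i)))
  have hcs : ∑ i, c i = 0 := hns
  have gE : ∀ φ ∈ 𝓔.F, 𝓔.E g φ = ∑ i, c i * φ (x i) := by
    intro φ hφ
    have h1 : ∀ t : Finset (Fin 4), 𝓔.E (∑ i ∈ t, c i • 𝓔.Gp p (x i)) φ
        = ∑ i ∈ t, c i * (φ (x i) - φ p) := by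
      intro t
      induction t using Finset.induction_on with
      | empty =>
        have := 𝓔.smul_left 0 φ hφ φ hφ
        rw [zero_smul, zero_mul] at this
        simp [this]
      | insert a t ha ih =>
        rw [Finset.sum_insert ha, Finset.sum_insert ha,
          𝓔.add_left _ (𝓔.F.smul_mem _ (𝓔.Gp_mem p (x a))) _
            (Submodule.sum_mem _ (fun i _ => 𝓔.F.smul_mem _ (𝓔.Gp_mem p (x i)))) φ hφ, ih,
          𝓔.smul_left _ _ (𝓔.Gp_mem p (x a)) φ hφ, 𝓔.Gp_E p (x a) hφ]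
    rw [hg, h1 Finset.univ]
    simp only [mul_sub]
    rw [Finset.sum_sub_distrib, ← Finset.sum_mul, hcs]
    ring
  have hcmp : ∀ z z', 0 < h z → h z' < 0 → g z ≤ g z' := by
    intro z z' hz hz'
    have h1 := hnu _ (Adm.pair 𝓔 p hz hz')
    have h2 : ∑ i, n i * s i * (𝓔.Gp p z - 𝓔.Gp p z') (x i) = g z - g z' := by
      rw [gap, gap, ← Finset.sum_sub_distrib]
      apply Finset.sum_congr rfl
      intro i _
      rw [ContinuousMap.sub_apply, 𝓔.Gp_symm p z, 𝓔.Gp_symm p z']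
      ring
    rw [h2] at h1
    linarith
  obtain ⟨hh, hE, hp, hq⟩ := id hd
  set m : ℝ := sSup (g '' {z | 0 < h z}) with hm
  have hbdd : BddAbove (g '' {z | 0 < h z}) := by
    refine ⟨g q, ?_⟩
    rintro _ ⟨z, hz, rfl⟩
    exact hcmp z q hz hq
  have hle : ∀ z, 0 < h z → g z ≤ m := fun z hz => le_csSup hbdd ⟨z, hz, rfl⟩
  have hge : ∀ z, h z < 0 → m ≤ g z := by
    intro z hz
    have hne : (g '' {z | 0 < h z}).Nonempty := ⟨g p, p, hp, rfl⟩
    apply csSup_le hne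
    rintro _ ⟨y, hy, rfl⟩
    exact hcmp y z hy hz
  set g1 : C(X, ℝ) := g - ContinuousMap.const X m with hg1
  have g1F : g1 ∈ 𝓔.F := 𝓔.F.sub_mem gF (𝓔.const_mem m)
  have g1E : ∀ φ ∈ 𝓔.F, 𝓔.E g1 φ = ∑ i, c i * φ (x i) := by
    intro φ hφ
    rw [hg1, 𝓔.sub_left gF (𝓔.const_mem m) hφ, 𝓔.E_const m φ hφ, gE φ hφ, sub_zero]
  have g1ap : ∀ z, g1 z = g z - m := fun z => rfl
  have s1 := 𝓔.green_sign C hd x hx c g1F g1E (fun z hz => by
    rw [g1ap]; linarith [hle z hz])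
  have s2 := 𝓔.green_sign C (Dipole.neg 𝓔 hd) (g := -g1) x (fun i => by simp [hx i]) (fun i => - c i)
    (𝓔.F.neg_mem g1F) (fun φ hφ => by
      rw [𝓔.neg_left g1F hφ, g1E φ hφ, ← Finset.sum_neg_distrib]
      apply Finset.sum_congr rfl
      intro i _
      ring) (fun z hz => by
    rw [ContinuousMap.neg_apply] at hz
    rw [ContinuousMap.neg_apply, g1ap]
    linarith [hge z (by linarith)])
  refine ⟨c, ⟨i0, mul_ne_zero hi0 (hsne i0)⟩, hcs, m, fun z hz => ?_⟩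
  rw [← gap]
  rcases lt_or_gt_of_ne hz with h1 | h1
  · have a := s1 z h1
    have b := hge z h1
    rw [g1ap] at a
    linarith
  · have a := s2 z (by rw [ContinuousMap.neg_apply]; linarith)
    have b := hle z h1
    rw [ContinuousMap.neg_apply, g1ap] at a
    linarith

end ResForm

end Pool.Agent.Helper38
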