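import Mathlib
import Pool.Agent.Helper38.Connected
import Pool.Agent.Helper38.Network

set_option autoImplicit false
open Set Filter Topology

/-! The form on a finite union of cells. -/

namespace Pool.Agent.Helper38.Carpet

/-- union of cells -/
def Wset (n : ℕ) (T : Finset Z2) : Set R2 := {z | z ∈ K ∧ ∃ c ∈ T, z ∈ sq n c}

theorem isClosed_Wset (n : ℕ) (T : Finset Z2) : IsClosed (Wset n T) := by
  have : Wset n T = K ∩ ⋃ c ∈ T, sq n c := by
    ext z; simp [Wset]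
  rw [this]
  exact isClosed_K.inter (T.finite_toSet.isClosed_biUnion (fun c _ => isClosed_sq n c))

theorem isCompact_Wset (n : ℕ) (T : Finset Z2) : IsCompact (Wset n T) :=
  isCompact_K.of_isClosed_subset (isClosed_Wset n T) (fun _ h => h.1)

instance (n : ℕ) (T : Finset Z2) : CompactSpace ↥(Wset n T) :=
  isCompact_iff_compactSpace.mp (isCompact_Wset n T)

/-- image of a cell lies in its square -/
theorem phi_mem_own (n : ℕ) (c : Z2) {z : R2} (hz : z ∈ K) : phi n c z ∈ sq n c := by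
  obtain ⟨h1, h2, h3, h4⟩ := K_unit hz
  have h5 : z ∈ sq 0 (0,0) := by
    simp only [sq, Set.mem_ofPred_eq]
    simpa using ⟨h1, h2, h3, h4⟩
  have := (phi_mem_sq n 0 c (0,0) z).mpr h5
  rwa [comp_zero, add_zero] at this

/-- embedding of the carpet onto a cell -/
noncomputable def embK (n : ℕ) (c : Z2) (hc : c ∈ cells n) : C(KK, KK) where
  toFun z := ⟨phi n c z.1, phi_mem_K hc z.2⟩
  continuous_toFun := by
    apply Continuous.subtype_mk
    exact (continuous_phi n c).comp continuous_subtype_val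

noncomputable def emb {n : ℕ} {T : Finset Z2} (hT : T ⊆ cells n) (c : Z2) (hc : c ∈ T) :
    C(KK, ↥(Wset n T)) where
  toFun z := ⟨phi n c z.1, phi_mem_K (hT hc) z.2, c, hc, phi_mem_own n c z.2⟩
  continuous_toFun := by
    apply Continuous.subtype_mk
    exact (continuous_phi n c).comp continuous_subtype_val

/-- pull-back of a function to a cell (zero if `c` is not a cell) -/
noncomputable def pullK (n : ℕ) (c : Z2) (f : C(KK, ℝ)) : C(KK, ℝ) :=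
  if h : c ∈ cells n then f.comp (embK n c h) else 0

open Classical in
noncomputable def pull {n : ℕ} {T : Finset Z2} (hT : T ⊆ cells n) (c : Z2)
    (f : C(↥(Wset n T), ℝ)) : C(KK, ℝ) :=
  if h : c ∈ T then f.comp (emb hT c h) else 0

theorem pullK_of {n : ℕ} {c : Z2} (h : c ∈ cells n) (f : C(KK, ℝ)) :
    pullK n c f = f.comp (embK n c h) := dif_pos h

theorem pull_of {n : ℕ} {T : Finset Z2} (hT : T ⊆ cells n) {c : Z2} (h : c ∈ T)
    (f : C(↥(Wset n T), ℝ)) : pull hT c f = f.comp (emb hT c h) := dif_pos h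

theorem pull_add {n : ℕ} {T : Finset Z2} (hT : T ⊆ cells n) (c : Z2)
    (f g : C(↥(Wset n T), ℝ)) : pull hT c (f + g) = pull hT c f + pull hT c g := by
  unfold pull
  split_ifs
  · rfl
  · simp

theorem pull_smul {n : ℕ} {T : Finset Z2} (hT : T ⊆ cells n) (c : Z2) (a : ℝ)
    (f : C(↥(Wset n T), ℝ)) : pull hT c (a • f) = a • pull hT c f := by
  unfold pull
  split_ifs
  · rfl
  · simp

theorem pull_sub {n : ℕ} {T : Finset Z2} (hT : T ⊆ cells n) (c : Z2)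
    (f g : C(↥(Wset n T), ℝ)) : pull hT c (f - g) = pull hT c f - pull hT c g := by
  unfold pull
  split_ifs
  · rfl
  · simp

theorem pull_abs {n : ℕ} {T : Finset Z2} (hT : T ⊆ cells n) (c : Z2)
    (f : C(↥(Wset n T), ℝ)) : pull hT c |f| = |pull hT c f| := by
  unfold pull
  split_ifs
  · ext x
    simp only [ContinuousMap.comp_apply, ContinuousMap.abs_apply]
  · simp

theorem pull_const {n : ℕ} {T : Finset Z2} (hT : T ⊆ cells n) {c : Z2} (hc : c ∈ T) (a : ℝ) :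
    pull hT c (ContinuousMap.const _ a) = ContinuousMap.const _ a := by
  rw [pull_of hT hc]
  rfl

/-- restriction to a union of cells -/
def res (n : ℕ) (T : Finset Z2) (f : C(KK, ℝ)) : C(↥(Wset n T), ℝ) :=
  f.comp ⟨fun w => ⟨w.1, w.2.1⟩, by fun_prop⟩

theorem res_apply (n : ℕ) (T : Finset Z2) (f : C(KK, ℝ)) (w : ↥(Wset n T)) :
    res n T f w = f ⟨w.1, w.2.1⟩ := rfl

theorem pull_res {n : ℕ} {T : Finset Z2} (hT : T ⊆ cells n) {c : Z2} (hc : c ∈ T)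
    (f : C(KK, ℝ)) : pull hT c (res n T f) = pullK n c f := by
  rw [pull_of hT hc, pullK_of (hT hc)]
  rfl

/-- self-similarity at all levels -/
structure SelfSim (𝓔 : ResForm KK) (ρ : ℝ) : Prop where
  pos : 0 < ρ
  mem : ∀ n, ∀ f : C(KK, ℝ), f ∈ 𝓔.F ↔ ∀ c ∈ cells n, pullK n c f ∈ 𝓔.F
  eng : ∀ n, ∀ f ∈ 𝓔.F, ∀ g ∈ 𝓔.F,
    𝓔.E f g = ρ ^ n * ∑ c ∈ cells n, 𝓔.E (pullK n c f) (pullK n c g)

/-- chain-connectedness of a set of cells -/
def Linked (n : ℕ) (T : Finset Z2) : Prop :=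
  ∀ a ∈ T, ∀ b ∈ T, Relation.ReflTransGen
    (fun x y => x ∈ T ∧ y ∈ T ∧ ∃ z ∈ K, z ∈ sq n x ∧ z ∈ sq n y) a b

/-- the domain on a union of cells -/
def WF (𝓔 : ResForm KK) {n : ℕ} {T : Finset Z2} (hT : T ⊆ cells n) :
    Submodule ℝ C(↥(Wset n T), ℝ) where
  carrier := {f | ∀ c ∈ T, pull hT c f ∈ 𝓔.F}
  add_mem' := by
    intro f g hf hg c hc
    rw [pull_add]
    exact 𝓔.F.add_mem (hf c hc) (hg c hc)
  zero_mem' := by
    intro c hc
    rw [pull_of hT hc]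
    exact 𝓔.F.zero_mem
  smul_mem' := by
    intro a f hf c hc
    rw [pull_smul]
    exact 𝓔.F.smul_mem a (hf c hc)

noncomputable def WE (𝓔 : ResForm KK) (ρ : ℝ) {n : ℕ} {T : Finset Z2} (hT : T ⊆ cells n)
    (f g : C(↥(Wset n T), ℝ)) : ℝ := ρ ^ n * ∑ c ∈ T, 𝓔.E (pull hT c f) (pull hT c g)

theorem WE_cell (𝓔 : ResForm KK) {ρ : ℝ} (hρ : 0 < ρ) {n : ℕ} {T : Finset Z2}
    (hT : T ⊆ cells n) {f : C(↥(Wset n T), ℝ)} (hf : f ∈ WF 𝓔 hT) {c : Z2} (hc : c ∈ T) :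
    𝓔.E (pull hT c f) (pull hT c f) ≤ (ρ ^ n)⁻¹ * WE 𝓔 ρ hT f f := by
  unfold WE
  rw [← mul_assoc, inv_mul_cancel₀ (by positivity), one_mul]
  exact Finset.single_le_sum (f := fun c => 𝓔.E (pull hT c f) (pull hT c f))
    (fun i hi => 𝓔.nonneg _ (hf i hi)) hc

theorem inv_emb {n : ℕ} {T : Finset Z2} (hT : T ⊆ cells n) {c : Z2} (hc : c ∈ T)
    (w : ↥(Wset n T)) (hw : w.1 ∈ sq n c) :
    emb hT c hc ⟨inv n c w.1, inv_mem_K w.2.1 hw⟩ = w := by
  apply Subtype.ext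
  exact phi_inv n c w.1

theorem WE_bound_cell (𝓔 : ResForm KK) {ρ : ℝ} (hρ : 0 < ρ) {n : ℕ} {T : Finset Z2}
    (hT : T ⊆ cells n) {c : Z2} (hc : c ∈ T) (f : C(↥(Wset n T), ℝ)) (hf : f ∈ WF 𝓔 hT)
    (x y : ↥(Wset n T)) (hx : x.1 ∈ sq n c) (hy : y.1 ∈ sq n c) :
    (f x - f y) ^ 2 ≤ (𝓔.R * (ρ ^ n)⁻¹) * WE 𝓔 ρ hT f f := by
  have h1 := 𝓔.hR _ (hf c hc) ⟨inv n c x.1, inv_mem_K x.2.1 hx⟩ ⟨inv n c y.1, inv_mem_K y.2.1 hy⟩
  have h2 : ∀ w : ↥(Wset n T), ∀ hw : w.1 ∈ sq n c,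
      pull hT c f ⟨inv n c w.1, inv_mem_K w.2.1 hw⟩ = f w := by
    intro w hw
    rw [pull_of hT hc, ContinuousMap.comp_apply, inv_emb hT hc w hw]
  rw [h2 x hx, h2 y hy] at h1
  calc (f x - f y) ^ 2 ≤ 𝓔.R * 𝓔.E (pull hT c f) (pull hT c f) := h1
    _ ≤ 𝓔.R * ((ρ ^ n)⁻¹ * WE 𝓔 ρ hT f f) :=
        mul_le_mul_of_nonneg_left (WE_cell 𝓔 hρ hT hf hc) 𝓔.R_nonneg
    _ = _ := by ring

theorem WE_bound_pair (𝓔 : ResForm KK) {ρ : ℝ} (hρ : 0 < ρ) {n : ℕ} {T : Finset Z2}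
    (hT : T ⊆ cells n) {a b : Z2} (ha : a ∈ T)
    (h : Relation.ReflTransGen
      (fun x y => x ∈ T ∧ y ∈ T ∧ ∃ z ∈ K, z ∈ sq n x ∧ z ∈ sq n y) a b) :
    ∃ C : ℝ, 0 ≤ C ∧ ∀ f : C(↥(Wset n T), ℝ), f ∈ WF 𝓔 hT → ∀ x y : ↥(Wset n T),
      x.1 ∈ sq n a → y.1 ∈ sq n b → (f x - f y) ^ 2 ≤ C * WE 𝓔 ρ hT f f := by
  have hC0 : 0 ≤ 𝓔.R * (ρ ^ n)⁻¹ := mul_nonneg 𝓔.R_nonneg (by positivity)
  induction h with
  | refl => exact ⟨_, hC0, fun f hf x y hx hy => WE_bound_cell 𝓔 hρ hT ha f hf x y hx hy⟩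
  | @tail b c hab hbc ih =>
    obtain ⟨C, hC, hCf⟩ := ih
    obtain ⟨hb, hc, z, hzK, hzb, hzc⟩ := hbc
    refine ⟨2 * C + 2 * (𝓔.R * (ρ ^ n)⁻¹), by positivity, fun f hf x y hx hy => ?_⟩
    let z' : ↥(Wset n T) := ⟨z, hzK, b, hb, hzb⟩
    have h1 := hCf f hf x z' hx hzb
    have h2 := WE_bound_cell 𝓔 hρ hT hc f hf z' y hzc hy
    have h3 : (f x - f y) ^ 2 ≤ 2 * (f x - f z') ^ 2 + 2 * (f z' - f y) ^ 2 := by
      nlinarith [sq_nonneg ((f x - f z') - (f z' - f y))]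
    calc (f x - f y) ^ 2 ≤ 2 * (f x - f z') ^ 2 + 2 * (f z' - f y) ^ 2 := h3
      _ ≤ 2 * (C * WE 𝓔 ρ hT f f) + 2 * ((𝓔.R * (ρ ^ n)⁻¹) * WE 𝓔 ρ hT f f) := by linarith
      _ = _ := by ring

theorem WE_nonneg (𝓔 : ResForm KK) {ρ : ℝ} (hρ : 0 < ρ) {n : ℕ} {T : Finset Z2}
    (hT : T ⊆ cells n) {f : C(↥(Wset n T), ℝ)} (hf : f ∈ WF 𝓔 hT) : 0 ≤ WE 𝓔 ρ hT f f := by
  unfold WE
  apply mul_nonneg (by positivity)
  exact Finset.sum_nonneg (fun c hc => 𝓔.nonneg _ (hf c hc))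

theorem WE_bound (𝓔 : ResForm KK) {ρ : ℝ} (hρ : 0 < ρ) {n : ℕ} {T : Finset Z2}
    (hT : T ⊆ cells n) (hL : Linked n T) :
    ∃ C : ℝ, 0 ≤ C ∧ ∀ f : C(↥(Wset n T), ℝ), f ∈ WF 𝓔 hT → ∀ x y : ↥(Wset n T),
      (f x - f y) ^ 2 ≤ C * WE 𝓔 ρ hT f f := by
  classical
  have h : ∀ a b : Z2, ∃ C : ℝ, 0 ≤ C ∧ (a ∈ T → b ∈ T → ∀ f : C(↥(Wset n T), ℝ),
      f ∈ WF 𝓔 hT → ∀ x y : ↥(Wset n T),
      x.1 ∈ sq n a → y.1 ∈ sq n b → (f x - f y) ^ 2 ≤ C * WE 𝓔 ρ hT f f) := by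
    intro a b
    by_cases ha : a ∈ T
    · by_cases hb : b ∈ T
      · obtain ⟨C, hC, hf⟩ := WE_bound_pair 𝓔 hρ hT ha (hL a ha b hb)
        exact ⟨C, hC, fun _ _ => hf⟩
      · exact ⟨0, le_refl _, fun _ h => absurd h hb⟩
    · exact ⟨0, le_refl _, fun h => absurd h ha⟩
  choose C hC hCf using h
  refine ⟨∑ a ∈ T, ∑ b ∈ T, C a b,
    Finset.sum_nonneg (fun a _ => Finset.sum_nonneg (fun b _ => hC a b)), ?_⟩
  intro f hf x y
  obtain ⟨_, a, ha, hxa⟩ := x.2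
  obtain ⟨_, b, hb, hyb⟩ := y.2
  have h1 := hCf a b ha hb f hf x y hxa hyb
  have h2 : C a b ≤ ∑ b ∈ T, C a b :=
    Finset.single_le_sum (f := fun b => C a b) (fun i _ => hC a i) hb
  have h3 : ∑ b ∈ T, C a b ≤ ∑ a ∈ T, ∑ b ∈ T, C a b :=
    Finset.single_le_sum (f := fun a => ∑ b ∈ T, C a b)
      (fun i _ => Finset.sum_nonneg (fun b _ => hC i b)) ha
  calc (f x - f y) ^ 2 ≤ C a b * WE 𝓔 ρ hT f f := h1
    _ ≤ _ := mul_le_mul_of_nonneg_right (h2.trans h3) (WE_nonneg 𝓔 hρ hT hf)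

/-- the resistance form on a linked union of cells -/
noncomputable def WForm (𝓔 : ResForm KK) {ρ : ℝ} (hS : SelfSim 𝓔 ρ) {n : ℕ} {T : Finset Z2}
    (hT : T ⊆ cells n) (hL : Linked n T) : ResForm ↥(Wset n T) where
  F := WF 𝓔 hT
  E := WE 𝓔 ρ hT
  add_left := by
    intro f hf g hg k hk
    unfold WE
    rw [← mul_add, ← Finset.sum_add_distrib]
    congr 1
    apply Finset.sum_congr rfl
    intro c hc
    rw [pull_add, 𝓔.add_left _ (hf c hc) _ (hg c hc) _ (hk c hc)]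
  smul_left := by
    intro a f hf k hk
    unfold WE
    rw [mul_left_comm, Finset.mul_sum T _ a]
    congr 1
    apply Finset.sum_congr rfl
    intro c hc
    rw [pull_smul, 𝓔.smul_left a _ (hf c hc) _ (hk c hc)]
  symm := by
    intro f hf g hg
    unfold WE
    congr 1
    apply Finset.sum_congr rfl
    intro c hc
    exact 𝓔.symm _ (hf c hc) _ (hg c hc)
  nonneg := fun f hf => WE_nonneg 𝓔 hS.pos hT hf
  const_mem := by
    intro a c hc
    rw [pull_const hT hc]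
    exact 𝓔.const_mem a
  E_const := by
    intro a f hf
    unfold WE
    rw [Finset.sum_eq_zero, mul_zero]
    intro c hc
    rw [pull_const hT hc]
    exact 𝓔.E_const a _ (hf c hc)
  abs_mem := by
    intro f hf c hc
    rw [pull_abs]
    exact 𝓔.abs_mem _ (hf c hc)
  R := (WE_bound 𝓔 hS.pos hT hL).choose
  R_nonneg := (WE_bound 𝓔 hS.pos hT hL).choose_spec.1
  hR := (WE_bound 𝓔 hS.pos hT hL).choose_spec.2
  closed := by
    intro f g hf hlim hcau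
    have hpos := hS.pos
    have hcell : ∀ c ∈ T, pull hT c g ∈ 𝓔.F ∧
        Tendsto (fun k => 𝓔.E (pull hT c (f k) - pull hT c g) (pull hT c (f k) - pull hT c g))
          atTop (𝓝 0) := by
      intro c hc
      apply 𝓔.closed (fun k => pull hT c (f k)) (pull hT c g) (fun k => hf k c hc)
      · rw [pull_of hT hc]
        have h1 : (fun k => pull hT c (f k)) = fun k => (f k).comp (emb hT c hc) := by
          ext1 k
          rw [pull_of hT hc]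
        rw [h1]
        exact ((ContinuousMap.continuous_precomp (emb hT c hc)).tendsto g).comp hlim
      · intro ε hε
        obtain ⟨N, hN⟩ := hcau (ρ ^ n * ε) (by positivity)
        refine ⟨N, fun a ha b hb => ?_⟩
        have h1 := hN a ha b hb
        have h2 := WE_cell 𝓔 hpos hT (Submodule.sub_mem _ (hf a) (hf b)) hc
        rw [pull_sub] at h2
        have h3 : (ρ ^ n)⁻¹ * WE 𝓔 ρ hT (f a - f b) (f a - f b) < (ρ ^ n)⁻¹ * (ρ ^ n * ε) :=
          mul_lt_mul_of_pos_left h1 (by positivity)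
        rw [← mul_assoc, inv_mul_cancel₀ (by positivity), one_mul] at h3
        exact lt_of_le_of_lt h2 h3
    refine ⟨fun c hc => (hcell c hc).1, ?_⟩
    unfold WE
    have h4 : Tendsto (fun k => ρ ^ n * ∑ c ∈ T,
        𝓔.E (pull hT c (f k) - pull hT c g) (pull hT c (f k) - pull hT c g)) atTop
        (𝓝 (ρ ^ n * ∑ c ∈ T, 0)) := by
      apply Tendsto.const_mul
      exact tendsto_finsetSum _ (fun c hc => (hcell c hc).2)
    simp only [Finset.sum_const_zero, mul_zero] at h4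
    simpa only [pull_sub] using h4
  loc := by
    intro f hf g hg h0
    unfold WE
    rw [Finset.sum_eq_zero, mul_zero]
    intro c hc
    apply 𝓔.loc _ (hf c hc) _ (hg c hc)
    intro x
    rw [pull_of hT hc, pull_of hT hc]
    exact h0 _
  cutoff := by
    intro A B hA hB hAB
    let i : ↥(Wset n T) → KK := fun w => ⟨w.1, w.2.1⟩
    have hi : Continuous i := by fun_prop
    have hinj : Function.Injective i := by
      intro a b h
      apply Subtype.ext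
      exact congrArg (fun z : KK => z.1) h
    obtain ⟨χ, hχ, h01, h1, h0⟩ := 𝓔.cutoff (i '' A) (i '' B)
      (hA.isCompact.image hi).isClosed (hB.isCompact.image hi).isClosed
      (Set.disjoint_image_of_injective hinj hAB)
    refine ⟨res n T χ, ?_, fun x => h01 _, fun x hx => h1 _ ⟨x, hx, rfl⟩,
      fun x hx => h0 _ ⟨x, hx, rfl⟩⟩
    intro c hc
    rw [pull_res hT hc]
    exact (hS.mem n χ).mp hχ c (hT hc)

end Pool.Agent.Helper38.Carpet
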