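import Mathlib
import Pool.Agent.Helper38.WForm

set_option autoImplicit false
open Set Filter Topology

/-! Extension by a constant and the cut network. -/

namespace Pool.Agent.Helper38.Carpet

theorem inv_embK {n : ℕ} {c : Z2} (hc : c ∈ cells n) (w : KK) (hw : w.1 ∈ sq n c) :
    embK n c hc ⟨inv n c w.1, inv_mem_K w.2 hw⟩ = w := by
  apply Subtype.ext
  exact phi_inv n c w.1

theorem glue_general {X ι Y : Type*} [TopologicalSpace X] [T2Space X] [TopologicalSpace Y]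
    [CompactSpace Y] (T : Finset ι) (e : ∀ i ∈ T, C(Y, X))
    (hcov : ∀ x : X, ∃ i, ∃ hi : i ∈ T, ∃ y, e i hi y = x) (f : X → ℝ)
    (h : ∀ i, ∀ hi : i ∈ T, Continuous (fun y => f (e i hi y))) : Continuous f := by
  rw [continuous_iff_isClosed]
  intro s hs
  have : f ⁻¹' s = ⋃ i ∈ T.attach, (e i.1 i.2) '' ((fun y => f (e i.1 i.2 y)) ⁻¹' s) := by
    ext x
    simp only [mem_preimage, mem_iUnion, Finset.mem_attach, mem_image, exists_prop, true_and]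
    constructor
    · intro hx
      obtain ⟨i, hi, y, rfl⟩ := hcov x
      exact ⟨⟨i, hi⟩, y, hx, rfl⟩
    · rintro ⟨i, y, hy, rfl⟩
      exact hy
  rw [this]
  apply Set.Finite.isClosed_biUnion (Finset.finite_toSet _)
  intro i _
  exact ((hs.preimage (h i.1 i.2)).isCompact.image (e i.1 i.2).continuous).isClosed

theorem glue_continuous (n : ℕ) (f : KK → ℝ)
    (h : ∀ c, ∀ hc : c ∈ cells n, Continuous (fun z => f (embK n c hc z))) : Continuous f := by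
  apply glue_general (cells n) (fun c hc => embK n c hc) _ f h
  intro x
  obtain ⟨c, hc, hx⟩ := x.2 n
  exact ⟨c, hc, _, inv_embK hc x hx⟩

open Classical in
/-- extension by a constant of a function on a union of cells -/
theorem exists_ext (𝓔 : ResForm KK) {ρ : ℝ} (hS : SelfSim 𝓔 ρ) {n : ℕ} {T : Finset Z2}
    (hT : T ⊆ cells n) {u : C(↥(Wset n T), ℝ)} (hu : u ∈ WF 𝓔 hT) (a : ℝ)
    (h : ∀ c ∈ cells n, c ∉ T → ∀ w : ↥(Wset n T), w.1 ∈ sq n c → u w = a) :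
    ∃ v ∈ 𝓔.F, (∀ w : ↥(Wset n T), v ⟨w.1, w.2.1⟩ = u w) ∧
      (∀ z : KK, z.1 ∉ Wset n T → v z = a) ∧
      (∀ φ ∈ 𝓔.F, 𝓔.E v φ = WE 𝓔 ρ hT u (res n T φ)) := by
  let f : KK → ℝ := fun z => if hz : z.1 ∈ Wset n T then u ⟨z.1, hz⟩ else a
  have fW : ∀ w : ↥(Wset n T), f ⟨w.1, w.2.1⟩ = u w := by
    intro w
    simp only [f]
    rw [dif_pos w.2]
  have fout : ∀ z : KK, z.1 ∉ Wset n T → f z = a := by
    intro z hz
    simp only [f]
    rw [dif_neg hz]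
  have hin : ∀ c, ∀ hc : c ∈ cells n, c ∈ T → ∀ z, f (embK n c hc z) = pull hT c u z := by
    intro c hc hcT z
    rw [pull_of hT hcT]
    exact fW (emb hT c hcT z)
  have hnot : ∀ c, ∀ hc : c ∈ cells n, c ∉ T → ∀ z, f (embK n c hc z) = a := by
    intro c hc hcT z
    by_cases hz : (embK n c hc z).1 ∈ Wset n T
    · have := h c hc hcT ⟨(embK n c hc z).1, hz⟩ (phi_mem_own n c z.2)
      simp only [f]
      rw [dif_pos hz]
      exact this
    · exact fout _ hz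
  have hcont : Continuous f := by
    apply glue_continuous n
    intro c hc
    by_cases hcT : c ∈ T
    · have : (fun z => f (embK n c hc z)) = fun z => pull hT c u z := by
        ext z; exact hin c hc hcT z
      rw [this]
      exact (pull hT c u).continuous
    · have : (fun z => f (embK n c hc z)) = fun z => a := by
        ext z; exact hnot c hc hcT z
      rw [this]
      exact continuous_const
  let v : C(KK, ℝ) := ⟨f, hcont⟩
  have p1 : ∀ c ∈ T, pullK n c v = pull hT c u := by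
    intro c hcT
    rw [pullK_of (hT hcT)]
    ext z
    exact hin c (hT hcT) hcT z
  have p2 : ∀ c ∈ cells n, c ∉ T → pullK n c v = ContinuousMap.const _ a := by
    intro c hc hcT
    rw [pullK_of hc]
    ext z
    exact hnot c hc hcT z
  have hvF : v ∈ 𝓔.F := by
    rw [hS.mem n]
    intro c hc
    by_cases hcT : c ∈ T
    · rw [p1 c hcT]; exact hu c hcT
    · rw [p2 c hc hcT]; exact 𝓔.const_mem a
  refine ⟨v, hvF, fW, fout, fun φ hφ => ?_⟩
  rw [hS.eng n v hvF φ hφ]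
  unfold WE
  congr 1
  rw [← Finset.sum_subset hT]
  · apply Finset.sum_congr rfl
    intro c hcT
    rw [p1 c hcT, pull_res hT hcT]
  · intro c hc hcT
    rw [p2 c hc hcT]
    exact 𝓔.E_const a _ ((hS.mem n φ).mp hφ c hc)

theorem res_mem (𝓔 : ResForm KK) {ρ : ℝ} (hS : SelfSim 𝓔 ρ) {n : ℕ} {T : Finset Z2}
    (hT : T ⊆ cells n) {φ : C(KK, ℝ)} (hφ : φ ∈ 𝓔.F) : res n T φ ∈ WF 𝓔 hT := by
  intro c hc
  rw [pull_res hT hc]
  exact (hS.mem n φ).mp hφ c (hT hc)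

/-- data of a cut: a finite set `C` of cells in the open set `Z` where `h = 0`,
and `T` the linked component of the remaining cells that contains `p`. -/
structure Cut (𝓔 : ResForm KK) (n : ℕ) (C T : Finset Z2) (Z : Set KK) (h : C(KK, ℝ))
    (p q : KK) : Prop where
  hC : C ⊆ cells n
  hT : T ⊆ cells n
  disj : ∀ c ∈ T, c ∉ C
  linked : Linked n T
  closedT : ∀ c ∈ T, ∀ c' ∈ cells n, c' ∉ C → (∃ z ∈ K, z ∈ sq n c ∧ z ∈ sq n c') → c' ∈ T
  hp : p.1 ∈ Wset n T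
  dip : 𝓔.Dipole h p q
  Zopen : IsOpen Z
  hZ : ∀ z ∈ Z, h z = 0
  CZ : ∀ c ∈ C, ∀ z : KK, z.1 ∈ sq n c → z ∈ Z

namespace Cut

variable {𝓔 : ResForm KK} {ρ : ℝ} {n : ℕ} {C T : Finset Z2} {Z : Set KK} {h : C(KK, ℝ)}
  {p q : KK}

theorem cell_not (hc : Cut 𝓔 n C T Z h p q) {c : Z2} (hcn : c ∈ cells n) (hcT : c ∉ T)
    (w : ↥(Wset n T)) (hw : w.1 ∈ sq n c) : c ∈ C := by
  obtain ⟨hwK, b, hb, hwb⟩ := w.2
  by_contra hcC
  exact hcT (hc.closedT b hb c hcn hcC ⟨w.1, hwK, hwb, hw⟩)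

/-- energy pairing of the restricted potential with nonnegative functions -/
theorem pairing_nonneg (hS : SelfSim 𝓔 ρ) (hc : Cut 𝓔 n C T Z h p q)
    {φ : C(↥(Wset n T), ℝ)} (hφ : φ ∈ WF 𝓔 hc.hT) (h0 : ∀ w, 0 ≤ φ w) :
    ∃ v ∈ 𝓔.F, WE 𝓔 ρ hc.hT (res n T h) φ = v p - v q ∧ v p = φ ⟨p.1, hc.hp⟩ ∧
      (∀ hq : q.1 ∈ Wset n T, v q = φ ⟨q.1, hq⟩) ∧ (q.1 ∉ Wset n T → v q = 0) := by
  classical
  have hdip := hc.dip
  obtain ⟨hhF, hhE, hhp, hhq⟩ := hdip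
  let W := WForm 𝓔 hS hc.hT hc.linked
  -- cutoff
  have hclosed : IsClosed {z : KK | ∃ c ∈ C, z.1 ∈ sq n c} := by
    have : {z : KK | ∃ c ∈ C, z.1 ∈ sq n c} = ⋃ c ∈ C, (fun z : KK => z.1) ⁻¹' (sq n c) := by
      ext z; simp
    rw [this]
    exact C.finite_toSet.isClosed_biUnion
      (fun c _ => (isClosed_sq n c).preimage continuous_subtype_val)
  obtain ⟨χ, hχ, h01, h1, h0'⟩ := 𝓔.cutoff _ _ hclosed hc.Zopen.isClosed_compl (by
    rw [Set.disjoint_left]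
    rintro z ⟨c, hcC, hz⟩ hz'
    exact hz' (hc.CZ c hcC z hz))
  set M : ℝ := ‖φ‖ with hM
  have hφM : ∀ w, φ w ≤ M := fun w => (le_abs_self _).trans (φ.norm_coe_le_norm w)
  have hM0 : 0 ≤ M := norm_nonneg _
  set φ1 : C(↥(Wset n T), ℝ) := φ ⊓ (M • res n T χ) with hφ1
  have hχW : res n T χ ∈ W.F := res_mem 𝓔 hS hc.hT hχ
  have hφ1F : φ1 ∈ W.F := W.inf_mem hφ (W.F.smul_mem M hχW)
  have φ1_apply : ∀ w, φ1 w = min (φ w) (M * χ ⟨w.1, w.2.1⟩) := fun w => rfl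
  have hφF : φ ∈ W.F := hφ
  obtain ⟨v, hvF, hvW, hvout, hvE⟩ := exists_ext 𝓔 hS hc.hT (W.F.sub_mem hφF hφ1F) 0 (by
    intro c hcn hcT w hw
    have hcC := hc.cell_not hcn hcT w hw
    rw [ContinuousMap.sub_apply, φ1_apply, h1 _ ⟨c, hcC, hw⟩, mul_one, min_eq_left (hφM w)]
    ring)
  have hres : res n T h ∈ W.F := res_mem 𝓔 hS hc.hT hhF
  have hloc : W.E (res n T h) φ1 = 0 := by
    apply W.loc _ hres _ hφ1F
    intro w
    rw [φ1_apply, res_apply]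
    by_cases hz : (⟨w.1, w.2.1⟩ : KK) ∈ Z
    · rw [hc.hZ _ hz, zero_mul]
    · rw [h0' _ hz, mul_zero, min_eq_right (h0 w), mul_zero]
  have hE1 : 𝓔.E h v = W.E (res n T h) (φ - φ1) := by
    rw [𝓔.symm h hhF v hvF, hvE h hhF]
    exact W.symm _ (W.F.sub_mem hφF hφ1F) _ hres
  rw [W.sub_right hφF hφ1F hres, hloc, sub_zero] at hE1
  have χp : χ p = 0 := h0' p (fun hz => by
    have := hc.hZ p hz
    linarith)
  have χq : χ q = 0 := h0' q (fun hz => by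
    have := hc.hZ q hz
    linarith)
  refine ⟨v, hvF, ?_, ?_, ?_, ?_⟩
  · rw [← hhE v hvF]
    exact hE1.symm
  · have := hvW ⟨p.1, hc.hp⟩
    rw [ContinuousMap.sub_apply, φ1_apply] at this
    have e : (⟨p.1, hc.hp.1⟩ : KK) = p := rfl
    simp only [e, χp, mul_zero, min_eq_right (h0 _), sub_zero] at this
    exact this
  · intro hq
    have := hvW ⟨q.1, hq⟩
    rw [ContinuousMap.sub_apply, φ1_apply] at this
    have e : (⟨q.1, hq.1⟩ : KK) = q := rfl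
    simp only [e, χq, mul_zero, min_eq_right (h0 _), sub_zero] at this
    exact this
  · intro hq
    exact hvout q hq

theorem q_mem (hS : SelfSim 𝓔 ρ) (hc : Cut 𝓔 n C T Z h p q) : q.1 ∈ Wset n T := by
  by_contra hq
  let W := WForm 𝓔 hS hc.hT hc.linked
  have h1 : (ContinuousMap.const _ 1 : C(↥(Wset n T), ℝ)) ∈ WF 𝓔 hc.hT := W.const_mem 1
  obtain ⟨v, hvF, hE, hvp, -, hvq⟩ := hc.pairing_nonneg hS h1 (fun w => by simp)
  have h2 : W.E (res n T h) (ContinuousMap.const _ 1) = 0 :=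
    W.E_const_right 1 (res_mem 𝓔 hS hc.hT hc.dip.1)
  have h3 : WE 𝓔 ρ hc.hT (res n T h) (ContinuousMap.const _ 1) = 0 := h2
  rw [h3, hvp, hvq hq] at hE
  simp at hE

/-- the restricted potential is the dipole potential of the cut network -/
theorem dipole (hS : SelfSim 𝓔 ρ) (hc : Cut 𝓔 n C T Z h p q) :
    (WForm 𝓔 hS hc.hT hc.linked).Dipole (res n T h) ⟨p.1, hc.hp⟩ ⟨q.1, hc.q_mem hS⟩ := by
  have hdip := hc.dip
  obtain ⟨hhF, hhE, hhp, hhq⟩ := hdip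
  let W := WForm 𝓔 hS hc.hT hc.linked
  have hres : res n T h ∈ W.F := res_mem 𝓔 hS hc.hT hhF
  refine ⟨hres, ?_, hhp, hhq⟩
  have hpos : ∀ φ ∈ W.F, (∀ w, 0 ≤ φ w) →
      W.E (res n T h) φ = φ ⟨p.1, hc.hp⟩ - φ ⟨q.1, hc.q_mem hS⟩ := by
    intro φ hφ h0
    obtain ⟨v, hvF, hE, hvp, hvq, -⟩ := hc.pairing_nonneg hS hφ h0
    rw [hvp, hvq (hc.q_mem hS)] at hE
    exact hE
  intro φ hφ
  have h1 := hpos _ (W.pp_mem hφ) (ResForm.pp_nonneg φ)
  have h2 := hpos _ (W.pp_mem (W.F.neg_mem hφ)) (ResForm.pp_nonneg (-φ))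
  have h3 : φ = ResForm.pp φ - ResForm.pp (-φ) := by
    ext w
    rw [ContinuousMap.sub_apply, ResForm.pp_apply, ResForm.pp_apply, ContinuousMap.neg_apply]
    rcases le_total 0 (φ w) with h | h
    · rw [max_eq_left h, max_eq_right (by linarith)]; ring
    · rw [max_eq_right h, max_eq_left (by linarith)]; ring
  have h4 : W.E (res n T h) φ = W.E (res n T h) (ResForm.pp φ) - W.E (res n T h) (ResForm.pp (-φ)) := by
    conv_lhs => rw [h3]
    exact W.sub_right (W.pp_mem hφ) (W.pp_mem (W.F.neg_mem hφ)) hres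
  change W.E (res n T h) φ = _
  rw [h4, h1, h2]
  have h5 : ∀ w, ResForm.pp φ w - ResForm.pp (-φ) w = φ w := by
    intro w
    conv_rhs => rw [h3]
    rfl
  linarith [h5 ⟨p.1, hc.hp⟩, h5 ⟨q.1, hc.q_mem hS⟩]

/-- outside the network the potential vanishes -/
theorem zero_outside (hS : SelfSim 𝓔 ρ) (hc : Cut 𝓔 n C T Z h p q) (z : KK)
    (hz : z.1 ∉ Wset n T) : h z = 0 := by
  classical
  have hdip := hc.dip
  obtain ⟨hhF, hhE, hhp, hhq⟩ := hdip
  set R0 : Finset Z2 := (cells n).filter (fun c => c ∉ C ∧ c ∉ T) with hR0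
  have hR0n : R0 ⊆ cells n := Finset.filter_subset _ _
  have hdisj : ∀ z : R2, z ∈ Wset n R0 → z ∈ Wset n T → False := by
    rintro z ⟨hzK, c, hcR, hzc⟩ ⟨-, b, hb, hzb⟩
    rw [hR0, Finset.mem_filter] at hcR
    exact hcR.2.2 (hc.closedT b hb c hcR.1 hcR.2.1 ⟨z, hzK, hzb, hzc⟩)
  obtain ⟨v, hvF, hvW, hvout, -⟩ := exists_ext 𝓔 hS hR0n (res_mem 𝓔 hS hR0n hhF) 0 (by
    intro c hcn hcR w hw
    rw [res_apply]
    have : c ∈ C ∨ c ∈ T := by
      by_contra hcon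
      push Not at hcon
      exact hcR (by rw [hR0, Finset.mem_filter]; exact ⟨hcn, hcon⟩)
    rcases this with hcC | hcT
    · exact hc.hZ _ (hc.CZ c hcC ⟨w.1, w.2.1⟩ hw)
    · exact absurd ⟨w.2.1, c, hcT, hw⟩ (fun h => hdisj w.1 w.2 h))
  have hvp : v p = 0 := hvout p (fun h => hdisj _ h hc.hp)
  have hvq : v q = 0 := hvout q (fun h => hdisj _ h (hc.q_mem hS))
  have hE := hhE v hvF
  rw [hvp, hvq, sub_zero] at hE
  have hloc : 𝓔.E (h - v) v = 0 := by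
    apply 𝓔.loc _ (𝓔.F.sub_mem hhF hvF) _ hvF
    intro y
    by_cases hy : y.1 ∈ Wset n R0
    · have := hvW ⟨y.1, hy⟩
      rw [res_apply] at this
      have e : (⟨y.1, hy.1⟩ : KK) = y := rfl
      simp only [e] at this
      rw [ContinuousMap.sub_apply, this, sub_self, zero_mul]
    · rw [hvout y hy, mul_zero]
  rw [𝓔.sub_left hhF hvF hvF, hE] at hloc
  have hconst : ∀ y, v y = 0 := by
    intro y
    rw [𝓔.const_of_E_zero hvF (by linarith) y p, hvp]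
  obtain ⟨c, hcn, hzc⟩ := z.2 n
  by_cases hcC : c ∈ C
  · exact hc.hZ z (hc.CZ c hcC z hzc)
  · have hcT : c ∉ T := fun h => hz ⟨z.2, c, h, hzc⟩
    have hzR : z.1 ∈ Wset n R0 := ⟨z.2, c, by rw [hR0, Finset.mem_filter]; exact ⟨hcn, hcC, hcT⟩, hzc⟩
    have := hvW ⟨z.1, hzR⟩
    rw [res_apply] at this
    have e : (⟨z.1, hzR.1⟩ : KK) = z := rfl
    simp only [e] at this
    rw [← this, hconst]

end Cut

/-- existence of the component -/
theorem exists_component (n : ℕ) (C : Finset Z2) (p : KK) (hp : ∀ c ∈ C, p.1 ∉ sq n c) :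
    ∃ T : Finset Z2, T ⊆ cells n ∧ (∀ c ∈ T, c ∉ C) ∧ Linked n T ∧
      (∀ c ∈ T, ∀ c' ∈ cells n, c' ∉ C → (∃ z ∈ K, z ∈ sq n c ∧ z ∈ sq n c') → c' ∈ T) ∧
      p.1 ∈ Wset n T := by
  classical
  obtain ⟨cp, hcp, hpc⟩ := p.2 n
  have hcpC : cp ∉ C := fun h => hp cp h hpc
  let r : Z2 → Z2 → Prop := fun x y => (x ∈ cells n ∧ x ∉ C) ∧ (y ∈ cells n ∧ y ∉ C) ∧
    ∃ z ∈ K, z ∈ sq n x ∧ z ∈ sq n y
  have rsymm : ∀ a b, r a b → r b a := by
    rintro a b ⟨h1, h2, z, h3, h4, h5⟩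
    exact ⟨h2, h1, z, h3, h5, h4⟩
  let T : Finset Z2 := (cells n).filter (fun c => c ∉ C ∧ Relation.ReflTransGen r cp c)
  have memT : ∀ c, c ∈ T ↔ c ∈ cells n ∧ c ∉ C ∧ Relation.ReflTransGen r cp c := by
    intro c
    simp only [T, Finset.mem_filter]
  have hlink : ∀ a, Relation.ReflTransGen r cp a → Relation.ReflTransGen
    (fun x y => x ∈ T ∧ y ∈ T ∧ ∃ z ∈ K, z ∈ sq n x ∧ z ∈ sq n y) cp a := by
    intro a ha
    induction ha with
    | refl => exact Relation.ReflTransGen.refl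
    | @tail b c hab hbc ih =>
      refine ih.tail ⟨?_, ?_, hbc.2.2⟩
      · rw [memT]; exact ⟨hbc.1.1, hbc.1.2, hab⟩
      · rw [memT]; exact ⟨hbc.2.1.1, hbc.2.1.2, hab.tail hbc⟩
  refine ⟨T, Finset.filter_subset _ _, fun c hc => ((memT c).mp hc).2.1, ?_, ?_, ?_⟩
  · intro a ha b hb
    have h1 := hlink a ((memT a).mp ha).2.2
    have h2 := hlink b ((memT b).mp hb).2.2
    exact (rtg_symm (fun x y h => ⟨h.2.1, h.1, by
      obtain ⟨z, h3, h4, h5⟩ := h.2.2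
      exact ⟨z, h3, h5, h4⟩⟩) h1).trans h2
  · intro c hc c' hc' hc'C hz
    rw [memT] at hc ⊢
    exact ⟨hc', hc'C, hc.2.2.tail ⟨⟨hc.1, hc.2.1⟩, ⟨hc', hc'C⟩, hz⟩⟩
  · exact ⟨p.2, cp, (memT cp).mpr ⟨hcp, hcpC, Relation.ReflTransGen.refl⟩, hpc⟩

end Pool.Agent.Helper38.Carpet
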