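import Mathlib

set_option autoImplicit false

/-!
A discrete form of the non-planarity of the complete graph on five vertices
(van Kampen - Flores for lattice walks), proved by a mod 2 intersection form.
-/

namespace Pool.Agent.Helper38.Planar

abbrev Pt := ℤ × ℤ

/-- unit lattice edges: `H p` joins `p` and `p + (1,0)`; `V p` joins `p` and `p + (0,1)` -/
inductive Edge where
  | H (p : Pt) : Edge
  | V (p : Pt) : Edge

/-- first end -/
def Edge.src : Edge → Pt
  | .H p => p
  | .V p => p

/-- second end -/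
def Edge.tgt : Edge → Pt
  | .H p => (p.1 + 1, p.2)
  | .V p => (p.1, p.2 + 1)

/-- `e` joins `a` and `b` -/
def Joins (e : Edge) (a b : Pt) : Prop := (a = e.src ∧ b = e.tgt) ∨ (a = e.tgt ∧ b = e.src)

/-- walks with all vertices in `S` -/
inductive IsWalk (S : Pt → Prop) : Pt → Pt → List Edge → Prop
  | nil (a : Pt) (ha : S a) : IsWalk S a a []
  | cons (e : Edge) (a b c : Pt) (L : List Edge) (hab : Joins e a b) (ha : S a)
      (h : IsWalk S b c L) : IsWalk S a c (e :: L)

/-- local intersection form -/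
def lb : Edge → Edge → ZMod 2
  | .H p, .V q => if q = (p.1, p.2 - 1) then 1 else 0
  | .V p, .H q => if q = (p.1 - 1, p.2) then 1 else 0
  | .H _, .H _ => 0
  | .V _, .V _ => 0

def B (L M : List Edge) : ZMod 2 := (L.map (fun e => (M.map (fun f => lb e f)).sum)).sum

theorem B_nil_left (M : List Edge) : B [] M = 0 := by simp [B]

theorem B_append_left (L L' M : List Edge) : B (L ++ L') M = B L M + B L' M := by
  simp [B]

theorem B_append_right (L M M' : List Edge) : B L (M ++ M') = B L M + B L M' := by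
  simp [B, List.sum_map_add]

theorem B_cons_left (e : Edge) (L M : List Edge) :
    B (e :: L) M = (M.map (fun f => lb e f)).sum + B L M := by
  simp [B]

theorem B_swap (L M : List Edge) :
    B L M = (M.map (fun f => (L.map (fun e => lb e f)).sum)).sum := by
  induction L with
  | nil => simp [B]
  | cons e L ih =>
    rw [B_cons_left, ih]
    simp [List.sum_map_add]

theorem B_reverse_left (L M : List Edge) : B L.reverse M = B L M := by
  unfold B
  rw [List.map_reverse, List.sum_reverse]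

theorem B_reverse_right (L M : List Edge) : B L M.reverse = B L M := by
  rw [B_swap, B_swap, List.map_reverse, List.sum_reverse]

theorem two_eq_zero' : (2 : ZMod 2) = 0 := by decide

theorem add_self' (a : ZMod 2) : a + a = 0 := by
  revert a; decide

/-- telescoping along a walk -/
theorem walk_sum {S : Pt → Prop} (F : Pt → ZMod 2) {a c : Pt} {L : List Edge}
    (h : IsWalk S a c L) :
    (L.map (fun e => F e.src + F e.tgt)).sum = F a + F c := by
  induction h with
  | nil a ha => simp [add_self']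
  | cons e a b c L hab ha h ih =>
    rw [List.map_cons, List.sum_cons, ih]
    have key : F e.src + F e.tgt = F a + F b := by
      rcases hab with ⟨h1, h2⟩ | ⟨h1, h2⟩
      · rw [h1, h2]
      · rw [h1, h2, add_comm]
    rw [key]
    have := add_self' (F b)
    calc F a + F b + (F b + F c) = F a + (F b + F b) + F c := by ring
      _ = F a + F c := by rw [this]; ring

/-- winding potential -/
def sw : Edge → Pt → ZMod 2
  | .H q, p => if q.1 = p.1 ∧ q.2 ≤ p.2 then 1 else 0
  | .V _, _ => 0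

def tw : Edge → Pt → ZMod 2
  | .H q, a => if a.1 = q.1 + 1 ∧ a.2 ≤ q.2 then 1 else 0
  | .V _, _ => 0

theorem edge_identity (e f : Edge) :
    lb e f + (sw e f.src + sw e f.tgt) = tw f e.src + tw f e.tgt := by
  rcases e with ⟨i, l⟩ | ⟨i, l⟩ <;> rcases f with ⟨k, j⟩ | ⟨k, j⟩ <;>
    dsimp only [lb, sw, tw, Edge.src, Edge.tgt] <;> (try simp only [Prod.mk.injEq]) <;>
    (try split_ifs) <;> first | decide | (exfalso; omega)

def SW (L : List Edge) (p : Pt) : ZMod 2 := (L.map (fun e => sw e p)).sum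

/-- for a closed walk the local intersection numbers are differences of the winding potential -/
theorem closed_local {S : Pt → Prop} {a : Pt} {L : List Edge} (h : IsWalk S a a L) (f : Edge) :
    (L.map (fun e => lb e f)).sum = SW L f.src + SW L f.tgt := by
  have h1 : (L.map (fun e => lb e f + (sw e f.src + sw e f.tgt))).sum = 0 := by
    have : (L.map (fun e => lb e f + (sw e f.src + sw e f.tgt))) =
        (L.map (fun e => tw f e.src + tw f e.tgt)) := by
      apply List.map_congr_left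
      intro e _
      exact edge_identity e f
    rw [this, walk_sum (tw f) h, add_self']
  rw [List.sum_map_add, List.sum_map_add] at h1
  unfold SW
  have h2 := add_self' ((L.map (fun e => sw e f.src)).sum + (L.map (fun e => sw e f.tgt)).sum)
  calc (L.map (fun e => lb e f)).sum
      = ((L.map (fun e => lb e f)).sum + ((L.map (fun e => sw e f.src)).sum
          + (L.map (fun e => sw e f.tgt)).sum)) + ((L.map (fun e => sw e f.src)).sum
          + (L.map (fun e => sw e f.tgt)).sum) := by rw [add_assoc, h2, add_zero]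
    _ = _ := by rw [h1, zero_add]

/-- two closed walks have even intersection number -/
theorem B_closed {S T : Pt → Prop} {a b : Pt} {L M : List Edge} (hL : IsWalk S a a L)
    (hM : IsWalk T b b M) : B L M = 0 := by
  rw [B_swap]
  have : (M.map (fun f => (L.map (fun e => lb e f)).sum)) =
      (M.map (fun f => SW L f.src + SW L f.tgt)) := by
    apply List.map_congr_left
    intro f _
    exact closed_local hL f
  rw [this, walk_sum (SW L) hM, add_self']

/-- number of north or west edges at a vertex -/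
def mm : Edge → Pt → ZMod 2
  | .H q, x => if x = (q.1 + 1, q.2) then 1 else 0
  | .V q, x => if x = q then 1 else 0

def dl (x y : Pt) : ZMod 2 := if x = y then 1 else 0

theorem edge_sym (e f : Edge) :
    lb e f + lb f e = (mm f e.src + mm f e.tgt) + (mm e f.src + mm e f.tgt)
      + ((dl e.src f.src + dl e.tgt f.src) + (dl e.src f.tgt + dl e.tgt f.tgt)) := by
  rcases e with ⟨i, l⟩ | ⟨i, l⟩ <;> rcases f with ⟨k, j⟩ | ⟨k, j⟩ <;>
    dsimp only [lb, mm, dl, Edge.src, Edge.tgt] <;> (try simp only [Prod.mk.injEq]) <;>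
    split_ifs <;> first | decide | (exfalso; omega)


def MM (L : List Edge) (p : Pt) : ZMod 2 := (L.map (fun e => mm e p)).sum

theorem sum_add_list {α : Type*} (L : List α) (F G : α → ZMod 2) :
    (L.map (fun e => F e + G e)).sum = (L.map F).sum + (L.map G).sum := by
  exact List.sum_map_add

/-- symmetrised intersection number of two walks -/
theorem B_sym {S T : Pt → Prop} {a b a' b' : Pt} {L M : List Edge} (hL : IsWalk S a b L)
    (hM : IsWalk T a' b' M) :
    B L M + B M L = (MM M a + MM M b) + (MM L a' + MM L b')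
      + ((dl a a' + dl b a') + (dl a b' + dl b b')) := by
  have h1 : B L M + B M L
      = (L.map (fun e => (M.map (fun f => lb e f + lb f e)).sum)).sum := by
    rw [B_swap M L]
    unfold B
    rw [← sum_add_list]
    congr 1
    apply List.map_congr_left
    intro e _
    rw [← sum_add_list]
  rw [h1]
  have h2 : ∀ e : Edge, (M.map (fun f => lb e f + lb f e)).sum
      = (MM M e.src + MM M e.tgt) + ((mm e a' + dl e.src a' + dl e.tgt a')
        + (mm e b' + dl e.src b' + dl e.tgt b')) := by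
    intro e
    have h3 : (M.map (fun f => lb e f + lb f e)) = (M.map (fun f => (mm f e.src + mm f e.tgt) +
        ((mm e f.src + dl e.src f.src + dl e.tgt f.src)
          + (mm e f.tgt + dl e.src f.tgt + dl e.tgt f.tgt)))) := by
      apply List.map_congr_left
      intro f _
      rw [edge_sym]
      ring
    rw [h3, sum_add_list, sum_add_list,
      walk_sum (fun p => mm e p + dl e.src p + dl e.tgt p) hM]
    rfl
  have h4 : (L.map (fun e => (M.map (fun f => lb e f + lb f e)).sum))
      = (L.map (fun e => (MM M e.src + MM M e.tgt) + ((mm e a' + mm e b') +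
        ((dl e.src a' + dl e.src b') + (dl e.tgt a' + dl e.tgt b'))))) := by
    apply List.map_congr_left
    intro e _
    rw [h2 e]
    ring
  rw [h4, sum_add_list, walk_sum (fun p => MM M p) hL, sum_add_list,
    walk_sum (fun p => dl p a' + dl p b') hL, sum_add_list]
  unfold MM
  ring

theorem IsWalk.start {S : Pt → Prop} {a b : Pt} {L : List Edge} (h : IsWalk S a b L) : S a := by
  cases h <;> assumption

theorem IsWalk.finish {S : Pt → Prop} {a b : Pt} {L : List Edge} (h : IsWalk S a b L) : S b := by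
  induction h with
  | nil a ha => exact ha
  | cons e a b c L hab ha h ih => exact ih

theorem IsWalk.mono {S T : Pt → Prop} {a b : Pt} {L : List Edge} (h : IsWalk S a b L)
    (hST : ∀ p, S p → T p) : IsWalk T a b L := by
  induction h with
  | nil a ha => exact IsWalk.nil a (hST a ha)
  | cons e a b c L hab ha h ih => exact IsWalk.cons e a b c L hab (hST a ha) ih

theorem IsWalk.append {S : Pt → Prop} {a b c : Pt} {L M : List Edge} (h : IsWalk S a b L)
    (h' : IsWalk S b c M) : IsWalk S a c (L ++ M) := by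
  induction h with
  | nil a ha => simpa using h'
  | cons e a b c L hab ha h ih => exact IsWalk.cons e a b _ _ hab ha (ih h')

theorem Joins.symm {e : Edge} {a b : Pt} (h : Joins e a b) : Joins e b a := by
  rcases h with ⟨h1, h2⟩ | ⟨h1, h2⟩
  · exact Or.inr ⟨h2, h1⟩
  · exact Or.inl ⟨h2, h1⟩

theorem IsWalk.reverse {S : Pt → Prop} {a b : Pt} {L : List Edge} (h : IsWalk S a b L) :
    IsWalk S b a L.reverse := by
  induction h with
  | nil a ha => exact IsWalk.nil a ha
  | cons e a b c L hab ha h ih =>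
    rw [List.reverse_cons]
    exact ih.append (IsWalk.cons e b a a [] hab.symm h.start (IsWalk.nil a ha))

theorem IsWalk.edge_mem {S : Pt → Prop} {a b : Pt} {L : List Edge} (h : IsWalk S a b L) :
    ∀ e ∈ L, S e.src ∧ S e.tgt := by
  induction h with
  | nil a ha => intro e he; simp at he
  | cons e a b c L hab ha h ih =>
    intro f hf
    rcases List.mem_cons.mp hf with rfl | hf
    · rcases hab with ⟨h1, h2⟩ | ⟨h1, h2⟩
      · rw [← h1, ← h2]; exact ⟨ha, h.start⟩
      · rw [← h1, ← h2]; exact ⟨h.start, ha⟩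
    · exact ih f hf

theorem lb_share (e f : Edge) (h : lb e f ≠ 0) :
    (e.src = f.src ∨ e.src = f.tgt) ∨ (e.tgt = f.src ∨ e.tgt = f.tgt) := by
  rcases e with ⟨i, l⟩ | ⟨i, l⟩ <;> rcases f with ⟨k, j⟩ | ⟨k, j⟩ <;>
    dsimp only [lb, Edge.src, Edge.tgt] at h ⊢
  · exact absurd rfl h
  · left; right
    split_ifs at h with hh
    · simp only [Prod.mk.injEq] at hh ⊢
      omega
    · exact absurd rfl h
  · left; right
    split_ifs at h with hh
    · simp only [Prod.mk.injEq] at hh ⊢
      omega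
    · exact absurd rfl h
  · exact absurd rfl h

theorem sum_zero_of {α : Type*} (L : List α) (F : α → ZMod 2) (h : ∀ e ∈ L, F e = 0) :
    (L.map F).sum = 0 := by
  induction L with
  | nil => rfl
  | cons e L ih =>
    rw [List.map_cons, List.sum_cons, h e (by simp), ih (fun f hf => h f (by simp [hf])), add_zero]

/-- vertex disjoint walks do not intersect -/
theorem B_disjoint {S T : Pt → Prop} {a b a' b' : Pt} {L M : List Edge} (hL : IsWalk S a b L)
    (hM : IsWalk T a' b' M) (hd : ∀ p, ¬ (S p ∧ T p)) : B L M = 0 := by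
  unfold B
  apply sum_zero_of
  intro e he
  apply sum_zero_of
  intro f hf
  by_contra hne
  have h1 := hL.edge_mem e he
  have h2 := hM.edge_mem f hf
  rcases lb_share e f hne with (h | h) | (h | h)
  · exact hd f.src ⟨h ▸ h1.1, h2.1⟩
  · exact hd f.tgt ⟨h ▸ h1.1, h2.2⟩
  · exact hd f.src ⟨h ▸ h1.2, h2.1⟩
  · exact hd f.tgt ⟨h ▸ h1.2, h2.2⟩

theorem MM_zero {S : Pt → Prop} {a b x : Pt} {L : List Edge} (hL : IsWalk S a b L)
    (hx : ¬ S x) : MM L x = 0 := by
  unfold MM
  apply sum_zero_of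
  intro e he
  have h1 := hL.edge_mem e he
  rcases e with ⟨i, l⟩ | ⟨i, l⟩
  · dsimp only [mm]
    rw [if_neg]
    intro h
    exact hx (h ▸ h1.2)
  · dsimp only [mm]
    rw [if_neg]
    intro h
    exact hx (h ▸ h1.1)

/-- one pairing -/
theorem pairing {c x0 x1 x2 x3 : Pt} {P0 P1 P2 P3 A01 A23 : Pt → Prop}
    {p0 p1 p2 p3 a01 a23 : List Edge}
    (w0 : IsWalk P0 c x0 p0) (w1 : IsWalk P1 c x1 p1) (w2 : IsWalk P2 c x2 p2)
    (w3 : IsWalk P3 c x3 p3) (u : IsWalk A01 x0 x1 a01) (v : IsWalk A23 x2 x3 a23)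
    (huv : ∀ p, ¬ (A01 p ∧ A23 p))
    (hu2 : ∀ p, ¬ (A01 p ∧ P2 p)) (hu3 : ∀ p, ¬ (A01 p ∧ P3 p))
    (hv0 : ∀ p, ¬ (A23 p ∧ P0 p)) (hv1 : ∀ p, ¬ (A23 p ∧ P1 p)) :
    B p0 p2 + B p0 p3 + B p1 p2 + B p1 p3 = 0 := by
  have c1 : IsWalk (fun _ => True) c c (p0 ++ a01 ++ p1.reverse) :=
    ((w0.mono (fun _ _ => trivial)).append (u.mono (fun _ _ => trivial))).append
      (w1.reverse.mono (fun _ _ => trivial))
  have c2 : IsWalk (fun _ => True) c c (p2 ++ a23 ++ p3.reverse) :=
    ((w2.mono (fun _ _ => trivial)).append (v.mono (fun _ _ => trivial))).append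
      (w3.reverse.mono (fun _ _ => trivial))
  have h := B_closed c1 c2
  rw [B_append_left, B_append_left, B_append_right, B_append_right, B_append_right,
    B_append_right, B_append_right, B_append_right, B_reverse_left, B_reverse_right,
    B_reverse_right, B_reverse_right, B_reverse_left, B_reverse_left,
    B_disjoint u v huv, B_disjoint u w2 hu2, B_disjoint u w3 hu3,
    B_disjoint w0 v (fun p hp => hv0 p ⟨hp.2, hp.1⟩),
    B_disjoint w1 v (fun p hp => hv1 p ⟨hp.2, hp.1⟩)] at h
  rw [← h]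
  ring

/-- van Kampen - Flores for `K₅` on the square lattice -/
theorem no_K5 {c x0 x1 x2 x3 : Pt} {P0 P1 P2 P3 A01 A23 A02 A13 A03 A12 : Pt → Prop}
    {p0 p1 p2 p3 a01 a23 a02 a13 a03 a12 : List Edge}
    (w0 : IsWalk P0 c x0 p0) (w1 : IsWalk P1 c x1 p1) (w2 : IsWalk P2 c x2 p2)
    (w3 : IsWalk P3 c x3 p3)
    (u01 : IsWalk A01 x0 x1 a01) (u23 : IsWalk A23 x2 x3 a23)
    (u02 : IsWalk A02 x0 x2 a02) (u13 : IsWalk A13 x1 x3 a13)
    (u03 : IsWalk A03 x0 x3 a03) (u12 : IsWalk A12 x1 x2 a12)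
    (d1 : ∀ p, ¬ (A01 p ∧ A23 p)) (d2 : ∀ p, ¬ (A02 p ∧ A13 p)) (d3 : ∀ p, ¬ (A03 p ∧ A12 p))
    (e012 : ∀ p, ¬ (A01 p ∧ P2 p)) (e013 : ∀ p, ¬ (A01 p ∧ P3 p))
    (e230 : ∀ p, ¬ (A23 p ∧ P0 p)) (e231 : ∀ p, ¬ (A23 p ∧ P1 p))
    (e021 : ∀ p, ¬ (A02 p ∧ P1 p)) (e023 : ∀ p, ¬ (A02 p ∧ P3 p))
    (e130 : ∀ p, ¬ (A13 p ∧ P0 p)) (e132 : ∀ p, ¬ (A13 p ∧ P2 p))
    (e031 : ∀ p, ¬ (A03 p ∧ P1 p)) (e032 : ∀ p, ¬ (A03 p ∧ P2 p))
    (e120 : ∀ p, ¬ (A12 p ∧ P0 p)) (e123 : ∀ p, ¬ (A12 p ∧ P3 p)) : False := by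
  have q1 := pairing w0 w1 w2 w3 u01 u23 d1 e012 e013 e230 e231
  have q2 := pairing w0 w2 w1 w3 u02 u13 d2 e021 e023 e130 e132
  have q3 := pairing w0 w3 w1 w2 u03 u12 d3 e031 e032 e120 e123
  -- none of the walks `p_i` visits `x_j` for `j ≠ i`, and the `x_i` are distinct from `c`
  have n12 : ¬ P1 x2 := fun h => e021 x2 ⟨u02.finish, h⟩
  have n13 : ¬ P1 x3 := fun h => e031 x3 ⟨u03.finish, h⟩
  have n21 : ¬ P2 x1 := fun h => e012 x1 ⟨u01.finish, h⟩
  have n23 : ¬ P2 x3 := fun h => e032 x3 ⟨u03.finish, h⟩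
  have n31 : ¬ P3 x1 := fun h => e013 x1 ⟨u01.finish, h⟩
  have n32 : ¬ P3 x2 := fun h => e023 x2 ⟨u02.finish, h⟩
  have c1 : c ≠ x1 := fun h => n21 (h ▸ w2.start)
  have c2 : c ≠ x2 := fun h => n12 (h ▸ w1.start)
  have c3 : c ≠ x3 := fun h => n13 (h ▸ w1.start)
  have x12 : x1 ≠ x2 := fun h => n12 (h ▸ w1.finish)
  have x13 : x1 ≠ x3 := fun h => n13 (h ▸ w1.finish)
  have x23 : x2 ≠ x3 := fun h => n23 (h ▸ w2.finish)
  have s12 := B_sym w1 w2
  have s13 := B_sym w1 w3
  have s23 := B_sym w2 w3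
  rw [MM_zero w2 n21, MM_zero w1 n12] at s12
  rw [MM_zero w3 n31, MM_zero w1 n13] at s13
  rw [MM_zero w3 n32, MM_zero w2 n23] at s23
  have dcc : dl c c = 1 := by simp [dl]
  have dx1c : dl x1 c = 0 := by simp [dl, c1.symm]
  have dx2c : dl x2 c = 0 := by simp [dl, c2.symm]
  have dcx2 : dl c x2 = 0 := by simp [dl, c2]
  have dcx3 : dl c x3 = 0 := by simp [dl, c3]
  have d12 : dl x1 x2 = 0 := by simp [dl, x12]
  have d13 : dl x1 x3 = 0 := by simp [dl, x13]
  have d23 : dl x2 x3 = 0 := by simp [dl, x23]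
  rw [dcc, dx1c, dcx2, d12] at s12
  rw [dcc, dx1c, dcx3, d13] at s13
  rw [dcc, dx2c, dcx3, d23] at s23
  have t : (2 : ZMod 2) = 0 := two_eq_zero'
  have total : (B p1 p2 + B p2 p1) + (B p1 p3 + B p3 p1) + (B p2 p3 + B p3 p2) = 1 := by
    rw [s12, s13, s23]
    generalize MM p1 c = m1
    generalize MM p2 c = m2
    generalize MM p3 c = m3
    revert m1 m2 m3
    decide
  have total' : (B p1 p2 + B p2 p1) + (B p1 p3 + B p3 p1) + (B p2 p3 + B p3 p2) = 0 := by
    have e : (B p1 p2 + B p2 p1) + (B p1 p3 + B p3 p1) + (B p2 p3 + B p3 p2)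
        = (B p0 p2 + B p0 p3 + B p1 p2 + B p1 p3) + (B p0 p1 + B p0 p3 + B p2 p1 + B p2 p3)
          + (B p0 p1 + B p0 p2 + B p3 p1 + B p3 p2)
          - 2 * (B p0 p1 + B p0 p2 + B p0 p3) := by ring
    rw [e, q1, q2, q3, t]
    ring
  rw [total] at total'
  exact absurd total' (by decide)

end Pool.Agent.Helper38.Planar
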