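import Mathlib
import Pool.Agent.Helper38.Ext
import Pool.Agent.Helper38.Planar

set_option autoImplicit false
open Set Filter Topology

/-! Connectivity classes on a union of cells and lattice walks. -/

namespace Pool.Agent.Helper38.Carpet

open Pool.Agent.Helper38.Planar

variable {n : ℕ} {T : Finset Z2}

/-- two points in a common subcell contained in `U` -/
def Step (n : ℕ) (T : Finset Z2) (U : Set ↥(Wset n T)) (y z : ↥(Wset n T)) : Prop :=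
  ∃ k, ∃ c ∈ T, ∃ d ∈ cells k, (∀ w : ↥(Wset n T), w.1 ∈ sq (n + k) (adr k c d) → w ∈ U) ∧
    y.1 ∈ sq (n + k) (adr k c d) ∧ z.1 ∈ sq (n + k) (adr k c d)

theorem Step.symm {U : Set ↥(Wset n T)} {y z : ↥(Wset n T)} (h : Step n T U y z) :
    Step n T U z y := by
  obtain ⟨k, c, hc, d, hd, h1, h2, h3⟩ := h
  exact ⟨k, c, hc, d, hd, h1, h3, h2⟩

theorem Step.mem_right {U : Set ↥(Wset n T)} {y z : ↥(Wset n T)} (h : Step n T U y z) :
    z ∈ U := by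
  obtain ⟨k, c, hc, d, hd, h1, h2, h3⟩ := h
  exact h1 z h3

/-- connectivity class -/
def cl (n : ℕ) (T : Finset Z2) (U : Set ↥(Wset n T)) (x : ↥(Wset n T)) : Set ↥(Wset n T) :=
  {y | x ∈ U ∧ Relation.ReflTransGen (Step n T U) x y}

theorem cl_sub {U : Set ↥(Wset n T)} {x y : ↥(Wset n T)} (h : y ∈ cl n T U x) : y ∈ U := by
  obtain ⟨hx, h⟩ := h
  induction h with
  | refl => exact hx
  | tail _ h2 _ => exact h2.mem_right

/-- small cells around a point of an open set -/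
theorem small_cells {U : Set ↥(Wset n T)} (hU : IsOpen U) {x : ↥(Wset n T)} (hx : x ∈ U) :
    ∃ k0, ∀ k ≥ k0, ∀ D : Z2, x.1 ∈ sq (n + k) D → ∀ w : ↥(Wset n T), w.1 ∈ sq (n + k) D →
      w ∈ U := by
  obtain ⟨ε, hε, hball⟩ := Metric.isOpen_iff.mp hU x hx
  obtain ⟨N, hN⟩ := exists_small ε hε
  refine ⟨N, fun k hk D hxD w hwD => hball ?_⟩
  rw [Metric.mem_ball, Subtype.dist_eq]
  exact lt_of_le_of_lt (sq_dist hwD hxD) (hN (n + k) (by omega))

/-- every point has a neighbourhood of points one step away -/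
theorem step_nhds {U : Set ↥(Wset n T)} (hU : IsOpen U) {x : ↥(Wset n T)} (hx : x ∈ U) :
    ∃ O : Set ↥(Wset n T), IsOpen O ∧ x ∈ O ∧ ∀ w ∈ O, Step n T U x w := by
  classical
  obtain ⟨k, hk⟩ := small_cells hU hx
  obtain ⟨O, hO, hxO, hst⟩ := star_nhds (X := ↥(Wset n T)) (T ×ˢ cells k)
    (fun p => {w | w.1 ∈ sq (n + k) (adr k p.1 p.2)})
    (fun p _ => (isClosed_sq _ _).preimage continuous_subtype_val)
    (fun w => by
      obtain ⟨hwK, c, hc, hwc⟩ := w.2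
      obtain ⟨d, hd, h⟩ := exists_sub hwK hwc k
      exact ⟨(c, d), Finset.mem_product.mpr ⟨hc, hd⟩, h⟩) x
  refine ⟨O, hO, hxO, fun w hw => ?_⟩
  obtain ⟨⟨c, d⟩, hcd, h1, h2⟩ := hst w hw
  rw [Finset.mem_product] at hcd
  exact ⟨k, c, hcd.1, d, hcd.2, hk k le_rfl _ h1, h1, h2⟩

theorem cell_precon (hT : T ⊆ cells n) {k : ℕ} {c d : Z2} (hc : c ∈ T) (hd : d ∈ cells k) :
    IsPreconnected {w : ↥(Wset n T) | w.1 ∈ sq (n + k) (adr k c d)} := by
  have hcd : adr k c d ∈ cells (n + k) := cells_comp (hT hc) hd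
  let e : KK → ↥(Wset n T) := fun z =>
    ⟨phi (n + k) (adr k c d) z.1, phi_mem_K hcd z.2, c, hc,
      sq_sub hd (phi_mem_own (n + k) (adr k c d) z.2)⟩
  have he : Continuous e := by
    apply Continuous.subtype_mk
    exact (continuous_phi _ _).comp continuous_subtype_val
  have : {w : ↥(Wset n T) | w.1 ∈ sq (n + k) (adr k c d)} = e '' Set.univ := by
    ext w
    simp only [Set.mem_ofPred_eq, Set.image_univ, Set.mem_range]
    constructor
    · intro hw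
      exact ⟨⟨inv (n + k) (adr k c d) w.1, inv_mem_K w.2.1 hw⟩, Subtype.ext (phi_inv _ _ _)⟩
    · rintro ⟨z, rfl⟩
      exact phi_mem_own _ _ z.2
  rw [this]
  have hK : PreconnectedSpace KK := Subtype.preconnectedSpace K_precon
  exact isPreconnected_univ.image e he.continuousOn

/-- the class structure -/
def classes (hT : T ⊆ cells n) : Classes ↥(Wset n T) where
  cls := cl n T
  sub := fun U x _ y hy => cl_sub hy
  refl := fun U x hx => ⟨hx, Relation.ReflTransGen.refl⟩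
  symm := fun U x y hy => ⟨cl_sub hy, rtg_symm (fun _ _ h => h.symm) hy.2⟩
  trans := fun U x y z hy hz => ⟨hy.1, hy.2.trans hz.2⟩
  isOpen := by
    intro U x hU hx
    rw [isOpen_iff_forall_mem_open]
    intro y hy
    obtain ⟨O, hO, hyO, hst⟩ := step_nhds hU (cl_sub hy)
    exact ⟨O, fun w hw => ⟨hx, hy.2.tail (hst w hw)⟩, hO, hyO⟩
  isOpen' := by
    intro U x hU hx
    rw [isOpen_iff_forall_mem_open]
    rintro y ⟨hyU, hy⟩
    obtain ⟨O, hO, hyO, hst⟩ := step_nhds hU hyU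
    refine ⟨O, fun w hw => ⟨(hst w hw).mem_right, fun hwc => hy ⟨hx, hwc.2.tail (hst w hw).symm⟩⟩,
      hO, hyO⟩
  precon := by
    intro U x hU hx
    apply isPreconnected_of_forall x
    rintro y ⟨-, hy⟩
    induction hy with
    | refl =>
      exact ⟨{x}, by
        rintro _ rfl
        exact ⟨hx, Relation.ReflTransGen.refl⟩, rfl, rfl, isPreconnected_singleton⟩
    | @tail y z hxy hyz ih =>
      obtain ⟨t, ht, hxt, hyt, hpt⟩ := ih
      obtain ⟨k, c, hc, d, hd, h1, h2, h3⟩ := id hyz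
      refine ⟨t ∪ {w : ↥(Wset n T) | w.1 ∈ sq (n + k) (adr k c d)}, ?_, Or.inl hxt, Or.inr h3,
        hpt.union y hyt h2 (cell_precon hT hc hd)⟩
      rintro w (hw | hw)
      · exact ht hw
      · exact ⟨hx, hxy.tail ⟨k, c, hc, d, hd, h1, h2, hw⟩⟩

/-! ### lattice walks -/

/-- lattice point of level `N` -/
noncomputable def pt (N : ℕ) (v : Pt) : R2 := ((v.1 : ℝ) / 3 ^ N, (v.2 : ℝ) / 3 ^ N)

theorem pt_mem_sq (N : ℕ) (v c : Z2) : pt N v ∈ sq N c ↔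
    c.1 ≤ v.1 ∧ v.1 ≤ c.1 + 1 ∧ c.2 ≤ v.2 ∧ v.2 ≤ c.2 + 1 := by
  have h : (3:ℝ) ^ N ≠ 0 := by positivity
  have e : ∀ a : ℝ, (3:ℝ) ^ N * (a / 3 ^ N) = a := by
    intro a; field_simp
  simp only [pt, sq, Set.mem_ofPred_eq, e]
  norm_cast

theorem pt_scale (N j : ℕ) (v : Z2) : pt (N + j) (3 ^ j * v.1, 3 ^ j * v.2) = pt N v := by
  have h : (3:ℝ) ^ N ≠ 0 := by positivity
  have h' : (3:ℝ) ^ j ≠ 0 := by positivity
  simp only [pt]
  rw [pow_add]
  push_cast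
  ext <;> simp only <;> field_simp

theorem corner_mem_K {N : ℕ} {c v : Z2} (hc : c ∈ cells N) (hv : pt N v ∈ sq N c) :
    pt N v ∈ K := by
  rw [pt_mem_sq] at hv
  have : pt N v = phi N c (((v.1 - c.1 : ℤ) : ℝ), ((v.2 - c.2 : ℤ) : ℝ)) := by
    simp only [pt, phi]
    push_cast
    ring_nf
  rw [this]
  apply phi_mem_K hc
  have h1 : v.1 - c.1 = 0 ∨ v.1 - c.1 = 1 := by omega
  have h2 : v.2 - c.2 = 0 ∨ v.2 - c.2 = 1 := by omega
  apply boundary_mem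
  · rcases h1 with h1 | h1 <;> rcases h2 with h2 | h2 <;> rw [h1, h2] <;> norm_num
  · rcases h1 with h1 | h1 <;> rw [h1] <;> norm_num

/-- lattice vertices (level `n + k`) of the union of cells that are in `U` -/
def LU (n : ℕ) (T : Finset Z2) (k : ℕ) (U : Set ↥(Wset n T)) (v : Pt) : Prop :=
  ∃ h : pt (n + k) v ∈ Wset n T, (⟨pt (n + k) v, h⟩ : ↥(Wset n T)) ∈ U

/-- subcells contained in `U` -/
def GoodIn (n : ℕ) (T : Finset Z2) (k : ℕ) (U : Set ↥(Wset n T)) (D : Z2) : Prop :=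
  ∃ c ∈ T, ∃ d ∈ cells k, D = adr k c d ∧ ∀ w : ↥(Wset n T), w.1 ∈ sq (n + k) D → w ∈ U

theorem corner_LU (hT : T ⊆ cells n) {k : ℕ} {U : Set ↥(Wset n T)} {D v : Z2}
    (hD : GoodIn n T k U D) (hv : pt (n + k) v ∈ sq (n + k) D) : LU n T k U v := by
  obtain ⟨c, hc, d, hd, rfl, hU⟩ := hD
  have hmem : pt (n + k) v ∈ Wset n T :=
    ⟨corner_mem_K (cells_comp (hT hc) hd) hv, c, hc, sq_sub hd hv⟩
  exact ⟨hmem, hU ⟨_, hmem⟩ hv⟩

/-- one-edge or empty walk between corners in the same row or column -/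
theorem walk_adj {S : Pt → Prop} {a b : Pt} (ha : S a) (hb : S b)
    (h : (a.1 = b.1 ∧ (a.2 = b.2 ∨ a.2 = b.2 + 1 ∨ b.2 = a.2 + 1)) ∨
      (a.2 = b.2 ∧ (a.1 = b.1 + 1 ∨ b.1 = a.1 + 1))) : ∃ L, IsWalk S a b L := by
  obtain ⟨a1, a2⟩ := a
  obtain ⟨b1, b2⟩ := b
  simp only at h
  rcases h with ⟨rfl, rfl | rfl | rfl⟩ | ⟨rfl, rfl | rfl⟩
  · exact ⟨[], IsWalk.nil _ ha⟩
  · exact ⟨[Edge.V (a1, b2)], IsWalk.cons _ _ (a1, b2) _ _ (Or.inr ⟨rfl, rfl⟩) ha (IsWalk.nil _ hb)⟩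
  · exact ⟨[Edge.V (a1, a2)], IsWalk.cons _ _ (a1, a2 + 1) _ _ (Or.inl ⟨rfl, rfl⟩) ha (IsWalk.nil _ hb)⟩
  · exact ⟨[Edge.H (b1, a2)], IsWalk.cons _ _ (b1, a2) _ _ (Or.inr ⟨rfl, rfl⟩) ha (IsWalk.nil _ hb)⟩
  · exact ⟨[Edge.H (a1, a2)], IsWalk.cons _ _ (a1 + 1, a2) _ _ (Or.inl ⟨rfl, rfl⟩) ha (IsWalk.nil _ hb)⟩

theorem corner_walk (hT : T ⊆ cells n) {k : ℕ} {U : Set ↥(Wset n T)} {D v v' : Z2}
    (hD : GoodIn n T k U D) (hv : pt (n + k) v ∈ sq (n + k) D)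
    (hv' : pt (n + k) v' ∈ sq (n + k) D) : ∃ L, IsWalk (LU n T k U) v v' L := by
  have hm : pt (n + k) (v.1, v'.2) ∈ sq (n + k) D := by
    rw [pt_mem_sq] at *
    exact ⟨hv.1, hv.2.1, hv'.2.2.1, hv'.2.2.2⟩
  have s1 := corner_LU hT hD hv
  have s2 := corner_LU hT hD hm
  have s3 := corner_LU hT hD hv'
  rw [pt_mem_sq] at hv hv'
  obtain ⟨L1, h1⟩ := walk_adj s1 s2 (Or.inl ⟨rfl, by simp only; omega⟩)
  obtain ⟨L2, h2⟩ : ∃ L, IsWalk (LU n T k U) (v.1, v'.2) v' L := by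
    by_cases e : v.1 = v'.1
    · rw [e] at s2 ⊢
      exact walk_adj s2 s3 (Or.inl ⟨rfl, Or.inl rfl⟩)
    · exact walk_adj s2 s3 (Or.inr ⟨rfl, by simp only; omega⟩)
  exact ⟨_, h1.append h2⟩

/-- chains of cells touching each other -/
def CC (n : ℕ) (T : Finset Z2) (k : ℕ) (U : Set ↥(Wset n T)) (D D' : Z2) : Prop :=
  GoodIn n T k U D ∧ GoodIn n T k U D' ∧
    (D.1 ≤ D'.1 + 1 ∧ D'.1 ≤ D.1 + 1 ∧ D.2 ≤ D'.2 + 1 ∧ D'.2 ≤ D.2 + 1)

theorem share_near {N : ℕ} {D D' : Z2} {z : R2} (h : z ∈ sq N D) (h' : z ∈ sq N D') :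
    D.1 ≤ D'.1 + 1 ∧ D'.1 ≤ D.1 + 1 ∧ D.2 ≤ D'.2 + 1 ∧ D'.2 ≤ D.2 + 1 := by
  obtain ⟨h1, h2, h3, h4⟩ := h
  obtain ⟨g1, g2, g3, g4⟩ := h'
  refine ⟨?_, ?_, ?_, ?_⟩
  · exact_mod_cast h1.trans g2
  · exact_mod_cast g1.trans h2
  · exact_mod_cast h3.trans g4
  · exact_mod_cast g3.trans h4

theorem cc_walk (hT : T ⊆ cells n) {k : ℕ} {U : Set ↥(Wset n T)} {D D' : Z2}
    (hD : GoodIn n T k U D)
    (h : Relation.ReflTransGen (CC n T k U) D D') {v v' : Z2}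
    (hv : pt (n + k) v ∈ sq (n + k) D) (hv' : pt (n + k) v' ∈ sq (n + k) D') :
    ∃ L, IsWalk (LU n T k U) v v' L := by
  induction h generalizing v' with
  | refl => exact corner_walk hT hD hv hv'
  | @tail E E' hDE hEE' ih =>
    obtain ⟨hE, hE', h1, h2, h3, h4⟩ := hEE'
    -- a common corner
    obtain ⟨m, hm, hm'⟩ : ∃ m : Z2, pt (n + k) m ∈ sq (n + k) E ∧ pt (n + k) m ∈ sq (n + k) E' := by
      refine ⟨(max E.1 E'.1, max E.2 E'.2), ?_, ?_⟩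
      · rw [pt_mem_sq]; simp only; omega
      · rw [pt_mem_sq]; simp only; omega
    obtain ⟨L1, w1⟩ := ih hm
    obtain ⟨L2, w2⟩ := corner_walk hT hE' hm' hv'
    exact ⟨_, w1.append w2⟩

/-- subcells of a good cell are good and chained -/
theorem good_sub {k j : ℕ} {U : Set ↥(Wset n T)} {c d e : Z2}
    (hc : c ∈ T) (hd : d ∈ cells k) (he : e ∈ cells j)
    (hU : ∀ w : ↥(Wset n T), w.1 ∈ sq (n + k) (adr k c d) → w ∈ U) :
    GoodIn n T (k + j) U (adr j (adr k c d) e) := by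
  refine ⟨c, hc, adr j d e, cells_comp hd he, comp_assoc _ _ _ _ _, fun w hw => hU w ?_⟩
  rw [← Nat.add_assoc] at hw
  exact sq_sub he hw

theorem cl_chain (hT : T ⊆ cells n) {U : Set ↥(Wset n T)} {x y : ↥(Wset n T)}
    (h : y ∈ cl n T U x) : ∃ k0, ∀ k ≥ k0, ∀ D D' : Z2, GoodIn n T k U D → GoodIn n T k U D' →
      x.1 ∈ sq (n + k) D → y.1 ∈ sq (n + k) D' → Relation.ReflTransGen (CC n T k U) D D' := by
  obtain ⟨hx, h⟩ := h
  induction h with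
  | refl =>
    refine ⟨0, fun k _ D D' hD hD' hxD hxD' => Relation.ReflTransGen.single ⟨hD, hD', share_near hxD hxD'⟩⟩
  | @tail y z hxy hyz ih =>
    obtain ⟨k0, hk0⟩ := ih
    obtain ⟨k1, c, hc, d, hd, h1, h2, h3⟩ := hyz
    refine ⟨max k0 k1, fun k hk D D' hD hD' hxD hzD' => ?_⟩
    obtain ⟨j, rfl⟩ := Nat.exists_eq_add_of_le (le_of_max_le_right hk)
    obtain ⟨e, he, hye⟩ := exists_sub y.2.1 h2 j
    obtain ⟨e', he', hze⟩ := exists_sub z.2.1 h3 j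
    have a1 := hk0 (k1 + j) (le_of_max_le_left hk) D (adr j (adr k1 c d) e) hD
      (good_sub hc hd he h1) hxD (by rw [← Nat.add_assoc]; exact hye)
    have a2 : Relation.ReflTransGen (CC n T (k1 + j) U) (adr j (adr k1 c d) e)
        (adr j (adr k1 c d) e') := by
      refine rtg_lift (adr j (adr k1 c d)) ?_ (cells_connected j e he e' he')
      intro a b hab
      apply Relation.ReflTransGen.single
      refine ⟨good_sub hc hd hab.1 h1, good_sub hc hd hab.2.1 h1, ?_⟩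
      have := hab.2.2
      unfold sadj at this
      unfold adr
      simp only
      omega
    have a3 : CC n T (k1 + j) U (adr j (adr k1 c d) e') D' :=
      ⟨good_sub hc hd he' h1, hD', share_near (z := z.1) (by rw [← Nat.add_assoc]; exact hze) hzD'⟩
    exact (a1.trans a2).tail a3

/-- **walk extraction** -/
theorem cl_walk (hT : T ⊆ cells n) {U : Set ↥(Wset n T)} (hU : IsOpen U) {x y : ↥(Wset n T)}
    (h : y ∈ cl n T U x) : ∃ k0, ∀ k ≥ k0, ∀ a b : Pt, x.1 = pt (n + k) a → y.1 = pt (n + k) b →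
      ∃ L, IsWalk (LU n T k U) a b L := by
  obtain ⟨k0, hk0⟩ := cl_chain hT h
  obtain ⟨k1, hk1⟩ := small_cells hU h.1
  obtain ⟨k2, hk2⟩ := small_cells hU (cl_sub h)
  refine ⟨max k0 (max k1 k2), fun k hk a b ha hb => ?_⟩
  have hk0' : k0 ≤ k := le_of_max_le_left hk
  have hk1' : k1 ≤ k := le_of_max_le_left (le_of_max_le_right hk)
  have hk2' : k2 ≤ k := le_of_max_le_right (le_of_max_le_right hk)
  obtain ⟨hxK, c, hc, hxc⟩ := id x.2
  obtain ⟨hyK, c', hc', hyc⟩ := id y.2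
  obtain ⟨d, hd, hxd⟩ := exists_sub hxK hxc k
  obtain ⟨d', hd', hyd⟩ := exists_sub hyK hyc k
  have g1 : GoodIn n T k U (adr k c d) := ⟨c, hc, d, hd, rfl, hk1 k hk1' _ hxd⟩
  have g2 : GoodIn n T k U (adr k c' d') := ⟨c', hc', d', hd', rfl, hk2 k hk2' _ hyd⟩
  have hch := hk0 k hk0' _ _ g1 g2 hxd hyd
  exact cc_walk hT g1 hch (by rw [← ha]; exact hxd) (by rw [← hb]; exact hyd)

end Pool.Agent.Helper38.Carpet
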