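import Mathlib
import Pool.Agent.Helper38.Walks

set_option autoImplicit false
open Set Filter Topology

/-! Walks inside the removed cells, planarity and density. -/

namespace Pool.Agent.Helper38.Carpet

open Pool.Agent.Helper38.Planar

variable {n : ℕ} {C T : Finset Z2}

theorem idx1 {L a b t : ℤ} (hL : 0 < L) (h1 : L * a < t) (h2 : t < L * a + L) (h3 : L * b ≤ t)
    (h4 : t ≤ L * b + L) : b = a := by
  have g1 : L * b < L * (a + 1) := by linarith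
  have g2 : L * a < L * (b + 1) := by linarith
  have := lt_of_mul_lt_mul_left g1 hL.le
  have := lt_of_mul_lt_mul_left g2 hL.le
  omega

theorem idx2 {L a b t : ℤ} (hL : 0 < L) (h1 : L * a < t) (h2 : t < L * (a + 1) + L)
    (h3 : L * b ≤ t) (h4 : t ≤ L * b + L) : b = a ∨ b = a + 1 := by
  have g1 : L * b < L * (a + 2) := by linarith
  have g2 : L * a < L * (b + 1) := by linarith
  have := lt_of_mul_lt_mul_left g1 hL.le
  have := lt_of_mul_lt_mul_left g2 hL.le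
  omega

theorem hline {S : Pt → Prop} (y a b : ℤ) (hab : a ≤ b) (h : ∀ i, a ≤ i → i ≤ b → S (i, y)) :
    ∃ L, IsWalk S (a, y) (b, y) L := by
  induction b, hab using Int.leInduction with
  | base => exact ⟨[], IsWalk.nil _ (h a le_rfl le_rfl)⟩
  | succ m hm ih =>
    obtain ⟨L, hL⟩ := ih (fun i h1 h2 => h i h1 (by omega))
    obtain ⟨L', hL'⟩ := walk_adj (a := (m, y)) (b := (m + 1, y)) (h m hm (by omega))
      (h (m + 1) (by omega) le_rfl) (Or.inr ⟨rfl, Or.inr rfl⟩)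
    exact ⟨_, hL.append hL'⟩

theorem vline {S : Pt → Prop} (x a b : ℤ) (hab : a ≤ b) (h : ∀ i, a ≤ i → i ≤ b → S (x, i)) :
    ∃ L, IsWalk S (x, a) (x, b) L := by
  induction b, hab using Int.leInduction with
  | base => exact ⟨[], IsWalk.nil _ (h a le_rfl le_rfl)⟩
  | succ m hm ih =>
    obtain ⟨L, hL⟩ := ih (fun i h1 h2 => h i h1 (by omega))
    obtain ⟨L', hL'⟩ := walk_adj (a := (x, m)) (b := (x, m + 1)) (h m hm (by omega))
      (h (m + 1) (by omega) le_rfl) (Or.inl ⟨rfl, Or.inr (Or.inr rfl)⟩)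
    exact ⟨_, hL.append hL'⟩

theorem pt_mem_sq' (n k : ℕ) (v c : Z2) : pt (n + k) v ∈ sq n c ↔
    3 ^ k * c.1 ≤ v.1 ∧ v.1 ≤ 3 ^ k * c.1 + 3 ^ k ∧ 3 ^ k * c.2 ≤ v.2 ∧
      v.2 ≤ 3 ^ k * c.2 + 3 ^ k := by
  have h : (3:ℝ) ^ n ≠ 0 := by positivity
  have h' : (0:ℝ) < 3 ^ k := by positivity
  have e : ∀ a : ℝ, (3:ℝ) ^ n * (a / 3 ^ (n + k)) = a / 3 ^ k := by
    intro a; rw [pow_add]; field_simp
  simp only [pt, sq, Set.mem_ofPred_eq, e, le_div_iff₀ h', div_le_iff₀ h']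
  constructor
  · rintro ⟨h1, h2, h3, h4⟩
    refine ⟨?_, ?_, ?_, ?_⟩
    · rw [mul_comm]; exact_mod_cast h1
    · have : (v.1:ℝ) ≤ 3 ^ k * c.1 + 3 ^ k := by linarith
      exact_mod_cast this
    · rw [mul_comm]; exact_mod_cast h3
    · have : (v.2:ℝ) ≤ 3 ^ k * c.2 + 3 ^ k := by linarith
      exact_mod_cast this
  · rintro ⟨h1, h2, h3, h4⟩
    have g1 : (3:ℝ) ^ k * c.1 ≤ v.1 := by exact_mod_cast h1
    have g2 : (v.1:ℝ) ≤ 3 ^ k * c.1 + 3 ^ k := by exact_mod_cast h2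
    have g3 : (3:ℝ) ^ k * c.2 ≤ v.2 := by exact_mod_cast h3
    have g4 : (v.2:ℝ) ≤ 3 ^ k * c.2 + 3 ^ k := by exact_mod_cast h4
    refine ⟨?_, ?_, ?_, ?_⟩ <;> linarith

/-- lattice vertices outside the union of cells -/
def NW (n : ℕ) (T : Finset Z2) (k : ℕ) (v : Pt) : Prop := ¬ (pt (n + k) v ∈ Wset n T)

theorem NW_of {k : ℕ} {v : Pt}
    (h : ∀ c : Z2, 3 ^ k * c.1 ≤ v.1 → v.1 ≤ 3 ^ k * c.1 + 3 ^ k → 3 ^ k * c.2 ≤ v.2 →
      v.2 ≤ 3 ^ k * c.2 + 3 ^ k → c ∉ T) : NW n T k v := by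
  rintro ⟨-, c, hc, hv⟩
  rw [pt_mem_sq'] at hv
  exact h c hv.1 hv.2.1 hv.2.2.1 hv.2.2.2 hc

theorem NW_int (hdisj : ∀ c ∈ T, c ∉ C) {k : ℕ} {v : Pt} {Q : Z2} (hQ : Q ∈ C)
    (h1 : 3 ^ k * Q.1 < v.1) (h2 : v.1 < 3 ^ k * Q.1 + 3 ^ k) (h3 : 3 ^ k * Q.2 < v.2)
    (h4 : v.2 < 3 ^ k * Q.2 + 3 ^ k) : NW n T k v := by
  apply NW_of
  intro c g1 g2 g3 g4 hc
  have hL : (0:ℤ) < 3 ^ k := by positivity
  have e1 := idx1 hL h1 h2 g1 g2
  have e2 := idx1 hL h3 h4 g3 g4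
  have : c = Q := Prod.ext e1 e2
  exact hdisj c hc (this ▸ hQ)

/-- base point of a cell -/
def bp (k : ℕ) (Q : Z2) : Pt := (3 ^ k * Q.1 + 1, 3 ^ k * Q.2 + 1)

theorem three_pow_ge {k : ℕ} (hk : 1 ≤ k) : (3:ℤ) ≤ 3 ^ k := by
  calc (3:ℤ) = 3 ^ 1 := by norm_num
    _ ≤ 3 ^ k := pow_le_pow_right₀ (by norm_num) hk

theorem base_step (hdisj : ∀ c ∈ T, c ∉ C) {k : ℕ} (hk : 1 ≤ k) {Q Q' : Z2} (hQ : Q ∈ C)
    (hQ' : Q' ∈ C) (h : sadj Q Q') : ∃ L, IsWalk (NW n T k) (bp k Q) (bp k Q') L := by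
  have hL3 := three_pow_ge hk
  have hL : (0:ℤ) < 3 ^ k := by positivity
  -- horizontal and vertical unit steps
  have hor : ∀ Q ∈ C, (Q.1 + 1, Q.2) ∈ C →
      ∃ L, IsWalk (NW n T k) (bp k Q) (bp k (Q.1 + 1, Q.2)) L := by
    intro Q hQ hQ'
    apply hline
    · simp only; linarith
    · intro i h1 h2
      simp only at h2
      apply NW_of
      intro c g1 g2 g3 g4 hc
      simp only at g1 g2 g3 g4
      have e2 := idx1 hL (a := Q.2) (by linarith) (by linarith) g3 g4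
      rcases idx2 hL (a := Q.1) (by linarith) (by linarith) g1 g2 with e1 | e1
      · have : c = Q := Prod.ext e1 e2
        exact hdisj c hc (this ▸ hQ)
      · have : c = (Q.1 + 1, Q.2) := Prod.ext e1 e2
        exact hdisj c hc (this ▸ hQ')
  have ver : ∀ Q ∈ C, (Q.1, Q.2 + 1) ∈ C →
      ∃ L, IsWalk (NW n T k) (bp k Q) (bp k (Q.1, Q.2 + 1)) L := by
    intro Q hQ hQ'
    apply vline
    · simp only; linarith
    · intro i h1 h2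
      simp only at h2
      apply NW_of
      intro c g1 g2 g3 g4 hc
      simp only at g1 g2 g3 g4
      have e1 := idx1 hL (a := Q.1) (by linarith) (by linarith) g1 g2
      rcases idx2 hL (a := Q.2) (by linarith) (by linarith) g3 g4 with e2 | e2
      · have : c = Q := Prod.ext e1 e2
        exact hdisj c hc (this ▸ hQ)
      · have : c = (Q.1, Q.2 + 1) := Prod.ext e1 e2
        exact hdisj c hc (this ▸ hQ')
  obtain ⟨q1, q2⟩ := Q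
  obtain ⟨r1, r2⟩ := Q'
  unfold sadj at h
  simp only at h
  rcases h with ⟨rfl, rfl | rfl⟩ | ⟨rfl, rfl | rfl⟩
  · obtain ⟨L, hw⟩ := ver (q1, r2) hQ' hQ
    exact ⟨_, hw.reverse⟩
  · exact ver (q1, q2) hQ hQ'
  · obtain ⟨L, hw⟩ := hor (r1, q2) hQ' hQ
    exact ⟨_, hw.reverse⟩
  · exact hor (q1, q2) hQ hQ'

/-- side-connected sets of cells -/
def SideConn (C : Finset Z2) : Prop :=
  ∀ a ∈ C, ∀ b ∈ C, Relation.ReflTransGen (fun x y => x ∈ C ∧ y ∈ C ∧ sadj x y) a b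

theorem bp_NW (hdisj : ∀ c ∈ T, c ∉ C) {k : ℕ} (hk : 1 ≤ k) {Q : Z2} (hQ : Q ∈ C) :
    NW n T k (bp k Q) := by
  have hL3 := three_pow_ge hk
  apply NW_int hdisj hQ <;> simp only [bp] <;> linarith

theorem base_walk (hdisj : ∀ c ∈ T, c ∉ C) (hC : SideConn C) {k : ℕ} (hk : 1 ≤ k) {Q Q' : Z2}
    (hQ : Q ∈ C) (hQ' : Q' ∈ C) : ∃ L, IsWalk (NW n T k) (bp k Q) (bp k Q') L := by
  have h := hC Q hQ Q' hQ'
  clear hQ'
  induction h with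
  | refl => exact ⟨[], IsWalk.nil _ (bp_NW hdisj hk hQ)⟩
  | tail _ h2 ih =>
    obtain ⟨L, hw⟩ := ih
    obtain ⟨L', hw'⟩ := base_step (n := n) hdisj hk h2.1 h2.2.1 h2.2.2
    exact ⟨_, hw.append hw'⟩

/-- a lattice point on a closed square, not a corner -/
def NC (k : ℕ) (Q : Z2) (a : Pt) : Prop :=
  3 ^ k * Q.1 ≤ a.1 ∧ a.1 ≤ 3 ^ k * Q.1 + 3 ^ k ∧ 3 ^ k * Q.2 ≤ a.2 ∧ a.2 ≤ 3 ^ k * Q.2 + 3 ^ k ∧
    ((3 ^ k * Q.1 < a.1 ∧ a.1 < 3 ^ k * Q.1 + 3 ^ k) ∨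
      (3 ^ k * Q.2 < a.2 ∧ a.2 < 3 ^ k * Q.2 + 3 ^ k))

theorem NC_scale {k : ℕ} {Q : Z2} {a : Pt} (h : NC k Q a) (j : ℕ) :
    NC (k + j) Q (3 ^ j * a.1, 3 ^ j * a.2) := by
  have hp : (0:ℤ) < 3 ^ j := by positivity
  obtain ⟨h1, h2, h3, h4, h5⟩ := h
  have e1 : (3:ℤ) ^ (k + j) * Q.1 = 3 ^ j * (3 ^ k * Q.1) := by rw [pow_add]; ring
  have e2 : (3:ℤ) ^ (k + j) * Q.2 = 3 ^ j * (3 ^ k * Q.2) := by rw [pow_add]; ring
  have e3 : (3:ℤ) ^ (k + j) = 3 ^ j * 3 ^ k := by rw [pow_add]; ring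
  unfold NC
  simp only
  rw [e1, e2, e3, ← mul_add, ← mul_add]
  refine ⟨mul_le_mul_of_nonneg_left h1 hp.le, mul_le_mul_of_nonneg_left h2 hp.le,
    mul_le_mul_of_nonneg_left h3 hp.le, mul_le_mul_of_nonneg_left h4 hp.le, ?_⟩
  rcases h5 with ⟨h5, h6⟩ | ⟨h5, h6⟩
  · exact Or.inl ⟨mul_lt_mul_of_pos_left h5 hp, mul_lt_mul_of_pos_left h6 hp⟩
  · exact Or.inr ⟨mul_lt_mul_of_pos_left h5 hp, mul_lt_mul_of_pos_left h6 hp⟩

theorem to_side (hdisj : ∀ c ∈ T, c ∉ C) {k : ℕ} (hk : 1 ≤ k) {Q : Z2} (hQ : Q ∈ C) {a : Pt}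
    (ha : NC k Q a) : ∃ L, IsWalk (fun v => NW n T k v ∨ v = a) (bp k Q) a L := by
  have hL3 := three_pow_ge hk
  obtain ⟨a1, a2⟩ := a
  unfold NC at ha
  simp only at ha
  obtain ⟨h1, h2, h3, h4, h5⟩ := ha
  unfold bp
  rcases h5 with ⟨h5, h6⟩ | ⟨h5, h6⟩
  · -- horizontal first, then vertical
    obtain ⟨L1, w1⟩ := hline (S := fun v => NW n T k v ∨ v = (a1, a2)) (3 ^ k * Q.2 + 1)
      (3 ^ k * Q.1 + 1) a1 (by linarith) (fun i g1 g2 => Or.inl (by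
        apply NW_int hdisj hQ <;> simp only <;> linarith))
    have w1a : (fun v => NW n T k v ∨ v = (a1, a2)) (a1, 3 ^ k * Q.2 + 1) := w1.finish
    rcases eq_or_lt_of_le h3 with h3' | h3'
    · obtain ⟨L2, w2⟩ := walk_adj (S := fun v => NW n T k v ∨ v = (a1, a2))
        (a := (a1, 3 ^ k * Q.2 + 1)) (b := (a1, a2)) w1a (Or.inr rfl)
        (Or.inl ⟨rfl, Or.inr (Or.inl (by simp only; linarith))⟩)
      exact ⟨_, w1.append w2⟩
    · obtain ⟨L2, w2⟩ := vline (S := fun v => NW n T k v ∨ v = (a1, a2)) a1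
        (3 ^ k * Q.2 + 1) a2 (by linarith) (fun i g1 g2 => by
          rcases eq_or_lt_of_le g2 with g2' | g2'
          · right; rw [g2']
          · left
            apply NW_int hdisj hQ <;> simp only <;> linarith)
      exact ⟨_, w1.append w2⟩
  · obtain ⟨L1, w1⟩ := vline (S := fun v => NW n T k v ∨ v = (a1, a2)) (3 ^ k * Q.1 + 1)
      (3 ^ k * Q.2 + 1) a2 (by linarith) (fun i g1 g2 => Or.inl (by
        apply NW_int hdisj hQ <;> simp only <;> linarith))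
    have w1a : (fun v => NW n T k v ∨ v = (a1, a2)) (3 ^ k * Q.1 + 1, a2) := w1.finish
    rcases eq_or_lt_of_le h1 with h1' | h1'
    · obtain ⟨L2, w2⟩ := walk_adj (S := fun v => NW n T k v ∨ v = (a1, a2))
        (a := (3 ^ k * Q.1 + 1, a2)) (b := (a1, a2)) w1a (Or.inr rfl)
        (Or.inr ⟨rfl, Or.inl (by simp only; linarith)⟩)
      exact ⟨_, w1.append w2⟩
    · obtain ⟨L2, w2⟩ := hline (S := fun v => NW n T k v ∨ v = (a1, a2)) a2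
        (3 ^ k * Q.1 + 1) a1 (by linarith) (fun i g1 g2 => by
          rcases eq_or_lt_of_le g2 with g2' | g2'
          · right; rw [g2']
          · left
            apply NW_int hdisj hQ <;> simp only <;> linarith)
      exact ⟨_, w1.append w2⟩

/-- good boundary points -/
def DD (n : ℕ) (C T : Finset Z2) : Set ↥(Wset n T) :=
  {w | ∃ k, ∃ a : Pt, w.1 = pt (n + k) a ∧ ∃ Q ∈ C, NC k Q a}

theorem DD_large {w : ↥(Wset n T)} (hw : w ∈ DD n C T) : ∃ k0, ∀ k ≥ k0, ∃ a : Pt,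
    w.1 = pt (n + k) a ∧ ∃ Q ∈ C, NC k Q a := by
  obtain ⟨k0, a, ha, Q, hQ, hNC⟩ := hw
  refine ⟨k0, fun k hk => ?_⟩
  obtain ⟨j, rfl⟩ := Nat.exists_eq_add_of_le hk
  refine ⟨(3 ^ j * a.1, 3 ^ j * a.2), ?_, Q, hQ, NC_scale hNC j⟩
  rw [← Nat.add_assoc, pt_scale]
  exact ha

theorem planar_DD (hT : T ⊆ cells n) (hdisj : ∀ c ∈ T, c ∉ C) (hC : SideConn C)
    (x : Fin 4 → ↥(Wset n T)) (hx : ∀ i, x i ∈ DD n C T) :
    ResForm.Planar4 (classes hT) x := by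
  intro U U' W W' S S' oU oU' oW oW' oS oS' dU dW dS u0 u1 u2 u3 w0 w2 w1 w3 s0 s3 s1 s2
  have u1' : x 1 ∈ cl n T U (x 0) := u1
  have u3' : x 3 ∈ cl n T U' (x 2) := u3
  have w2' : x 2 ∈ cl n T W (x 0) := w2
  have w3' : x 3 ∈ cl n T W' (x 1) := w3
  have s3' : x 3 ∈ cl n T S (x 0) := s3
  have s2' : x 2 ∈ cl n T S' (x 1) := s2
  obtain ⟨ka, ha⟩ := cl_walk hT oU u1'
  obtain ⟨kb, hb⟩ := cl_walk hT oU' u3'
  obtain ⟨kc, hc⟩ := cl_walk hT oW w2'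
  obtain ⟨kd, hd⟩ := cl_walk hT oW' w3'
  obtain ⟨ke, he⟩ := cl_walk hT oS s3'
  obtain ⟨kf, hf⟩ := cl_walk hT oS' s2'
  choose kD hkD using fun i => DD_large (hx i)
  obtain ⟨k, hk⟩ : ∃ k, k = 1 + ka + kb + kc + kd + ke + kf + kD 0 + kD 1 + kD 2 + kD 3 := ⟨_, rfl⟩
  have hkD' : ∀ i, kD i ≤ k := by
    intro i; fin_cases i <;> simp only [Fin.zero_eta, Fin.mk_one, Fin.reduceFinMk] <;> omega
  choose a ha' Q hQ hNC using fun i => hkD i k (hkD' i)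
  have hk1 : 1 ≤ k := by omega
  obtain ⟨L01, wk01⟩ := ha k (by omega) (a 0) (a 1) (ha' 0) (ha' 1)
  obtain ⟨L23, wk23⟩ := hb k (by omega) (a 2) (a 3) (ha' 2) (ha' 3)
  obtain ⟨L02, wk02⟩ := hc k (by omega) (a 0) (a 2) (ha' 0) (ha' 2)
  obtain ⟨L13, wk13⟩ := hd k (by omega) (a 1) (a 3) (ha' 1) (ha' 3)
  obtain ⟨L03, wk03⟩ := he k (by omega) (a 0) (a 3) (ha' 0) (ha' 3)
  obtain ⟨L12, wk12⟩ := hf k (by omega) (a 1) (a 2) (ha' 1) (ha' 2)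
  have hp : ∀ i, ∃ L, IsWalk (fun v => NW n T k v ∨ v = a i) (bp k (Q 0)) (a i) L := by
    intro i
    obtain ⟨L, h1⟩ := base_walk (n := n) (T := T) hdisj hC hk1 (hQ 0) (hQ i)
    obtain ⟨L', h2⟩ := to_side (n := n) hdisj hk1 (hQ i) (hNC i)
    exact ⟨_, (h1.mono (fun _ h => Or.inl h)).append h2⟩
  choose P hP using hp
  -- disjointness facts
  have dis : ∀ {A B : Set ↥(Wset n T)}, Disjoint A B →
      ∀ v, ¬ (LU n T k A v ∧ LU n T k B v) := by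
    rintro A B hAB v ⟨⟨h1, h2⟩, ⟨h3, h4⟩⟩
    exact Set.disjoint_left.mp hAB h2 h4
  have dis2 : ∀ {A B : Set ↥(Wset n T)} (_ : Disjoint A B) (i : Fin 4), x i ∈ B →
      ∀ v, ¬ (LU n T k A v ∧ (NW n T k v ∨ v = a i)) := by
    rintro A B hAB i hi v ⟨⟨h1, h2⟩, h3 | h3⟩
    · exact h3 h1
    · subst h3
      have : (⟨pt (n + k) (a i), h1⟩ : ↥(Wset n T)) = x i := Subtype.ext (ha' i).symm
      rw [this] at h2
      exact Set.disjoint_left.mp hAB h2 hi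
  have x1U := cl_sub u1'
  have x3U' := cl_sub u3'
  have x2W := cl_sub w2'
  have x3W' := cl_sub w3'
  have x3S := cl_sub s3'
  have x2S' := cl_sub s2'
  exact no_K5 (hP 0) (hP 1) (hP 2) (hP 3) wk01 wk23 wk02 wk13 wk03 wk12
    (dis dU) (dis dW) (dis dS)
    (dis2 dU 2 u2) (dis2 dU 3 x3U') (dis2 dU.symm 0 u0) (dis2 dU.symm 1 x1U)
    (dis2 dW 1 w1) (dis2 dW 3 x3W') (dis2 dW.symm 0 w0) (dis2 dW.symm 2 x2W)
    (dis2 dS 1 s1) (dis2 dS 2 x2S') (dis2 dS.symm 0 s0) (dis2 dS.symm 3 x3S)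

end Pool.Agent.Helper38.Carpet
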