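import Mathlib
import Pool.Agent.Helper38.Inside

set_option autoImplicit false
open Set Filter Topology

/-! Density of good boundary points. -/

namespace Pool.Agent.Helper38.Carpet

open Pool.Agent.Helper38.Planar

variable {n : ℕ} {C T : Finset Z2}

theorem clamp_index (n k : ℕ) (hk : 1 ≤ k) (q : ℤ) (t : ℝ) (h1 : (q:ℝ) ≤ 3 ^ n * t)
    (h2 : 3 ^ n * t ≤ q + 1) : ∃ i : ℤ, 3 ^ k * q < i ∧ i < 3 ^ k * q + 3 ^ k ∧
      |(i:ℝ) / 3 ^ (n + k) - t| ≤ 1 / 3 ^ (n + k) := by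
  have hL3 := three_pow_ge hk
  have hLr : (3:ℝ) ≤ 3 ^ k := by exact_mod_cast hL3
  have hpk : (0:ℝ) < 3 ^ k := by positivity
  have hp : (0:ℝ) < 3 ^ (n + k) := by positivity
  set s : ℝ := 3 ^ (n + k) * t with hs
  have e : s = 3 ^ k * (3 ^ n * t) := by rw [hs, pow_add]; ring
  have s1 : (3:ℝ) ^ k * q ≤ s := by rw [e]; exact mul_le_mul_of_nonneg_left h1 hpk.le
  have s2 : s ≤ 3 ^ k * q + 3 ^ k := by
    rw [e]
    have := mul_le_mul_of_nonneg_left h2 hpk.le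
    linarith
  have key : ∀ i : ℤ, |(i:ℝ) - s| ≤ 1 → |(i:ℝ) / 3 ^ (n + k) - t| ≤ 1 / 3 ^ (n + k) := by
    intro i hi
    have : (i:ℝ) / 3 ^ (n + k) - t = ((i:ℝ) - s) / 3 ^ (n + k) := by
      rw [hs]; field_simp
    rw [this, abs_div, abs_of_pos hp]
    exact div_le_div_of_nonneg_right hi hp.le
  by_cases c1 : s < 3 ^ k * q + 1
  · refine ⟨3 ^ k * q + 1, by linarith, by linarith, key _ ?_⟩
    push_cast
    rw [abs_le]; constructor <;> linarith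
  · push Not at c1
    by_cases c2 : 3 ^ k * q + 3 ^ k - 1 ≤ s
    · refine ⟨3 ^ k * q + 3 ^ k - 1, by linarith, by linarith, key _ ?_⟩
      push_cast
      rw [abs_le]; constructor <;> linarith
    · push Not at c2
      refine ⟨⌊s⌋, ?_, ?_, key _ ?_⟩
      · have : 3 ^ k * q + 1 ≤ ⌊s⌋ := by
          rw [Int.le_floor]; push_cast; exact c1
        linarith
      · have : ⌊s⌋ < 3 ^ k * q + 3 ^ k - 1 := by
          rw [Int.floor_lt]; push_cast; exact c2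
        linarith
      · have a := Int.floor_le s
        have b := Int.lt_floor_add_one s
        rw [abs_le]; constructor <;> linarith

theorem common_mem_K {c c' : Z2} (hc : c ∈ cells n) (hne : c ≠ c') {z : R2} (hz : z ∈ sq n c)
    (hz' : z ∈ sq n c') : z ∈ K := by
  have h := phi_mem_K hc (boundary_mem (inv_unit hz) (inv_boundary hne hz hz'))
  rwa [phi_inv] at h

/-- reduction to a common side -/
theorem common_side (hC : C ⊆ cells n) (hT : T ⊆ cells n) (hdisj : ∀ c ∈ T, c ∉ C)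
    (closedT : ∀ c ∈ T, ∀ c' ∈ cells n, c' ∉ C → (∃ z ∈ K, z ∈ sq n c ∧ z ∈ sq n c') → c' ∈ T)
    (x : ↥(Wset n T)) {Q : Z2} (hQ : Q ∈ C) (hxQ : x.1 ∈ sq n Q) :
    ∃ Q' ∈ C, ∃ c' ∈ T, sadj Q' c' ∧ x.1 ∈ sq n Q' ∧ x.1 ∈ sq n c' := by
  obtain ⟨hxK, c, hc, hxc⟩ := x.2
  have hne : c ≠ Q := fun h => hdisj c hc (h ▸ hQ)
  obtain ⟨b1, b2, b3, b4⟩ := share_near hxc hxQ
  by_cases hs : sadj Q c
  · exact ⟨Q, hQ, c, hc, hs, hxQ, hxc⟩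
  · have hne' : ¬ (c.1 = Q.1 ∧ c.2 = Q.2) := fun h => hne (Prod.ext h.1 h.2)
    unfold sadj at hs
    have d1 : c.1 - Q.1 = 1 ∨ Q.1 - c.1 = 1 := by omega
    have d2 : c.2 - Q.2 = 1 ∨ Q.2 - c.2 = 1 := by omega
    have f1 : Q.1 = c.1 + 1 ∨ c.1 = Q.1 + 1 := by omega
    have f2 : Q.2 = c.2 + 1 ∨ c.2 = Q.2 + 1 := by omega
    rcases diag_mem (hT hc) (hC hQ) d1 d2 with h | h
    · have hx : x.1 ∈ sq n (c.1, Q.2) := ⟨hxc.1, hxc.2.1, hxQ.2.2.1, hxQ.2.2.2⟩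
      by_cases he : (c.1, Q.2) ∈ C
      · exact ⟨_, he, c, hc, Or.inl ⟨rfl, f2⟩, hx, hxc⟩
      · exact ⟨Q, hQ, _, closedT c hc _ h he ⟨x.1, hxK, hxc, hx⟩, Or.inr ⟨rfl, f1⟩, hxQ, hx⟩
    · have hx : x.1 ∈ sq n (Q.1, c.2) := ⟨hxQ.1, hxQ.2.1, hxc.2.2.1, hxc.2.2.2⟩
      by_cases he : (Q.1, c.2) ∈ C
      · exact ⟨_, he, c, hc, Or.inr ⟨rfl, f1⟩, hx, hxc⟩
      · exact ⟨Q, hQ, _, closedT c hc _ h he ⟨x.1, hxK, hxc, hx⟩, Or.inl ⟨rfl, f2⟩, hxQ, hx⟩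

theorem DD_dense (hC : C ⊆ cells n) (hT : T ⊆ cells n) (hdisj : ∀ c ∈ T, c ∉ C)
    (closedT : ∀ c ∈ T, ∀ c' ∈ cells n, c' ∉ C → (∃ z ∈ K, z ∈ sq n c ∧ z ∈ sq n c') → c' ∈ T)
    (x : ↥(Wset n T)) {Q : Z2} (hQ : Q ∈ C) (hxQ : x.1 ∈ sq n Q) :
    x ∈ closure (DD n C T) := by
  obtain ⟨Q', hQ', c', hc', hs, hxQ', hxc'⟩ := common_side hC hT hdisj closedT x hQ hxQ
  clear hxQ hQ
  have hne : c' ≠ Q' := fun h => hdisj c' hc' (h ▸ hQ')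
  rw [Metric.mem_closure_iff]
  intro ε hε
  obtain ⟨N, hN⟩ := exists_small ε hε
  set k := N + 1 with hk
  have hk1 : 1 ≤ k := by omega
  have hsm := hN (n + k) (by omega)
  have hp : (0:ℝ) < 3 ^ (n + k) := by positivity
  have hpk : (0:ℝ) < 3 ^ k := by positivity
  -- it suffices to find a lattice point
  suffices h : ∃ a : Pt, pt (n + k) a ∈ sq n c' ∧ pt (n + k) a ∈ sq n Q' ∧ NC k Q' a ∧
      dist x.1 (pt (n + k) a) ≤ 1 / 3 ^ (n + k) by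
    obtain ⟨a, h1, h2, h3, h4⟩ := h
    have hmem : pt (n + k) a ∈ Wset n T := ⟨common_mem_K (hT hc') hne h1 h2, c', hc', h1⟩
    refine ⟨⟨pt (n + k) a, hmem⟩, ⟨k, a, rfl, Q', hQ', h3⟩, ?_⟩
    rw [Subtype.dist_eq]
    exact lt_of_le_of_lt h4 hsm
  have exact_coord : ∀ (m : ℤ) (t : ℝ), 3 ^ n * t = m →
      |((3 ^ k * m : ℤ) : ℝ) / 3 ^ (n + k) - t| ≤ 1 / 3 ^ (n + k) := by
    intro m t h
    have : ((3 ^ k * m : ℤ) : ℝ) / 3 ^ (n + k) - t = 0 := by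
      push_cast
      rw [← h, pow_add]
      field_simp
      ring
    rw [this, abs_zero]
    positivity
  obtain ⟨q1, q2, q3, q4⟩ := id hxQ'
  obtain ⟨r1, r2, r3, r4⟩ := id hxc'
  have hL : (0:ℤ) < 3 ^ k := by positivity
  unfold sadj at hs
  rcases hs with ⟨e1, e2⟩ | ⟨e1, e2⟩
  · -- same column: the side is horizontal
    obtain ⟨i, i1, i2, i3⟩ := clamp_index n k hk1 Q'.1 x.1.1 q1 q2
    obtain ⟨m, hm1, hm2, hm3⟩ : ∃ m : ℤ, 3 ^ n * x.1.2 = m ∧ (m = Q'.2 ∨ m = Q'.2 + 1) ∧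
        (m = c'.2 ∨ m = c'.2 + 1) := by
      rcases e2 with e2 | e2
      · refine ⟨Q'.2, ?_, Or.inl rfl, Or.inr e2⟩
        have : (Q'.2:ℝ) = c'.2 + 1 := by exact_mod_cast e2
        linarith
      · refine ⟨c'.2, ?_, Or.inr e2, Or.inl rfl⟩
        have : (c'.2:ℝ) = Q'.2 + 1 := by exact_mod_cast e2
        linarith
    have g1 : 3 ^ k * Q'.2 ≤ 3 ^ k * m ∧ 3 ^ k * m ≤ 3 ^ k * Q'.2 + 3 ^ k := by
      rcases hm2 with h | h <;> rw [h] <;> constructor <;> linarith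
    have g2 : 3 ^ k * c'.2 ≤ 3 ^ k * m ∧ 3 ^ k * m ≤ 3 ^ k * c'.2 + 3 ^ k := by
      rcases hm3 with h | h <;> rw [h] <;> constructor <;> linarith
    refine ⟨(i, 3 ^ k * m), ?_, ?_, ?_, ?_⟩
    · rw [pt_mem_sq', ← e1]; exact ⟨i1.le, i2.le, g2.1, g2.2⟩
    · rw [pt_mem_sq']; exact ⟨i1.le, i2.le, g1.1, g1.2⟩
    · exact ⟨i1.le, i2.le, g1.1, g1.2, Or.inl ⟨i1, i2⟩⟩
    · rw [dist_comm, Prod.dist_eq, Real.dist_eq, Real.dist_eq, max_le_iff]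
      exact ⟨i3, exact_coord m _ hm1⟩
  · obtain ⟨i, i1, i2, i3⟩ := clamp_index n k hk1 Q'.2 x.1.2 q3 q4
    obtain ⟨m, hm1, hm2, hm3⟩ : ∃ m : ℤ, 3 ^ n * x.1.1 = m ∧ (m = Q'.1 ∨ m = Q'.1 + 1) ∧
        (m = c'.1 ∨ m = c'.1 + 1) := by
      rcases e2 with e2 | e2
      · refine ⟨Q'.1, ?_, Or.inl rfl, Or.inr e2⟩
        have : (Q'.1:ℝ) = c'.1 + 1 := by exact_mod_cast e2
        linarith
      · refine ⟨c'.1, ?_, Or.inr e2, Or.inl rfl⟩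
        have : (c'.1:ℝ) = Q'.1 + 1 := by exact_mod_cast e2
        linarith
    have g1 : 3 ^ k * Q'.1 ≤ 3 ^ k * m ∧ 3 ^ k * m ≤ 3 ^ k * Q'.1 + 3 ^ k := by
      rcases hm2 with h | h <;> rw [h] <;> constructor <;> linarith
    have g2 : 3 ^ k * c'.1 ≤ 3 ^ k * m ∧ 3 ^ k * m ≤ 3 ^ k * c'.1 + 3 ^ k := by
      rcases hm3 with h | h <;> rw [h] <;> constructor <;> linarith
    refine ⟨(3 ^ k * m, i), ?_, ?_, ?_, ?_⟩
    · rw [pt_mem_sq', ← e1]; exact ⟨g2.1, g2.2, i1.le, i2.le⟩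
    · rw [pt_mem_sq']; exact ⟨g1.1, g1.2, i1.le, i2.le⟩
    · exact ⟨g1.1, g1.2, i1.le, i2.le, Or.inr ⟨i1, i2⟩⟩
    · rw [dist_comm, Prod.dist_eq, Real.dist_eq, Real.dist_eq, max_le_iff]
      exact ⟨exact_coord m _ hm1, i3⟩

end Pool.Agent.Helper38.Carpet
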