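import Mathlib
import Pool.Agent.Helper38.Dense

set_option autoImplicit false
open Set Filter Topology

/-! The rank argument. -/

namespace Pool.Agent.Helper38.Carpet

/-- linear algebra: four evaluations always dependent -/
theorem rank4 {D : Type*} (x0 : D) (g : Fin 3 → D → ℝ)
    (h : ∀ x : Fin 4 → D, ∃ c : Fin 4 → ℝ, (∃ i, c i ≠ 0) ∧ ∑ i, c i = 0 ∧
      ∀ k, ∑ i, c i * g k (x i) = 0) :
    ∃ (b : Fin 3 → ℝ) (τ : ℝ), (∃ k, b k ≠ 0) ∧ ∀ x, ∑ k, b k * g k x = τ := by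
  classical
  let v : D → (Fin 4 → ℝ) := fun x => Fin.cons 1 (fun k => g k x)
  have hlt : Submodule.span ℝ (Set.range v) < ⊤ := by
    rw [lt_top_iff_ne_top]
    intro htop
    obtain ⟨s, hs, hspan, hli⟩ := exists_linearIndependent ℝ (Set.range v)
    rw [htop] at hspan
    have B : Module.Basis s ℝ (Fin 4 → ℝ) := Module.Basis.mk hli (by
      rw [Subtype.range_coe]; exact hspan.ge)
    have : Fintype s := FiniteDimensional.fintypeBasisIndex B
    have hcard : Fintype.card s = 4 := by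
      rw [← Module.finrank_eq_card_basis B]; simp
    let e : Fin 4 ≃ s := (Fintype.equivFinOfCardEq hcard).symm
    have hx : ∀ i : Fin 4, ∃ x, v x = (e i : Fin 4 → ℝ) := fun i => hs (e i).2
    choose x hx using hx
    obtain ⟨c, ⟨i0, hi0⟩, hsum, hg⟩ := h x
    have hli' : LinearIndependent ℝ (fun i : Fin 4 => v (x i)) := by
      have h1 := hli.comp e e.injective
      have h2 : (fun i : Fin 4 => v (x i)) = (fun i => ((e i : s) : Fin 4 → ℝ)) := by
        ext1 i; exact hx i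
      rw [h2]
      exact h1
    rw [Fintype.linearIndependent_iff] at hli'
    apply hi0
    apply hli' c _ i0
    ext j
    rw [Finset.sum_apply]
    simp only [Pi.smul_apply, smul_eq_mul, Pi.zero_apply]
    refine Fin.cases ?_ (fun k => ?_) j
    · simp only [v, Fin.cons_zero, mul_one]; exact hsum
    · simp only [v, Fin.cons_succ]; exact hg k
  obtain ⟨f, hf0, hf⟩ := Submodule.exists_le_ker_of_lt_top _ hlt
  have hfv : ∀ x, f (v x) = 0 := fun x => hf (Submodule.subset_span ⟨x, rfl⟩)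
  have hexp : ∀ w : Fin 4 → ℝ, f w = ∑ i, f (Pi.single i 1) * w i := by
    intro w
    have hw : w = ∑ i, w i • (Pi.single i (1:ℝ) : Fin 4 → ℝ) := by
      ext j
      rw [Finset.sum_apply]
      simp [Pi.single_apply]
    conv_lhs => rw [hw]
    rw [map_sum]
    apply Finset.sum_congr rfl
    intro i _
    rw [map_smul, smul_eq_mul, mul_comm]
  refine ⟨fun k => f (Pi.single k.succ 1), - f (Pi.single 0 1), ?_, ?_⟩
  · by_contra hb
    push Not at hb
    apply hf0
    have h0 : f (Pi.single 0 1) = 0 := by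
      have := hfv x0
      rw [hexp, Fin.sum_univ_succ] at this
      simp only [hb, zero_mul, Finset.sum_const_zero, add_zero, v, Fin.cons_zero, mul_one] at this
      exact this
    ext w
    simp only [LinearMap.comp_apply, LinearMap.zero_comp, LinearMap.zero_apply]
    have : (LinearMap.single ℝ (fun _ : Fin 4 => ℝ) w) (1:ℝ) = Pi.single w 1 := rfl
    rw [this]
    refine Fin.cases ?_ (fun k => ?_) w
    · exact h0
    · exact hb k
  · intro x
    have := hfv x
    rw [hexp, Fin.sum_univ_succ] at this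
    simp only [v, Fin.cons_zero, mul_one, Fin.cons_succ] at this
    simp only
    linarith

variable {𝓔 : ResForm KK} {ρ : ℝ} {n : ℕ} {C T : Finset Z2} {Z : Set KK} {h : C(KK, ℝ)}
  {p q : KK}

/-- the removed cells touch the remaining network -/
theorem touching (hc : Cut 𝓔 n C T Z h p q) (hCne : C.Nonempty) :
    ∃ w : ↥(Wset n T), ∃ Q ∈ C, w.1 ∈ sq n Q := by
  by_contra hno
  push Not at hno
  have hK : PreconnectedSpace KK := Subtype.preconnectedSpace K_precon
  set A : Set KK := {z | z.1 ∈ Wset n T} with hA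
  have hAc : IsClosed A := (isClosed_Wset n T).preimage continuous_subtype_val
  set B : Set KK := {z | ∃ c ∈ (cells n).filter (fun c => c ∉ T), z.1 ∈ sq n c} with hB
  have hBc : IsClosed B := by
    have : B = ⋃ c ∈ (cells n).filter (fun c => c ∉ T), (fun z : KK => z.1) ⁻¹' (sq n c) := by
      ext z; simp [hB]
    rw [this]
    exact (Finset.finite_toSet _).isClosed_biUnion
      (fun c _ => (isClosed_sq n c).preimage continuous_subtype_val)
  have hcov : A ∪ B = Set.univ := by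
    rw [Set.eq_univ_iff_forall]
    intro z
    obtain ⟨c, hcn, hz⟩ := z.2 n
    by_cases hcT : c ∈ T
    · exact Or.inl ⟨z.2, c, hcT, hz⟩
    · exact Or.inr ⟨c, by rw [Finset.mem_filter]; exact ⟨hcn, hcT⟩, hz⟩
  have hdis : A ∩ B = ∅ := by
    rw [Set.eq_empty_iff_forall_notMem]
    rintro z ⟨hzA, c, hcB, hz⟩
    rw [Finset.mem_filter] at hcB
    exact hno ⟨z.1, hzA⟩ c (hc.cell_not hcB.1 hcB.2 ⟨z.1, hzA⟩ hz) hz
  obtain ⟨Q, hQ⟩ := hCne
  have hQn := hc.hC hQ
  have h00 : ((0:ℝ),(0:ℝ)) ∈ K := by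
    apply boundary_mem <;> norm_num
  have hne : (A ∩ B).Nonempty := by
    have hpre := isPreconnected_closed_iff.mp (isPreconnected_univ (α := KK)) A B hAc hBc
      hcov.ge ⟨p, trivial, hc.hp⟩ ⟨embK n Q hQn ⟨(0,0), h00⟩, trivial, Q, by
          rw [Finset.mem_filter]; exact ⟨hQn, fun hT => hc.disj Q hT hQ⟩, phi_mem_own n Q h00⟩
    obtain ⟨z, -, hz⟩ := hpre
    exact ⟨z, hz⟩
  rw [hdis] at hne
  exact Set.not_nonempty_empty hne

/-- **rank step** -/
theorem rank_cut (hS : SelfSim 𝓔 ρ) (hc : Cut 𝓔 n C T Z h p q) (hCc : SideConn C)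
    (hCne : C.Nonempty) (ζ : Fin 4 → KK) (hζW : ∀ i, (ζ i).1 ∈ Wset n T)
    (hζ : ∀ i, ζ i ∈ closure {z : KK | h z ≠ 0}) :
    ∃ (b : Fin 3 → ℝ) (a : ℝ), (∃ k, b k ≠ 0) ∧ ∃ v ∈ 𝓔.F,
      (∀ z : KK, (∃ c ∈ C, z.1 ∈ sq n c) → v z = a) ∧
      ∀ φ ∈ 𝓔.F, 𝓔.E v φ = ∑ k : Fin 3, b k * (φ (ζ k.castSucc) - φ (ζ 3)) := by
  classical
  set W := WForm 𝓔 hS hc.hT hc.linked with hW
  set p' : ↥(Wset n T) := ⟨p.1, hc.hp⟩ with hp'
  set q' : ↥(Wset n T) := ⟨q.1, hc.q_mem hS⟩ with hq'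
  have hdip : W.Dipole (res n T h) p' q' := hc.dipole hS
  let ξ : Fin 4 → ↥(Wset n T) := fun i => ⟨(ζ i).1, hζW i⟩
  -- the points are in the closure of the nonvanishing set inside the network
  have hξ : ∀ i, ξ i ∈ closure {w : ↥(Wset n T) | res n T h w ≠ 0} := by
    intro i
    rw [Metric.mem_closure_iff]
    intro ε hε
    obtain ⟨z, hz, hd⟩ := Metric.mem_closure_iff.mp (hζ i) ε hε
    have hzW : z.1 ∈ Wset n T := by
      by_contra hno
      exact hz (hc.zero_outside hS z hno)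
    exact ⟨⟨z.1, hzW⟩, hz, hd⟩
  obtain ⟨w0, Q0, hQ0, hw0⟩ := touching hc hCne
  have hdense : ∀ w : ↥(Wset n T), ∀ Q ∈ C, w.1 ∈ sq n Q → w ∈ closure (DD n C T) :=
    fun w Q hQ hw => DD_dense hc.hC hc.hT hc.disj hc.closedT w hQ hw
  obtain ⟨x0, hx0⟩ : (DD n C T).Nonempty := by
    rw [← closure_nonempty_iff]
    exact ⟨w0, hdense w0 Q0 hQ0 hw0⟩
  -- potentials
  let g : Fin 3 → ↥(Wset n T) → ℝ := fun k x => W.Gp p' (ξ k.castSucc) x - W.Gp p' (ξ 3) x
  have hDDz : ∀ x ∈ DD n C T, res n T h x = 0 := by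
    rintro x ⟨k, a, ha, Q, hQ, hNC⟩
    rw [res_apply]
    apply hc.hZ
    apply hc.CZ Q hQ
    change x.1 ∈ sq n Q
    rw [ha, pt_mem_sq']
    exact ⟨hNC.1, hNC.2.1, hNC.2.2.1, hNC.2.2.2.1⟩
  obtain ⟨b, τ, hb, hbτ⟩ := rank4 (D := ↥(DD n C T)) ⟨x0, hx0⟩ (fun k x => g k x.1) (by
    intro x
    obtain ⟨c, hc0, hcs, m, hm⟩ := W.dependent (classes hc.hT) hdip
      (x := fun i => (x i).1) (fun i => hDDz _ (x i).2)
      (planar_DD hc.hT hc.disj hCc _ (fun i => (x i).2))
    refine ⟨c, hc0, hcs, ?_⟩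
    have hm' : ∀ i, ∑ j, c j * W.Gp p' ((x j).1) (ξ i) = m := by
      intro i
      have hcl : IsClosed {w : ↥(Wset n T) | ∑ j, c j * W.Gp p' ((x j).1) w = m} := by
        apply isClosed_eq _ continuous_const
        apply continuous_finsetSum
        intro j _
        exact continuous_const.mul (W.Gp p' ((x j).1)).continuous
      exact closure_minimal (fun w hw => hm w hw) hcl (hξ i)
    intro k
    have e : ∀ j, c j * g k (x j).1 = c j * W.Gp p' ((x j).1) (ξ k.castSucc)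
        - c j * W.Gp p' ((x j).1) (ξ 3) := by
      intro j
      simp only [g]
      rw [W.Gp_symm p' (ξ k.castSucc), W.Gp_symm p' (ξ 3)]
      ring
    rw [Finset.sum_congr rfl (fun j _ => e j), Finset.sum_sub_distrib, hm', hm', sub_self])
  -- the combination
  set u : C(↥(Wset n T), ℝ) :=
    ∑ k : Fin 3, b k • (W.Gp p' (ξ k.castSucc) - W.Gp p' (ξ 3)) with hu
  have hGmem : ∀ k : Fin 3, W.Gp p' (ξ k.castSucc) - W.Gp p' (ξ 3) ∈ W.F :=
    fun k => W.F.sub_mem (W.Gp_mem _ _) (W.Gp_mem _ _)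
  have huF : u ∈ W.F := Submodule.sum_mem _ (fun k _ => W.F.smul_mem _ (hGmem k))
  have uap : ∀ x, u x = ∑ k : Fin 3, b k * g k x := by
    intro x
    rw [hu, ContinuousMap.sum_apply]
    rfl
  have hucl : ∀ w : ↥(Wset n T), ∀ Q ∈ C, w.1 ∈ sq n Q → u w = τ := by
    intro w Q hQ hw
    have hcl : IsClosed {w : ↥(Wset n T) | u w = τ} := isClosed_eq u.continuous continuous_const
    exact closure_minimal (fun x hx => by
      change u x = τ
      rw [uap]
      exact hbτ ⟨x, hx⟩) hcl (hdense w Q hQ hw)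
  have huE : ∀ φ ∈ W.F, W.E u φ = ∑ k : Fin 3, b k * (φ (ξ k.castSucc) - φ (ξ 3)) := by
    intro φ hφ
    have h1 : ∀ t : Finset (Fin 3),
        W.E (∑ k ∈ t, b k • (W.Gp p' (ξ k.castSucc) - W.Gp p' (ξ 3))) φ
        = ∑ k ∈ t, b k * (φ (ξ k.castSucc) - φ (ξ 3)) := by
      intro t
      induction t using Finset.induction_on with
      | empty =>
        have := W.smul_left 0 φ hφ φ hφ
        rw [zero_smul, zero_mul] at this
        simp [this]
      | insert a t ha ih =>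
        rw [Finset.sum_insert ha, Finset.sum_insert ha,
          W.add_left _ (W.F.smul_mem _ (hGmem a)) _
            (Submodule.sum_mem _ (fun i _ => W.F.smul_mem _ (hGmem i))) φ hφ, ih,
          W.smul_left _ _ (hGmem a) φ hφ, W.sub_left (W.Gp_mem _ _) (W.Gp_mem _ _) hφ,
          W.Gp_E p' _ hφ, W.Gp_E p' _ hφ]
        ring
    rw [hu]
    exact h1 Finset.univ
  obtain ⟨v, hvF, hvW, hvout, hvE⟩ := exists_ext 𝓔 hS hc.hT (u := u) huF τ (by
    intro c hcn hcT w hw
    exact hucl w c (hc.cell_not hcn hcT w hw) hw)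
  refine ⟨b, τ, hb, v, hvF, ?_, ?_⟩
  · rintro z ⟨Q, hQ, hz⟩
    by_cases hzW : z.1 ∈ Wset n T
    · have := hvW ⟨z.1, hzW⟩
      have e : (⟨z.1, hzW.1⟩ : KK) = z := rfl
      simp only [e] at this
      rw [this]
      exact hucl ⟨z.1, hzW⟩ Q hQ hz
    · exact hvout z hzW
  · intro φ hφ
    rw [hvE φ hφ]
    exact huE _ (res_mem 𝓔 hS hc.hT hφ)

end Pool.Agent.Helper38.Carpet
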