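import Mathlib
import Pool.Agent.Helper38.Rank

set_option autoImplicit false
open Set Filter Topology

/-! Exhaustion of the component of the flat set by cells. -/

namespace Pool.Agent.Helper38.Carpet

/-- cells contained in `Z` -/
def good (Z : Set KK) (N : ℕ) (c : Z2) : Prop := c ∈ cells N ∧ ∀ z : KK, z.1 ∈ sq N c → z ∈ Z

/-- chains of good cells -/
def GC (Z : Set KK) (N : ℕ) (x y : Z2) : Prop := SA N x y ∧ good Z N y

open Classical in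
/-- the component of good cells of level `N0 + k` containing the base cell -/
noncomputable def CS (Z : Set KK) (N0 : ℕ) (Q0 : Z2) (k : ℕ) : Finset Z2 :=
  (cells (N0 + k)).filter (fun c => good Z (N0 + k) c ∧
    Relation.ReflTransGen (GC Z (N0 + k)) (adr k Q0 (0, 0)) c)

theorem mem_CS {Z : Set KK} {N0 : ℕ} {Q0 : Z2} {k : ℕ} {c : Z2} :
    c ∈ CS Z N0 Q0 k ↔ c ∈ cells (N0 + k) ∧ good Z (N0 + k) c ∧
      Relation.ReflTransGen (GC Z (N0 + k)) (adr k Q0 (0, 0)) c := by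
  classical
  unfold CS
  rw [Finset.mem_filter]

theorem zero_mem_cells (k : ℕ) : ((0, 0) : Z2) ∈ cells k := by
  apply bottom_mem k 0 le_rfl
  have : (1:ℤ) ≤ 3 ^ k := one_le_pow₀ (by norm_num)
  linarith

theorem good_comp {Z : Set KK} {N j : ℕ} {c d : Z2} (hc : good Z N c) (hd : d ∈ cells j) :
    good Z (N + j) (adr j c d) :=
  ⟨cells_comp hc.1 hd, fun z hz => hc.2 z (sq_sub hd hz)⟩

theorem base_good {Z : Set KK} {N0 : ℕ} {Q0 : Z2} (hQ0 : good Z N0 Q0) (k : ℕ) :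
    good Z (N0 + k) (adr k Q0 (0, 0)) := good_comp hQ0 (zero_mem_cells k)

theorem base_mem_CS {Z : Set KK} {N0 : ℕ} {Q0 : Z2} (hQ0 : good Z N0 Q0) (k : ℕ) :
    adr k Q0 (0, 0) ∈ CS Z N0 Q0 k :=
  mem_CS.mpr ⟨(base_good hQ0 k).1, base_good hQ0 k, Relation.ReflTransGen.refl⟩

theorem CS_tail {Z : Set KK} {N0 : ℕ} {Q0 : Z2} {k : ℕ} {c c' : Z2} (hc : c ∈ CS Z N0 Q0 k)
    (h : Relation.ReflTransGen (GC Z (N0 + k)) c c') : c' ∈ CS Z N0 Q0 k := by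
  induction h with
  | refl => exact hc
  | tail _ h2 ih =>
    rw [mem_CS] at ih ⊢
    exact ⟨h2.2.1, h2.2, ih.2.2.tail h2⟩

theorem sideConn_CS (Z : Set KK) (N0 : ℕ) (Q0 : Z2) (hQ0 : good Z N0 Q0) (k : ℕ) :
    SideConn (CS Z N0 Q0 k) := by
  have h1 : ∀ c, Relation.ReflTransGen (GC Z (N0 + k)) (adr k Q0 (0, 0)) c →
      Relation.ReflTransGen (fun x y => x ∈ CS Z N0 Q0 k ∧ y ∈ CS Z N0 Q0 k ∧ sadj x y)
        (adr k Q0 (0, 0)) c := by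
    intro c hc
    induction hc with
    | refl => exact Relation.ReflTransGen.refl
    | @tail a b hab hbc ih =>
      have ha : a ∈ CS Z N0 Q0 k := CS_tail (base_mem_CS hQ0 k) hab
      have hb : b ∈ CS Z N0 Q0 k := CS_tail ha (Relation.ReflTransGen.single hbc)
      exact ih.tail ⟨ha, hb, hbc.1.2.2⟩
  intro a ha b hb
  rw [mem_CS] at ha hb
  exact (rtg_symm (fun x y h => ⟨h.2.1, h.1, h.2.2.symm⟩) (h1 a ha.2.2)).trans (h1 b hb.2.2)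

theorem CS_child {Z : Set KK} {N0 : ℕ} {Q0 : Z2} (hQ0 : good Z N0 Q0) {k : ℕ} {c d : Z2}
    (hc : c ∈ CS Z N0 Q0 k) (hd : d ∈ dig) : adr 1 c d ∈ CS Z N0 Q0 (k + 1) := by
  have m : ∀ d, d ∈ dig → d ∈ cells 1 := fun d h => by rw [← dig_cells]; exact h
  rw [mem_CS] at hc
  have hg := good_comp hc.2.1 (m d hd)
  rw [mem_CS, ← Nat.add_assoc]
  refine ⟨hg.1, hg, ?_⟩
  have h := chain_children (n := N0 + k) (P := good Z (N0 + k)) (Q := good Z (N0 + k + 1))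
    (fun c hc d hd => good_comp hc (m d hd)) (base_good hQ0 k) hc.2.2 (base_good hQ0 k).1
    (0, 0) d (by decide) hd
  have e : adr 1 (adr k Q0 (0, 0)) (0, 0) = adr (k + 1) Q0 (0, 0) := by
    simp only [adr]
    ext <;> simp only [pow_add] <;> ring
  rw [e] at h
  exact h

theorem CS_mono {Z : Set KK} {N0 : ℕ} {Q0 : Z2} (hQ0 : good Z N0 Q0) {k : ℕ} {c : Z2}
    (hc : c ∈ CS Z N0 Q0 k) (z : KK) (hz : z.1 ∈ sq (N0 + k) c) (j : ℕ) :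
    ∃ c' ∈ CS Z N0 Q0 (k + j), z.1 ∈ sq (N0 + (k + j)) c' := by
  induction j with
  | zero => exact ⟨c, hc, hz⟩
  | succ j ih =>
    obtain ⟨c', hc', hz'⟩ := ih
    obtain ⟨d, hd, hzd⟩ := exists_sub z.2 hz' 1
    rw [← dig_cells] at hd
    exact ⟨adr 1 c' d, CS_child hQ0 hc' hd, hzd⟩

/-- two cells sharing a point are joined by a chain of cells containing the point -/
theorem near_chain {N : ℕ} {a b : Z2} (ha : a ∈ cells N) (hb : b ∈ cells N) {z : R2}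
    (hza : z ∈ sq N a) (hzb : z ∈ sq N b) :
    Relation.ReflTransGen (fun x y => SA N x y ∧ z ∈ sq N y) a b := by
  obtain ⟨b1, b2, b3, b4⟩ := share_near hza hzb
  by_cases hab : a = b
  · rw [hab]
  by_cases hs : sadj a b
  · exact Relation.ReflTransGen.single ⟨⟨ha, hb, hs⟩, hzb⟩
  have hne' : ¬ (a.1 = b.1 ∧ a.2 = b.2) := fun h => hab (Prod.ext h.1 h.2)
  unfold sadj at hs
  have d1 : a.1 - b.1 = 1 ∨ b.1 - a.1 = 1 := by omega
  have d2 : a.2 - b.2 = 1 ∨ b.2 - a.2 = 1 := by omega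
  have f1 : a.1 = b.1 + 1 ∨ b.1 = a.1 + 1 := by omega
  have f2 : a.2 = b.2 + 1 ∨ b.2 = a.2 + 1 := by omega
  rcases diag_mem ha hb d1 d2 with h | h
  · have hz : z ∈ sq N (a.1, b.2) := ⟨hza.1, hza.2.1, hzb.2.2.1, hzb.2.2.2⟩
    exact (Relation.ReflTransGen.single (b := (a.1, b.2)) ⟨⟨ha, h, Or.inl ⟨rfl, f2⟩⟩, hz⟩).tail
      ⟨⟨h, hb, Or.inr ⟨rfl, f1⟩⟩, hzb⟩
  · have hz : z ∈ sq N (b.1, a.2) := ⟨hzb.1, hzb.2.1, hza.2.2.1, hza.2.2.2⟩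
    exact (Relation.ReflTransGen.single (b := (b.1, a.2)) ⟨⟨ha, h, Or.inr ⟨rfl, f1⟩⟩, hz⟩).tail
      ⟨⟨h, hb, Or.inl ⟨rfl, f2⟩⟩, hzb⟩

/-- the exhausted set -/
def OO (Z : Set KK) (N0 : ℕ) (Q0 : Z2) : Set KK :=
  {z | ∃ k, ∃ c ∈ CS Z N0 Q0 k, z.1 ∈ sq (N0 + k) c}

theorem OO_sub {Z : Set KK} {N0 : ℕ} {Q0 : Z2} : OO Z N0 Q0 ⊆ Z := by
  rintro z ⟨k, c, hc, hz⟩
  exact (mem_CS.mp hc).2.1.2 z hz

theorem small_K {Z : Set KK} (hZ : IsOpen Z) {x : KK} (hx : x ∈ Z) :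
    ∃ N, ∀ m ≥ N, ∀ D : Z2, x.1 ∈ sq m D → ∀ w : KK, w.1 ∈ sq m D → w ∈ Z := by
  obtain ⟨ε, hε, hball⟩ := Metric.isOpen_iff.mp hZ x hx
  obtain ⟨N, hN⟩ := exists_small ε hε
  refine ⟨N, fun m hm D hxD w hwD => hball ?_⟩
  rw [Metric.mem_ball, Subtype.dist_eq]
  exact lt_of_le_of_lt (sq_dist hwD hxD) (hN m hm)

theorem spread {Z : Set KK} (hZ : IsOpen Z) {N0 : ℕ} {Q0 : Z2} (hQ0 : good Z N0 Q0) {k : ℕ}
    {c : Z2} (hc : good Z (N0 + k) c) {w : KK} (hw : w ∈ OO Z N0 Q0)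
    (hwc : w.1 ∈ sq (N0 + k) c) {z : KK} (hz : z.1 ∈ sq (N0 + k) c) : z ∈ OO Z N0 Q0 := by
  have hwZ : w ∈ Z := OO_sub hw
  obtain ⟨k1, c1, hc1, hwc1⟩ := hw
  obtain ⟨N, hN⟩ := small_K hZ hwZ
  set j := k1 + N with hj
  obtain ⟨j', hj'⟩ : ∃ j', k + j = k1 + j' := ⟨k + N, by omega⟩
  obtain ⟨c2, hc2, hwc2⟩ := CS_mono hQ0 hc1 w hwc1 j'
  rw [← hj'] at hc2 hwc2
  obtain ⟨e, he, hwe⟩ := exists_sub w.2 hwc j
  obtain ⟨e', he', hze⟩ := exists_sub z.2 hz j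
  have hlev : N0 + k + j = N0 + (k + j) := by omega
  rw [hlev] at hwe hze
  have hsub : ∀ x ∈ cells j, good Z (N0 + (k + j)) (adr j c x) := by
    intro x hx
    have := good_comp hc hx
    rwa [hlev] at this
  have h1 : Relation.ReflTransGen (GC Z (N0 + (k + j))) c2 (adr j c e) := by
    refine rtg_mono ?_ (near_chain (mem_CS.mp hc2).1 (hsub e he).1 hwc2 hwe)
    rintro x y ⟨hxy, hwy⟩
    exact ⟨hxy, hxy.2.1, fun v hv => hN _ (by omega) y hwy v hv⟩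
  have h2 : Relation.ReflTransGen (GC Z (N0 + (k + j))) (adr j c e) (adr j c e') := by
    refine rtg_lift (adr j c) ?_ (cells_connected j e he e' he')
    intro a b hab
    apply Relation.ReflTransGen.single
    exact ⟨⟨(hsub a hab.1).1, (hsub b hab.2.1).1, sadj_comp j c hab.2.2⟩, hsub b hab.2.1⟩
  exact ⟨k + j, _, CS_tail hc2 (h1.trans h2), hze⟩

theorem OO_local {Z : Set KK} (hZ : IsOpen Z) {N0 : ℕ} {Q0 : Z2} (hQ0 : good Z N0 Q0) {z : KK}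
    (hz : z ∈ Z) : ∃ V : Set KK, IsOpen V ∧ z ∈ V ∧ ((V ∩ OO Z N0 Q0).Nonempty →
      V ⊆ OO Z N0 Q0) := by
  classical
  obtain ⟨N, hN⟩ := small_K hZ hz
  obtain ⟨V, hV, hzV, hst⟩ := star_nhds (X := KK) (cells (N0 + N))
    (fun c => {w | w.1 ∈ sq (N0 + N) c})
    (fun p _ => (isClosed_sq _ _).preimage continuous_subtype_val)
    (fun w => by
      obtain ⟨c, hc, h⟩ := w.2 (N0 + N)
      exact ⟨c, hc, h⟩) z
  refine ⟨V, hV, hzV, ?_⟩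
  rintro ⟨w, hwV, hwO⟩ v hv
  have key : ∀ c ∈ cells (N0 + N), z.1 ∈ sq (N0 + N) c → good Z (N0 + N) c :=
    fun c hc hzc => ⟨hc, fun y hy => hN _ (by omega) c hzc y hy⟩
  obtain ⟨c, hc, hzc, hwc⟩ := hst w hwV
  obtain ⟨c', hc', hzc', hvc'⟩ := hst v hv
  have hzO : z ∈ OO Z N0 Q0 := spread hZ hQ0 (key c hc hzc) hwO hwc hzc
  exact spread hZ hQ0 (key c' hc' hzc') hzO hzc' hvc'

theorem OO_open {Z : Set KK} (hZ : IsOpen Z) {N0 : ℕ} {Q0 : Z2} (hQ0 : good Z N0 Q0) :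
    IsOpen (OO Z N0 Q0) := by
  rw [isOpen_iff_forall_mem_open]
  intro z hz
  obtain ⟨V, hV, hzV, h⟩ := OO_local hZ hQ0 (OO_sub hz)
  exact ⟨V, h ⟨z, hzV, hz⟩, hV, hzV⟩

theorem OO_closed {Z : Set KK} (hZ : IsOpen Z) {N0 : ℕ} {Q0 : Z2} (hQ0 : good Z N0 Q0) {z : KK}
    (hz : z ∈ closure (OO Z N0 Q0)) (hzZ : z ∈ Z) : z ∈ OO Z N0 Q0 := by
  obtain ⟨V, hV, hzV, h⟩ := OO_local hZ hQ0 hzZ
  rw [mem_closure_iff] at hz
  exact h (hz V hV hzV) hzV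

/-- complements of finite sets are connected -/
theorem compl_precon {F : Set KK} (hF : F.Finite) : IsPreconnected (Fᶜ : Set KK) := by
  rw [← Topology.IsInducing.subtypeVal.isPreconnected_image]
  have : (Subtype.val '' (Fᶜ : Set KK)) = K \ (Subtype.val '' F) := by
    ext z
    simp only [Set.mem_image, Set.mem_compl_iff, Set.mem_sdiff]
    constructor
    · rintro ⟨w, hw, rfl⟩
      refine ⟨w.2, ?_⟩
      rintro ⟨w', hw', h⟩
      exact hw (Subtype.ext h ▸ hw')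
    · rintro ⟨h1, h2⟩
      exact ⟨⟨z, h1⟩, fun h => h2 ⟨_, h, rfl⟩, rfl⟩
  rw [this]
  exact K_diff_precon (hF.image _)

theorem frontier_infinite {Z : Set KK} (hZ : IsOpen Z) {N0 : ℕ} {Q0 : Z2} (hQ0 : good Z N0 Q0)
    {p : KK} (hp : p ∉ closure (OO Z N0 Q0)) :
    (closure (OO Z N0 Q0) \ OO Z N0 Q0).Infinite := by
  intro hfin
  have hpre := compl_precon hfin
  have hOne : (OO Z N0 Q0).Nonempty := by
    have h00 : ((0:ℝ),(0:ℝ)) ∈ K := by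
      apply boundary_mem <;> norm_num
    refine ⟨embK (N0 + 0) (adr 0 Q0 (0, 0)) (base_good hQ0 0).1 ⟨(0,0), h00⟩, 0, _,
      base_mem_CS hQ0 0, phi_mem_own _ _ h00⟩
  obtain ⟨y, hy⟩ := hOne
  obtain ⟨z, -, hz1, hz2⟩ := hpre (OO Z N0 Q0) (closure (OO Z N0 Q0))ᶜ (OO_open hZ hQ0)
    isClosed_closure.isOpen_compl (by
      intro x hx
      by_cases h : x ∈ OO Z N0 Q0
      · exact Or.inl h
      · right
        intro hcl
        exact hx ⟨hcl, h⟩) ⟨y, fun h => h.2 hy, hy⟩ ⟨p, fun h => hp h.1, hp⟩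
  exact hz2 (subset_closure hz1)

end Pool.Agent.Helper38.Carpet
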