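import Mathlib
import Pool.Agent.Helper38.Exhaust

set_option autoImplicit false
open Set Filter Topology

/-! A dipole potential is not constant on any cell. -/

namespace Pool.Agent.Helper38.Carpet

/-- **main step**: the potential has no flat cell at level zero -/
theorem no_flat (𝓔 : ResForm KK) {ρ : ℝ} (hS : SelfSim 𝓔 ρ) {h : C(KK, ℝ)} {p q : KK}
    (hd : 𝓔.Dipole h p q) {N0 : ℕ} {Q0 : Z2} (hQ0 : Q0 ∈ cells N0)
    (hflat : ∀ z : KK, z.1 ∈ sq N0 Q0 → z ∈ interior {z : KK | h z = 0}) : False := by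
  classical
  set Z : Set KK := interior {z : KK | h z = 0} with hZdef
  have hZ : IsOpen Z := isOpen_interior
  have hg : good Z N0 Q0 := ⟨hQ0, hflat⟩
  have hZ0 : ∀ z ∈ Z, h z = 0 := by
    intro z hz
    have h1 : z ∈ {z : KK | h z = 0} := interior_subset hz
    exact h1
  obtain ⟨hhF, hhE, hhp, hhq⟩ := id hd
  have hcl0 : ∀ z ∈ closure (OO Z N0 Q0), h z = 0 := by
    intro z hz
    have hc : IsClosed {z : KK | h z = 0} := isClosed_eq h.continuous continuous_const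
    exact closure_minimal (fun w hw => hZ0 w (OO_sub hw)) hc hz
  have hpcl : p ∉ closure (OO Z N0 Q0) := fun hp => by
    have := hcl0 p hp
    linarith
  have hinf := frontier_infinite hZ hg hpcl
  let emb4 := hinf.natEmbedding
  let ζ : Fin 4 → KK := fun i => (emb4 i.1).1
  have hζinj : Function.Injective ζ := by
    intro i j hij
    have := emb4.injective (Subtype.ext hij)
    exact Fin.ext this
  have hζcl : ∀ i, ζ i ∈ closure (OO Z N0 Q0) := fun i => (emb4 i.1).2.1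
  have hζO : ∀ i, ζ i ∉ OO Z N0 Q0 := fun i => (emb4 i.1).2.2
  have hζZ : ∀ i, ζ i ∉ Z := fun i hi => hζO i (OO_closed hZ hg (hζcl i) hi)
  have hζne : ∀ i, ζ i ∈ closure {z : KK | h z ≠ 0} := by
    intro i
    have h1 := hζZ i
    rw [hZdef] at h1
    have h2 : {z : KK | h z ≠ 0} = {z : KK | h z = 0}ᶜ := rfl
    rw [h2, closure_compl]
    exact h1
  -- fixed functions
  let g : Fin 3 → C(KK, ℝ) := fun j => 𝓔.Gp (ζ 3) (ζ j.castSucc)
  have hgF : ∀ j, g j ∈ 𝓔.F := fun j => 𝓔.Gp_mem _ _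
  have hgE : ∀ j, ∀ φ ∈ 𝓔.F, 𝓔.E (g j) φ = φ (ζ j.castSucc) - φ (ζ 3) :=
    fun j φ hφ => 𝓔.Gp_E _ _ hφ
  have hcut : ∀ k : Fin 3, ∃ f ∈ 𝓔.F, f (ζ k.castSucc) = 1 ∧ ∀ i, i ≠ k.castSucc → f (ζ i) = 0 := by
    intro k
    obtain ⟨f, hf, -, h1, h0⟩ := 𝓔.cutoff {ζ k.castSucc} (ζ '' {i | i ≠ k.castSucc})
      isClosed_singleton ((Set.toFinite _).isClosed) (by
        rw [Set.disjoint_singleton_left]
        rintro ⟨i, hi, he⟩
        exact hi (hζinj he))
    exact ⟨f, hf, h1 _ rfl, fun i hi => h0 _ ⟨i, hi, rfl⟩⟩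
  choose f hfF hf1 hf0 using hcut
  set M : ℝ := ∑ k, 𝓔.E (f k) (f k) + 1 with hM
  have hMk : ∀ k, 𝓔.E (f k) (f k) ≤ M := by
    intro k
    have h1 : 𝓔.E (f k) (f k) ≤ ∑ k, 𝓔.E (f k) (f k) :=
      Finset.single_le_sum (f := fun k => 𝓔.E (f k) (f k))
      (fun i _ => 𝓔.nonneg _ (hfF i)) (Finset.mem_univ k)
    linarith
  have hMpos : 0 < M := by
    have := Finset.sum_nonneg (s := Finset.univ) (fun i _ => 𝓔.nonneg _ (hfF i))
    linarith
  set η : ℝ := 1 / (36 * M) with hη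
  have hηpos : 0 < η := by positivity
  -- nearby points of the exhausted set
  have hnear : ∀ i, ∃ y ∈ OO Z N0 Q0, ∀ j, |g j (ζ i) - g j y| < η := by
    intro i
    have hop : IsOpen {z : KK | ∀ j, |g j (ζ i) - g j z| < η} := by
      have : {z : KK | ∀ j, |g j (ζ i) - g j z| < η} = ⋂ j, {z : KK | |g j (ζ i) - g j z| < η} := by
        ext z; simp
      rw [this]
      apply isOpen_iInter_of_finite
      intro j
      exact isOpen_lt (continuous_abs.comp (continuous_const.sub (g j).continuous))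
        continuous_const
    obtain ⟨y, hy1, hy2⟩ := mem_closure_iff.mp (hζcl i) _ hop (by
      intro j
      rw [sub_self, abs_zero]
      exact hηpos)
    exact ⟨y, hy2, hy1⟩
  choose y hyO hyg using hnear
  choose ky cy hcy hycy using hyO
  set k : ℕ := ∑ i, ky i with hk
  have hky : ∀ i, ky i ≤ k := fun i => Finset.single_le_sum (fun _ _ => Nat.zero_le _)
    (Finset.mem_univ i)
  have hyk : ∀ i, ∃ c ∈ CS Z N0 Q0 k, (y i).1 ∈ sq (N0 + k) c := by
    intro i
    obtain ⟨j, hj⟩ := Nat.exists_eq_add_of_le (hky i)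
    rw [hj]
    exact CS_mono hg (hcy i) (y i) (hycy i) j
  -- the cut
  have hCgood : ∀ c ∈ CS Z N0 Q0 k, ∀ z : KK, z.1 ∈ sq (N0 + k) c → z ∈ Z :=
    fun c hc => (mem_CS.mp hc).2.1.2
  obtain ⟨T, hT, hdisj, hlink, hclosedT, hpT⟩ := exists_component (N0 + k) (CS Z N0 Q0 k) p
    (fun c hc hpc => by
      have := hZ0 p (hCgood c hc p hpc)
      linarith)
  have hc : Cut 𝓔 (N0 + k) (CS Z N0 Q0 k) T Z h p q :=
    { hC := fun c hc => (mem_CS.mp hc).1
      hT := hT
      disj := hdisj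
      linked := hlink
      closedT := hclosedT
      hp := hpT
      dip := hd
      Zopen := hZ
      hZ := hZ0
      CZ := hCgood }
  have hζW : ∀ i, (ζ i).1 ∈ Wset (N0 + k) T := by
    intro i
    by_contra hno
    apply hζZ i
    rw [hZdef, mem_interior]
    refine ⟨{z : KK | z.1 ∉ Wset (N0 + k) T}, fun z hz => hc.zero_outside hS z hz, ?_, hno⟩
    exact ((isClosed_Wset (N0 + k) T).preimage continuous_subtype_val).isOpen_compl
  obtain ⟨b, a, ⟨k0, hk0⟩, v, hvF, hva, hvE⟩ := rank_cut hS hc (sideConn_CS Z N0 Q0 hg k)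
    ⟨_, base_mem_CS hg k⟩ ζ hζW hζne
  -- comparison with the fixed functions
  set w : C(KK, ℝ) := ∑ j : Fin 3, b j • g j with hw
  have hwF : w ∈ 𝓔.F := Submodule.sum_mem _ (fun j _ => 𝓔.F.smul_mem _ (hgF j))
  have hwap : ∀ z, w z = ∑ j : Fin 3, b j * g j z := by
    intro z
    rw [hw, ContinuousMap.sum_apply]
    rfl
  have hwE : ∀ φ ∈ 𝓔.F, 𝓔.E w φ = ∑ j : Fin 3, b j * (φ (ζ j.castSucc) - φ (ζ 3)) := by
    intro φ hφ
    have h1 : ∀ t : Finset (Fin 3), 𝓔.E (∑ j ∈ t, b j • g j) φ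
        = ∑ j ∈ t, b j * (φ (ζ j.castSucc) - φ (ζ 3)) := by
      intro t
      induction t using Finset.induction_on with
      | empty =>
        have := 𝓔.smul_left 0 φ hφ φ hφ
        rw [zero_smul, zero_mul] at this
        simp [this]
      | insert a t ha ih =>
        rw [Finset.sum_insert ha, Finset.sum_insert ha,
          𝓔.add_left _ (𝓔.F.smul_mem _ (hgF a)) _
            (Submodule.sum_mem _ (fun i _ => 𝓔.F.smul_mem _ (hgF i))) φ hφ, ih,
          𝓔.smul_left _ _ (hgF a) φ hφ, hgE a φ hφ]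
    rw [hw]
    exact h1 Finset.univ
  have hvw : ∀ z z', v z - v z' = w z - w z' := by
    have hE0 : 𝓔.E (v - w) (v - w) ≤ 0 := by
      have hm := 𝓔.F.sub_mem hvF hwF
      rw [𝓔.sub_left hvF hwF hm, hvE _ hm, hwE _ hm, sub_self]
    intro z z'
    have := 𝓔.const_of_E_zero (𝓔.F.sub_mem hvF hwF) hE0 z z'
    rw [ContinuousMap.sub_apply, ContinuousMap.sub_apply] at this
    linarith
  set B : ℝ := ∑ j, |b j| with hB
  have hBj : ∀ j, |b j| ≤ B := fun j => Finset.single_le_sum (f := fun j => |b j|)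
    (fun _ _ => abs_nonneg _) (Finset.mem_univ j)
  have hBpos : 0 < B := lt_of_lt_of_le (abs_pos.mpr hk0) (hBj k0)
  have hdev : ∀ i, |v (ζ i) - a| ≤ B * η := by
    intro i
    have h1 : v (y i) = a := hva (y i) (hyk i)
    rw [← h1, hvw, hwap, hwap, ← Finset.sum_sub_distrib]
    calc |∑ j, (b j * g j (ζ i) - b j * g j (y i))|
        ≤ ∑ j, |b j * g j (ζ i) - b j * g j (y i)| := Finset.abs_sum_le_sum_abs _ _
      _ ≤ ∑ j, |b j| * η := by
          apply Finset.sum_le_sum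
          intro j _
          rw [← mul_sub, abs_mul]
          exact mul_le_mul_of_nonneg_left (hyg i j).le (abs_nonneg _)
      _ = B * η := by rw [hB, Finset.sum_mul]
  have hEv : 𝓔.E v v ≤ 2 * B ^ 2 * η := by
    rw [hvE v hvF]
    calc ∑ j : Fin 3, b j * (v (ζ j.castSucc) - v (ζ 3))
        ≤ ∑ j : Fin 3, |b j| * (2 * (B * η)) := by
          apply Finset.sum_le_sum
          intro j _
          have h1 := hdev j.castSucc
          have h2 := hdev 3
          have h3 : |v (ζ j.castSucc) - v (ζ 3)| ≤ 2 * (B * η) := by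
            have e : v (ζ j.castSucc) - v (ζ 3) = (v (ζ j.castSucc) - a) - (v (ζ 3) - a) := by ring
            rw [e]
            calc _ ≤ |v (ζ j.castSucc) - a| + |v (ζ 3) - a| := abs_sub _ _
              _ ≤ _ := by linarith
          calc b j * (v (ζ j.castSucc) - v (ζ 3)) ≤ |b j * (v (ζ j.castSucc) - v (ζ 3))| :=
                le_abs_self _
            _ = |b j| * |v (ζ j.castSucc) - v (ζ 3)| := abs_mul _ _
            _ ≤ _ := mul_le_mul_of_nonneg_left h3 (abs_nonneg _)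
      _ = B * (2 * (B * η)) := by rw [← Finset.sum_mul]
      _ = 2 * B ^ 2 * η := by ring
  have hbk : ∀ j, b j ^ 2 ≤ 2 * B ^ 2 * η * M := by
    intro j
    have h1 : 𝓔.E v (f j) = b j := by
      rw [hvE _ (hfF j)]
      have h3 : f j (ζ 3) = 0 := hf0 j 3 (by
        intro h
        have h6 : ((3 : Fin 4) : ℕ) = (j.castSucc : ℕ) := congrArg (fun i : Fin 4 => (i : ℕ)) h
        have h7 : (j.castSucc : ℕ) = (j : ℕ) := rfl
        have h4 := j.2
        have h5 : ((3 : Fin 4) : ℕ) = 3 := rfl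
        omega)
      rw [Finset.sum_eq_single j]
      · rw [hf1, h3]; ring
      · intro i _ hij
        rw [hf0 j i.castSucc (fun h => hij (Fin.castSucc_injective _ h)), h3]
        ring
      · intro h; exact absurd (Finset.mem_univ j) h
    have h2 := 𝓔.cs hvF (hfF j)
    rw [h1] at h2
    have h3 := 𝓔.nonneg v hvF
    have h4 := 𝓔.nonneg _ (hfF j)
    calc b j ^ 2 ≤ 𝓔.E v v * 𝓔.E (f j) (f j) := h2
      _ ≤ (2 * B ^ 2 * η) * M := mul_le_mul hEv (hMk j) h4 (by positivity)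
  have hBsq : B ^ 2 ≤ 3 * ∑ j, b j ^ 2 := by
    rw [hB]
    have := sq_sum_le_card_mul_sum_sq (s := (Finset.univ : Finset (Fin 3))) (f := fun j => |b j|)
    simp only [Finset.card_univ, Fintype.card_fin, sq_abs] at this
    exact_mod_cast this
  have hfin : B ^ 2 ≤ 3 * (3 * (2 * B ^ 2 * η * M)) := by
    calc B ^ 2 ≤ 3 * ∑ j, b j ^ 2 := hBsq
      _ ≤ 3 * ∑ j : Fin 3, (2 * B ^ 2 * η * M) := by
          apply mul_le_mul_of_nonneg_left _ (by norm_num)
          exact Finset.sum_le_sum (fun j _ => hbk j)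
      _ = _ := by simp
  have hηM : η * M = 1 / 36 := by
    rw [hη]; field_simp
  have : 3 * (3 * (2 * B ^ 2 * η * M)) = B ^ 2 / 2 := by
    calc 3 * (3 * (2 * B ^ 2 * η * M)) = 18 * B ^ 2 * (η * M) := by ring
      _ = B ^ 2 / 2 := by rw [hηM]; ring
  rw [this] at hfin
  have : 0 < B ^ 2 := by positivity
  linarith

/-- strict bounds of a dipole potential -/
theorem dipole_strict (𝓔 : ResForm KK) {h : C(KK, ℝ)} {p q : KK} (hpq : p ≠ q) (hF : h ∈ 𝓔.F)
    (hE : ∀ φ ∈ 𝓔.F, 𝓔.E h φ = φ p - φ q) {x : KK} (hx : x ≠ q) : h q < h x := by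
  have hVc : (({q} : Set KK)ᶜ)ᶜ.Nonempty := by
    rw [compl_compl]; exact ⟨q, rfl⟩
  set u : C(KK, ℝ) := 𝓔.Gp q p with hu
  have huF := 𝓔.Gp_mem q p
  have hu0 : u q = 0 := (𝓔.G_mem {q} ⟨q, rfl⟩ p).2 q rfl
  have hdiff : ∀ z z', h z - h z' = u z - u z' := by
    have hm := 𝓔.F.sub_mem hF huF
    have hE0 : 𝓔.E (h - u) (h - u) ≤ 0 := by
      rw [𝓔.sub_left hF huF hm, hE _ hm, 𝓔.Gp_E q p hm, sub_self]
    intro z z'
    have := 𝓔.const_of_E_zero hm hE0 z z'
    rw [ContinuousMap.sub_apply, ContinuousMap.sub_apply] at this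
    linarith
  have hpos : 0 < u x := by
    have hpre : IsPreconnected (({q} : Set KK)ᶜ) := compl_precon (Set.finite_singleton q)
    refine 𝓔.smp (V := ({q} : Set KK)ᶜ) isOpen_compl_singleton hVc hpre huF
      (fun z _ => 𝓔.G_nonneg _ _ _ _) ?_ (y := p) hpq ?_ hx
    · intro φ hφ h0
      rw [𝓔.Gp_E q p hφ.1]
      have : φ q = 0 := hφ.2 q (by rw [compl_compl]; rfl)
      rw [this, sub_zero]
      exact h0 p
    · exact 𝓔.G_diag_pos {q} ⟨q, rfl⟩ isClosed_singleton p hpq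
  have := hdiff x q
  rw [hu0] at this
  linarith

/-- **no flat cell** -/
theorem dipole_not_flat (𝓔 : ResForm KK) {ρ : ℝ} (hS : SelfSim 𝓔 ρ) {h : C(KK, ℝ)} {p q : KK}
    (hpq : p ≠ q) (hF : h ∈ 𝓔.F) (hE : ∀ φ ∈ 𝓔.F, 𝓔.E h φ = φ p - φ q) {n : ℕ} {c : Z2}
    (hc : c ∈ cells n) (t : ℝ) (hflat : ∀ z : KK, z.1 ∈ sq n c → h z = t) : False := by
  -- a point of the cell different from p, q
  have hK1 : ((0:ℝ),(0:ℝ)) ∈ K := by apply boundary_mem <;> norm_num
  have hK2 : ((1:ℝ),(0:ℝ)) ∈ K := by apply boundary_mem <;> norm_num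
  have hK3 : ((0:ℝ),(1:ℝ)) ∈ K := by apply boundary_mem <;> norm_num
  have hne : ∃ x : KK, x.1 ∈ sq n c ∧ x ≠ p ∧ x ≠ q := by
    by_contra hno
    push Not at hno
    let x1 : KK := embK n c hc ⟨_, hK1⟩
    let x2 : KK := embK n c hc ⟨_, hK2⟩
    let x3 : KK := embK n c hc ⟨_, hK3⟩
    have i1 : x1.1 ∈ sq n c := phi_mem_own n c hK1
    have i2 : x2.1 ∈ sq n c := phi_mem_own n c hK2
    have i3 : x3.1 ∈ sq n c := phi_mem_own n c hK3
    have inj : ∀ a b : KK, embK n c hc a = embK n c hc b → a = b := by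
      intro a b hab
      have := congrArg (fun z : KK => inv n c z.1) hab
      simp only [embK, ContinuousMap.coe_mk, inv_phi] at this
      exact Subtype.ext this
    have n12 : x1 ≠ x2 := fun h => by
      have := congrArg (fun z : KK => z.1.1) (inj _ _ h)
      norm_num at this
    have n13 : x1 ≠ x3 := fun h => by
      have := congrArg (fun z : KK => z.1.2) (inj _ _ h)
      norm_num at this
    have n23 : x2 ≠ x3 := fun h => by
      have := congrArg (fun z : KK => z.1.2) (inj _ _ h)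
      norm_num at this
    have a1 := hno x1 i1
    have a2 := hno x2 i2
    have a3 := hno x3 i3
    by_cases e1 : x1 = p
    · have e2 : x2 = q := a2 (fun h => n12 (e1.trans h.symm))
      have e3 : x3 = q := a3 (fun h => n13 (e1.trans h.symm))
      exact n23 (e2.trans e3.symm)
    · have e1' := a1 e1
      by_cases e2 : x2 = p
      · have e3 : x3 = q := a3 (fun h => n23 (e2.trans h.symm))
        exact n13 (e1'.trans e3.symm)
      · exact n12 (e1'.trans (a2 e2).symm)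
  obtain ⟨x, hxc, hxp, hxq⟩ := hne
  have hxt := hflat x hxc
  have h1 : h q < t := by rw [← hxt]; exact dipole_strict 𝓔 hpq hF hE hxq
  have h2 : t < h p := by
    have := dipole_strict 𝓔 (h := -h) hpq.symm (𝓔.F.neg_mem hF) (fun φ hφ => by
      rw [𝓔.neg_left hF hφ, hE φ hφ]; ring) hxp
    rw [ContinuousMap.neg_apply, ContinuousMap.neg_apply, hxt] at this
    linarith
  have hd : 𝓔.Dipole (h - ContinuousMap.const KK t) p q := by
    refine ⟨𝓔.F.sub_mem hF (𝓔.const_mem t), fun φ hφ => ?_, ?_, ?_⟩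
    · rw [𝓔.sub_left hF (𝓔.const_mem t) hφ, 𝓔.E_const t φ hφ, hE φ hφ, sub_zero]
    · rw [ContinuousMap.sub_apply, ContinuousMap.const_apply]; linarith
    · rw [ContinuousMap.sub_apply, ContinuousMap.const_apply]; linarith
  have h42 : ((4, 2) : Z2) ∈ cells 2 := by decide
  refine no_flat 𝓔 hS hd (cells_comp hc h42) (fun z hz => ?_)
  rw [mem_interior]
  refine ⟨{z : KK | (c.1:ℝ) < 3 ^ n * z.1.1 ∧ 3 ^ n * z.1.1 < c.1 + 1 ∧ (c.2:ℝ) < 3 ^ n * z.1.2 ∧
    3 ^ n * z.1.2 < c.2 + 1}, ?_, ?_, ?_⟩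
  · rintro w ⟨w1, w2, w3, w4⟩
    change h w - t = 0
    rw [hflat w ⟨w1.le, w2.le, w3.le, w4.le⟩, sub_self]
  · have e : {z : KK | (c.1:ℝ) < 3 ^ n * z.1.1 ∧ 3 ^ n * z.1.1 < c.1 + 1 ∧
        (c.2:ℝ) < 3 ^ n * z.1.2 ∧ 3 ^ n * z.1.2 < c.2 + 1}
        = {z : KK | (c.1:ℝ) < 3 ^ n * z.1.1} ∩ {z : KK | 3 ^ n * z.1.1 < c.1 + 1} ∩
          {z : KK | (c.2:ℝ) < 3 ^ n * z.1.2} ∩ {z : KK | 3 ^ n * z.1.2 < c.2 + 1} := by
      ext z
      simp only [Set.mem_ofPred_eq, Set.mem_inter_iff]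
      tauto
    rw [e]
    refine ((IsOpen.inter ?_ ?_).inter ?_).inter ?_
    · exact isOpen_lt (by fun_prop) (by fun_prop)
    · exact isOpen_lt (by fun_prop) (by fun_prop)
    · exact isOpen_lt (by fun_prop) (by fun_prop)
    · exact isOpen_lt (by fun_prop) (by fun_prop)
  · obtain ⟨z1, z2, z3, z4⟩ := hz
    simp only [adr] at z1 z2 z3 z4
    push_cast at z1 z2 z3 z4
    rw [pow_add] at z1 z2 z3 z4
    have hp : (0:ℝ) < 3 ^ n := by positivity
    refine ⟨?_, ?_, ?_, ?_⟩ <;> linarith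

end Pool.Agent.Helper38.Carpet
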