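import Mathlib
import Pool.Agent.Helper38.Algebra
import Pool.Agent.Helper38.Flat

set_option autoImplicit false
open Set Filter Topology MeasureTheory

/-! Energy measures. -/

namespace Pool.Agent.Helper38

namespace ResForm

variable {X : Type*} [TopologicalSpace X] [CompactSpace X] (𝓔 : ResForm X)

/-- the energy functional of `f` -/
def Gam (f g : C(X, ℝ)) : ℝ := 2 * 𝓔.E f (f * g) - 𝓔.E (f * f) g

theorem Gam_add_right {f g g' : C(X, ℝ)} (hf : f ∈ 𝓔.F) (hg : g ∈ 𝓔.F) (hg' : g' ∈ 𝓔.F) :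
    𝓔.Gam f (g + g') = 𝓔.Gam f g + 𝓔.Gam f g' := by
  unfold Gam
  rw [mul_add, 𝓔.add_right (𝓔.mul_mem hf hg) (𝓔.mul_mem hf hg') hf,
    𝓔.add_right hg hg' (𝓔.mul_mem hf hf)]
  ring

theorem Gam_smul_right (a : ℝ) {f g : C(X, ℝ)} (hf : f ∈ 𝓔.F) (hg : g ∈ 𝓔.F) :
    𝓔.Gam f (a • g) = a * 𝓔.Gam f g := by
  unfold Gam
  rw [mul_smul_comm, 𝓔.smul_right a (𝓔.mul_mem hf hg) hf, 𝓔.smul_right a hg (𝓔.mul_mem hf hf)]
  ring

theorem mul_const' (f : C(X, ℝ)) (a : ℝ) : f * ContinuousMap.const X a = a • f := by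
  ext x
  change f x * a = a * f x
  ring

theorem const_mul' (f : C(X, ℝ)) (a : ℝ) : ContinuousMap.const X a * f = a • f := by
  ext x
  rfl

theorem Gam_const (a : ℝ) {f : C(X, ℝ)} (hf : f ∈ 𝓔.F) :
    𝓔.Gam f (ContinuousMap.const X a) = 2 * a * 𝓔.E f f := by
  unfold Gam
  rw [mul_const', 𝓔.smul_right a hf hf, 𝓔.E_const_right a (𝓔.mul_mem hf hf)]
  ring

theorem Gam_shift (b : ℝ) {f g : C(X, ℝ)} (hf : f ∈ 𝓔.F) (hg : g ∈ 𝓔.F) :
    𝓔.Gam (f - ContinuousMap.const X b) g = 𝓔.Gam f g := by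
  have hc := 𝓔.const_mem b
  have hfb := 𝓔.F.sub_mem hf hc
  unfold Gam
  have e1 : (f - ContinuousMap.const X b) * g = f * g - b • g := by
    rw [sub_mul, const_mul']
  have e2 : (f - ContinuousMap.const X b) * (f - ContinuousMap.const X b) =
      f * f - (2 * b) • f + ContinuousMap.const X (b ^ 2) := by
    ext x
    change (f x - b) * (f x - b) = f x * f x - (2 * b) * f x + b ^ 2
    ring
  rw [e1, e2, 𝓔.sub_right (𝓔.mul_mem hf hg) (𝓔.F.smul_mem b hg) hfb,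
    𝓔.sub_left hf hc (𝓔.mul_mem hf hg), 𝓔.sub_left hf hc (𝓔.F.smul_mem b hg),
    𝓔.E_const b _ (𝓔.mul_mem hf hg), 𝓔.E_const b _ (𝓔.F.smul_mem b hg),
    𝓔.smul_right b hg hf,
    𝓔.add_left _ (𝓔.F.sub_mem (𝓔.mul_mem hf hf) (𝓔.F.smul_mem _ hf)) _ (𝓔.const_mem _) _ hg,
    𝓔.sub_left (𝓔.mul_mem hf hf) (𝓔.F.smul_mem _ hf) hg, 𝓔.smul_left _ f hf g hg,
    𝓔.E_const _ _ hg]
  ring

theorem two_cs {f g : C(X, ℝ)} (hf : f ∈ 𝓔.F) (hg : g ∈ 𝓔.F) {s : ℝ} (hs : 0 < s) :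
    2 * |𝓔.E f g| ≤ s * 𝓔.E f f + s⁻¹ * 𝓔.E g g := by
  have h1 := 𝓔.nonneg _ (𝓔.F.sub_mem (𝓔.F.smul_mem s hf) hg)
  have h2 := 𝓔.nonneg _ (𝓔.F.add_mem (𝓔.F.smul_mem s hf) hg)
  have e1 := 𝓔.toPre.E_sub_self (𝓔.F.smul_mem s hf) hg
  have e2 := 𝓔.E_add_self (𝓔.F.smul_mem s hf) hg
  change 𝓔.E (s • f - g) (s • f - g) = 𝓔.E (s • f) (s • f) - 2 * 𝓔.E (s • f) g + 𝓔.E g g at e1
  rw [e1, 𝓔.E_smul_self s hf, 𝓔.smul_left s f hf g hg] at h1
  rw [e2, 𝓔.E_smul_self s hf, 𝓔.smul_left s f hf g hg] at h2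
  have hs' : 0 ≤ s⁻¹ := (inv_pos.mpr hs).le
  have h3 := mul_nonneg hs' h1
  have h4 := mul_nonneg hs' h2
  have e3 : s⁻¹ * (s ^ 2 * 𝓔.E f f - 2 * (s * 𝓔.E f g) + 𝓔.E g g) =
      s * 𝓔.E f f - 2 * 𝓔.E f g + s⁻¹ * 𝓔.E g g := by
    field_simp
  have e4 : s⁻¹ * (s ^ 2 * 𝓔.E f f + 2 * (s * 𝓔.E f g) + 𝓔.E g g) =
      s * 𝓔.E f f + 2 * 𝓔.E f g + s⁻¹ * 𝓔.E g g := by
    field_simp
  rw [e3] at h3
  rw [e4] at h4
  rcases abs_cases (𝓔.E f g) with ⟨h, _⟩ | ⟨h, _⟩ <;> rw [h] <;> linarith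

/-- small energy functional for functions with small oscillation -/
theorem Gam_bound {f g : C(X, ℝ)} (hf : f ∈ 𝓔.F) (hg : g ∈ 𝓔.F) {δ : ℝ} (hδ : 0 < δ)
    (hfδ : ∀ x, |f x| ≤ δ) (hgδ : ∀ x, |g x| ≤ δ) :
    |𝓔.Gam f g| ≤ 8 * δ * (𝓔.E f f + 𝓔.E g g) := by
  have h1 := 𝓔.mul_mem' hf hg hδ hδ hfδ hgδ
  have h2 := 𝓔.sq_mem hf hδ hfδ
  have h3 := 𝓔.two_cs hf h1.1 hδ
  have h4 := 𝓔.two_cs hg h2.1 hδ
  have hδ' : 0 < δ⁻¹ := inv_pos.mpr hδ
  have h5 : δ⁻¹ * 𝓔.E (f * g) (f * g) ≤ 4 * δ * (𝓔.E f f + 𝓔.E g g) := by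
    calc δ⁻¹ * 𝓔.E (f * g) (f * g) ≤ δ⁻¹ * (4 * (δ ^ 2 * 𝓔.E f f + δ ^ 2 * 𝓔.E g g)) :=
          mul_le_mul_of_nonneg_left h1.2 hδ'.le
      _ = 4 * δ * (𝓔.E f f + 𝓔.E g g) := by field_simp
  have h6 : δ⁻¹ * 𝓔.E (f * f) (f * f) ≤ 4 * δ * 𝓔.E f f := by
    calc δ⁻¹ * 𝓔.E (f * f) (f * f) ≤ δ⁻¹ * (4 * δ ^ 2 * 𝓔.E f f) :=
          mul_le_mul_of_nonneg_left h2.2 hδ'.le
      _ = 4 * δ * 𝓔.E f f := by field_simp
  have hEf := 𝓔.nonneg f hf
  have hEg := 𝓔.nonneg g hg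
  unfold Gam
  rw [𝓔.symm _ h2.1 g hg]
  calc |2 * 𝓔.E f (f * g) - 𝓔.E g (f * f)| ≤ |2 * 𝓔.E f (f * g)| + |𝓔.E g (f * f)| :=
        abs_sub _ _
    _ = 2 * |𝓔.E f (f * g)| + |𝓔.E g (f * f)| := by rw [abs_mul, abs_two]
    _ ≤ _ := by nlinarith [mul_nonneg hδ.le hEf, mul_nonneg hδ.le hEg]

end ResForm

namespace Carpet

theorem pullK_add (n : ℕ) (c : Z2) (f g : C(KK, ℝ)) :
    pullK n c (f + g) = pullK n c f + pullK n c g := by
  unfold pullK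
  split_ifs
  · rfl
  · simp

theorem pullK_mul (n : ℕ) (c : Z2) (f g : C(KK, ℝ)) :
    pullK n c (f * g) = pullK n c f * pullK n c g := by
  unfold pullK
  split_ifs
  · rfl
  · simp

theorem Gam_selfsim (𝓔 : ResForm KK) {ρ : ℝ} (hS : SelfSim 𝓔 ρ) (n : ℕ) {f g : C(KK, ℝ)}
    (hf : f ∈ 𝓔.F) (hg : g ∈ 𝓔.F) :
    𝓔.Gam f g = ρ ^ n * ∑ c ∈ cells n, 𝓔.Gam (pullK n c f) (pullK n c g) := by
  unfold ResForm.Gam
  rw [hS.eng n f hf _ (𝓔.mul_mem hf hg), hS.eng n _ (𝓔.mul_mem hf hf) g hg,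
    Finset.sum_sub_distrib, ← Finset.mul_sum]
  simp only [pullK_mul]
  ring

/-- oscillation on small cells -/
theorem small_osc (f : C(KK, ℝ)) {δ : ℝ} (hδ : 0 < δ) : ∃ N : ℕ, ∀ n ≥ N, ∀ c ∈ cells n,
    ∀ x y, |pullK n c f x - pullK n c f y| ≤ δ := by
  have huc := CompactSpace.uniformContinuous_of_continuous f.continuous
  rw [Metric.uniformContinuous_iff] at huc
  obtain ⟨ε, hε, h⟩ := huc δ hδ
  obtain ⟨N, hN⟩ := exists_small ε hε
  refine ⟨N, fun n hn c hc x y => ?_⟩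
  rw [pullK_of hc]
  have hd : dist (embK n c hc x) (embK n c hc y) < ε := by
    rw [Subtype.dist_eq]
    exact lt_of_le_of_lt (sq_dist (phi_mem_own n c x.2) (phi_mem_own n c y.2)) (hN n hn)
  have := h hd
  rw [Real.dist_eq] at this
  exact this.le

/-- **positivity of the energy functional** -/
theorem Gam_nonneg (𝓔 : ResForm KK) {ρ : ℝ} (hS : SelfSim 𝓔 ρ) {f g : C(KK, ℝ)}
    (hf : f ∈ 𝓔.F) (hg : g ∈ 𝓔.F) (h0 : ∀ x, 0 ≤ g x) : 0 ≤ 𝓔.Gam f g := by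
  have hK1 : ((0:ℝ),(0:ℝ)) ∈ K := by apply boundary_mem <;> norm_num
  let o : KK := ⟨_, hK1⟩
  have key : ∀ δ > 0, -(8 * δ * (𝓔.E f f + 𝓔.E g g)) ≤ 𝓔.Gam f g := by
    intro δ hδ
    obtain ⟨N1, hN1⟩ := small_osc f hδ
    obtain ⟨N2, hN2⟩ := small_osc g hδ
    set n := max N1 N2
    have hn1 := hN1 n (le_max_left _ _)
    have hn2 := hN2 n (le_max_right _ _)
    have hcell : ∀ c ∈ cells n, -(8 * δ * (𝓔.E (pullK n c f) (pullK n c f) +
        𝓔.E (pullK n c g) (pullK n c g))) ≤ 𝓔.Gam (pullK n c f) (pullK n c g) := by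
      intro c hc
      set fc := pullK n c f with hfc
      set gc := pullK n c g with hgc
      have hfcF : fc ∈ 𝓔.F := (hS.mem n f).mp hf c hc
      have hgcF : gc ∈ 𝓔.F := (hS.mem n g).mp hg c hc
      set a := gc o with ha
      set b := fc o with hb
      have ha0 : 0 ≤ a := by
        rw [ha, hgc, pullK_of hc]; exact h0 _
      have hca := 𝓔.const_mem a
      have hcb := 𝓔.const_mem b
      have e1 : gc = (gc - ContinuousMap.const KK a) + ContinuousMap.const KK a := by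
        rw [sub_add_cancel]
      have hg1 := 𝓔.F.sub_mem hgcF hca
      have hf1 := 𝓔.F.sub_mem hfcF hcb
      have e2 : 𝓔.Gam fc gc = 𝓔.Gam (fc - ContinuousMap.const KK b) (gc - ContinuousMap.const KK a)
          + 2 * a * 𝓔.E fc fc := by
        conv_lhs => rw [e1]
        rw [𝓔.Gam_add_right hfcF hg1 hca, 𝓔.Gam_const a hfcF, 𝓔.Gam_shift b hfcF hg1]
      have e3 := 𝓔.Gam_bound hf1 hg1 hδ (fun x => hn1 c hc x o) (fun x => hn2 c hc x o)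
      have sub_E : ∀ u ∈ 𝓔.F, ∀ t : ℝ, 𝓔.E (u - ContinuousMap.const KK t)
          (u - ContinuousMap.const KK t) = 𝓔.E u u := by
        intro u hu t
        rw [𝓔.sub_left hu (𝓔.const_mem t) (𝓔.F.sub_mem hu (𝓔.const_mem t)),
          𝓔.E_const t _ (𝓔.F.sub_mem hu (𝓔.const_mem t)), 𝓔.sub_right hu (𝓔.const_mem t) hu,
          𝓔.E_const_right t hu]
        ring
      rw [sub_E fc hfcF b, sub_E gc hgcF a] at e3
      have e4 := (abs_le.mp e3).1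
      have e5 : 0 ≤ 2 * a * 𝓔.E fc fc := mul_nonneg (by positivity) (𝓔.nonneg _ hfcF)
      rw [e2]
      linarith
    rw [Gam_selfsim 𝓔 hS n hf hg, hS.eng n f hf f hf, hS.eng n g hg g hg]
    have hρ : 0 < ρ ^ n := pow_pos hS.pos n
    have h1 := Finset.sum_le_sum hcell
    rw [Finset.sum_neg_distrib, ← Finset.mul_sum, Finset.sum_add_distrib] at h1
    have h2 := mul_le_mul_of_nonneg_left h1 hρ.le
    linarith
  by_contra hneg
  push Not at hneg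
  have hEf := 𝓔.nonneg f hf
  have hEg := 𝓔.nonneg g hg
  set A := 𝓔.E f f + 𝓔.E g g with hA
  have hA0 : 0 ≤ A := by positivity
  have h1 := key (-(𝓔.Gam f g) / (16 * (A + 1))) (by
    apply div_pos
    · linarith
    · positivity)
  have h2 : 8 * (-(𝓔.Gam f g) / (16 * (A + 1))) * A ≤ -(𝓔.Gam f g) / 2 := by
    have : 8 * (-(𝓔.Gam f g) / (16 * (A + 1))) * A = (-(𝓔.Gam f g) / 2) * (A / (A + 1)) := by
      field_simp
      ring
    rw [this]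
    have h3 : A / (A + 1) ≤ 1 := by
      rw [div_le_one (by positivity)]; linarith
    have h4 : 0 ≤ -(𝓔.Gam f g) / 2 := by linarith
    calc (-(𝓔.Gam f g) / 2) * (A / (A + 1)) ≤ (-(𝓔.Gam f g) / 2) * 1 :=
          mul_le_mul_of_nonneg_left h3 h4
      _ = _ := by ring
  linarith

/-- existence of the energy measure -/
theorem exists_energy (𝓔 : ResForm KK) {ρ : ℝ} (hS : SelfSim 𝓔 ρ) {f : C(KK, ℝ)}
    (hf : f ∈ 𝓔.F) : ∃ ν : Measure KK, IsFiniteMeasure ν ∧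
      ∀ g ∈ 𝓔.F, ∫ x, g x ∂ν = 𝓔.Gam f g := by
  let Lm : 𝓔.F →ₗ[ℝ] ℝ :=
    { toFun := fun g => 𝓔.Gam f g.1
      map_add' := fun g g' => 𝓔.Gam_add_right hf g.2 g'.2
      map_smul' := fun a g => 𝓔.Gam_smul_right a hf g.2 }
  let s : PointedCone ℝ C(KK, ℝ) :=
    { carrier := {g | ∀ x, 0 ≤ g x}
      add_mem' := fun {a b} ha hb x => add_nonneg (ha x) (hb x)
      zero_mem' := fun x => le_rfl
      smul_mem' := fun c g hg x => mul_nonneg c.2 (hg x) }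
  obtain ⟨Λ0, hΛ1, hΛ2⟩ := riesz_extension s ⟨𝓔.F, Lm⟩
    (fun x hx => Gam_nonneg 𝓔 hS hf x.2 hx) (fun y => by
      refine ⟨⟨ContinuousMap.const KK ‖y‖, 𝓔.const_mem _⟩, fun x => ?_⟩
      change 0 ≤ ‖y‖ + y x
      have := y.norm_coe_le_norm x
      rw [Real.norm_eq_abs] at this
      linarith [neg_abs_le (y x)])
  let Λ : CompactlySupportedContinuousMap KK ℝ →ₚ[ℝ] ℝ :=
    { toFun := fun g => Λ0 g.toContinuousMap
      map_add' := fun g g' => by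
        change Λ0 (g.toContinuousMap + g'.toContinuousMap) = _
        rw [map_add]
      map_smul' := fun a g => by
        change Λ0 (a • g.toContinuousMap) = _
        rw [map_smul]; rfl
      monotone' := fun g g' hgg' => by
        change Λ0 g.toContinuousMap ≤ Λ0 g'.toContinuousMap
        rw [← sub_nonneg, ← map_sub]
        apply hΛ2
        intro x
        change 0 ≤ g' x - g x
        exact sub_nonneg.mpr (hgg' x) }
  refine ⟨RealRMK.rieszMeasure Λ, ?_, ?_⟩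
  · have := RealRMK.regular_rieszMeasure Λ
    infer_instance
  · intro g hg
    have h1 := RealRMK.integral_rieszMeasure Λ (CompactlySupportedContinuousMap.continuousMapEquiv g)
    change ∫ x, g x ∂(RealRMK.rieszMeasure Λ) = Λ0 g at h1
    rw [h1]
    exact hΛ1 ⟨g, hg⟩

/-- **full support**: a function that is not constant on any cell has an energy measure
with full support -/
theorem full_support (𝓔 : ResForm KK) {ρ : ℝ} (hS : SelfSim 𝓔 ρ) {f : C(KK, ℝ)}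
    (hf : f ∈ 𝓔.F)
    (hnc : ∀ n, ∀ c ∈ cells n, ∀ t : ℝ, ¬ (∀ z : KK, z.1 ∈ sq n c → f z = t))
    (ν : Measure KK) [IsFiniteMeasure ν] (hν : ∀ g ∈ 𝓔.F, ∫ x, g x ∂ν = 𝓔.Gam f g)
    (U : Set KK) (hU : IsOpen U) (hne : U.Nonempty) : 0 < ν U := by
  obtain ⟨x, hx⟩ := hne
  obtain ⟨N, hN⟩ := small_K hU hx
  obtain ⟨c, hc, hxc⟩ := x.2 N
  have hcU := hN N le_rfl c hxc
  have hclosed : IsClosed {z : KK | z.1 ∈ sq N c} :=
    (isClosed_sq N c).preimage continuous_subtype_val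
  obtain ⟨g, hg, h01, h1, h0⟩ := 𝓔.cutoff {z : KK | z.1 ∈ sq N c} Uᶜ hclosed
    hU.isClosed_compl (by
      rw [Set.disjoint_left]
      intro z hz hz'
      exact hz' (hcU z hz))
  have hfcF : pullK N c f ∈ 𝓔.F := (hS.mem N f).mp hf c hc
  have hρ : 0 < ρ ^ N := pow_pos hS.pos N
  have hpos : 0 < 𝓔.Gam f g := by
    rw [Gam_selfsim 𝓔 hS N hf hg]
    apply mul_pos hρ
    have hterm : ∀ c' ∈ cells N, 0 ≤ 𝓔.Gam (pullK N c' f) (pullK N c' g) := by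
      intro c' hc'
      apply Gam_nonneg 𝓔 hS ((hS.mem N f).mp hf c' hc') ((hS.mem N g).mp hg c' hc')
      intro z
      rw [pullK_of hc']
      exact (h01 _).1
    have h2 : 𝓔.Gam (pullK N c f) (pullK N c g) = 2 * 𝓔.E (pullK N c f) (pullK N c f) := by
      have : pullK N c g = ContinuousMap.const KK 1 := by
        rw [pullK_of hc]
        ext z
        exact h1 _ (phi_mem_own N c z.2)
      rw [this, 𝓔.Gam_const 1 hfcF]
      ring
    have h3 : 0 < 𝓔.E (pullK N c f) (pullK N c f) := by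
      by_contra hcon
      push Not at hcon
      have hK1 : ((0:ℝ),(0:ℝ)) ∈ K := by apply boundary_mem <;> norm_num
      apply hnc N c hc (pullK N c f ⟨_, hK1⟩)
      intro z hz
      rw [← 𝓔.const_of_E_zero hfcF hcon ⟨inv N c z.1, inv_mem_K z.2 hz⟩, pullK_of hc,
        ContinuousMap.comp_apply, inv_embK hc z hz]
    have h4 : 𝓔.Gam (pullK N c f) (pullK N c g) ≤
        ∑ c' ∈ cells N, 𝓔.Gam (pullK N c' f) (pullK N c' g) :=
      Finset.single_le_sum (f := fun c' => 𝓔.Gam (pullK N c' f) (pullK N c' g)) hterm hc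
    rw [h2] at h4
    linarith
  rw [← hν g hg] at hpos
  by_contra hcon
  have hν0 : ν U = 0 := by
    by_contra h
    exact hcon (pos_iff_ne_zero.mpr h)
  have : ∫ z, g z ∂ν = 0 := by
    apply integral_eq_zero_of_ae
    rw [Filter.EventuallyEq, ae_iff]
    apply measure_mono_null _ hν0
    intro z hz
    by_contra hzU
    exact hz (h0 z hzU)
  linarith

end Carpet

end Pool.Agent.Helper38
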