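import Mathlib
import Pool.Agent.Helper38.Geometry

set_option autoImplicit false
open Set Filter Topology MeasureTheory
open scoped ENNReal

/-!
# Dirichlet forms on the Sierpinski carpet

Definitions used in the statement. The carpet `K` (`KK` as a space), the positions `cells n` of
its cells and the closed squares `sq n c` are defined in the file `Defs`.
-/

namespace Pool.Agent.Helper38.Carpet

theorem psi_mem {d : Z2} (hd : d ∈ dig) {z : R2} (hz : z ∈ K) :
    (((z.1 + d.1) / 3, (z.2 + d.2) / 3) : R2) ∈ K := by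
  have h := phi_mem_K (n := 1) (c := d) (by rw [← dig_cells]; exact hd) hz
  simpa [phi] using h

/-- sanity check: `K` is a nonempty compact set and equals the union of its images under the
eight similarities `x ↦ (x + d) / 3` -/
theorem K_fixed : K.Nonempty ∧ IsCompact K ∧
    K = ⋃ d ∈ dig, (fun z : R2 => (((z.1 + d.1) / 3, (z.2 + d.2) / 3) : R2)) '' K := by
  refine ⟨⟨(0, 0), boundary_mem (by norm_num) (by norm_num)⟩, isCompact_K, ?_⟩
  ext z
  simp only [Set.mem_iUnion, Set.mem_image]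
  constructor
  · intro hz
    obtain ⟨d, hd, h⟩ := hz 1
    refine ⟨d, by rw [dig_cells]; exact hd, inv 1 d z, inv_mem_K hz h, ?_⟩
    have := phi_inv 1 d z
    simpa [phi] using this
  · rintro ⟨d, hd, w, hw, rfl⟩
    exact psi_mem hd hw

/-- The similarity `ψ_d : K → K`, `ψ_d x = (x + d) / 3`, for a digit `d`. -/
noncomputable def psi (d : dig) : C(KK, KK) where
  toFun x := ⟨((x.1.1 + d.1.1) / 3, (x.1.2 + d.1.2) / 3), psi_mem d.2 x.2⟩
  continuous_toFun := by fun_prop

/-- The outer boundary `V₀` of the carpet, i.e. the boundary of the unit square. -/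
def V0 : Set KK := {x | x.1.1 = 0 ∨ x.1.1 = 1 ∨ x.1.2 = 0 ∨ x.1.2 = 1}

/-- `μ` is the self-similar (normalised Hausdorff) measure: it gives mass `8 ^ (-n)` to each cell
of level `n`; for `n = 0` this says that `μ` is a probability measure. -/
def IsSelfSimilarMeasure (μ : Measure KK) : Prop :=
  ∀ n, ∀ c ∈ cells n, μ {x : KK | x.1 ∈ sq n c} = (8⁻¹ : ℝ≥0∞) ^ n

/-- A nonnegative symmetric bilinear form `E` on a linear space `F` of continuous functions
on `K`. Only the values of `E` on `F` matter. -/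
structure SymForm where
  /-- the domain -/
  F : Set C(KK, ℝ)
  /-- the form -/
  E : C(KK, ℝ) → C(KK, ℝ) → ℝ
  lin_mem : ∀ a b : ℝ, ∀ f ∈ F, ∀ g ∈ F, a • f + b • g ∈ F
  bilin : ∀ a b : ℝ, ∀ f ∈ F, ∀ g ∈ F, ∀ k ∈ F, E (a • f + b • g) k = a * E f k + b * E g k
  symm : ∀ f ∈ F, ∀ g ∈ F, E f g = E g f
  nonneg : ∀ f ∈ F, 0 ≤ E f f

namespace SymForm

variable (D : SymForm)

/-- `E₁(f,f) = E(f,f) + ∫ f² dμ` -/
noncomputable def E1 (μ : Measure KK) (f : C(KK, ℝ)) : ℝ := D.E f f + ∫ x, f x ^ 2 ∂μ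

/-- The form is closed on `L²(K, μ)`: `F` is complete for the norm `E₁^(1/2)`. -/
def IsClosedForm (μ : Measure KK) : Prop :=
  ∀ f : ℕ → C(KK, ℝ), (∀ n, f n ∈ D.F) →
    (∀ ε : ℝ, 0 < ε → ∃ N, ∀ m ≥ N, ∀ n ≥ N, D.E1 μ (f m - f n) < ε) →
    ∃ g ∈ D.F, Tendsto (fun n => D.E1 μ (f n - g)) atTop (𝓝 0)

/-- Markov property: for `f ∈ F` the unit contraction `u = (f ∨ 0) ∧ 1` is in `F` and
`E(u,u) ≤ E(f,f)`. -/
def IsMarkov : Prop :=
  ∀ f ∈ D.F, ∀ u : C(KK, ℝ), (∀ x, u x = min (max (f x) 0) 1) → u ∈ D.F ∧ D.E u u ≤ D.E f f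

/-- Regularity: `F` is dense in `C(K)` for the sup norm. -/
def IsRegular : Prop := Dense D.F

/-- The form is conservative: `1 ∈ F` and `E(1,1) = 0`. -/
def IsConservative : Prop := 1 ∈ D.F ∧ D.E 1 1 = 0

/-- Locality: `E(f,g) = 0` if `f` and `g` have disjoint supports. -/
def IsLocal : Prop := ∀ f ∈ D.F, ∀ g ∈ D.F, Disjoint (tsupport f) (tsupport g) → D.E f g = 0

/-- Self-similarity with scaling constant `ρ`: a function `f ∈ C(K)` is in `F` iff `f ∘ ψ_d ∈ F`
for all digits `d`, and `E(f,f) = ρ ∑_d E(f ∘ ψ_d, f ∘ ψ_d)` for `f ∈ F`. -/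
def IsSelfSimilar (ρ : ℝ) : Prop :=
  (∀ f : C(KK, ℝ), f ∈ D.F ↔ ∀ d, f.comp (psi d) ∈ D.F) ∧
    ∀ f ∈ D.F, D.E f f = ρ * ∑ d, D.E (f.comp (psi d)) (f.comp (psi d))

/-- `h ∈ F` is harmonic on `K ∖ V₀`: `E(h,g) = 0` for every `g ∈ F` with `g = 0` on `V₀`. -/
def IsHarmonic (h : C(KK, ℝ)) : Prop :=
  h ∈ D.F ∧ ∀ g ∈ D.F, (∀ x ∈ V0, g x = 0) → D.E h g = 0

/-- `ν` is the energy measure `Γ(f,f)` of `f ∈ F`: the finite Borel measure with
`∫ g dν = 2 E(f, f g) - E(f², g)` for all `g ∈ F`, where `f g` and `f²` are in `F`. -/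
def IsEnergyMeasure (f : C(KK, ℝ)) (ν : Measure KK) : Prop :=
  IsFiniteMeasure ν ∧ f * f ∈ D.F ∧
    ∀ g ∈ D.F, f * g ∈ D.F ∧ ∫ x, g x ∂ν = 2 * D.E f (f * g) - D.E (f * f) g

end SymForm

/-- A self-similar, local, regular, conservative symmetric Dirichlet form on `L²(K, μ)` all of
whose functions have continuous versions; the domain is given by the continuous versions. The
canonical form (the form of Brownian motion on the carpet) has all these properties; its
invariance under the symmetries of the square is not needed. -/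
structure CarpetForm (μ : Measure KK) extends SymForm where
  closed : toSymForm.IsClosedForm μ
  markov : toSymForm.IsMarkov
  regular : toSymForm.IsRegular
  conservative : toSymForm.IsConservative
  isLocal : toSymForm.IsLocal
  /-- the scaling constant of the self-similarity -/
  ρ : ℝ
  ρ_pos : 0 < ρ
  selfSimilar : toSymForm.IsSelfSimilar ρ

end Pool.Agent.Helper38.Carpet
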