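import Mathlib
import Pool.Agent.Helper38.Statement
import Pool.Agent.Helper38.Energy

set_option autoImplicit false
open Set Filter Topology MeasureTheory
open scoped ENNReal

/-! The same data in one structure with a bilinear map (internal). -/

namespace Pool.Agent.Helper38.Carpet

/-- internal version of `CarpetForm` -/
structure FormData (μ : Measure KK) where
  F : Submodule ℝ C(KK, ℝ)
  E : F →ₗ[ℝ] F →ₗ[ℝ] ℝ
  symm : ∀ f g : F, E f g = E g f
  nonneg : ∀ f : F, 0 ≤ E f f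
  complete : ∀ f : ℕ → F,
    (∀ ε : ℝ, 0 < ε → ∃ N, ∀ m ≥ N, ∀ n ≥ N,
      E (f m - f n) (f m - f n) + ∫ x, (f m - f n : F).1 x ^ 2 ∂μ < ε) →
    ∃ g : F, Tendsto (fun n => E (f n - g) (f n - g) + ∫ x, (f n - g : F).1 x ^ 2 ∂μ)
      atTop (𝓝 0)
  markov : ∀ f : F, ∃ h : (f.1 ⊔ 0) ⊓ 1 ∈ F,
    E ⟨(f.1 ⊔ 0) ⊓ 1, h⟩ ⟨(f.1 ⊔ 0) ⊓ 1, h⟩ ≤ E f f
  regular : Dense (F : Set C(KK, ℝ))
  one_mem : (1 : C(KK, ℝ)) ∈ F
  conservative : E ⟨1, one_mem⟩ ⟨1, one_mem⟩ = 0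
  isLocal : ∀ f g : F, Disjoint (tsupport f.1) (tsupport g.1) → E f g = 0
  ρ : ℝ
  ρ_pos : 0 < ρ
  ss_mem : ∀ f : C(KK, ℝ), f ∈ F ↔ ∀ d : dig, f.comp (psi d) ∈ F
  ss_energy : ∀ f : F, E f f = ρ * ∑ d : dig,
    E ⟨f.1.comp (psi d), (ss_mem f.1).mp f.2 d⟩
      ⟨f.1.comp (psi d), (ss_mem f.1).mp f.2 d⟩

namespace CarpetForm

variable {μ : Measure KK} (D : CarpetForm μ)

/-- the domain as a subspace -/
def FS : Submodule ℝ C(KK, ℝ) where
  carrier := D.F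
  add_mem' := by
    intro f g hf hg
    have := D.lin_mem 1 1 f hf g hg
    simpa using this
  zero_mem' := by
    have := D.lin_mem 0 0 1 D.conservative.1 1 D.conservative.1
    simpa using this
  smul_mem' := by
    intro a f hf
    have := D.lin_mem a 0 f hf f hf
    simpa using this

theorem E_add {f g k : C(KK, ℝ)} (hf : f ∈ D.F) (hg : g ∈ D.F) (hk : k ∈ D.F) :
    D.E (f + g) k = D.E f k + D.E g k := by
  have := D.bilin 1 1 f hf g hg k hk
  simpa using this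

theorem E_smul (a : ℝ) {f k : C(KK, ℝ)} (hf : f ∈ D.F) (hk : k ∈ D.F) :
    D.E (a • f) k = a * D.E f k := by
  have := D.bilin a 0 f hf f hf k hk
  simpa using this

/-- the form as a bilinear map -/
def EB : D.FS →ₗ[ℝ] D.FS →ₗ[ℝ] ℝ :=
  LinearMap.mk₂ ℝ (fun f g => D.E f.1 g.1)
    (fun f g k => D.E_add f.2 g.2 k.2)
    (fun a f k => D.E_smul a f.2 k.2)
    (fun f g k => by
      have h1 : D.E f.1 (g.1 + k.1) = D.E (g.1 + k.1) f.1 := D.symm _ f.2 _ (D.FS.add_mem g.2 k.2)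
      have h2 : D.E f.1 g.1 = D.E g.1 f.1 := D.symm _ f.2 _ g.2
      have h3 : D.E f.1 k.1 = D.E k.1 f.1 := D.symm _ f.2 _ k.2
      change D.E f.1 (g.1 + k.1) = D.E f.1 g.1 + D.E f.1 k.1
      rw [h1, h2, h3]
      exact D.E_add g.2 k.2 f.2)
    (fun a f k => by
      have h1 : D.E f.1 (a • k.1) = D.E (a • k.1) f.1 := D.symm _ f.2 _ (D.FS.smul_mem a k.2)
      have h2 : D.E f.1 k.1 = D.E k.1 f.1 := D.symm _ f.2 _ k.2
      change D.E f.1 (a • k.1) = a * D.E f.1 k.1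
      rw [h1, h2]
      exact D.E_smul a k.2 f.2)

theorem EB_apply (f g : D.FS) : D.EB f g = D.E f.1 g.1 := rfl

/-- conversion -/
noncomputable def flat : FormData μ where
  F := D.FS
  E := D.EB
  symm := fun f g => D.symm _ f.2 _ g.2
  nonneg := fun f => D.nonneg _ f.2
  complete := by
    intro f hf
    obtain ⟨g, hg, hlim⟩ := D.closed (fun n => (f n).1) (fun n => (f n).2) hf
    exact ⟨⟨g, hg⟩, hlim⟩
  markov := by
    intro f
    obtain ⟨h1, h2⟩ := D.markov f.1 f.2 ((f.1 ⊔ 0) ⊓ 1) (fun x => rfl)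
    exact ⟨h1, h2⟩
  regular := D.regular
  one_mem := D.conservative.1
  conservative := D.conservative.2
  isLocal := fun f g h => D.isLocal _ f.2 _ g.2 h
  ρ := D.ρ
  ρ_pos := D.ρ_pos
  ss_mem := D.selfSimilar.1
  ss_energy := fun f => D.selfSimilar.2 _ f.2

end CarpetForm

end Pool.Agent.Helper38.Carpet
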