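import Mathlib
import Pool.Agent.Helper38.Flatten

set_option autoImplicit false
open Set Filter Topology MeasureTheory
open scoped ENNReal

/-! From a Dirichlet form on the carpet to a resistance form. -/

namespace Pool.Agent.Helper38

theorem PreForm.cs {X : Type*} [TopologicalSpace X] [CompactSpace X] (P : PreForm X)
    {f g : C(X, ℝ)} (hf : f ∈ P.F) (hg : g ∈ P.F) :
    P.E f g ^ 2 ≤ P.E f f * P.E g g := by
  have h : ∀ t : ℝ, 0 ≤ P.E g g * (t * t) + (2 * P.E f g) * t + P.E f f := by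
    intro t
    have h1 := P.nonneg _ (P.F.add_mem hf (P.F.smul_mem t hg))
    rw [P.E_add_self hf (P.F.smul_mem t hg), P.smul_right t hg hf,
      P.smul_left t g hg _ (P.F.smul_mem t hg), P.smul_right t hg hg] at h1
    linarith
  have h2 := discrim_le_zero h
  rw [discrim] at h2
  linarith

namespace Carpet

theorem cell_measure_pos {μ : Measure KK} (hμ : IsSelfSimilarMeasure μ) {n : ℕ} {c : Z2}
    (hc : c ∈ cells n) : 0 < μ {x : KK | x.1 ∈ sq n c} := by
  rw [hμ n c hc]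
  exact ENNReal.pow_pos (ENNReal.inv_pos.mpr (by norm_num)) n

theorem isOpenPos {μ : Measure KK} (hμ : IsSelfSimilarMeasure μ) : μ.IsOpenPosMeasure := by
  constructor
  intro U hU hne
  obtain ⟨x, hx⟩ := hne
  obtain ⟨N, hN⟩ := small_K hU hx
  obtain ⟨c, hc, hxc⟩ := x.2 N
  have h1 : {z : KK | z.1 ∈ sq N c} ⊆ U := fun z hz => hN N le_rfl c hxc z hz
  exact (lt_of_lt_of_le (cell_measure_pos hμ hc) (measure_mono h1)).ne'

theorem isProb {μ : Measure KK} (hμ : IsSelfSimilarMeasure μ) : IsProbabilityMeasure μ := by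
  constructor
  have h := hμ 0 (0, 0) (by decide)
  rw [pow_zero] at h
  rw [← h]
  congr 1
  ext x
  simp only [Set.mem_univ, Set.mem_ofPred_eq, true_iff]
  obtain ⟨c, hc, hx⟩ := x.2 0
  rw [mem_cells_zero] at hc
  rwa [hc] at hx

theorem integrable_cont {μ : Measure KK} [IsFiniteMeasure μ] (f : C(KK, ℝ)) : Integrable (fun x => f x) μ := by
  apply Integrable.of_bound (C := ‖f‖) f.continuous.aestronglyMeasurable
  exact Filter.Eventually.of_forall (fun x => f.norm_coe_le_norm x)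

theorem integrable_sq {μ : Measure KK} [IsFiniteMeasure μ] (f : C(KK, ℝ)) :
    Integrable (fun x => f x ^ 2) μ := integrable_cont (f ^ 2)

theorem sq_integral_le {μ : Measure KK} [IsProbabilityMeasure μ] (f : C(KK, ℝ)) :
    ∫ x, f x ^ 2 ∂μ ≤ ‖f‖ ^ 2 := by
  have h1 : ∫ x, f x ^ 2 ∂μ ≤ ∫ _x, ‖f‖ ^ 2 ∂μ := by
    apply integral_mono (integrable_sq f) (integrable_const _)
    intro x
    have := f.norm_coe_le_norm x
    rw [Real.norm_eq_abs] at this
    exact sq_le_sq' (by linarith [neg_abs_le (f x)]) (le_trans (le_abs_self _) this)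
  simpa using h1

theorem sq_integral_nonneg {μ : Measure KK} (f : C(KK, ℝ)) : 0 ≤ ∫ x, f x ^ 2 ∂μ :=
  integral_nonneg (fun _ => sq_nonneg _)

theorem eq_zero_of_sq_integral {μ : Measure KK} [IsFiniteMeasure μ] [μ.IsOpenPosMeasure]
    (f : C(KK, ℝ)) (h : ∫ x, f x ^ 2 ∂μ = 0) : f = 0 := by
  rw [integral_eq_zero_iff_of_nonneg (fun x => sq_nonneg _) (integrable_sq f)] at h
  have hc : Continuous (fun x => f x ^ 2) := f.continuous.pow 2
  have h2 : (fun x => f x ^ 2) = (0 : KK → ℝ) :=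
    (Continuous.ae_eq_iff_eq μ hc continuous_const).mp h
  ext x
  have := congrFun h2 x
  simpa using this

theorem sq_integral_add {μ : Measure KK} [IsFiniteMeasure μ] (f g : C(KK, ℝ)) :
    ∫ x, (f + g) x ^ 2 ∂μ ≤ 2 * ∫ x, f x ^ 2 ∂μ + 2 * ∫ x, g x ^ 2 ∂μ := by
  have h1 : ∫ x, (2 * f x ^ 2 + 2 * g x ^ 2) ∂μ = 2 * ∫ x, f x ^ 2 ∂μ + 2 * ∫ x, g x ^ 2 ∂μ := by
    rw [integral_add ((integrable_sq f).const_mul 2) ((integrable_sq g).const_mul 2),
      integral_const_mul, integral_const_mul]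
  rw [← h1]
  apply integral_mono (integrable_sq (f + g))
    (((integrable_sq f).const_mul 2).add ((integrable_sq g).const_mul 2))
  intro x
  change (f x + g x) ^ 2 ≤ 2 * f x ^ 2 + 2 * g x ^ 2
  nlinarith [sq_nonneg (f x - g x)]

namespace FormData

variable {μ : Measure KK} (D : FormData μ)

open Classical in
/-- the form as a total function -/
noncomputable def EE (f g : C(KK, ℝ)) : ℝ :=
  if h : f ∈ D.F ∧ g ∈ D.F then D.E ⟨f, h.1⟩ ⟨g, h.2⟩ else 0

theorem EE_of {f g : C(KK, ℝ)} (hf : f ∈ D.F) (hg : g ∈ D.F) :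
    D.EE f g = D.E ⟨f, hf⟩ ⟨g, hg⟩ := by
  unfold EE
  rw [dif_pos ⟨hf, hg⟩]

theorem EE_coe (f g : D.F) : D.EE f.1 g.1 = D.E f g := D.EE_of f.2 g.2

/-- the closed form -/
noncomputable def pre (hμ : IsSelfSimilarMeasure μ) : PreForm KK where
  F := D.F
  E := D.EE
  add_left := by
    intro f hf g hg k hk
    rw [D.EE_of (D.F.add_mem hf hg) hk, D.EE_of hf hk, D.EE_of hg hk]
    have : (⟨f + g, D.F.add_mem hf hg⟩ : D.F) = ⟨f, hf⟩ + ⟨g, hg⟩ := rfl
    rw [this, map_add, LinearMap.add_apply]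
  smul_left := by
    intro a f hf k hk
    rw [D.EE_of (D.F.smul_mem a hf) hk, D.EE_of hf hk]
    have : (⟨a • f, D.F.smul_mem a hf⟩ : D.F) = a • ⟨f, hf⟩ := rfl
    rw [this, map_smul, LinearMap.smul_apply, smul_eq_mul]
  symm := by
    intro f hf g hg
    rw [D.EE_of hf hg, D.EE_of hg hf, D.symm]
  nonneg := by
    intro f hf
    rw [D.EE_of hf hf]
    exact D.nonneg _
  closed := by
    have := isProb hμ
    have := isOpenPos hμ
    intro f g hf hlim hcau
    have hd : ∀ m n, D.EE (f m - f n) (f m - f n) =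
        D.E (⟨f m, hf m⟩ - ⟨f n, hf n⟩) (⟨f m, hf m⟩ - ⟨f n, hf n⟩) := by
      intro m n
      rw [D.EE_of (D.F.sub_mem (hf m) (hf n)) (D.F.sub_mem (hf m) (hf n))]
      rfl
    obtain ⟨g', hg'⟩ := D.complete (fun n => ⟨f n, hf n⟩) (by
      intro ε hε
      obtain ⟨N1, hN1⟩ := hcau (ε / 2) (by positivity)
      have hC := hlim.cauchySeq
      rw [Metric.cauchySeq_iff] at hC
      obtain ⟨N2, hN2⟩ := hC (min 1 (ε / 2)) (by positivity)
      refine ⟨max N1 N2, fun m hm n hn => ?_⟩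
      have h1 := hN1 m (le_of_max_le_left hm) n (le_of_max_le_left hn)
      have h2 := hN2 m (le_of_max_le_right hm) n (le_of_max_le_right hn)
      rw [hd] at h1
      rw [dist_eq_norm] at h2
      have h3 := sq_integral_le (μ := μ) (f m - f n)
      have h4 : ‖f m - f n‖ ^ 2 < ε / 2 := by
        have a1 := lt_of_lt_of_le h2 (min_le_left _ _)
        have a2 := lt_of_lt_of_le h2 (min_le_right _ _)
        have a3 := norm_nonneg (f m - f n)
        nlinarith
      have e : ((⟨f m, hf m⟩ - ⟨f n, hf n⟩ : D.F)).1 = f m - f n := rfl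
      rw [e]
      linarith)
    have hEn : ∀ n, 0 ≤ D.E (⟨f n, hf n⟩ - g') (⟨f n, hf n⟩ - g') := fun n => D.nonneg _
    have hIn : ∀ n, 0 ≤ ∫ x, (⟨f n, hf n⟩ - g' : D.F).1 x ^ 2 ∂μ := fun n => sq_integral_nonneg _
    have hE0 : Tendsto (fun n => D.E (⟨f n, hf n⟩ - g') (⟨f n, hf n⟩ - g')) atTop (𝓝 0) :=
      squeeze_zero hEn (fun n => le_add_of_nonneg_right (hIn n)) hg'
    have hI0 : Tendsto (fun n => ∫ x, (⟨f n, hf n⟩ - g' : D.F).1 x ^ 2 ∂μ) atTop (𝓝 0) :=
      squeeze_zero hIn (fun n => le_add_of_nonneg_left (hEn n)) hg'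
    have hgg' : g = g'.1 := by
      have h0 : ∫ x, (g - g'.1) x ^ 2 ∂μ = 0 := by
        apply le_antisymm _ (sq_integral_nonneg _)
        have hlim2 : Tendsto (fun n => 2 * ‖g - f n‖ ^ 2 +
            2 * ∫ x, (⟨f n, hf n⟩ - g' : D.F).1 x ^ 2 ∂μ) atTop (𝓝 (2 * 0 ^ 2 + 2 * 0)) := by
          apply Tendsto.add
          · apply Tendsto.const_mul
            apply Tendsto.pow
            have h1 : Tendsto (fun n => g - f n) atTop (𝓝 (g - g)) := tendsto_const_nhds.sub hlim
            have h2 := h1.norm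
            rwa [sub_self, norm_zero] at h2
          · exact hI0.const_mul 2
        have hb : ∀ n, ∫ x, (g - g'.1) x ^ 2 ∂μ ≤ 2 * ‖g - f n‖ ^ 2 +
            2 * ∫ x, (⟨f n, hf n⟩ - g' : D.F).1 x ^ 2 ∂μ := by
          intro n
          have h1 := sq_integral_add (μ := μ) (g - f n) (f n - g'.1)
          have e : g - f n + (f n - g'.1) = g - g'.1 := by abel
          rw [e] at h1
          have h2 := sq_integral_le (μ := μ) (g - f n)
          have e2 : ((⟨f n, hf n⟩ - g' : D.F)).1 = f n - g'.1 := rfl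
          rw [e2]
          linarith
        have := ge_of_tendsto' hlim2 hb
        simpa using this
      have := eq_zero_of_sq_integral _ h0
      exact sub_eq_zero.mp this
    refine ⟨hgg' ▸ g'.2, ?_⟩
    have he : ∀ n, D.EE (f n - g) (f n - g) = D.E (⟨f n, hf n⟩ - g') (⟨f n, hf n⟩ - g') := by
      intro n
      rw [hgg', D.EE_of (D.F.sub_mem (hf n) g'.2) (D.F.sub_mem (hf n) g'.2)]
      rfl
    simp only [he]
    exact hE0

/-- truncation at level `a` -/
noncomputable def tr (f : C(KK, ℝ)) (a : ℝ) : C(KK, ℝ) := (f ⊔ 0) ⊓ ContinuousMap.const KK a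

theorem tr_apply (f : C(KK, ℝ)) (a : ℝ) (x : KK) : tr f a x = min (max (f x) 0) a := rfl

theorem tr_mem (hμ : IsSelfSimilarMeasure μ) {f : C(KK, ℝ)} (hf : f ∈ D.F) {a : ℝ} (ha : 0 < a) :
    tr f a ∈ D.F ∧ D.EE (tr f a) (tr f a) ≤ D.EE f f := by
  obtain ⟨h, hE⟩ := D.markov ⟨a⁻¹ • f, D.F.smul_mem _ hf⟩
  set u : C(KK, ℝ) := ((a⁻¹ • f) ⊔ 0) ⊓ 1 with hu
  have hE' : D.EE u u ≤ D.EE (a⁻¹ • f) (a⁻¹ • f) := by
    rw [D.EE_of h h, D.EE_of (D.F.smul_mem _ hf) (D.F.smul_mem _ hf)]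
    exact hE
  have e : tr f a = a • u := by
    ext x
    change min (max (f x) 0) a = a * min (max (a⁻¹ * f x) 0) 1
    rw [mul_min_of_nonneg _ _ ha.le, mul_max_of_nonneg _ _ ha.le, mul_zero, mul_one,
      ← mul_assoc, mul_inv_cancel₀ ha.ne', one_mul]
  have P := D.pre hμ
  have hum : u ∈ D.F := h
  rw [e]
  refine ⟨D.F.smul_mem a hum, ?_⟩
  have h1 : D.EE (a • u) (a • u) = a * (a * D.EE u u) := by
    have s1 := (D.pre hμ).smul_left a u hum _ (D.F.smul_mem a hum)
    have s2 := (D.pre hμ).smul_right a hum hum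
    change D.EE (a • u) (a • u) = a * D.EE u (a • u) at s1
    change D.EE u (a • u) = a * D.EE u u at s2
    rw [s1, s2]
  have h2 : D.EE (a⁻¹ • f) (a⁻¹ • f) = a⁻¹ * (a⁻¹ * D.EE f f) := by
    have s1 := (D.pre hμ).smul_left a⁻¹ f hf _ (D.F.smul_mem a⁻¹ hf)
    have s2 := (D.pre hμ).smul_right a⁻¹ hf hf
    change D.EE (a⁻¹ • f) (a⁻¹ • f) = a⁻¹ * D.EE f (a⁻¹ • f) at s1
    change D.EE f (a⁻¹ • f) = a⁻¹ * D.EE f f at s2
    rw [s1, s2]
  rw [h2] at hE'
  rw [h1]
  calc a * (a * D.EE u u) ≤ a * (a * (a⁻¹ * (a⁻¹ * D.EE f f))) := by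
        apply mul_le_mul_of_nonneg_left _ ha.le
        exact mul_le_mul_of_nonneg_left hE' ha.le
    _ = D.EE f f := by field_simp

theorem const_mem' (a : ℝ) : ContinuousMap.const KK a ∈ D.F := by
  have : ContinuousMap.const KK a = a • (1 : C(KK, ℝ)) := by
    ext x
    change a = a * 1
    ring
  rw [this]
  exact D.F.smul_mem a D.one_mem

theorem E_const' (hμ : IsSelfSimilarMeasure μ) (a : ℝ) {f : C(KK, ℝ)} (hf : f ∈ D.F) :
    D.EE (ContinuousMap.const KK a) f = 0 := by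
  have hc : ContinuousMap.const KK a = a • (1 : C(KK, ℝ)) := by
    ext x
    change a = a * 1
    ring
  have h1 := (D.pre hμ).cs (f := (1 : C(KK, ℝ))) (g := f) D.one_mem hf
  change D.EE 1 f ^ 2 ≤ D.EE 1 1 * D.EE f f at h1
  have h2 : D.EE 1 1 = 0 := by
    rw [D.EE_of D.one_mem D.one_mem]; exact D.conservative
  rw [h2, zero_mul] at h1
  have h3 : D.EE 1 f = 0 := by
    have := sq_nonneg (D.EE 1 f)
    exact pow_eq_zero_iff (two_ne_zero) |>.mp (le_antisymm h1 this)
  have h4 := (D.pre hμ).smul_left a 1 D.one_mem f hf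
  change D.EE (a • 1) f = a * D.EE 1 f at h4
  rw [hc, h4, h3, mul_zero]

theorem pp_mem' (hμ : IsSelfSimilarMeasure μ) {f : C(KK, ℝ)} (hf : f ∈ D.F) :
    ResForm.pp f ∈ D.F := by
  have h := (D.tr_mem hμ hf (a := ‖f‖ + 1) (by positivity)).1
  have e : tr f (‖f‖ + 1) = ResForm.pp f := by
    ext x
    rw [tr_apply, ResForm.pp_apply]
    apply min_eq_left
    have := f.norm_coe_le_norm x
    rw [Real.norm_eq_abs] at this
    apply max_le
    · linarith [le_abs_self (f x)]
    · positivity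
  rwa [e] at h

theorem abs_mem' (hμ : IsSelfSimilarMeasure μ) {f : C(KK, ℝ)} (hf : f ∈ D.F) : |f| ∈ D.F := by
  have h1 := D.pp_mem' hμ hf
  have h2 := D.pp_mem' hμ (D.F.neg_mem hf)
  have e : |f| = ResForm.pp f + ResForm.pp (-f) := by
    ext x
    rw [ContinuousMap.abs_apply, ContinuousMap.add_apply, ResForm.pp_apply, ResForm.pp_apply,
      ContinuousMap.neg_apply]
    rcases le_total 0 (f x) with h | h
    · rw [abs_of_nonneg h, max_eq_left h, max_eq_right (by linarith)]; ring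
    · rw [abs_of_nonpos h, max_eq_right h, max_eq_left (by linarith)]; ring
  rw [e]
  exact D.F.add_mem h1 h2

/-- the complementary truncation does not increase the energy -/
theorem tr_sub (hμ : IsSelfSimilarMeasure μ) {f : C(KK, ℝ)} (hf : f ∈ D.F) {a : ℝ} (ha : 0 < a) :
    D.EE (f - tr f a) (f - tr f a) ≤ D.EE f f := by
  have hw := (D.tr_mem hμ hf ha).1
  set w := tr f a with hwdef
  have hr := D.F.sub_mem hf hw
  set r := f - w with hrdef
  let P := D.pre hμ
  have h1 : ∀ t : ℝ, 0 < t → 0 ≤ 2 * D.EE w r + t * D.EE r r := by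
    intro t ht
    have hv : w + t • r ∈ D.F := D.F.add_mem hw (D.F.smul_mem t hr)
    have e : tr (w + t • r) a = w := by
      ext x
      rw [hwdef, tr_apply, tr_apply]
      change min (max (tr f a x + t * (f x - tr f a x)) 0) a = min (max (f x) 0) a
      rw [tr_apply]
      rcases le_total (f x) 0 with h | h
      · rw [max_eq_right h, min_eq_left ha.le, zero_add, sub_zero,
          max_eq_right (mul_nonpos_of_nonneg_of_nonpos ht.le h), min_eq_left ha.le]
      · rw [max_eq_left h]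
        rcases le_total (f x) a with h' | h'
        · rw [min_eq_left h', sub_self, mul_zero, add_zero, max_eq_left h, min_eq_left h']
        · rw [min_eq_right h']
          have : 0 ≤ t * (f x - a) := mul_nonneg ht.le (by linarith)
          rw [max_eq_left (by linarith), min_eq_right (by linarith)]
    have h2 := (D.tr_mem hμ hv ha).2
    rw [e] at h2
    have h3 := P.E_add_self hw (D.F.smul_mem t hr)
    have h4 := P.smul_right t hr hw
    have h5 := P.smul_left t r hr _ (D.F.smul_mem t hr)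
    have h6 := P.smul_right t hr hr
    change D.EE (w + t • r) (w + t • r) = D.EE w w + 2 * D.EE w (t • r) + D.EE (t • r) (t • r) at h3
    change D.EE w (t • r) = t * D.EE w r at h4
    change D.EE (t • r) (t • r) = t * D.EE r (t • r) at h5
    change D.EE r (t • r) = t * D.EE r r at h6
    rw [h3, h4, h5, h6] at h2
    have h7 : 0 ≤ t * (2 * D.EE w r + t * D.EE r r) := by linarith
    exact nonneg_of_mul_nonneg_right (by linarith) ht
  have h2 : 0 ≤ D.EE w r := by
    by_contra hneg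
    push Not at hneg
    have hrr : 0 ≤ D.EE r r := P.nonneg r hr
    have h3 := h1 (-(D.EE w r) / (D.EE r r + 1)) (by
      apply div_pos
      · linarith
      · positivity)
    have h4 : -(D.EE w r) / (D.EE r r + 1) * D.EE r r ≤ -(D.EE w r) := by
      have : -(D.EE w r) / (D.EE r r + 1) * D.EE r r =
          -(D.EE w r) * (D.EE r r / (D.EE r r + 1)) := by ring
      rw [this]
      have h5 : D.EE r r / (D.EE r r + 1) ≤ 1 := by
        rw [div_le_one (by positivity)]; linarith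
      calc _ ≤ -(D.EE w r) * 1 := mul_le_mul_of_nonneg_left h5 (by linarith)
        _ = _ := by ring
    linarith
  have h3 := P.E_add_self hw hr
  change D.EE (w + r) (w + r) = D.EE w w + 2 * D.EE w r + D.EE r r at h3
  have e : w + r = f := by rw [hrdef]; abel
  rw [e] at h3
  have h4 : 0 ≤ D.EE w w := P.nonneg w hw
  linarith

/-- locality for nonnegative functions with product zero -/
theorem loc_nonneg (hμ : IsSelfSimilarMeasure μ) {f g : C(KK, ℝ)} (hf : f ∈ D.F) (hg : g ∈ D.F)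
    (hf0 : ∀ x, 0 ≤ f x) (hg0 : ∀ x, 0 ≤ g x) (h0 : ∀ x, f x * g x = 0) : D.EE f g = 0 := by
  let P := D.pre hμ
  -- truncated functions
  have hpos : ∀ n : ℕ, (0:ℝ) < 1 / ((n:ℝ) + 1) := fun n => by positivity
  let u : C(KK, ℝ) → ℕ → C(KK, ℝ) := fun f n => f - tr f (1 / ((n:ℝ) + 1))
  have uF : ∀ f ∈ D.F, ∀ n, u f n ∈ D.F := fun f hf n => D.F.sub_mem hf (D.tr_mem hμ hf (hpos n)).1
  have uE : ∀ f ∈ D.F, ∀ n, D.EE (u f n) (u f n) ≤ D.EE f f := fun f hf n => D.tr_sub hμ hf (hpos n)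
  have ulim : ∀ f : C(KK, ℝ), (∀ x, 0 ≤ f x) → Tendsto (u f) atTop (𝓝 f) := by
    intro f hf
    rw [Metric.tendsto_atTop]
    intro ε hε
    obtain ⟨N, hN⟩ := exists_nat_one_div_lt hε
    refine ⟨N, fun n hn => ?_⟩
    rw [ContinuousMap.dist_lt_iff hε]
    intro x
    rw [Real.dist_eq]
    change |f x - tr f (1 / ((n:ℝ) + 1)) x - f x| < ε
    have h1 : 0 ≤ tr f (1 / ((n:ℝ) + 1)) x := by
      rw [tr_apply]; exact le_min (le_max_right _ _) (hpos n).le
    have h2 : tr f (1 / ((n:ℝ) + 1)) x ≤ 1 / ((n:ℝ) + 1) := by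
      rw [tr_apply]; exact min_le_right _ _
    have h3 : 1 / ((n:ℝ) + 1) ≤ 1 / ((N:ℝ) + 1) := by
      apply one_div_le_one_div_of_le (by positivity)
      have : (N:ℝ) ≤ n := by exact_mod_cast hn
      linarith
    rw [abs_lt]
    constructor <;> linarith
  have usupp : ∀ f : C(KK, ℝ), (∀ x, 0 ≤ f x) → ∀ n, tsupport (u f n) ⊆
      {x | 1 / ((n:ℝ) + 1) ≤ f x} := by
    intro f hf n
    apply closure_minimal _ (isClosed_le continuous_const f.continuous)
    intro x hx
    by_contra hlt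
    change ¬ (1 / ((n:ℝ) + 1) ≤ f x) at hlt
    push Not at hlt
    apply hx
    change f x - tr f (1 / ((n:ℝ) + 1)) x = 0
    rw [tr_apply, max_eq_left (hf x), min_eq_left hlt.le, sub_self]
  have hzero : ∀ n, D.EE (u f n) (u g n) = 0 := by
    intro n
    rw [D.EE_of (uF f hf n) (uF g hg n)]
    apply D.isLocal
    rw [Set.disjoint_left]
    intro x hx1 hx2
    have h1 := usupp f hf0 n hx1
    have h2 := usupp g hg0 n hx2
    have h3 : 0 < f x := lt_of_lt_of_le (hpos n) h1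
    have h4 : 0 < g x := lt_of_lt_of_le (hpos n) h2
    have := mul_pos h3 h4
    rw [h0 x] at this
    exact lt_irrefl _ this
  have hsf := P.strong_conv (u f) f (uF f hf) hf (ulim f hf0) (uE f hf)
  have hsg := P.strong_conv (u g) g (uF g hg) hg (ulim g hg0) (uE g hg)
  change Tendsto (fun n => D.EE (u f n - f) (u f n - f)) atTop (𝓝 0) at hsf
  change Tendsto (fun n => D.EE (u g n - g) (u g n - g)) atTop (𝓝 0) at hsg
  have hb : ∀ n, D.EE f g ^ 2 ≤ 2 * (D.EE (u f n - f) (u f n - f) * D.EE g g) +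
      2 * (D.EE f f * D.EE (u g n - g) (u g n - g)) := by
    intro n
    have hfn := uF f hf n
    have hgn := uF g hg n
    have e1 := P.sub_left hfn hf hg
    have e2 := P.sub_right hgn hg hfn
    change D.EE (u f n - f) g = D.EE (u f n) g - D.EE f g at e1
    change D.EE (u f n) (u g n - g) = D.EE (u f n) (u g n) - D.EE (u f n) g at e2
    rw [hzero n] at e2
    have c1 := P.cs (D.F.sub_mem hfn hf) hg
    have c2 := P.cs hfn (D.F.sub_mem hgn hg)
    change D.EE (u f n - f) g ^ 2 ≤ D.EE (u f n - f) (u f n - f) * D.EE g g at c1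
    change D.EE (u f n) (u g n - g) ^ 2 ≤ D.EE (u f n) (u f n) * D.EE (u g n - g) (u g n - g) at c2
    have c3 : 0 ≤ D.EE (u g n - g) (u g n - g) := P.nonneg _ (D.F.sub_mem hgn hg)
    have c4 := mul_le_mul_of_nonneg_right (uE f hf n) c3
    have e3 : D.EE f g = -(D.EE (u f n - f) g) - D.EE (u f n) (u g n - g) := by linarith
    rw [e3]
    nlinarith [sq_nonneg (D.EE (u f n - f) g - D.EE (u f n) (u g n - g))]
  have hlim : Tendsto (fun n => 2 * (D.EE (u f n - f) (u f n - f) * D.EE g g) +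
      2 * (D.EE f f * D.EE (u g n - g) (u g n - g))) atTop
      (𝓝 (2 * (0 * D.EE g g) + 2 * (D.EE f f * 0))) :=
    ((hsf.mul_const _).const_mul 2).add ((hsg.const_mul _).const_mul 2)
  have h1 := ge_of_tendsto' hlim hb
  have h2 : D.EE f g ^ 2 ≤ 0 := by simpa using h1
  exact pow_eq_zero_iff (two_ne_zero) |>.mp (le_antisymm h2 (sq_nonneg _))

theorem loc' (hμ : IsSelfSimilarMeasure μ) {f g : C(KK, ℝ)} (hf : f ∈ D.F) (hg : g ∈ D.F)
    (h0 : ∀ x, f x * g x = 0) : D.EE f g = 0 := by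
  let P := D.pre hμ
  have dec : ∀ f : C(KK, ℝ), f = ResForm.pp f - ResForm.pp (-f) := by
    intro f
    ext x
    rw [ContinuousMap.sub_apply, ResForm.pp_apply, ResForm.pp_apply, ContinuousMap.neg_apply]
    rcases le_total 0 (f x) with h | h
    · rw [max_eq_left h, max_eq_right (by linarith)]; ring
    · rw [max_eq_right h, max_eq_left (by linarith)]; ring
  have f1 := D.pp_mem' hμ hf
  have f2 := D.pp_mem' hμ (D.F.neg_mem hf)
  have g1 := D.pp_mem' hμ hg
  have g2 := D.pp_mem' hμ (D.F.neg_mem hg)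
  have z : ∀ u v : C(KK, ℝ), (∀ x, u x * v x = 0) → ∀ x, ResForm.pp u x * ResForm.pp v x = 0 := by
    intro u v huv x
    rw [ResForm.pp_apply, ResForm.pp_apply]
    rcases mul_eq_zero.mp (huv x) with h | h
    · rw [h]; simp
    · rw [h]; simp
  have h00 : ∀ x, (-f) x * g x = 0 := fun x => by
    rw [ContinuousMap.neg_apply, neg_mul, h0 x, neg_zero]
  have h01 : ∀ x, f x * (-g) x = 0 := fun x => by
    rw [ContinuousMap.neg_apply, mul_neg, h0 x, neg_zero]
  have h11 : ∀ x, (-f) x * (-g) x = 0 := fun x => by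
    rw [ContinuousMap.neg_apply, ContinuousMap.neg_apply, neg_mul_neg, h0 x]
  have a1 := D.loc_nonneg hμ f1 g1 (ResForm.pp_nonneg _) (ResForm.pp_nonneg _) (z _ _ h0)
  have a2 := D.loc_nonneg hμ f2 g1 (ResForm.pp_nonneg _) (ResForm.pp_nonneg _) (z _ _ h00)
  have a3 := D.loc_nonneg hμ f1 g2 (ResForm.pp_nonneg _) (ResForm.pp_nonneg _) (z _ _ h01)
  have a4 := D.loc_nonneg hμ f2 g2 (ResForm.pp_nonneg _) (ResForm.pp_nonneg _) (z _ _ h11)
  have e1 := P.sub_left f1 f2 hg
  have e2 := P.sub_right g1 g2 f1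
  have e3 := P.sub_right g1 g2 f2
  rw [← dec f] at e1
  rw [← dec g] at e2 e3
  change D.EE f g = D.EE (ResForm.pp f) g - D.EE (ResForm.pp (-f)) g at e1
  change D.EE (ResForm.pp f) g = D.EE (ResForm.pp f) (ResForm.pp g) -
    D.EE (ResForm.pp f) (ResForm.pp (-g)) at e2
  change D.EE (ResForm.pp (-f)) g = D.EE (ResForm.pp (-f)) (ResForm.pp g) -
    D.EE (ResForm.pp (-f)) (ResForm.pp (-g)) at e3
  rw [e1, e2, e3, a1, a2, a3, a4]
  ring

end FormData

end Carpet

end Pool.Agent.Helper38
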