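import Mathlib
import Pool.Agent.Helper38.Derive

set_option autoImplicit false
open Set Filter Topology MeasureTheory
open scoped ENNReal

/-! The sup norm bound. -/

namespace Pool.Agent.Helper38.Carpet.FormData

variable {μ : Measure KK} (D : FormData μ)

/-- the domain, to be equipped with the Hilbert norm -/
def HF : Type := D.F

instance : AddCommGroup D.HF := inferInstanceAs (AddCommGroup D.F)

instance : Module ℝ D.HF := inferInstanceAs (Module ℝ D.F)

/-- the inclusion -/
def inc : D.HF →ₗ[ℝ] C(KK, ℝ) := D.F.subtype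

/-- the form -/
def EH : D.HF →ₗ[ℝ] D.HF →ₗ[ℝ] ℝ := D.E

/-- back and forth -/
def ofF (f : D.F) : D.HF := f

theorem EH_symm (f g : D.HF) : D.EH f g = D.EH g f := D.symm f g

theorem EH_nonneg (f : D.HF) : 0 ≤ D.EH f f := D.nonneg f

theorem inc_inj {f : D.HF} (h : D.inc f = 0) : f = 0 := Subtype.ext h

theorem integrable_prod (hμ : IsSelfSimilarMeasure μ) (f g : C(KK, ℝ)) :
    Integrable (fun x => f x * g x) μ := by
  have := isProb hμ
  exact integrable_cont (f * g)

/-- the Hilbert structure -/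
@[reducible]
noncomputable def core (hμ : IsSelfSimilarMeasure μ) : InnerProductSpace.Core ℝ D.HF where
  inner f g := D.EH f g + ∫ x, D.inc f x * D.inc g x ∂μ
  conj_inner_symm := by
    intro f g
    simp only [conj_trivial]
    rw [D.EH_symm g f]
    congr 1
    apply integral_congr_ae
    exact Filter.Eventually.of_forall (fun x => mul_comm _ _)
  re_inner_nonneg := by
    intro f
    simp only [RCLike.re_to_real]
    have h2 : 0 ≤ ∫ x, D.inc f x * D.inc f x ∂μ := integral_nonneg (fun x => mul_self_nonneg _)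
    exact add_nonneg (D.EH_nonneg f) h2
  add_left := by
    intro f g k
    have h1 : D.EH (f + g) k = D.EH f k + D.EH g k := by
      rw [map_add, LinearMap.add_apply]
    have h2 : ∫ x, D.inc (f + g) x * D.inc k x ∂μ =
        ∫ x, D.inc f x * D.inc k x ∂μ + ∫ x, D.inc g x * D.inc k x ∂μ := by
      rw [← integral_add (integrable_prod hμ _ _) (integrable_prod hμ _ _)]
      apply integral_congr_ae
      apply Filter.Eventually.of_forall
      intro x
      simp only [map_add, ContinuousMap.add_apply]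
      ring
    rw [h1, h2]
    ring
  smul_left := by
    intro f g r
    have h1 : D.EH (r • f) g = r * D.EH f g := by
      rw [map_smul, LinearMap.smul_apply, smul_eq_mul]
    have h2 : ∫ x, D.inc (r • f) x * D.inc g x ∂μ = r * ∫ x, D.inc f x * D.inc g x ∂μ := by
      rw [← integral_const_mul]
      apply integral_congr_ae
      apply Filter.Eventually.of_forall
      intro x
      simp only [map_smul, ContinuousMap.smul_apply, smul_eq_mul]
      ring
    simp only [conj_trivial]
    rw [h1, h2]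
    ring
  definite := by
    have := isProb hμ
    have := isOpenPos hμ
    intro f hf
    have h1 : 0 ≤ D.EH f f := D.EH_nonneg f
    have h2 : 0 ≤ ∫ x, D.inc f x * D.inc f x ∂μ := integral_nonneg (fun x => mul_self_nonneg _)
    have h3 : ∫ x, (D.inc f) x ^ 2 ∂μ = 0 := by
      have e : ∫ x, (D.inc f) x ^ 2 ∂μ = ∫ x, D.inc f x * D.inc f x ∂μ := by
        apply integral_congr_ae
        apply Filter.Eventually.of_forall
        intro x
        ring
      have hf' : D.EH f f + ∫ x, D.inc f x * D.inc f x ∂μ = 0 := hf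
      rw [e]
      linarith
    exact D.inc_inj (eq_zero_of_sq_integral _ h3)

theorem complete' (u : ℕ → D.HF)
    (h : ∀ ε : ℝ, 0 < ε → ∃ N, ∀ m ≥ N, ∀ n ≥ N,
      D.EH (u m - u n) (u m - u n) + ∫ x, D.inc (u m - u n) x ^ 2 ∂μ < ε) :
    ∃ g : D.HF, Tendsto (fun n => D.EH (u n - g) (u n - g) + ∫ x, D.inc (u n - g) x ^ 2 ∂μ)
      atTop (𝓝 0) := D.complete u h

theorem sup_bound_aux (hμ : IsSelfSimilarMeasure μ) : ∃ C : ℝ, 0 < C ∧ ∀ f : D.HF, ∀ y,
    D.inc f y ^ 2 ≤ C * (D.EH f f + ∫ x, D.inc f x ^ 2 ∂μ) := by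
  have hprob := isProb hμ
  have hopen := isOpenPos hμ
  let cd : InnerProductSpace.Core ℝ D.HF := D.core hμ
  let nacg : NormedAddCommGroup D.HF := InnerProductSpace.Core.toNormedAddCommGroup (𝕜 := ℝ)
  let ips : InnerProductSpace ℝ D.HF := InnerProductSpace.ofCore cd.toCore
  have hnorm : ∀ f : D.HF, ‖f‖ ^ 2 = D.EH f f + ∫ x, D.inc f x ^ 2 ∂μ := by
    intro f
    rw [← real_inner_self_eq_norm_sq]
    change D.EH f f + ∫ x, D.inc f x * D.inc f x ∂μ = _
    congr 1
    apply integral_congr_ae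
    apply Filter.Eventually.of_forall
    intro x
    simp only
    ring
  have hI : ∀ f : D.HF, ∫ x, D.inc f x ^ 2 ∂μ ≤ ‖f‖ ^ 2 := by
    intro f
    rw [hnorm]
    have h1 : 0 ≤ D.EH f f := D.EH_nonneg f
    linarith
  have hcomplete : CompleteSpace D.HF := by
    apply Metric.complete_of_cauchySeq_tendsto
    intro u hu
    obtain ⟨g, hg⟩ := D.complete' u (by
      intro ε hε
      rw [Metric.cauchySeq_iff] at hu
      obtain ⟨N, hN⟩ := hu (min 1 ε) (by positivity)
      refine ⟨N, fun m hm n hn => ?_⟩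
      have h1 := hN m hm n hn
      rw [dist_eq_norm] at h1
      have h2 := hnorm (u m - u n)
      have h3 : ‖u m - u n‖ ^ 2 < ε := by
        have a1 := lt_of_lt_of_le h1 (min_le_left _ _)
        have a2 := lt_of_lt_of_le h1 (min_le_right _ _)
        have a3 := norm_nonneg (u m - u n)
        nlinarith
      rw [h2] at h3
      exact h3)
    refine ⟨g, ?_⟩
    rw [Metric.tendsto_atTop]
    rw [Metric.tendsto_atTop] at hg
    intro ε hε
    obtain ⟨N, hN⟩ := hg (ε ^ 2) (by positivity)
    refine ⟨N, fun n hn => ?_⟩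
    have h1 := hN n hn
    rw [Real.dist_eq, sub_zero] at h1
    have h2 := hnorm (u n - g)
    have h3 : ‖u n - g‖ ^ 2 < ε ^ 2 := by
      rw [h2]
      exact lt_of_le_of_lt (le_abs_self _) h1
    rw [dist_eq_norm]
    exact lt_of_pow_lt_pow_left₀ 2 hε.le h3
  have hgraph : ∀ (u : ℕ → D.HF) (x : D.HF) (y : C(KK, ℝ)), Tendsto u atTop (𝓝 x) →
      Tendsto (D.inc ∘ u) atTop (𝓝 y) → y = D.inc x := by
    intro u x y hu hy
    have h0 : ∫ z, (y - D.inc x) z ^ 2 ∂μ = 0 := by
      apply le_antisymm _ (sq_integral_nonneg _)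
      have hlim2 : Tendsto (fun n => 2 * ‖y - D.inc (u n)‖ ^ 2 + 2 * ‖u n - x‖ ^ 2) atTop
          (𝓝 (2 * 0 ^ 2 + 2 * 0 ^ 2)) := by
        apply Tendsto.add
        · apply Tendsto.const_mul
          apply Tendsto.pow
          have h1 : Tendsto (fun n => y - D.inc (u n)) atTop (𝓝 (y - y)) :=
            tendsto_const_nhds.sub hy
          have h2 := h1.norm
          rwa [sub_self, norm_zero] at h2
        · apply Tendsto.const_mul
          apply Tendsto.pow
          have h1 : Tendsto (fun n => u n - x) atTop (𝓝 (x - x)) := hu.sub tendsto_const_nhds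
          have h2 := h1.norm
          rwa [sub_self, norm_zero] at h2
      have hb : ∀ n, ∫ z, (y - D.inc x) z ^ 2 ∂μ ≤
          2 * ‖y - D.inc (u n)‖ ^ 2 + 2 * ‖u n - x‖ ^ 2 := by
        intro n
        have h1 := sq_integral_add (μ := μ) (y - D.inc (u n)) (D.inc (u n) - D.inc x)
        have e : y - D.inc (u n) + (D.inc (u n) - D.inc x) = y - D.inc x := by abel
        rw [e] at h1
        have h2 := sq_integral_le (μ := μ) (y - D.inc (u n))
        have h3 := hI (u n - x)
        rw [map_sub] at h3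
        linarith
      have := ge_of_tendsto' hlim2 hb
      simpa using this
    exact sub_eq_zero.mp (eq_zero_of_sq_integral _ h0)
  let T : D.HF →L[ℝ] C(KK, ℝ) := ContinuousLinearMap.ofSeqClosedGraph (g := D.inc) hgraph
  refine ⟨(‖T‖ + 1) ^ 2, by positivity, fun f y => ?_⟩
  have h1 : ‖D.inc f‖ ≤ ‖T‖ * ‖f‖ := T.le_opNorm f
  have h2 : |D.inc f y| ≤ ‖D.inc f‖ := by
    have := (D.inc f).norm_coe_le_norm y
    rw [Real.norm_eq_abs] at this
    exact this
  have h3 : |D.inc f y| ≤ (‖T‖ + 1) * ‖f‖ := by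
    have := norm_nonneg f
    nlinarith
  rw [← hnorm f, ← mul_pow, ← sq_abs]
  exact pow_le_pow_left₀ (abs_nonneg _) h3 2

/-- closed graph bound of the sup norm -/
theorem sup_bound (hμ : IsSelfSimilarMeasure μ) : ∃ C : ℝ, 0 < C ∧ ∀ f ∈ D.F, ∀ y,
    f y ^ 2 ≤ C * (D.EE f f + ∫ x, f x ^ 2 ∂μ) := by
  obtain ⟨C, hC, h⟩ := D.sup_bound_aux hμ
  refine ⟨C, hC, fun f hf y => ?_⟩
  rw [D.EE_of hf hf]
  exact h (D.ofF ⟨f, hf⟩) y

end Pool.Agent.Helper38.Carpet.FormData
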