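import Mathlib
import Pool.Agent.Helper38.Hilbert

set_option autoImplicit false
open Set Filter Topology MeasureTheory
open scoped ENNReal

/-! The resistance form of a Dirichlet form on the carpet. -/

namespace Pool.Agent.Helper38.Carpet

/-- tent function -/
theorem tent_real (m j : ℕ) (hm : 0 < m) (t : ℝ) :
    let g := min (max (t - (j:ℝ) / m) 0) (1 / (m:ℝ)) -
      2 * min (max (t - (2 * (j:ℝ) + 1) / (2 * m)) 0) (1 / (2 * (m:ℝ)))
    0 ≤ g ∧ g ≤ 1 / (2 * (m:ℝ)) ∧ (t = (2 * (j:ℝ) + 1) / (2 * m) → g = 1 / (2 * (m:ℝ))) ∧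
      (g ≠ 0 → (j:ℝ) / m < t ∧ t < ((j:ℝ) + 1) / m) := by
  have hmr : (0:ℝ) < m := by exact_mod_cast hm
  set a : ℝ := 1 / (2 * (m:ℝ)) with ha
  have ha0 : 0 < a := by positivity
  set b : ℝ := (j:ℝ) / m with hb
  have e1 : 1 / (m:ℝ) = 2 * a := by rw [ha]; field_simp
  have e2 : (2 * (j:ℝ) + 1) / (2 * m) = b + a := by rw [ha, hb]; field_simp
  have e3 : ((j:ℝ) + 1) / m = b + 2 * a := by rw [ha, hb]; field_simp
  rw [e1, e2, e3]
  simp only
  rcases le_total t b with h1 | h1
  · rw [max_eq_right (a := t - b) (by linarith), max_eq_right (a := t - (b + a)) (by linarith),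
      min_eq_left (by linarith), min_eq_left ha0.le]
    refine ⟨by linarith, by linarith, fun h => by linarith, fun h => absurd (by ring) h⟩
  · rw [max_eq_left (a := t - b) (by linarith)]
    rcases le_total t (b + a) with h2 | h2
    · rw [max_eq_right (a := t - (b + a)) (by linarith), min_eq_left (by linarith),
        min_eq_left ha0.le]
      refine ⟨by linarith, by linarith, fun h => by linarith, fun h => ⟨?_, by linarith⟩⟩
      rcases eq_or_lt_of_le h1 with h3 | h3
      · exact absurd (by rw [h3]; ring) h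
      · exact h3
    · rw [max_eq_left (a := t - (b + a)) (by linarith)]
      rcases le_total t (b + 2 * a) with h3 | h3
      · rw [min_eq_left (by linarith), min_eq_left (by linarith)]
        refine ⟨by linarith, by linarith, fun h => by linarith, fun h => ⟨by linarith, ?_⟩⟩
        rcases eq_or_lt_of_le h3 with h4 | h4
        · exact absurd (by rw [h4]; ring) h
        · exact h4
      · rw [min_eq_right (by linarith), min_eq_right (by linarith)]
        refine ⟨by linarith, by linarith, fun h => by linarith, fun h => absurd (by ring) h⟩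

namespace FormData

variable {μ : Measure KK} (D : FormData μ)

/-- resistance estimate, normalised case -/
theorem res_bound_aux (hμ : IsSelfSimilarMeasure μ) : ∃ R : ℝ, 0 ≤ R ∧ ∀ f ∈ D.F, ∀ x y,
    f x = 0 → f y = 1 → 1 ≤ R * D.EE f f := by
  have hprob := isProb hμ
  obtain ⟨C, hC, hsup⟩ := D.sup_bound hμ
  obtain ⟨m, hm⟩ := exists_nat_gt (2 * C)
  have hmr : (0:ℝ) < m := by linarith
  have hm0 : 0 < m := by exact_mod_cast hmr
  let P := D.pre hμ
  refine ⟨80 * C * (m:ℝ) ^ 2, by positivity, fun f hf x y hx hy => ?_⟩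
  set a : ℝ := 1 / (2 * (m:ℝ)) with ha
  have ha0 : 0 < a := by positivity
  -- tents
  let U : ℕ → C(KK, ℝ) := fun j => tr (f - ContinuousMap.const KK ((j:ℝ) / m)) (1 / (m:ℝ))
  let V : ℕ → C(KK, ℝ) := fun j =>
    tr (f - ContinuousMap.const KK ((2 * (j:ℝ) + 1) / (2 * m))) (1 / (2 * (m:ℝ)))
  have shiftE : ∀ t : ℝ, D.EE (f - ContinuousMap.const KK t) (f - ContinuousMap.const KK t) =
      D.EE f f := by
    intro t
    have hc := D.const_mem' t
    have h1 := P.E_sub_self hf hc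
    change D.EE (f - ContinuousMap.const KK t) (f - ContinuousMap.const KK t) =
      D.EE f f - 2 * D.EE f (ContinuousMap.const KK t) +
        D.EE (ContinuousMap.const KK t) (ContinuousMap.const KK t) at h1
    have h2 := P.symm f hf _ hc
    change D.EE f (ContinuousMap.const KK t) = D.EE (ContinuousMap.const KK t) f at h2
    rw [h1, h2, D.E_const' hμ t hf, D.E_const' hμ t hc]
    ring
  have hU : ∀ j, U j ∈ D.F ∧ D.EE (U j) (U j) ≤ D.EE f f := by
    intro j
    have h1 := D.tr_mem hμ (D.F.sub_mem hf (D.const_mem' ((j:ℝ) / m))) (a := 1 / (m:ℝ))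
      (by positivity)
    rw [shiftE] at h1
    exact h1
  have hV : ∀ j, V j ∈ D.F ∧ D.EE (V j) (V j) ≤ D.EE f f := by
    intro j
    have h1 := D.tr_mem hμ (D.F.sub_mem hf (D.const_mem' ((2 * (j:ℝ) + 1) / (2 * m))))
      (a := 1 / (2 * (m:ℝ))) (by positivity)
    rw [shiftE] at h1
    exact h1
  let G : ℕ → C(KK, ℝ) := fun j => U j - (2:ℝ) • V j
  have hGF : ∀ j, G j ∈ D.F := fun j => D.F.sub_mem (hU j).1 (D.F.smul_mem _ (hV j).1)
  have hEf : 0 ≤ D.EE f f := P.nonneg f hf
  have hGE : ∀ j, D.EE (G j) (G j) ≤ 10 * D.EE f f := by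
    intro j
    have m1 := (hU j).1
    have m2 := D.F.smul_mem (2:ℝ) (hV j).1
    have h1 := P.E_sub_self m1 m2
    have h2 := P.nonneg _ (P.F.add_mem m1 m2)
    rw [P.E_add_self m1 m2] at h2
    have h3 := P.smul_left (2:ℝ) _ (hV j).1 _ m2
    have h4 := P.smul_right (2:ℝ) (hV j).1 (hV j).1
    change D.EE (G j) (G j) = D.EE (U j) (U j) - 2 * D.EE (U j) ((2:ℝ) • V j) +
      D.EE ((2:ℝ) • V j) ((2:ℝ) • V j) at h1
    change 0 ≤ D.EE (U j) (U j) + 2 * D.EE (U j) ((2:ℝ) • V j) +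
      D.EE ((2:ℝ) • V j) ((2:ℝ) • V j) at h2
    change D.EE ((2:ℝ) • V j) ((2:ℝ) • V j) = 2 * D.EE (V j) ((2:ℝ) • V j) at h3
    change D.EE (V j) ((2:ℝ) • V j) = 2 * D.EE (V j) (V j) at h4
    rw [h3, h4] at h1 h2
    have h5 := (hU j).2
    have h6 := (hV j).2
    linarith
  have hGap : ∀ j z, G j z = min (max (f z - (j:ℝ) / m) 0) (1 / (m:ℝ)) -
      2 * min (max (f z - (2 * (j:ℝ) + 1) / (2 * m)) 0) (1 / (2 * (m:ℝ))) := fun j z => rfl
  have htent := fun j z => tent_real m j hm0 (f z)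
  simp only at htent
  have ht : ∀ j z, 0 ≤ G j z ∧ G j z ≤ a ∧ (f z = (2 * (j:ℝ) + 1) / (2 * m) → G j z = a) ∧
      (G j z ≠ 0 → (j:ℝ) / m < f z ∧ f z < ((j:ℝ) + 1) / m) := by
    intro j z
    rw [hGap]
    exact htent j z
  -- pointwise bound of the sum of squares
  have hpt : ∀ z, ∑ j ∈ Finset.range m, G j z ^ 2 ≤ a ^ 2 := by
    intro z
    by_cases hex : ∃ j ∈ Finset.range m, G j z ≠ 0
    · obtain ⟨j, hj, hjz⟩ := hex
      rw [Finset.sum_eq_single_of_mem j hj]
      · have h1 := ht j z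
        exact pow_le_pow_left₀ h1.1 h1.2.1 2
      · intro i _ hij
        have : G i z = 0 := by
          by_contra hiz
          obtain ⟨a1, a2⟩ := (ht j z).2.2.2 hjz
          obtain ⟨b1, b2⟩ := (ht i z).2.2.2 hiz
          rcases lt_or_gt_of_ne hij with h | h
          · have : ((i:ℝ) + 1) / m ≤ (j:ℝ) / m := by
              apply div_le_div_of_nonneg_right _ hmr.le
              exact_mod_cast h
            linarith
          · have : ((j:ℝ) + 1) / m ≤ (i:ℝ) / m := by
              apply div_le_div_of_nonneg_right _ hmr.le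
              exact_mod_cast h
            linarith
        rw [this]; ring
    · push Not at hex
      rw [Finset.sum_eq_zero]
      · positivity
      · intro j hj
        rw [hex j hj]; ring
  have hint : ∑ j ∈ Finset.range m, ∫ z, G j z ^ 2 ∂μ ≤ a ^ 2 := by
    rw [← integral_finsetSum _ (fun j _ => integrable_sq (G j))]
    calc ∫ z, ∑ j ∈ Finset.range m, G j z ^ 2 ∂μ ≤ ∫ _z, a ^ 2 ∂μ := by
          apply integral_mono (integrable_finsetSum _ (fun j _ => integrable_sq (G j)))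
            (integrable_const _)
          intro z
          exact hpt z
      _ = a ^ 2 := by simp
  -- lower bounds
  have hK : PreconnectedSpace KK := Subtype.preconnectedSpace K_precon
  have hlow : ∀ j ∈ Finset.range m, a ^ 2 ≤ C * (10 * D.EE f f + ∫ z, G j z ^ 2 ∂μ) := by
    intro j hj
    have hj' : (j:ℝ) + 1 ≤ m := by
      have := Finset.mem_range.mp hj
      exact_mod_cast this
    have hval : (2 * (j:ℝ) + 1) / (2 * m) ∈ Icc (f x) (f y) := by
      rw [hx, hy]
      constructor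
      · positivity
      · rw [div_le_one (by positivity)]
        linarith
    obtain ⟨z, hz⟩ := intermediate_value_univ x y f.continuous hval
    have h1 := (ht j z).2.2.1 hz
    have h2 := hsup (G j) (hGF j) z
    rw [h1] at h2
    have h3 := hGE j
    calc a ^ 2 ≤ C * (D.EE (G j) (G j) + ∫ z, G j z ^ 2 ∂μ) := h2
      _ ≤ _ := by
        apply mul_le_mul_of_nonneg_left _ hC.le
        linarith
  have hsum := Finset.sum_le_sum hlow
  rw [← Finset.mul_sum, Finset.sum_add_distrib, Finset.sum_const, Finset.sum_const,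
    Finset.card_range, nsmul_eq_mul, nsmul_eq_mul] at hsum
  have h1 : (m:ℝ) * a ^ 2 ≤ C * ((m:ℝ) * (10 * D.EE f f) + a ^ 2) := by
    refine hsum.trans ?_
    apply mul_le_mul_of_nonneg_left _ hC.le
    linarith
  have h2 : a * (2 * (m:ℝ)) = 1 := by rw [ha]; field_simp
  have h3 : (m:ℝ) / 2 * a ^ 2 ≤ C * ((m:ℝ) * (10 * D.EE f f)) := by
    have ha2 : 0 < a ^ 2 := by positivity
    nlinarith
  have h4 : a ^ 2 ≤ 20 * C * D.EE f f := by
    have h5 : (m:ℝ) * a ^ 2 ≤ (m:ℝ) * (20 * C * D.EE f f) := by linarith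
    exact le_of_mul_le_mul_left h5 hmr
  calc (1:ℝ) = (a * (2 * (m:ℝ))) ^ 2 := by rw [h2]; ring
    _ = a ^ 2 * (4 * (m:ℝ) ^ 2) := by ring
    _ ≤ (20 * C * D.EE f f) * (4 * (m:ℝ) ^ 2) := mul_le_mul_of_nonneg_right h4 (by positivity)
    _ = _ := by ring

/-- resistance estimate -/
theorem res_bound (hμ : IsSelfSimilarMeasure μ) : ∃ R : ℝ, 0 ≤ R ∧ ∀ f ∈ D.F, ∀ x y,
    (f x - f y) ^ 2 ≤ R * D.EE f f := by
  obtain ⟨R, hR, h⟩ := D.res_bound_aux hμ
  let P := D.pre hμ
  refine ⟨R, hR, fun f hf x y => ?_⟩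
  by_cases hxy : f x = f y
  · rw [hxy, sub_self]
    have h1 : 0 ≤ D.EE f f := P.nonneg f hf
    have := mul_nonneg hR h1
    simpa using this
  · set d : ℝ := f y - f x with hd
    have hd0 : d ≠ 0 := fun h0 => hxy (by linarith)
    set u : C(KK, ℝ) := d⁻¹ • (f - ContinuousMap.const KK (f x)) with hu
    have hcm := D.const_mem' (f x)
    have hsm := D.F.sub_mem hf hcm
    have huF : u ∈ D.F := D.F.smul_mem _ hsm
    have h1 := h u huF x y (by
      change d⁻¹ * (f x - f x) = 0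
      ring) (by
      change d⁻¹ * (f y - f x) = 1
      exact inv_mul_cancel₀ hd0)
    have e1 := P.smul_left d⁻¹ _ hsm _ huF
    have e2 := P.smul_right d⁻¹ hsm hsm
    have e3 := P.E_sub_self hf hcm
    have e4 := P.symm f hf _ hcm
    change D.EE u u = d⁻¹ * D.EE (f - ContinuousMap.const KK (f x)) u at e1
    change D.EE (f - ContinuousMap.const KK (f x)) u =
      d⁻¹ * D.EE (f - ContinuousMap.const KK (f x)) (f - ContinuousMap.const KK (f x)) at e2
    change D.EE (f - ContinuousMap.const KK (f x)) (f - ContinuousMap.const KK (f x)) =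
      D.EE f f - 2 * D.EE f (ContinuousMap.const KK (f x)) +
        D.EE (ContinuousMap.const KK (f x)) (ContinuousMap.const KK (f x)) at e3
    change D.EE f (ContinuousMap.const KK (f x)) = D.EE (ContinuousMap.const KK (f x)) f at e4
    rw [e4, D.E_const' hμ _ hf, D.E_const' hμ _ hcm] at e3
    rw [e1, e2, e3] at h1
    have hd2 : 0 < d ^ 2 := by positivity
    have h2 : d ^ 2 * 1 ≤ d ^ 2 * (R * (d⁻¹ * (d⁻¹ * (D.EE f f - 2 * 0 + 0)))) :=
      mul_le_mul_of_nonneg_left h1 hd2.le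
    calc (f x - f y) ^ 2 = d ^ 2 * 1 := by rw [hd]; ring
      _ ≤ _ := h2
      _ = (d * d⁻¹) ^ 2 * (R * D.EE f f) := by ring
      _ = R * D.EE f f := by rw [mul_inv_cancel₀ hd0]; ring

theorem cutoff' (hμ : IsSelfSimilarMeasure μ) (A B : Set KK) (hA : IsClosed A) (hB : IsClosed B)
    (hAB : Disjoint A B) : ∃ χ ∈ D.F, (∀ x, 0 ≤ χ x ∧ χ x ≤ 1) ∧ (∀ x ∈ A, χ x = 1) ∧
      (∀ x ∈ B, χ x = 0) := by
  obtain ⟨w, hw0, hw1, hw⟩ := exists_continuous_zero_one_of_isClosed hB hA hAB.symm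
  obtain ⟨u, hu, hd⟩ := D.regular.exists_dist_lt w (by norm_num : (0:ℝ) < 1 / 4)
  have hd' : ∀ x, |w x - u x| < 1 / 4 := by
    intro x
    have := (ContinuousMap.dist_lt_iff (by norm_num : (0:ℝ) < 1 / 4)).mp hd x
    rwa [Real.dist_eq] at this
  have hm : (2:ℝ) • (u - ContinuousMap.const KK (1 / 4)) ∈ D.F :=
    D.F.smul_mem _ (D.F.sub_mem hu (D.const_mem' _))
  refine ⟨tr ((2:ℝ) • (u - ContinuousMap.const KK (1 / 4))) 1, (D.tr_mem hμ hm one_pos).1,
    ?_, ?_, ?_⟩
  · intro x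
    rw [tr_apply]
    exact ⟨le_min (le_max_right _ _) zero_le_one, min_le_right _ _⟩
  · intro x hx
    rw [tr_apply]
    change min (max (2 * (u x - 1 / 4)) 0) 1 = 1
    have h1 : w x = 1 := hw1 hx
    have h2 := (abs_lt.mp (hd' x)).2
    rw [h1] at h2
    rw [max_eq_left (by linarith), min_eq_right (by linarith)]
  · intro x hx
    rw [tr_apply]
    change min (max (2 * (u x - 1 / 4)) 0) 1 = 0
    have h1 : w x = 0 := hw0 hx
    have h2 := (abs_lt.mp (hd' x)).1
    rw [h1] at h2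
    rw [max_eq_right (by linarith), min_eq_left zero_le_one]

/-- the resistance form -/
noncomputable def toRes (hμ : IsSelfSimilarMeasure μ) : ResForm KK where
  F := D.F
  E := D.EE
  add_left := (D.pre hμ).add_left
  smul_left := (D.pre hμ).smul_left
  symm := (D.pre hμ).symm
  nonneg := (D.pre hμ).nonneg
  const_mem := D.const_mem'
  E_const := fun a f hf => D.E_const' hμ a hf
  abs_mem := fun f hf => D.abs_mem' hμ hf
  R := (D.res_bound hμ).choose
  R_nonneg := (D.res_bound hμ).choose_spec.1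
  hR := (D.res_bound hμ).choose_spec.2
  closed := (D.pre hμ).closed
  loc := fun f hf g hg h0 => D.loc' hμ hf hg h0
  cutoff := D.cutoff' hμ

end FormData

theorem pullK_zero (f : C(KK, ℝ)) : pullK 0 (0, 0) f = f := by
  rw [pullK_of (by decide)]
  ext z
  rw [ContinuousMap.comp_apply]
  congr 1
  apply Subtype.ext
  change phi 0 (0, 0) z.1 = z.1
  simp [phi]

theorem pullK_succ {n : ℕ} {c d : Z2} (hc : c ∈ cells n) (hd : d ∈ dig) (f : C(KK, ℝ)) :
    pullK (n + 1) (adr 1 c d) f = pullK 1 d (pullK n c f) := by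
  have hd1 : d ∈ cells 1 := by rw [← dig_cells]; exact hd
  rw [pullK_of (cells_comp hc hd1), pullK_of hd1, pullK_of hc]
  ext z
  rw [ContinuousMap.comp_apply, ContinuousMap.comp_apply, ContinuousMap.comp_apply]
  congr 1
  apply Subtype.ext
  exact (phi_comp n 1 c d z.1).symm

theorem sum_cells_succ (n : ℕ) (φ : Z2 → ℝ) :
    ∑ c ∈ cells (n + 1), φ c = ∑ c ∈ cells n, ∑ d ∈ dig, φ (adr 1 c d) := by
  rw [← Finset.sum_product']
  change ∑ c ∈ ((cells n) ×ˢ dig).image (fun p => adr 1 p.1 p.2), φ c = _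
  rw [Finset.sum_image]
  rintro ⟨c, d⟩ hcd ⟨c', d'⟩ hcd' h
  simp only [Finset.coe_product, Set.mem_prod, Finset.mem_coe] at hcd hcd'
  have hd1 : d ∈ cells 1 := by rw [← dig_cells]; exact hcd.2
  have hd1' : d' ∈ cells 1 := by rw [← dig_cells]; exact hcd'.2
  have h2 := comp_inj (k := 1) hd1 hd1' h
  exact Prod.ext h2.1 h2.2

theorem selfSim {μ : Measure KK} (D : FormData μ) (hμ : IsSelfSimilarMeasure μ) :
    SelfSim (D.toRes hμ) D.ρ := by
  have hpsi : ∀ (d : Z2) (hd : d ∈ dig) (f : C(KK, ℝ)), f.comp (psi ⟨d, hd⟩) = pullK 1 d f := by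
    intro d hd f
    rw [pullK_of (by rw [← dig_cells]; exact hd)]
    ext x
    rw [ContinuousMap.comp_apply, ContinuousMap.comp_apply]
    congr 1
    apply Subtype.ext
    simp [psi, embK, phi]
  have hmem1 : ∀ f : C(KK, ℝ), f ∈ D.F ↔ ∀ d ∈ dig, pullK 1 d f ∈ D.F := by
    intro f
    rw [D.ss_mem f]
    constructor
    · intro h d hd
      rw [← hpsi d hd]
      exact h ⟨d, hd⟩
    · intro h d
      rw [hpsi d.1 d.2]
      exact h d.1 d.2
  have hsq : ∀ f ∈ D.F, D.EE f f = D.ρ * ∑ d ∈ dig, D.EE (pullK 1 d f) (pullK 1 d f) := by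
    intro f hf
    rw [D.EE_of hf hf, D.ss_energy ⟨f, hf⟩]
    congr 1
    rw [← Finset.sum_coe_sort dig (fun d => D.EE (pullK 1 d f) (pullK 1 d f))]
    apply Finset.sum_congr rfl
    intro d _
    have hm : f.comp (psi d) ∈ D.F := (D.ss_mem f).mp hf d
    rw [← hpsi d.1 d.2, D.EE_of hm hm]
  have hone : ∀ f ∈ D.F, ∀ g ∈ D.F,
      D.EE f g = D.ρ * ∑ d ∈ dig, D.EE (pullK 1 d f) (pullK 1 d g) := by
    intro f hf g hg
    let P := D.pre hμ
    have h1 := hsq _ (D.F.add_mem hf hg)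
    have h2 := P.E_add_self hf hg
    change D.EE (f + g) (f + g) = D.EE f f + 2 * D.EE f g + D.EE g g at h2
    have h3 : ∀ d ∈ dig, D.EE (pullK 1 d (f + g)) (pullK 1 d (f + g)) =
        D.EE (pullK 1 d f) (pullK 1 d f) + 2 * D.EE (pullK 1 d f) (pullK 1 d g) +
          D.EE (pullK 1 d g) (pullK 1 d g) := by
      intro d hd
      rw [pullK_add]
      exact P.E_add_self ((hmem1 f).mp hf d hd) ((hmem1 g).mp hg d hd)
    rw [h2, Finset.sum_congr rfl h3, Finset.sum_add_distrib, Finset.sum_add_distrib,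
      ← Finset.mul_sum] at h1
    have h4 := hsq f hf
    have h5 := hsq g hg
    linarith
  constructor
  · exact D.ρ_pos
  · intro n
    change ∀ f : C(KK, ℝ), f ∈ D.F ↔ ∀ c ∈ cells n, pullK n c f ∈ D.F
    induction n with
    | zero =>
      intro f
      constructor
      · intro hf c hc
        rw [mem_cells_zero] at hc
        rw [hc, pullK_zero]
        exact hf
      · intro h
        have := h (0, 0) (by decide)
        rwa [pullK_zero] at this
    | succ n ih =>
      intro f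
      rw [ih f]
      constructor
      · intro h c hc
        rw [mem_cells_succ'] at hc
        obtain ⟨c', hc', d, hd, rfl⟩ := hc
        rw [pullK_succ hc' hd]
        exact (hmem1 _).mp (h c' hc') d hd
      · intro h c hc
        rw [hmem1]
        intro d hd
        rw [← pullK_succ hc hd]
        apply h
        rw [mem_cells_succ']
        exact ⟨c, hc, d, hd, rfl⟩
  · intro n
    change ∀ f ∈ D.F, ∀ g ∈ D.F, D.EE f g = D.ρ ^ n * ∑ c ∈ cells n,
      D.EE (pullK n c f) (pullK n c g)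
    have hmemn : ∀ n, ∀ f ∈ D.F, ∀ c ∈ cells n, pullK n c f ∈ D.F := by
      intro n
      induction n with
      | zero =>
        intro f hf c hc
        rw [mem_cells_zero] at hc
        rw [hc, pullK_zero]
        exact hf
      | succ n ih =>
        intro f hf c hc
        rw [mem_cells_succ'] at hc
        obtain ⟨c', hc', d, hd, rfl⟩ := hc
        rw [pullK_succ hc' hd]
        exact (hmem1 _).mp (ih f hf c' hc') d hd
    induction n with
    | zero =>
      intro f _ g _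
      have : cells 0 = {(0, 0)} := rfl
      rw [this, Finset.sum_singleton, pullK_zero, pullK_zero, pow_zero, one_mul]
    | succ n ih =>
      intro f hf g hg
      rw [ih f hf g hg, sum_cells_succ, pow_succ, mul_assoc, Finset.mul_sum _ _ D.ρ]
      congr 1
      apply Finset.sum_congr rfl
      intro c hc
      rw [hone _ (hmemn n f hf c hc) _ (hmemn n g hg c hc)]
      congr 1
      apply Finset.sum_congr rfl
      intro d hd
      rw [pullK_succ hc hd, pullK_succ hc hd]

/-- **dipole potentials** have energy measures with full support -/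
theorem dipole_full {μ : Measure KK} (hμ : IsSelfSimilarMeasure μ) (D0 : CarpetForm μ)
    {p q : KK} (hpq : p ≠ q) : ∃ h ∈ D0.F, (∀ g ∈ D0.F, D0.E h g = g p - g q) ∧
      (∃ ν, D0.IsEnergyMeasure h ν) ∧
      ∀ ν, D0.IsEnergyMeasure h ν → ∀ U : Set KK, IsOpen U → U.Nonempty → 0 < ν U := by
  let D : FormData μ := D0.flat
  let 𝓔 := D.toRes hμ
  have hS : SelfSim 𝓔 D.ρ := selfSim D hμ
  set h : C(KK, ℝ) := 𝓔.Gp q p with hh
  have hF : h ∈ D.F := 𝓔.Gp_mem q p
  have hE : ∀ φ ∈ 𝓔.F, 𝓔.E h φ = φ p - φ q := fun φ hφ => 𝓔.Gp_E q p hφ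
  have hEE : ∀ f ∈ D0.F, ∀ g ∈ D0.F, 𝓔.E f g = D0.E f g := fun f hf g hg => D.EE_of hf hg
  have hGam : ∀ g ∈ D0.F, h * g ∈ D0.F ∧ h * h ∈ D0.F ∧
      𝓔.Gam h g = 2 * D0.E h (h * g) - D0.E (h * h) g := by
    intro g hg
    have h1 : h * g ∈ D0.F := 𝓔.mul_mem hF hg
    have h2 : h * h ∈ D0.F := 𝓔.mul_mem hF hF
    refine ⟨h1, h2, ?_⟩
    change 2 * 𝓔.E h (h * g) - 𝓔.E (h * h) g = _
    rw [hEE h hF _ h1, hEE _ h2 g hg]
  refine ⟨h, hF, ?_, ?_, ?_⟩
  · intro g hg
    rw [← hEE h hF g hg]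
    exact hE g hg
  · obtain ⟨ν, hν, hνE⟩ := exists_energy 𝓔 hS hF
    refine ⟨ν, hν, 𝓔.mul_mem hF hF, fun g hg => ?_⟩
    obtain ⟨h1, h2, h3⟩ := hGam g hg
    refine ⟨h1, ?_⟩
    rw [← h3]
    exact hνE g hg
  · rintro ν ⟨hνf, hν2, hνE⟩ U hU hne
    refine full_support 𝓔 hS hF ?_ ν ?_ U hU hne
    · intro n c hc t hflat
      exact dipole_not_flat 𝓔 hS hpq hF hE hc t hflat
    · intro g hg
      obtain ⟨h1, h2, h3⟩ := hGam g hg
      rw [h3]
      exact (hνE g hg).2

end Pool.Agent.Helper38.Carpet
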